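import Pool.Agent.H2.XY.GC

/-!
# BXC: two facts about the unpinned bilayer box

`H₀ θ = β (hXY E (θ true) + hXY E (θ false))` on `Bool → V → Cir`.
* `bxc_coh`: `1 - cos(φ_u - φ_v) ≤ 2 (1 - cos(θ⁺_u - θ⁺_v)) + 2 (1 - cos(θ⁻_u - θ⁻_v))`
  (`one_sub_cosC_sub_le`, `φ_u - φ_v = (θ⁺_u - θ⁺_v) - (θ⁻_u - θ⁻_v)`).  For one layer `b`:
  `gE H₀ (cos(θ b u - θ b v)) ≥ gE (β hXY E (θ b)) (cos(θ b u - θ b v))` by `gin_mono` (the other layer
  is a function in the cone), and the right side equals the one-layer expectation by `gE_comp` with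
  the evaluation homomorphism `θ ↦ θ b` (surjective).
* `bxc_unif`: for continuous `f : Cir → ℝ`: `gE H₀ (f ∘ φ_u) = ∫ f dHaar`.  `H₀` is invariant under
  adding the constant `α` to layer `true` (`integral_add_const` with the element
  `fun b _ => if b then α else 0`), which maps `φ_u` to `φ_u + α`; so
  `gE H₀ (f(φ_u)) = gE H₀ (f(φ_u + α))` for all `α`; integrate over `α` (Fubini,
  `integral_integral_swap`) and use `∫ f(x + α) dα = ∫ f`.
-/

open MeasureTheory Set

noncomputable section

namespace XYB

variable {V : Type} [Fintype V]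

/-- evaluation of a layer -/
def bxc_ev (b : Bool) : (Bool → V → Cir) →+ (V → Cir) where
  toFun θ := θ b
  map_zero' := rfl
  map_add' _ _ := rfl

/-- difference of two angles -/
def bxc_df (u v : V) : (V → Cir) →+ Cir where
  toFun θ := θ u - θ v
  map_zero' := by simp
  map_add' x y := by simp only [Pi.add_apply]; abel

lemma bxc_ev_cont (b : Bool) : Continuous (bxc_ev (V := V) b) := continuous_apply b

lemma bxc_ev2_cont (b : Bool) (u : V) : Continuous (fun θ : Bool → V → Cir => θ b u) :=
  continuous_apply_apply b u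

lemma bxc_ev_surj (b : Bool) : Function.Surjective (bxc_ev (V := V) b) := fun θ => ⟨fun _ => θ, rfl⟩

lemma bxc_df_cont (u v : V) : Continuous (bxc_df u v) :=
  (continuous_apply u).sub (continuous_apply v)

lemma bxc_cont_hXY (E : Finset (V × V)) : Continuous (hXY E) := by
  unfold hXY
  refine continuous_finsetSum _ fun e _ => ?_
  exact continuous_cosC.comp ((continuous_apply _).sub (continuous_apply _))

lemma bxc_gin_layer (E : Finset (V × V)) {β : ℝ} (hβ : 0 ≤ β) (b : Bool) :
    Gin (fun θ : Bool → V → Cir => β * hXY E (θ b)) := by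
  refine Gin.smul hβ ?_
  unfold hXY
  refine Gin.sum E fun e _ => ?_
  exact Gin.cos ((bxc_df e.2 e.1).comp (bxc_ev b)) ((bxc_df_cont _ _).comp (bxc_ev_cont b))

lemma bxc_one (E : Finset (V × V)) {β : ℝ} (hβ : 0 ≤ β) (b : Bool) (u v : V) :
    gE (fun θ : V → Cir => β * hXY E θ) (fun θ => cosC (θ u - θ v)) ≤
      gE (fun θ : Bool → V → Cir => β * (hXY E (θ true) + hXY E (θ false)))
        (fun θ => cosC (θ b u - θ b v)) := by
  have hF : Gin (fun θ : Bool → V → Cir => cosC (θ b u - θ b v)) :=
    Gin.cos ((bxc_df u v).comp (bxc_ev b)) ((bxc_df_cont _ _).comp (bxc_ev_cont b))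
  have h1 := gin_mono (pi_div (pi_div cir_div)) hF (bxc_gin_layer E hβ b) (bxc_gin_layer E hβ (!b))
  have h2 := gE_comp (bxc_ev (V := V) b) (bxc_ev_cont b) (bxc_ev_surj b)
    (fun θ : V → Cir => β * hXY E θ) (fun θ => cosC (θ u - θ v))
    (continuous_const.mul (bxc_cont_hXY E))
    (continuous_cosC.comp ((continuous_apply _).sub (continuous_apply _)))
  rw [← h2]
  refine h1.trans (le_of_eq ?_)
  congr 1
  funext θ
  cases b
  · simp only [Bool.not_false]
    ring
  · simp only [Bool.not_true]
    ring

lemma bxc_cont_H0 (E : Finset (V × V)) (β : ℝ) :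
    Continuous (fun θ : Bool → V → Cir => β * (hXY E (θ true) + hXY E (θ false))) :=
  continuous_const.mul (((bxc_cont_hXY E).comp (continuous_apply true)).add
    ((bxc_cont_hXY E).comp (continuous_apply false)))

theorem bxc_coh (E : Finset (V × V)) (β : ℝ) (hβ : 0 ≤ β) (η : ℝ) (u v : V)
    (h : 1 - gE (fun θ : V → Cir => β * hXY E θ) (fun θ => cosC (θ u - θ v)) ≤ η) :
    gE (fun θ : Bool → V → Cir => β * (hXY E (θ true) + hXY E (θ false)))
      (fun θ => 1 - cosC (ph θ u - ph θ v)) ≤ 4 * η := by
  have hc := bxc_cont_H0 E β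
  have hP := isProb_gM _ hc
  have ht := bxc_one E hβ true u v
  have hf := bxc_one E hβ false u v
  rw [gE_eq (fun θ : Bool → V → Cir => β * (hXY E (θ true) + hXY E (θ false)))] at ht hf ⊢
  set μ := gM (fun θ : Bool → V → Cir => β * (hXY E (θ true) + hXY E (θ false))) with hμ
  have hint : ∀ F : (Bool → V → Cir) → ℝ, Continuous F → Integrable F μ := by
    intro F hF
    exact hF.integrable_of_hasCompactSupport (HasCompactSupport.of_compactSpace F)
  have ccb : ∀ b : Bool, Continuous (fun θ : Bool → V → Cir => cosC (θ b u - θ b v)) := fun b =>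
    continuous_cosC.comp ((bxc_ev2_cont b u).sub (bxc_ev2_cont b v))
  have cph : ∀ w : V, Continuous (fun θ : Bool → V → Cir => ph θ w) := fun w =>
    (bxc_ev2_cont true w).sub (bxc_ev2_cont false w)
  have cph2 : Continuous (fun θ : Bool → V → Cir => 1 - cosC (ph θ u - ph θ v)) :=
    continuous_const.sub (continuous_cosC.comp ((cph u).sub (cph v)))
  have cr : Continuous (fun θ : Bool → V → Cir =>
      2 * (1 - cosC (θ true u - θ true v)) + 2 * (1 - cosC (θ false u - θ false v))) :=
    (continuous_const.mul (continuous_const.sub (ccb true))).add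
      (continuous_const.mul (continuous_const.sub (ccb false)))
  have h1 : ∫ θ, (1 - cosC (ph θ u - ph θ v)) ∂μ ≤
      ∫ θ : Bool → V → Cir, (2 * (1 - cosC (θ true u - θ true v)) +
        2 * (1 - cosC (θ false u - θ false v))) ∂μ := by
    refine integral_mono (hint _ cph2) (hint _ cr) fun θ => ?_
    have h2 := one_sub_cosC_sub_le (θ true u - θ true v) (θ false u - θ false v)
    have h3 : ph θ u - ph θ v = (θ true u - θ true v) - (θ false u - θ false v) := by
      unfold ph
      abel
    show 1 - cosC (ph θ u - ph θ v) ≤ _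
    rw [h3]
    exact h2
  have h4 : ∫ θ : Bool → V → Cir, (2 * (1 - cosC (θ true u - θ true v)) +
        2 * (1 - cosC (θ false u - θ false v))) ∂μ =
      2 * (1 - ∫ θ : Bool → V → Cir, cosC (θ true u - θ true v) ∂μ) +
        2 * (1 - ∫ θ : Bool → V → Cir, cosC (θ false u - θ false v) ∂μ) := by
    rw [integral_add, integral_const_mul, integral_const_mul, integral_sub, integral_sub]
    · simp
    · exact integrable_const _
    · exact hint _ (ccb false)
    · exact integrable_const _
    · exact hint _ (ccb true)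
    · exact hint _ (continuous_const.mul (continuous_const.sub (ccb true)))
    · exact hint _ (continuous_const.mul (continuous_const.sub (ccb false)))
  rw [h4] at h1
  linarith

theorem bxc_unif (E : Finset (V × V)) (β : ℝ) (u : V) (f : Cir → ℝ) (hf : Continuous f) :
    gE (fun θ : Bool → V → Cir => β * (hXY E (θ true) + hXY E (θ false))) (fun θ => f (ph θ u)) =
      ∫ t, f t ∂haarP Cir := by
  have hc := bxc_cont_H0 E β
  set H : (Bool → V → Cir) → ℝ := fun θ => β * (hXY E (θ true) + hXY E (θ false)) with hH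
  have cph : Continuous (fun θ : Bool → V → Cir => ph θ u) :=
    (bxc_ev2_cont true u).sub (bxc_ev2_cont false u)
  have hZ := integral_exp_pos H hc
  unfold gE
  rw [div_eq_iff hZ.ne']
  have hshift : ∀ α : Cir, ∫ θ, f (ph θ u + α) * Real.exp (H θ) ∂haarP (Bool → V → Cir) =
      ∫ θ, f (ph θ u) * Real.exp (H θ) ∂haarP (Bool → V → Cir) := by
    intro α
    rw [← integral_add_const (fun θ => f (ph θ u) * Real.exp (H θ))
      (fun (b : Bool) (_ : V) => if b then α else 0)]
    congr 1
    funext θ
    have e1 : ph (θ + fun (b : Bool) (_ : V) => if b then α else 0) u = ph θ u + α := by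
      unfold ph
      simp only [Pi.add_apply, if_true, Bool.false_eq_true, if_false, add_zero]
      abel
    have e2 : H (θ + fun (b : Bool) (_ : V) => if b then α else 0) = H θ := by
      rw [hH]
      simp only [hXY, Pi.add_apply, if_true, Bool.false_eq_true, if_false, add_zero,
        add_sub_add_right_eq_sub]
    rw [e1, e2]
  have hint : Integrable (Function.uncurry fun (α : Cir) (θ : Bool → V → Cir) =>
      f (ph θ u + α) * Real.exp (H θ)) ((haarP Cir).prod (haarP (Bool → V → Cir))) := by
    rw [← haarP_prod]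
    refine integrable_cont _ ?_
    have : Continuous fun q : Cir × (Bool → V → Cir) => f (ph q.2 u + q.1) * Real.exp (H q.2) :=
      (hf.comp ((cph.comp continuous_snd).add continuous_fst)).mul
        (Real.continuous_exp.comp (hc.comp continuous_snd))
    exact this
  have h1 : ∫ α : Cir, ∫ θ, f (ph θ u + α) * Real.exp (H θ) ∂haarP (Bool → V → Cir) ∂haarP Cir =
      ∫ θ, f (ph θ u) * Real.exp (H θ) ∂haarP (Bool → V → Cir) := by
    simp only [hshift]
    rw [integral_const]
    simp
  rw [← h1, integral_integral_swap hint]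
  have h2 : ∀ θ : Bool → V → Cir, ∫ α : Cir, f (ph θ u + α) * Real.exp (H θ) ∂haarP Cir =
      (∫ t, f t ∂haarP Cir) * Real.exp (H θ) := by
    intro θ
    rw [integral_mul_const]
    congr 1
    rw [← integral_add_const f (ph θ u)]
    congr 1
    funext α
    rw [add_comm]
  simp only [h2]
  rw [integral_const_mul]

end XYB
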