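import Pool.Agent.H2.XY.BXP
import Pool.Agent.H2.XY.BXC

/-!
# BOX: the pinned bilayer box

Proof.  Write `P₀ = gM H₀` (unpinned), `ν = gM (hBox β K E)`; `ν` is `P₀` tilted by `K X`,
`X = avg_v cos 2φ_v` (`|X| ≤ 1`): `ν(A) = ∫_A e^{KX} dP₀ / ∫ e^{KX} dP₀`.
Put `τ = 1 - κ²`, apply `bxp` with `τ`, `ε` to get `K`, `δ`, then choose `η > 0` with
`2 √(8 η) ≤ δ` and `e^{2K} 4 η ≤ ε`.
(a) `|cos φ_u| < κ` iff `Y := cos 2φ_u = 2 cos² φ_u - 1 < 2κ² - 1 = 1 - 2τ` (`κ ≥ 0`).
`|cos 2a - cos 2b| = 2 |sin (a+b) sin (a-b)| ≤ 2 |sin (a-b)|` and `sin² = 1 - cos² ≤ 2 (1 - cos)`, so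
`E₀ |X - Y| ≤ avg_v E₀ |cos 2φ_v - cos 2φ_u| ≤ avg_v 2 √(E₀ 2 (1 - cos (φ_v - φ_u))) ≤ 2 √(8η) ≤ δ`
(`bxc_coh`, Cauchy–Schwarz / `E|Z| ≤ √(E Z²)`), and `E₀ e^{KY} = ∫ e^{K cos 2t} dHaar(t) = I0 K`
(`bxc_unif`; `t ↦ t + t` is a surjective homomorphism of `Cir`, `integral_comp_surj`).
So `bxp` gives `ν(|cos φ_u| < κ) ≤ ε`.
(b) `ν(cos (φ_u - φ_v) ≤ 0) ≤ e^{2K} P₀(cos (φ_u - φ_v) ≤ 0) ≤ e^{2K} E₀ (1 - cos (φ_u - φ_v))
   ≤ e^{2K} 4 η ≤ ε`.
-/

open MeasureTheory Set

noncomputable section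

namespace XYB

lemma BOX_tilt {X : Type*} [AddCommGroup X] [TopologicalSpace X] [IsTopologicalAddGroup X]
    [CompactSpace X] [MeasurableSpace X] [BorelSpace X] [SecondCountableTopology X]
    (H G : X → ℝ) (hH : Continuous H) {A : Set X} (hA : MeasurableSet A) :
    (gM (fun x => H x + G x)).real A =
      (∫ x in A, Real.exp (G x) ∂(gM H)) / ∫ x, Real.exp (G x) ∂(gM H) := by
  have hZ := integral_exp_pos H hH
  have h1 : ∫ x in A, Real.exp (G x) ∂(gM H) =
      (∫ x in A, Real.exp (H x + G x) ∂haarP X) / ∫ x, Real.exp (H x) ∂haarP X := by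
    rw [← integral_indicator hA, ← gE_eq]
    unfold gE
    congr 1
    rw [← integral_indicator hA]
    congr 1
    ext x
    by_cases hx : x ∈ A
    · simp [hx, Real.exp_add, mul_comm]
    · simp [hx]
  have h2 : ∫ x, Real.exp (G x) ∂(gM H) =
      (∫ x, Real.exp (H x + G x) ∂haarP X) / ∫ x, Real.exp (H x) ∂haarP X := by
    rw [← gE_eq]
    unfold gE
    congr 1
    congr 1
    ext x
    rw [Real.exp_add, mul_comm]
  rw [gM_real _ hA, h1, h2, div_div_div_cancel_right₀ hZ.ne']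

lemma BOX_pt (a b : Cir) {s : ℝ} (hs : 0 < s) :
    |cosC (a + a) - cosC (b + b)| ≤ s + 8 / s * (1 - cosC (a - b)) := by
  rw [cosC_two, cosC_two, cosC_sub]
  have ha := cosC_sq_add_sinC_sq a
  have hb := cosC_sq_add_sinC_sq b
  have h1 : |cosC a + cosC b| ≤ 2 := abs_le.2
    ⟨by linarith [neg_one_le_cosC a, neg_one_le_cosC b], by linarith [cosC_le_one a, cosC_le_one b]⟩
  have h2 : (cosC a - cosC b) ^ 2 ≤ 2 * (1 - (cosC a * cosC b + sinC a * sinC b)) := by
    nlinarith [sq_nonneg (sinC a - sinC b)]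
  have h3 : |2 * cosC a ^ 2 - 1 - (2 * cosC b ^ 2 - 1)| =
      2 * |cosC a - cosC b| * |cosC a + cosC b| := by
    rw [show 2 * cosC a ^ 2 - 1 - (2 * cosC b ^ 2 - 1) =
      2 * ((cosC a - cosC b) * (cosC a + cosC b)) by ring, abs_mul, abs_mul, abs_two]
    ring
  rw [h3]
  have h4 : 2 * |cosC a - cosC b| * |cosC a + cosC b| ≤ 4 * |cosC a - cosC b| := by
    nlinarith [abs_nonneg (cosC a - cosC b)]
  have h5 : 4 * |cosC a - cosC b| ≤ s + 4 / s * (cosC a - cosC b) ^ 2 := by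
    rw [← sq_abs (cosC a - cosC b)]
    have h6 : 0 ≤ (s - 2 * |cosC a - cosC b|) ^ 2 / s := by positivity
    have h7 : (s - 2 * |cosC a - cosC b|) ^ 2 / s =
        s - 4 * |cosC a - cosC b| + 4 / s * |cosC a - cosC b| ^ 2 := by
      field_simp
      ring
    linarith
  have h8 : 4 / s * (cosC a - cosC b) ^ 2 ≤
      4 / s * (2 * (1 - (cosC a * cosC b + sinC a * sinC b))) :=
    mul_le_mul_of_nonneg_left h2 (by positivity)
  have h9 : 4 / s * (2 * (1 - (cosC a * cosC b + sinC a * sinC b))) =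
      8 / s * (1 - (cosC a * cosC b + sinC a * sinC b)) := by ring
  linarith

lemma BOX_ph {V : Type} (v : V) : Continuous (fun θ : Bool → V → Cir => ph θ v) := by
  unfold ph
  fun_prop

lemma BOX_hXY {V : Type} (E : Finset (V × V)) : Continuous (fun θ : V → Cir => hXY E θ) := by
  unfold hXY
  refine continuous_finsetSum _ fun e _ => continuous_cosC.comp ?_
  fun_prop

lemma BOX_H {V : Type} (E : Finset (V × V)) (β : ℝ) :
    Continuous (fun θ : Bool → V → Cir => β * (hXY E (θ true) + hXY E (θ false))) := by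
  refine continuous_const.mul (((BOX_hXY E).comp ?_).add ((BOX_hXY E).comp ?_))
  · exact continuous_apply true
  · exact continuous_apply false

/-- the average of the cosines -/
def BOX_X {V : Type} [Fintype V] (θ : Bool → V → Cir) : ℝ :=
  (∑ v, cosC (ph θ v + ph θ v)) / (Fintype.card V : ℝ)

lemma BOX_X_cont {V : Type} [Fintype V] : Continuous (BOX_X (V := V)) := by
  unfold BOX_X
  refine (continuous_finsetSum _ fun v _ => continuous_cosC.comp ?_).div_const _
  exact (BOX_ph v).add (BOX_ph v)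

lemma BOX_X_abs {V : Type} [Fintype V] (θ : Bool → V → Cir) : |BOX_X θ| ≤ 1 := by
  unfold BOX_X
  rw [abs_div, Nat.abs_cast]
  refine div_le_one_of_le₀ ?_ (Nat.cast_nonneg _)
  refine (Finset.abs_sum_le_sum_abs _ _).trans ?_
  refine (Finset.sum_le_sum fun v _ => abs_cosC_le_one _).trans ?_
  simp

lemma BOX_XY {V : Type} [Fintype V] (θ : Bool → V → Cir) (u : V) {s : ℝ} (hs : 0 < s) :
    |BOX_X θ - cosC (ph θ u + ph θ u)| ≤
      s + 8 / s * ((∑ v, (1 - cosC (ph θ v - ph θ u))) / (Fintype.card V : ℝ)) := by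
  have : Nonempty V := ⟨u⟩
  have hc : (0:ℝ) < (Fintype.card V : ℝ) := by exact_mod_cast Fintype.card_pos
  have h1 : BOX_X θ - cosC (ph θ u + ph θ u) =
      (∑ v, (cosC (ph θ v + ph θ v) - cosC (ph θ u + ph θ u))) / (Fintype.card V : ℝ) := by
    unfold BOX_X
    rw [Finset.sum_sub_distrib, Finset.sum_const, Finset.card_univ, nsmul_eq_mul]
    field_simp
  rw [h1, abs_div, abs_of_pos hc, div_le_iff₀ hc]
  have h2 : (s + 8 / s * ((∑ v, (1 - cosC (ph θ v - ph θ u))) / (Fintype.card V : ℝ))) *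
      (Fintype.card V : ℝ) = ∑ v, (s + 8 / s * (1 - cosC (ph θ v - ph θ u))) := by
    rw [Finset.sum_add_distrib, Finset.sum_const, Finset.card_univ, nsmul_eq_mul, ← Finset.mul_sum]
    field_simp
  rw [h2]
  refine (Finset.abs_sum_le_sum_abs _ _).trans (Finset.sum_le_sum fun v _ => ?_)
  exact BOX_pt _ _ hs

theorem box_lemma (κ : ℝ) (hκ0 : 0 < κ) (hκ1 : κ < 1) (ε : ℝ) (hε : 0 < ε) :
    ∃ K : ℝ, 0 < K ∧ ∃ η : ℝ, 0 < η ∧ ∀ (V : Type) [Fintype V] (E : Finset (V × V)) (β : ℝ), 0 ≤ β →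
      (∀ u v : V, 1 - gE (fun θ : V → Cir => β * hXY E θ) (fun θ => cosC (θ u - θ v)) ≤ η) →
      (∀ u : V, (gM (hBox β K E)).real {θ : Bool → V → Cir | |cosC (ph θ u)| < κ} ≤ ε) ∧
      (∀ u v : V,
        (gM (hBox β K E)).real {θ : Bool → V → Cir | cosC (ph θ u - ph θ v) ≤ 0} ≤ ε) := by
  have hτ : 0 < 1 - κ ^ 2 := by nlinarith
  have hτ1 : 1 - κ ^ 2 < 1 := by nlinarith
  obtain ⟨K, hK, δ, hδ, hbx⟩ := bxp (1 - κ ^ 2) hτ hτ1 ε hε
  have hη1 : 0 < δ ^ 2 / 128 := by positivity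
  have hη2 : 0 < ε / (4 * Real.exp (2 * K)) := by positivity
  refine ⟨K, hK, min (δ ^ 2 / 128) (ε / (4 * Real.exp (2 * K))), lt_min hη1 hη2, ?_⟩
  intro V _ E β hβ hcoh
  obtain ⟨η, hη⟩ : ∃ η, η = min (δ ^ 2 / 128) (ε / (4 * Real.exp (2 * K))) := ⟨_, rfl⟩
  rw [← hη] at hcoh
  have hηa : η ≤ δ ^ 2 / 128 := by rw [hη]; exact min_le_left _ _
  have hηb : η ≤ ε / (4 * Real.exp (2 * K)) := by rw [hη]; exact min_le_right _ _
  obtain ⟨H₀, hH₀⟩ : ∃ H₀ : (Bool → V → Cir) → ℝ,
    H₀ = fun θ => β * (hXY E (θ true) + hXY E (θ false)) := ⟨_, rfl⟩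
  have hH₀c : Continuous H₀ := by rw [hH₀]; exact BOX_H E β
  have hP : IsProbabilityMeasure (gM H₀) := isProb_gM H₀ hH₀c
  have hint : ∀ f : (Bool → V → Cir) → ℝ, Continuous f → Integrable f (gM H₀) := fun f hf =>
    hf.integrable_of_hasCompactSupport (HasCompactSupport.of_compactSpace f)
  have hcoh2 : ∀ u v : V, ∫ θ, (1 - cosC (ph θ u - ph θ v)) ∂(gM H₀) ≤ 4 * η := by
    intro u v
    rw [← gE_eq, hH₀]
    exact bxc_coh E β hβ η u v (hcoh u v)
  have hbox : hBox β K E = fun θ => H₀ θ + K * BOX_X θ := by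
    rw [hH₀]
    rfl
  have hcphi : ∀ u v : V, Continuous (fun θ : Bool → V → Cir => 1 - cosC (ph θ u - ph θ v)) :=
    fun u v => continuous_const.sub (continuous_cosC.comp ((BOX_ph u).sub (BOX_ph v)))
  have hEc : Continuous (fun θ : Bool → V → Cir => Real.exp (K * BOX_X θ)) :=
    Real.continuous_exp.comp (continuous_const.mul BOX_X_cont)
  have hElow : Real.exp (-K) ≤ ∫ θ, Real.exp (K * BOX_X θ) ∂(gM H₀) := by
    have h1 : ∫ _θ : Bool → V → Cir, Real.exp (-K) ∂(gM H₀) ≤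
        ∫ θ, Real.exp (K * BOX_X θ) ∂(gM H₀) := by
      refine integral_mono (integrable_const _) (hint _ hEc) fun θ => ?_
      refine Real.exp_le_exp.2 ?_
      have := (abs_le.1 (BOX_X_abs θ)).1
      nlinarith
    simpa using h1
  have hEpos : 0 < ∫ θ, Real.exp (K * BOX_X θ) ∂(gM H₀) := (Real.exp_pos _).trans_le hElow
  constructor
  · intro u
    have hYc : Continuous (fun θ : Bool → V → Cir => cosC (ph θ u + ph θ u)) :=
      continuous_cosC.comp ((BOX_ph u).add (BOX_ph u))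
    have hset : {θ : Bool → V → Cir | |cosC (ph θ u)| < κ} =
        {θ | cosC (ph θ u + ph θ u) < 1 - 2 * (1 - κ ^ 2)} := by
      ext θ
      simp only [mem_ofPred_eq]
      rw [cosC_two]
      have h1 : |cosC (ph θ u)| < κ ↔ cosC (ph θ u) ^ 2 < κ ^ 2 := by
        rw [sq_lt_sq, abs_of_pos hκ0]
      rw [h1]
      constructor <;> intro h <;> linarith
    have hA : MeasurableSet {θ : Bool → V → Cir | cosC (ph θ u + ph θ u) < 1 - 2 * (1 - κ ^ 2)} :=
      (isOpen_lt hYc continuous_const).measurableSet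
    have hXY1 : ∫ θ, |BOX_X θ - cosC (ph θ u + ph θ u)| ∂(gM H₀) ≤ δ := by
      have hs : 0 < δ / 2 := by positivity
      have : Nonempty V := ⟨u⟩
      have hc : (0:ℝ) < (Fintype.card V : ℝ) := by exact_mod_cast Fintype.card_pos
      have hsumc : Continuous (fun θ : Bool → V → Cir =>
          (∑ v, (1 - cosC (ph θ v - ph θ u))) / (Fintype.card V : ℝ)) :=
        (continuous_finsetSum _ fun v _ => hcphi v u).div_const _
      have h1 : ∫ θ, |BOX_X θ - cosC (ph θ u + ph θ u)| ∂(gM H₀) ≤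
          ∫ θ, (δ / 2 + 8 / (δ / 2) *
            ((∑ v, (1 - cosC (ph θ v - ph θ u))) / (Fintype.card V : ℝ))) ∂(gM H₀) := by
        refine integral_mono (hint _ (BOX_X_cont.sub hYc).abs)
          (hint _ (continuous_const.add (continuous_const.mul hsumc))) fun θ => ?_
        exact BOX_XY θ u hs
      have h2 : ∫ θ, (δ / 2 + 8 / (δ / 2) *
            ((∑ v, (1 - cosC (ph θ v - ph θ u))) / (Fintype.card V : ℝ))) ∂(gM H₀) =
          δ / 2 + 8 / (δ / 2) *
            ((∑ v, ∫ θ, (1 - cosC (ph θ v - ph θ u)) ∂(gM H₀)) / (Fintype.card V : ℝ)) := by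
        have hi : Integrable (fun θ : Bool → V → Cir => 8 / (δ / 2) *
            ((∑ v, (1 - cosC (ph θ v - ph θ u))) / (Fintype.card V : ℝ))) (gM H₀) :=
          hint _ (continuous_const.mul hsumc)
        have hj : ∫ θ : Bool → V → Cir, (∑ v, (1 - cosC (ph θ v - ph θ u))) /
            (Fintype.card V : ℝ) ∂(gM H₀) =
            (∑ v, ∫ θ, (1 - cosC (ph θ v - ph θ u)) ∂(gM H₀)) / (Fintype.card V : ℝ) := by
          rw [integral_div, integral_finsetSum _ fun v _ => hint _ (hcphi v u)]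
        rw [integral_add (integrable_const _) hi, integral_const_mul, hj]
        simp
      have h3 : (∑ v, ∫ θ, (1 - cosC (ph θ v - ph θ u)) ∂(gM H₀)) / (Fintype.card V : ℝ) ≤
          4 * η := by
        rw [div_le_iff₀ hc]
        refine (Finset.sum_le_sum fun v _ => hcoh2 v u).trans ?_
        rw [Finset.sum_const, Finset.card_univ, nsmul_eq_mul, mul_comm]
      have h4 : 8 / (δ / 2) * (4 * η) ≤ δ / 2 := by
        have h5 : 8 / (δ / 2) * (4 * η) = 64 * η / δ := by field_simp; ring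
        rw [h5, div_le_iff₀ hδ]
        nlinarith
      have h6 : 8 / (δ / 2) * ((∑ v, ∫ θ, (1 - cosC (ph θ v - ph θ u)) ∂(gM H₀)) /
          (Fintype.card V : ℝ)) ≤ 8 / (δ / 2) * (4 * η) :=
        mul_le_mul_of_nonneg_left h3 (by positivity)
      rw [h2] at h1
      linarith
    have hI : I0 K ≤ ∫ θ, Real.exp (K * cosC (ph θ u + ph θ u)) ∂(gM H₀) := by
      have hfc : Continuous (fun t : Cir => Real.exp (K * cosC (t + t))) :=
        Real.continuous_exp.comp (continuous_const.mul (continuous_cosC.comp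
          (continuous_id.add continuous_id)))
      have h1 := bxc_unif E β u (fun t => Real.exp (K * cosC (t + t))) hfc
      rw [← hH₀, gE_eq] at h1
      rw [h1]
      have h2 := integral_comp_surj (AddMonoidHom.id Cir + AddMonoidHom.id Cir)
        (continuous_id.add continuous_id) (fun x => cir_div x)
        (fun t => Real.exp (K * cosC t))
        (Real.continuous_exp.comp (continuous_const.mul continuous_cosC))
      exact h2.symm.le
    have key := hbx (Bool → V → Cir) (gM H₀) BOX_X (fun θ => cosC (ph θ u + ph θ u))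
      BOX_X_cont.measurable hYc.measurable BOX_X_abs (fun θ => abs_cosC_le_one _) hXY1 hI
    rw [hset, hbox, BOX_tilt H₀ _ hH₀c hA, div_le_iff₀ hEpos]
    exact key
  · intro u v
    have hA : MeasurableSet {θ : Bool → V → Cir | cosC (ph θ u - ph θ v) ≤ 0} :=
      (isClosed_le (continuous_cosC.comp ((BOX_ph u).sub (BOX_ph v)))
        continuous_const).measurableSet
    rw [hbox, BOX_tilt H₀ _ hH₀c hA, div_le_iff₀ hEpos]
    have h1 : ∫ θ in {θ : Bool → V → Cir | cosC (ph θ u - ph θ v) ≤ 0},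
        Real.exp (K * BOX_X θ) ∂(gM H₀) ≤
        ∫ θ, Real.exp K * (1 - cosC (ph θ u - ph θ v)) ∂(gM H₀) := by
      rw [← integral_indicator hA]
      refine integral_mono ((hint _ hEc).indicator hA)
        (hint _ (continuous_const.mul (hcphi u v))) fun θ => ?_
      by_cases hθ : θ ∈ {θ : Bool → V → Cir | cosC (ph θ u - ph θ v) ≤ 0}
      · simp only [indicator_of_mem hθ]
        have h2 : cosC (ph θ u - ph θ v) ≤ 0 := hθ
        have h3 : Real.exp (K * BOX_X θ) ≤ Real.exp K := by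
          refine Real.exp_le_exp.2 ?_
          have := (abs_le.1 (BOX_X_abs θ)).2
          nlinarith
        nlinarith [Real.exp_pos K]
      · simp only [indicator_of_notMem hθ]
        have := cosC_le_one (ph θ u - ph θ v)
        exact mul_nonneg (Real.exp_pos K).le (by linarith)
    rw [integral_const_mul] at h1
    have h4 := hcoh2 u v
    have h5 : Real.exp K * ∫ θ, (1 - cosC (ph θ u - ph θ v)) ∂(gM H₀) ≤
        Real.exp K * (4 * η) := mul_le_mul_of_nonneg_left h4 (Real.exp_pos K).le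
    have h6 : Real.exp K * (4 * η) ≤ ε * Real.exp (-K) := by
      have h7 : η * (4 * Real.exp (2 * K)) ≤ ε := by
        rw [← le_div_iff₀ (by positivity)]
        exact hηb
      have h8 : Real.exp (2 * K) = Real.exp K * Real.exp K := by
        rw [← Real.exp_add]; ring_nf
      have h9 : Real.exp K * Real.exp (-K) = 1 := by
        rw [← Real.exp_add]; simp
      have h10 := Real.exp_pos (-K)
      calc Real.exp K * (4 * η) = (η * (4 * Real.exp (2 * K))) * Real.exp (-K) := by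
            rw [h8]
            linear_combination (-4 * η * Real.exp K) * h9
        _ ≤ ε * Real.exp (-K) := mul_le_mul_of_nonneg_right h7 h10.le
    have h11 : ε * Real.exp (-K) ≤ ε * ∫ θ, Real.exp (K * BOX_X θ) ∂(gM H₀) :=
      mul_le_mul_of_nonneg_left hElow hε.le
    linarith

end XYB
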