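import Pool.Agent.H2.XY.I0B

/-!
# BXP: the pinning lemma (pure probability)

Proof.  Given `τ ∈ (0,1)`, `ε > 0`.  Choose `K ≥ 1` with
`e^{K(1-2τ)+2} ≤ (ε/4) I0 K` (possible: `i0b_tendsto` with `s = 1 - τ`... : by `i0b` with
`s = 1 - τ`, `I0 K ≥ p e^{K(1-τ)}`, and `e^{K(1-2τ)+2} / (p e^{K(1-τ)}) = e^{2-Kτ}/p → 0`).
Put `d = 1/K` and choose `δ > 0` with `e^K δ K ≤ min ((ε/8) e^{-1} I0 K, e^{-1} I0 K / 2)`.
Let `q = P(|X - Y| > d) ≤ δ/d = K δ` (Markov).
Numerator: on `{Y < 1-2τ, |X-Y| ≤ d}`: `e^{KX} ≤ e^{K(1-2τ)+1}`; on `{|X-Y| > d}`: `e^{KX} ≤ e^K`.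
So `N ≤ e^{K(1-2τ)+1} + e^K q`.
Denominator: `E e^{KX} ≥ E[e^{KX}; |X-Y| ≤ d] ≥ e^{-1} E[e^{KY}; |X-Y| ≤ d] ≥ e^{-1}(E e^{KY} - e^K q)
 ≥ e^{-1} I0 K - e^K q ≥ e^{-1} I0 K / 2`.
Hence `N ≤ e^{-1}(ε/4) I0 K + (ε/8) e^{-1} I0 K ≤ ε e^{-1} I0 K / 2 ≤ ε E e^{KX}`.
-/

open MeasureTheory Set

noncomputable section

namespace XYB

theorem BXP_int {Ω : Type} [MeasurableSpace Ω] (P : Measure Ω) [IsProbabilityMeasure P]
    {X : Ω → ℝ} (hX : Measurable X) (h1 : ∀ ω, |X ω| ≤ 1) {K : ℝ} (hK : 0 ≤ K) :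
    Integrable (fun ω => Real.exp (K * X ω)) P := by
  refine Integrable.of_bound ((hX.const_mul K).exp.aestronglyMeasurable) (Real.exp K)
    (Filter.Eventually.of_forall fun ω => ?_)
  rw [Real.norm_eq_abs, abs_of_pos (Real.exp_pos _), Real.exp_le_exp]
  have := (abs_le.1 (h1 ω)).2
  nlinarith

theorem bxp (τ : ℝ) (hτ : 0 < τ) (hτ1 : τ < 1) (ε : ℝ) (hε : 0 < ε) :
    ∃ K : ℝ, 0 < K ∧ ∃ δ : ℝ, 0 < δ ∧ ∀ (Ω : Type) [MeasurableSpace Ω] (P : Measure Ω)
      [IsProbabilityMeasure P] (X Y : Ω → ℝ), Measurable X → Measurable Y →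
      (∀ ω, |X ω| ≤ 1) → (∀ ω, |Y ω| ≤ 1) → ∫ ω, |X ω - Y ω| ∂P ≤ δ →
      I0 K ≤ ∫ ω, Real.exp (K * Y ω) ∂P →
      ∫ ω in {ω | Y ω < 1 - 2 * τ}, Real.exp (K * X ω) ∂P ≤ ε * ∫ ω, Real.exp (K * X ω) ∂P := by
  obtain ⟨p, hp, hI⟩ := i0b (1 - τ) (by linarith)
  -- choice of `K`
  set K : ℝ := max 1 ((2 - Real.log (ε / 4 * p)) / τ) with hKdef
  have hK1 : 1 ≤ K := le_max_left _ _
  have hK0 : 0 < K := by linarith
  have hεp : 0 < ε / 4 * p := by positivity
  have hKτ : 2 - K * τ ≤ Real.log (ε / 4 * p) := by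
    have h1 : (2 - Real.log (ε / 4 * p)) / τ ≤ K := le_max_right _ _
    rw [div_le_iff₀ hτ] at h1
    linarith
  have hexp : Real.exp (K * (1 - 2 * τ) + 2) ≤ ε / 4 * I0 K := by
    have h1 : Real.exp (2 - K * τ) ≤ ε / 4 * p := by
      rw [← Real.exp_log hεp]
      exact Real.exp_le_exp.2 hKτ
    have h2 : Real.exp (K * (1 - 2 * τ) + 2) = Real.exp (2 - K * τ) * Real.exp (K * (1 - τ)) := by
      rw [← Real.exp_add]
      congr 1
      ring
    rw [h2]
    calc Real.exp (2 - K * τ) * Real.exp (K * (1 - τ))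
        ≤ ε / 4 * p * Real.exp (K * (1 - τ)) :=
          mul_le_mul_of_nonneg_right h1 (Real.exp_pos _).le
      _ = ε / 4 * (p * Real.exp (K * (1 - τ))) := by ring
      _ ≤ ε / 4 * I0 K := mul_le_mul_of_nonneg_left (hI K hK0.le) (by positivity)
  set I : ℝ := I0 K with hIdef
  have hIpos : 0 < I := lt_of_lt_of_le (by positivity) (hI K hK0.le)
  set m : ℝ := min (ε / 8 * (Real.exp (-1) * I)) (Real.exp (-1) * I / 2) with hm
  have he1 : 0 < Real.exp (-1) := Real.exp_pos _
  have he1' : Real.exp (-1) ≤ 1 := by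
    rw [← Real.exp_zero]
    exact Real.exp_le_exp.2 (by norm_num)
  have hmpos : 0 < m := lt_min (by positivity) (by positivity)
  refine ⟨K, hK0, m / (Real.exp K * K), by positivity, ?_⟩
  intro Ω _ P _ X Y hX hY hX1 hY1 hd hIY
  set B : Set Ω := {ω | 1 / K ≤ |X ω - Y ω|} with hB
  have hBm : MeasurableSet B := measurableSet_le measurable_const (hX.sub hY).abs
  have hdi : Integrable (fun ω => |X ω - Y ω|) P := by
    refine Integrable.of_bound (hX.sub hY).abs.aestronglyMeasurable 2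
      (Filter.Eventually.of_forall fun ω => ?_)
    rw [Real.norm_eq_abs, abs_abs]
    have h1 := abs_le.1 (hX1 ω)
    have h2 := abs_le.1 (hY1 ω)
    rw [abs_le]
    constructor <;> linarith
  have hq : Real.exp K * P.real B ≤ m := by
    have h1 := mul_meas_ge_le_integral_of_nonneg (μ := P) (f := fun ω => |X ω - Y ω|)
      (Filter.Eventually.of_forall fun ω => abs_nonneg _) hdi (1 / K)
    have h2 : 1 / K * P.real B ≤ m / (Real.exp K * K) := h1.trans hd
    have h3 : 0 < Real.exp K * K := by positivity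
    rw [le_div_iff₀ h3] at h2
    calc Real.exp K * P.real B = 1 / K * P.real B * (Real.exp K * K) := by
          field_simp
      _ ≤ m := h2
  have hiX := BXP_int P hX hX1 hK0.le
  have hiY := BXP_int P hY hY1 hK0.le
  have hiB : Integrable (B.indicator fun _ => Real.exp K) P :=
    (integrable_const _).indicator hBm
  have hBint : ∫ ω, B.indicator (fun _ => Real.exp K) ω ∂P = Real.exp K * P.real B := by
    rw [integral_indicator_const _ hBm, smul_eq_mul, mul_comm]
  -- the numerator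
  have hA : MeasurableSet {ω | Y ω < 1 - 2 * τ} := measurableSet_lt hY measurable_const
  have hN : ∫ ω in {ω | Y ω < 1 - 2 * τ}, Real.exp (K * X ω) ∂P ≤
      Real.exp (K * (1 - 2 * τ) + 1) + m := by
    rw [← integral_indicator hA]
    have h1 : ∫ ω, ({ω | Y ω < 1 - 2 * τ}.indicator fun ω => Real.exp (K * X ω)) ω ∂P ≤
        ∫ ω, (Real.exp (K * (1 - 2 * τ) + 1) + B.indicator (fun _ => Real.exp K) ω) ∂P := by
      refine integral_mono (hiX.indicator hA) ((integrable_const _).add hiB) fun ω => ?_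
      by_cases hω : ω ∈ {ω | Y ω < 1 - 2 * τ}
      · rw [indicator_of_mem hω]
        by_cases hωB : ω ∈ B
        · rw [indicator_of_mem hωB]
          have h2 : Real.exp (K * X ω) ≤ Real.exp K := by
            rw [Real.exp_le_exp]
            have := (abs_le.1 (hX1 ω)).2
            nlinarith
          have h3 := Real.exp_pos (K * (1 - 2 * τ) + 1)
          linarith
        · rw [indicator_of_notMem hωB, add_zero, Real.exp_le_exp]
          have h2 : |X ω - Y ω| < 1 / K := not_le.1 hωB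
          have h3 := (abs_lt.1 h2).2
          have h4 : K * (X ω - Y ω) < 1 := by
            have := mul_lt_mul_of_pos_left h3 hK0
            rwa [mul_one_div_cancel hK0.ne'] at this
          have h5 : Y ω < 1 - 2 * τ := hω
          nlinarith
      · rw [indicator_of_notMem hω]
        have h2 := Real.exp_pos (K * (1 - 2 * τ) + 1)
        have h3 : 0 ≤ B.indicator (fun _ => Real.exp K) ω :=
          indicator_nonneg (fun _ _ => (Real.exp_pos _).le) ω
        linarith
    rw [integral_add (integrable_const _) hiB, hBint, integral_const, probReal_univ,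
      one_smul] at h1
    linarith
  -- the denominator
  have hD : Real.exp (-1) * (I - m) ≤ ∫ ω, Real.exp (K * X ω) ∂P := by
    have h1 : ∫ ω, Real.exp (-1) * (Real.exp (K * Y ω) - B.indicator (fun _ => Real.exp K) ω) ∂P ≤
        ∫ ω, Real.exp (K * X ω) ∂P := by
      refine integral_mono ((hiY.sub hiB).const_mul _) hiX fun ω => ?_
      by_cases hωB : ω ∈ B
      · rw [indicator_of_mem hωB]
        have h2 : Real.exp (K * Y ω) ≤ Real.exp K := by
          rw [Real.exp_le_exp]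
          have := (abs_le.1 (hY1 ω)).2
          nlinarith
        have h3 := Real.exp_pos (K * X ω)
        nlinarith
      · rw [indicator_of_notMem hωB, sub_zero, ← Real.exp_add, Real.exp_le_exp]
        have h2 : |X ω - Y ω| < 1 / K := not_le.1 hωB
        have h3 := (abs_lt.1 h2).1
        have h4 : -1 < K * (X ω - Y ω) := by
          have := mul_lt_mul_of_pos_left h3 hK0
          rwa [mul_neg, mul_one_div_cancel hK0.ne'] at this
        linarith
    rw [integral_const_mul, integral_sub hiY hiB, hBint] at h1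
    refine le_trans (mul_le_mul_of_nonneg_left ?_ he1.le) h1
    linarith
  have hm1 : m ≤ ε / 8 * (Real.exp (-1) * I) := min_le_left _ _
  have hm2 : m ≤ Real.exp (-1) * I / 2 := min_le_right _ _
  have h1 : Real.exp (K * (1 - 2 * τ) + 1) ≤ Real.exp (-1) * (ε / 4 * I) := by
    have h2 : Real.exp (K * (1 - 2 * τ) + 1) = Real.exp (-1) * Real.exp (K * (1 - 2 * τ) + 2) := by
      rw [← Real.exp_add]
      congr 1
      ring
    rw [h2]
    exact mul_le_mul_of_nonneg_left hexp he1.le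
  have h2 : Real.exp (-1) * I / 2 ≤ Real.exp (-1) * (I - m) := by
    have h3 : Real.exp (-1) * m ≤ m := by nlinarith
    nlinarith
  have h3 : ε * (Real.exp (-1) * I / 2) ≤ ε * ∫ ω, Real.exp (K * X ω) ∂P :=
    mul_le_mul_of_nonneg_left (h2.trans hD) hε.le
  refine hN.trans (le_trans ?_ h3)
  have h4 : 0 < ε * (Real.exp (-1) * I) := by positivity
  nlinarith

end XYB
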