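import Pool.Agent.H2.XY.PE2

/-!
# PE3: hierarchical Peierls estimate

Proof.  The complement event is contained in
`⋃_{i=1,2} ⋃_{k ≤ n} {ω | lbad (ω ∈ Bad ·) k (c_i / 3^k)}`: otherwise both cells are fully good (`k = 0`
gives `ω ∉ Bad c_i`) and `pe2` gives equal signs.  By `pe1` (one element sets) and `rk_le` the
probability is at most `2 ∑_{k ≤ n} ρ/2^k ≤ 4ρ` (`measureReal_mono`, `measureReal_union_le`,
`measureReal_biUnion_finset_le`; no measurability is needed).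
-/

open MeasureTheory Set

noncomputable section

namespace XYB

theorem PE3_geom (ρ : ℝ) (hρ : 0 ≤ ρ) (n : ℕ) :
    ∑ k ∈ Finset.range n, ρ / 2 ^ k ≤ 2 * ρ := by
  have h : ∀ n : ℕ, ∑ k ∈ Finset.range n, ρ / 2 ^ k = 2 * ρ - 2 * ρ / 2 ^ n := by
    intro n
    induction n with
    | zero => simp
    | succ n ih =>
      rw [Finset.sum_range_succ, ih, pow_succ]
      field_simp
      ring
  rw [h]
  have : 0 ≤ 2 * ρ / 2 ^ n := by positivity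
  linarith

theorem PE3_one {Ω : Type*} [MeasurableSpace Ω] (P : Measure Ω) [IsProbabilityMeasure P] (n : ℕ)
    (Bad : ℕ × ℕ → Set Ω) (ρ : ℝ) (hρ : 0 ≤ ρ) (hρ1 : 72 * ρ ≤ 1)
    (hP : ∀ A : Finset (ℕ × ℕ), P.real (⋂ c ∈ A, Bad c) ≤ ρ ^ A.card) (c : ℕ × ℕ) :
    P.real (⋃ k ∈ Finset.range (n + 1),
      {ω | lbad (fun c' => ω ∈ Bad c') k (c.1 / 3 ^ k, c.2 / 3 ^ k)}) ≤ 2 * ρ := by
  refine (measureReal_biUnion_finset_le _ _).trans ?_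
  refine (Finset.sum_le_sum fun k _ => ?_).trans (PE3_geom ρ hρ (n + 1))
  have h := pe1 P Bad ρ hρ hP k {(c.1 / 3 ^ k, c.2 / 3 ^ k)}
  simp only [Finset.mem_singleton, iInter_iInter_eq_left, Finset.card_singleton, pow_one] at h
  exact h.trans (rk_le ρ hρ hρ1 k).2

theorem pe3 {Ω : Type*} [MeasurableSpace Ω] (P : Measure Ω) [IsProbabilityMeasure P] (n : ℕ)
    (Bad : ℕ × ℕ → Set Ω) (sg : Ω → ℕ × ℕ → Prop) (ρ : ℝ) (hρ : 0 ≤ ρ) (hρ1 : 72 * ρ ≤ 1)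
    (hP : ∀ A : Finset (ℕ × ℕ), P.real (⋂ c ∈ A, Bad c) ≤ ρ ^ A.card)
    (hs : ∀ ω, ∀ c c' : ℕ × ℕ, c.1 < 3 ^ n → c.2 < 3 ^ n → c'.1 < 3 ^ n → c'.2 < 3 ^ n →
      ((c.1 + 1 = c'.1 ∧ c.2 = c'.2) ∨ (c.1 = c'.1 ∧ c.2 + 1 = c'.2)) →
      ω ∉ Bad c → ω ∉ Bad c' → (sg ω c ↔ sg ω c'))
    (c₁ c₂ : ℕ × ℕ) (h₁ : c₁.1 < 3 ^ n ∧ c₁.2 < 3 ^ n) (h₂ : c₂.1 < 3 ^ n ∧ c₂.2 < 3 ^ n) :
    P.real {ω | ¬ (ω ∉ Bad c₁ ∧ ω ∉ Bad c₂ ∧ (sg ω c₁ ↔ sg ω c₂))} ≤ 4 * ρ := by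
  have h1 := PE3_one P n Bad ρ hρ hρ1 hP c₁
  have h2 := PE3_one P n Bad ρ hρ hρ1 hP c₂
  have hsub : {ω | ¬ (ω ∉ Bad c₁ ∧ ω ∉ Bad c₂ ∧ (sg ω c₁ ↔ sg ω c₂))} ⊆
      (⋃ k ∈ Finset.range (n + 1),
        {ω | lbad (fun c' => ω ∈ Bad c') k (c₁.1 / 3 ^ k, c₁.2 / 3 ^ k)}) ∪
      (⋃ k ∈ Finset.range (n + 1),
        {ω | lbad (fun c' => ω ∈ Bad c') k (c₂.1 / 3 ^ k, c₂.2 / 3 ^ k)}) := by
    intro ω hω
    by_contra hcon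
    rw [mem_union, not_or] at hcon
    simp only [mem_iUnion, not_exists, Finset.mem_range] at hcon
    obtain ⟨g1, g2⟩ := hcon
    have g1' : ∀ k ≤ n, ¬ lbad (fun c' => ω ∈ Bad c') k (c₁.1 / 3 ^ k, c₁.2 / 3 ^ k) :=
      fun k hk => g1 k (by omega)
    have g2' : ∀ k ≤ n, ¬ lbad (fun c' => ω ∈ Bad c') k (c₂.1 / 3 ^ k, c₂.2 / 3 ^ k) :=
      fun k hk => g2 k (by omega)
    apply hω
    refine ⟨?_, ?_, ?_⟩
    · have := g1' 0 (Nat.zero_le _)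
      simpa [lbad] using this
    · have := g2' 0 (Nat.zero_le _)
      simpa [lbad] using this
    · exact pe2 n (fun c' => ω ∈ Bad c') (sg ω) (hs ω) c₁ c₂ h₁ h₂ g1' g2'
  have h3 := (measureReal_mono hsub (measure_ne_top P _)).trans (measureReal_union_le _ _)
  linarith

end XYB
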