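import Pool.Agent.H2.XY.GA

/-!
# SGN: good neighbouring cells have the same sign (deterministic)

Proof.  If `θ c` is not `BoxBad` (`κ ≥ 9/10`), then all marks `m` have `|cos φ_m| ≥ 9/10` and all have the
same sign: if `cos φ_m ≥ 9/10` and `cos φ_m' ≤ -9/10` then
`cos (φ_m - φ_m') = cos cos + sin sin ≤ -81/100 + 19/100 < 0` (`sin² ≤ 1 - 81/100`), contradiction.
If `c, c'` are adjacent (`c' = c + e₁`, say) there is an arm `a ∈ arms N R` with `a.1 = (c, (R-1,0))`,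
`a.2 = (c', (0,0))`; both endpoints are marks.  Since `c` is not `CellBad`, both layers have
`cos Δ^± ≥ 9/10`, so with `φ' - φ = Δ⁺ - Δ⁻` (`φ' = φ` at the end in `c'`, `φ` at the end in `c`):
`cos (φ' - φ) ≥ 81/100 - 19/100 = 62/100`, while opposite signs would give
`cos (φ' - φ) ≤ -62/100`.  So the marks of `c` and of `c'` have the same sign; `p₁` is a mark of both.
(`R ≥ 1` because `p₁ : Bx R`.)  The same for `c' = c + e₂`; the statement is symmetric in `c, c'`.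
-/

open Set

noncomputable section

namespace XYB

private lemma SGN_trig {u v : Cir} (hu : 9 / 10 ≤ |cosC u|) (hv : 9 / 10 ≤ |cosC v|)
    (h : -(62 / 100) < cosC (u - v)) : 0 < cosC u ↔ 0 < cosC v := by
  rw [cosC_sub] at h
  have h1 := cosC_sq_add_sinC_sq u
  have h2 := cosC_sq_add_sinC_sq v
  rcases le_abs.1 hu with a | a <;> rcases le_abs.1 hv with b | b
  · constructor <;> intro _ <;> linarith
  · exfalso
    have e1 : sinC u ^ 2 ≤ 19 / 100 := by nlinarith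
    have e2 : sinC v ^ 2 ≤ 19 / 100 := by nlinarith
    have e3 : sinC u * sinC v ≤ 19 / 100 := by nlinarith [sq_nonneg (sinC u - sinC v)]
    nlinarith
  · exfalso
    have e1 : sinC u ^ 2 ≤ 19 / 100 := by nlinarith
    have e2 : sinC v ^ 2 ≤ 19 / 100 := by nlinarith
    have e3 : sinC u * sinC v ≤ 19 / 100 := by nlinarith [sq_nonneg (sinC u - sinC v)]
    nlinarith
  · constructor <;> intro _ <;> linarith

private lemma SGN_diff {a b : Cir} (ha : 9 / 10 ≤ cosC a) (hb : 9 / 10 ≤ cosC b) :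
    -(62 / 100) < cosC (a - b) := by
  rw [cosC_sub]
  have h1 := cosC_sq_add_sinC_sq a
  have h2 := cosC_sq_add_sinC_sq b
  have e1 : sinC a ^ 2 ≤ 19 / 100 := by nlinarith
  have e2 : sinC b ^ 2 ≤ 19 / 100 := by nlinarith
  have e3 : -(19 / 100) ≤ sinC a * sinC b := by nlinarith [sq_nonneg (sinC a + sinC b)]
  nlinarith

/-- inside a good box all marks have the same sign and `|cos φ| ≥ κ` -/
theorem sgn_box {R : ℕ} {κ : ℝ} (hκ : 9 / 10 ≤ κ) (p₁ p₂ : Bx R) (θ : Bool → Bx R → Cir)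
    (h : θ ∉ BoxBad κ p₁ p₂) :
    ∀ m ∈ marks p₁ p₂, κ ≤ |cosC (ph θ m)| ∧ (0 < cosC (ph θ m) ↔ 0 < cosC (ph θ p₁)) := by
  have h1 : ∀ m ∈ marks p₁ p₂, κ ≤ |cosC (ph θ m)| := by
    intro m hm
    by_contra hc
    exact h (Or.inl ⟨m, hm, not_le.1 hc⟩)
  have h2 : ∀ m ∈ marks p₁ p₂, ∀ m' ∈ marks p₁ p₂, 0 < cosC (ph θ m - ph θ m') := by
    intro m hm m' hm'
    by_contra hc
    exact h (Or.inr ⟨m, hm, m', hm', not_lt.1 hc⟩)
  have hp : p₁ ∈ marks p₁ p₂ := by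
    unfold marks
    simp
  intro m hm
  refine ⟨h1 m hm, SGN_trig (hκ.trans (h1 m hm)) (hκ.trans (h1 p₁ hp)) ?_⟩
  have := h2 m hm p₁ hp
  linarith

private lemma SGN_arm {N R : ℕ} {κ : ℝ} (hκ : 9 / 10 ≤ κ) (p₁ p₂ : Bx R)
    (θ : Bx N → Bool → Bx R → Cir) (c c' : Bx N) (e z : Bx R) (ha : ((c, e), (c', z)) ∈ arms N R)
    (he : e ∈ marks p₁ p₂) (hz : z ∈ marks p₁ p₂)
    (hc : θ ∉ CellBad κ p₁ p₂ c) (hc' : θ ∉ CellBad κ p₁ p₂ c') :
    (0 < cosC (ph (θ c) p₁) ↔ 0 < cosC (ph (θ c') p₁)) := by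
  have h1 : θ c ∉ BoxBad κ p₁ p₂ := fun h => hc (Or.inl h)
  have h2 : θ c' ∉ BoxBad κ p₁ p₂ := fun h => hc' (Or.inl h)
  have h3 : ∀ b : Bool, 9 / 10 ≤ cosC (dArm ((c, e), (c', z)) b θ) := by
    intro b
    by_contra hb
    exact hc (Or.inr ⟨_, ha, rfl, b, not_le.1 hb⟩)
  obtain ⟨a1, a2⟩ := sgn_box hκ p₁ p₂ (θ c) h1 e he
  obtain ⟨b1, b2⟩ := sgn_box hκ p₁ p₂ (θ c') h2 z hz
  have h4 : ph (θ c') z - ph (θ c) e =
      dArm ((c, e), (c', z)) true θ - dArm ((c, e), (c', z)) false θ := by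
    unfold ph dArm
    simp only
    abel
  have h5 := SGN_trig (hκ.trans b1) (hκ.trans a1) (by
    rw [h4]
    exact SGN_diff (h3 true) (h3 false))
  rw [← a2, ← b2, h5]

theorem sgn {N R : ℕ} {κ : ℝ} (hκ : 9 / 10 ≤ κ) (p₁ p₂ : Bx R) (θ : Bx N → Bool → Bx R → Cir)
    (c c' : Bx N)
    (hadj : (c.1.val + 1 = c'.1.val ∧ c.2 = c'.2) ∨ (c.1 = c'.1 ∧ c.2.val + 1 = c'.2.val))
    (hc : θ ∉ CellBad κ p₁ p₂ c) (hc' : θ ∉ CellBad κ p₁ p₂ c') :
    (0 < cosC (ph (θ c) p₁) ↔ 0 < cosC (ph (θ c') p₁)) := by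
  have hR : 0 < R := p₁.1.pos
  have hR1 : R - 1 + 1 = R := by omega
  rcases hadj with ⟨h1, h2⟩ | ⟨h1, h2⟩
  · refine SGN_arm hκ p₁ p₂ θ c c' (⟨R - 1, by omega⟩, ⟨0, hR⟩) (⟨0, hR⟩, ⟨0, hR⟩) ?_ ?_ ?_ hc hc'
    · unfold arms
      simp [h1, h2, hR1]
    · unfold marks
      simp [hR1]
    · unfold marks
      simp
  · refine SGN_arm hκ p₁ p₂ θ c c' (⟨0, hR⟩, ⟨R - 1, by omega⟩) (⟨0, hR⟩, ⟨0, hR⟩) ?_ ?_ ?_ hc hc'
    · unfold arms
      simp [h1, h2, hR1]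
    · unfold marks
      simp [hR1]
    · unfold marks
      simp

end XYB
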