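import Pool.Agent.H2.XY.PBD
import Pool.Agent.H2.XY.SGN
import Pool.Agent.H2.XY.PE3

/-!
# CLR: long-range order in the system of cells

Proof.  `P = gM (hCell ...)`, a probability measure.  Define for `c : ℕ × ℕ`
`Bad c = CellBad κ p₁ p₂ ⟨c⟩` if `c.1, c.2 < 3^n`, and `∅` otherwise;
`sg θ c = (0 < cosC (ph (θ ⟨c⟩) p₁))` if `c` is in range, `False` otherwise.
`hP` of `pe3`: for `A` inside the range this is `pbd`; if `A` contains a cell out of range the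
intersection is empty.  `hs` of `pe3` is `sgn` (adjacency).  So the event
`G = {c₁, c₂ good, same sign}` has `P(Gᶜ) ≤ 4ρ`.  On `G`: by `sgn_box` (`CellBad ⊇ {θ c ∈ BoxBad}`),
`|cos φ_{c₁ p₁}| ≥ κ`, `|cos φ_{c₂ p₂}| ≥ κ` and `cos φ_{c₂ p₂}` has the sign of `cos φ_{c₂ p₁}`, the
sign of `c₂`, which is the sign of `c₁`; so the product is `≥ κ²`; off `G` it is `≥ -1`.
Hence (`gE_eq`) `gE = ∫ F dP ≥ κ² - (1+κ²) P(Gᶜ) ≥ κ² (1 - 4ρ) - 4ρ`.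
(Measurability: avoid it with `F ≥ κ² - (1+κ²) 1_{T}` for the measurable set
`T = {F < κ²} ⊆ Gᶜ`.)
-/

open MeasureTheory Set

noncomputable section

namespace XYB

theorem CLR_hXY {V : Type} (E : Finset (V × V)) : Continuous (hXY E) := by
  unfold hXY
  exact continuous_finsetSum _ fun e _ =>
    continuous_cosC.comp ((continuous_apply _).sub (continuous_apply _))

theorem CLR_ph {V : Type} (v : V) : Continuous (fun θ : Bool → V → Cir => ph θ v) := by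
  unfold ph
  fun_prop

theorem CLR_hBox {V : Type} [Fintype V] (β K : ℝ) (E : Finset (V × V)) :
    Continuous (hBox β K E) := by
  unfold hBox
  refine Continuous.add (continuous_const.mul (((CLR_hXY E).comp (continuous_apply _)).add
    ((CLR_hXY E).comp (continuous_apply _)))) (continuous_const.mul (Continuous.div_const ?_ _))
  exact continuous_finsetSum _ fun v _ => continuous_cosC.comp ((CLR_ph v).add (CLR_ph v))

theorem CLR_hCell {C V : Type} [Fintype C] [Fintype V] (β K β₁ : ℝ) (E : Finset (V × V))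
    (Ar : Finset ((C × V) × (C × V))) : Continuous (hCell β K β₁ E Ar) := by
  unfold hCell
  refine Continuous.add (continuous_finsetSum _ fun c _ => (CLR_hBox β K E).comp
    (continuous_apply c)) (continuous_finsetSum _ fun f _ => continuous_const.mul
    (continuous_cosC.comp ?_))
  unfold dArm
  fun_prop

/-- the bad sets indexed by pairs of natural numbers -/
def CLR_Bad {N R : ℕ} (κ : ℝ) (p₁ p₂ : Bx R) (c : ℕ × ℕ) : Set (Bx N → Bool → Bx R → Cir) :=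
  {θ | ∃ h : c.1 < N ∧ c.2 < N, θ ∈ CellBad κ p₁ p₂ (⟨c.1, h.1⟩, ⟨c.2, h.2⟩)}

theorem CLR_bad_val {N R : ℕ} (κ : ℝ) (p₁ p₂ : Bx R) (c : Bx N) (θ : Bx N → Bool → Bx R → Cir) :
    θ ∈ CLR_Bad κ p₁ p₂ (c.1.val, c.2.val) ↔ θ ∈ CellBad κ p₁ p₂ c :=
  ⟨fun ⟨_, h⟩ => h, fun h => ⟨⟨c.1.2, c.2.2⟩, h⟩⟩

/-- the signs indexed by pairs of natural numbers -/
def CLR_sg {N R : ℕ} (p₁ : Bx R) (θ : Bx N → Bool → Bx R → Cir) (c : ℕ × ℕ) : Prop :=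
  ∃ h : c.1 < N ∧ c.2 < N, 0 < cosC (ph (θ (⟨c.1, h.1⟩, ⟨c.2, h.2⟩)) p₁)

theorem CLR_sg_val {N R : ℕ} (p₁ : Bx R) (c : Bx N) (θ : Bx N → Bool → Bx R → Cir) :
    CLR_sg p₁ θ (c.1.val, c.2.val) ↔ 0 < cosC (ph (θ c) p₁) :=
  ⟨fun ⟨_, h⟩ => h, fun h => ⟨⟨c.1.2, c.2.2⟩, h⟩⟩

theorem CLR_hP (N R : ℕ) (β K β₁ κ : ℝ) (hβ : 0 ≤ β) (hK : 0 ≤ K) (hβ₁ : 0 ≤ β₁)
    (p₁ p₂ : Bx R) (ρ : ℝ) (hρ : 0 ≤ ρ)
    (h1 : 5 * ((Real.exp β₁ / I0 β₁) ^ 8 * (gM (hBox β K (bE R))).real (BoxBad κ p₁ p₂)) ≤ ρ)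
    (h2 : 5 * (Real.exp (β₁ * (9 / 10)) / I0 β₁) ≤ ρ) (A : Finset (ℕ × ℕ)) :
    (gM (hCell β K β₁ (bE R) (arms N R))).real (⋂ c ∈ A, CLR_Bad κ p₁ p₂ c) ≤
      ρ ^ A.card := by
  classical
  have := isProb_gM _ (CLR_hCell β K β₁ (bE R) (arms N R))
  by_cases hA : ∀ c ∈ A, c.1 < N ∧ c.2 < N
  · set A' : Finset (Bx N) := Finset.univ.filter fun c => (c.1.val, c.2.val) ∈ A with hA'
    have hcard : A'.card = A.card := by
      refine Finset.card_bij (fun c _ => (c.1.val, c.2.val)) ?_ ?_ ?_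
      · intro c hc
        rw [hA', Finset.mem_filter] at hc
        exact hc.2
      · intro c _ c' _ h
        rw [Prod.mk.injEq] at h
        exact Prod.ext (Fin.ext h.1) (Fin.ext h.2)
      · intro c hc
        refine ⟨(⟨c.1, (hA c hc).1⟩, ⟨c.2, (hA c hc).2⟩), ?_, rfl⟩
        rw [hA', Finset.mem_filter]
        exact ⟨Finset.mem_univ _, hc⟩
    rw [← hcard]
    refine (measureReal_mono ?_ (measure_ne_top _ _)).trans
      (pbd N R β K β₁ κ hβ hK hβ₁ p₁ p₂ ρ hρ h1 h2 A')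
    intro θ hθ c hc
    rw [mem_iInter₂] at hθ
    rw [hA', Finset.mem_filter] at hc
    exact (CLR_bad_val κ p₁ p₂ c θ).1 (hθ _ hc.2)
  · push Not at hA
    obtain ⟨c, hc, hc'⟩ := hA
    have h3 : (⋂ c ∈ A, CLR_Bad κ p₁ p₂ c : Set (Bx N → Bool → Bx R → Cir)) = ∅ := by
      rw [Set.eq_empty_iff_forall_notMem]
      intro θ hθ
      rw [mem_iInter₂] at hθ
      obtain ⟨h, -⟩ := hθ c hc
      exact absurd h.2 (not_lt.2 (hc' h.1))
    rw [h3]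
    simp only [measureReal_empty]
    positivity

theorem clr (n R : ℕ) (β K β₁ κ : ℝ) (hβ : 0 ≤ β) (hK : 0 ≤ K) (hβ₁ : 0 ≤ β₁)
    (hκ : 9 / 10 ≤ κ) (p₁ p₂ : Bx R) (ρ : ℝ) (hρ : 0 ≤ ρ) (hρ1 : 72 * ρ ≤ 1)
    (h1 : 5 * ((Real.exp β₁ / I0 β₁) ^ 8 * (gM (hBox β K (bE R))).real (BoxBad κ p₁ p₂)) ≤ ρ)
    (h2 : 5 * (Real.exp (β₁ * (9 / 10)) / I0 β₁) ≤ ρ) (c₁ c₂ : Bx (3 ^ n)) :
    κ ^ 2 * (1 - 4 * ρ) - 4 * ρ ≤
      gE (hCell β K β₁ (bE R) (arms (3 ^ n) R))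
        (fun θ => cosC (ph (θ c₁) p₁) * cosC (ph (θ c₂) p₂)) := by
  classical
  obtain ⟨H, hH⟩ : ∃ H, H = hCell β K β₁ (bE R) (arms (3 ^ n) R) := ⟨_, rfl⟩
  have hHc : Continuous H := by rw [hH]; exact CLR_hCell _ _ _ _ _
  have hprob : IsProbabilityMeasure (gM H) := isProb_gM H hHc
  have hpe := pe3 (gM H) n (CLR_Bad κ p₁ p₂) (CLR_sg p₁) ρ hρ hρ1
    (by
      intro A
      rw [hH]
      exact CLR_hP (3 ^ n) R β K β₁ κ hβ hK hβ₁ p₁ p₂ ρ hρ h1 h2 A)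
    (by
      intro θ c c' hc1 hc2 hc1' hc2' hadj hb hb'
      have e1 : θ ∉ CellBad κ p₁ p₂ (⟨c.1, hc1⟩, ⟨c.2, hc2⟩) := fun h => hb ⟨⟨hc1, hc2⟩, h⟩
      have e2 : θ ∉ CellBad κ p₁ p₂ (⟨c'.1, hc1'⟩, ⟨c'.2, hc2'⟩) :=
        fun h => hb' ⟨⟨hc1', hc2'⟩, h⟩
      have e3 := sgn hκ p₁ p₂ θ (⟨c.1, hc1⟩, ⟨c.2, hc2⟩) (⟨c'.1, hc1'⟩, ⟨c'.2, hc2'⟩)
        (by
          rcases hadj with h | h
          · exact Or.inl ⟨h.1, Fin.ext h.2⟩
          · exact Or.inr ⟨Fin.ext h.1, h.2⟩) e1 e2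
      constructor
      · rintro ⟨h, hs⟩
        exact ⟨⟨hc1', hc2'⟩, e3.1 hs⟩
      · rintro ⟨h, hs⟩
        exact ⟨⟨hc1, hc2⟩, e3.2 hs⟩)
    (c₁.1.val, c₁.2.val) (c₂.1.val, c₂.2.val) ⟨c₁.1.2, c₁.2.2⟩ ⟨c₂.1.2, c₂.2.2⟩
  rw [← hH]
  obtain ⟨F, hF⟩ : ∃ F : (Bx (3 ^ n) → Bool → Bx R → Cir) → ℝ,
      F = fun θ => cosC (ph (θ c₁) p₁) * cosC (ph (θ c₂) p₂) := ⟨_, rfl⟩
  rw [← hF]
  have hFc : Continuous F := by
    rw [hF]
    exact (continuous_cosC.comp ((CLR_ph p₁).comp (continuous_apply c₁))).mul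
      (continuous_cosC.comp ((CLR_ph p₂).comp (continuous_apply c₂)))
  have hFb : ∀ θ, |F θ| ≤ 1 := by
    intro θ
    rw [hF]
    simp only [abs_mul]
    exact mul_le_one₀ (abs_cosC_le_one _) (abs_nonneg _) (abs_cosC_le_one _)
  have hT : MeasurableSet {θ | F θ < κ ^ 2} := (isOpen_lt hFc continuous_const).measurableSet
  have hTsub : {θ | F θ < κ ^ 2} ⊆ {θ | ¬ (θ ∉ CLR_Bad κ p₁ p₂ (c₁.1.val, c₁.2.val) ∧
      θ ∉ CLR_Bad κ p₁ p₂ (c₂.1.val, c₂.2.val) ∧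
      (CLR_sg p₁ θ (c₁.1.val, c₁.2.val) ↔ CLR_sg p₁ θ (c₂.1.val, c₂.2.val)))} := by
    rintro θ hθ ⟨g1, g2, g3⟩
    rw [CLR_bad_val] at g1 g2
    rw [CLR_sg_val, CLR_sg_val] at g3
    have b1 : θ c₁ ∉ BoxBad κ p₁ p₂ := fun h => g1 (Or.inl h)
    have b2 : θ c₂ ∉ BoxBad κ p₁ p₂ := fun h => g2 (Or.inl h)
    have m1 : p₁ ∈ marks p₁ p₂ := by simp [marks]
    have m2 : p₂ ∈ marks p₁ p₂ := by simp [marks]
    obtain ⟨k1, -⟩ := sgn_box hκ p₁ p₂ (θ c₁) b1 p₁ m1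
    obtain ⟨k2, s2⟩ := sgn_box hκ p₁ p₂ (θ c₂) b2 p₂ m2
    have hlt : F θ < κ ^ 2 := hθ
    rw [hF] at hlt
    simp only at hlt
    have hs : 0 < cosC (ph (θ c₁) p₁) ↔ 0 < cosC (ph (θ c₂) p₂) := g3.trans s2.symm
    have hκ0 : 0 < κ := by linarith
    have hge : κ ^ 2 ≤ cosC (ph (θ c₁) p₁) * cosC (ph (θ c₂) p₂) := by
      by_cases h : 0 < cosC (ph (θ c₁) p₁)
      · have h' := hs.1 h
        rw [abs_of_pos h] at k1
        rw [abs_of_pos h'] at k2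
        nlinarith
      · have h' : ¬ 0 < cosC (ph (θ c₂) p₂) := fun h'' => h (hs.2 h'')
        rw [abs_of_nonpos (not_lt.1 h)] at k1
        rw [abs_of_nonpos (not_lt.1 h')] at k2
        nlinarith
    exact absurd hlt (not_lt.2 hge)
  have hPT : (gM H).real {θ | F θ < κ ^ 2} ≤ 4 * ρ :=
    (measureReal_mono hTsub (measure_ne_top _ _)).trans hpe
  rw [gE_eq]
  have i1 : Integrable F (gM H) :=
    Integrable.of_bound hFc.aestronglyMeasurable 1 (Filter.Eventually.of_forall fun θ => by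
      rw [Real.norm_eq_abs]
      exact hFb θ)
  have i3 : Integrable ({θ | F θ < κ ^ 2}.indicator (1 : (Bx (3 ^ n) → Bool → Bx R → Cir) → ℝ)) (gM H) :=
    (integrable_const (1 : ℝ)).indicator hT
  have i2 : Integrable (fun θ => κ ^ 2 - (1 + κ ^ 2) * {θ | F θ < κ ^ 2}.indicator (1 : (Bx (3 ^ n) → Bool → Bx R → Cir) → ℝ) θ)
      (gM H) := (integrable_const _).sub (i3.const_mul _)
  have hmono := integral_mono i2 i1 (fun θ => by
    by_cases h : θ ∈ {θ | F θ < κ ^ 2}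
    · simp only [Set.indicator_of_mem h, Pi.one_apply]
      have := neg_abs_le (F θ)
      have := hFb θ
      linarith
    · simp only [Set.indicator_of_notMem h]
      have h' : κ ^ 2 ≤ F θ := not_lt.1 h
      linarith)
  rw [integral_sub (integrable_const _) (i3.const_mul _), integral_const_mul,
    integral_indicator_one hT, integral_const] at hmono
  simp only [probReal_univ, smul_eq_mul, one_mul] at hmono
  nlinarith [sq_nonneg κ, mul_nonneg (show (0:ℝ) ≤ 1 + κ ^ 2 by positivity)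
    (show (0:ℝ) ≤ 4 * ρ - (gM H).real {θ | F θ < κ ^ 2} by linarith)]

end XYB
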