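import Pool.Agent.H2.XY.Defs

/-!
# FLW: a unit flow from a site to the uniform distribution of the `2^k × 2^k` box with small energy

Proof.  Induction on `k`, proving for every `u` the existence of `f` with
(i) `x u - avg x = ∑_{e ∈ bE} f e (x e.2 - x e.1)` for all `x`, (ii) `∑ f² ≤ C (k+1)`,
(iii) `∑ |f| ≤ C' 2^k`.
`k = 0`: one site, `f = 0`.
Step `k → k+1`, `m = 2^k`: the box of side `2m` is the union of four quadrants `Q` (translates of the
box of side `m`); let `Q ∋ u`.  Then `x u - avg x = (x u - avg_Q x) + (avg_Q x - avg x)`.  The first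
term is handled by the induction hypothesis in `Q` (edges of `Q` are edges of the big box; `f = 0`
on the other edges).  One step flow: `avg_Q x - avg x = (1/4) ∑_{Q'} (avg_Q x - avg_{Q'} x)`, and for
horizontally adjacent quadrants `Q'' = Q' + m e₁`:
`avg_{Q''} x - avg_{Q'} x = m^{-2} ∑_{p ∈ Q'} (x(p + m e₁) - x(p))
   = m^{-2} ∑_{p ∈ Q'} ∑_{i < m} (x(p+(i+1)e₁) - x(p+i e₁))`;
each horizontal edge is used by at most `m` points `p ∈ Q'` (same row), so the coefficient of every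
edge is at most `m / m² = 2^{-k}` in absolute value; the same vertically; diagonal quadrants by going
through a neighbouring quadrant.  So there is `g` with `avg_Q x - avg x = ∑ g e (x e.2 - x e.1)` and
`|g e| ≤ 2 · 2^{-k}` for all `e ∈ bE (2m)` (`|bE (2m)| ≤ 2 (2m)² = 8 · 4^k`).
Then `∑ |f+g| ≤ C' 2^k + 16 · 2^k ≤ C' 2^{k+1}` for `C' = 16` and
`∑ (f+g)² ≤ ∑ f² + 2 · 2·2^{-k} ∑|f| + 4 · 4^{-k} · 8 · 4^k ≤ C (k+1) + 4 C' + 32 ≤ C (k+2)`
for `C = 96` (so `C = 96, C' = 16` work; any constants are fine).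
Suggestion: prove the one step flow for functions `x : ℕ → ℕ → ℝ` (rows and columns by Abel
summation / `Finset.sum_range_succ`, `Finset.sum_comm`), and transport to `Fin`.
-/

open Finset

noncomputable section

namespace XYB

/-- sum over the box of side `m` at `(s, t)` -/
def FLW_A (m : ℕ) (x : ℕ → ℕ → ℝ) (s t : ℕ) : ℝ :=
  ∑ i ∈ range m, ∑ j ∈ range m, x (s + i) (t + j)

theorem FLW_tel (x : ℕ → ℝ) (a m : ℕ) :
    x (a + m) - x a = ∑ l ∈ range m, (x (a + l + 1) - x (a + l)) := by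
  have h := Finset.sum_range_sub (fun l => x (a + l)) m
  simp only [add_zero] at h
  rw [← h]
  rfl

theorem FLW_D (N m s t : ℕ) (hs : s + 2 * m ≤ N) (ht : t + m ≤ N) :
    ∃ H : ℕ → ℕ → ℝ,
      (∀ i j, H i j ≠ 0 → s ≤ i ∧ i + 1 < s + 2 * m ∧ t ≤ j ∧ j < t + m) ∧
      (∀ i j, |H i j| ≤ m) ∧
      ∀ x : ℕ → ℕ → ℝ, FLW_A m x (s + m) t - FLW_A m x s t =
        ∑ i ∈ range N, ∑ j ∈ range N, H i j * (x (i + 1) j - x i j) := by
  set T : Finset (ℕ × ℕ × ℕ) := range m ×ˢ (range m ×ˢ range m) with hT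
  set φ : ℕ × ℕ × ℕ → ℕ × ℕ := fun τ => (s + τ.1 + τ.2.2, t + τ.2.1) with hφ
  have hmT : ∀ τ, τ ∈ T ↔ τ.1 < m ∧ τ.2.1 < m ∧ τ.2.2 < m := by
    intro τ
    rw [hT, mem_product, mem_product, mem_range, mem_range, mem_range]
  refine ⟨fun i j => ((T.filter (fun τ => φ τ = (i, j))).card : ℝ), ?_, ?_, ?_⟩
  · intro i j h
    have h1 : (T.filter (fun τ => φ τ = (i, j))).card ≠ 0 :=
      fun h0 => h (by simp only [h0, Nat.cast_zero])
    obtain ⟨τ, hτ⟩ := card_pos.1 (Nat.pos_of_ne_zero h1)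
    rw [mem_filter, hmT, hφ, Prod.mk.injEq] at hτ
    omega
  · intro i j
    rw [abs_of_nonneg (Nat.cast_nonneg _)]
    have h1 : (T.filter (fun τ => φ τ = (i, j))).card ≤ (range m).card := by
      refine card_le_card_of_injOn (fun τ => τ.1) ?_ ?_
      · intro τ hτ
        rw [mem_coe, mem_filter, hmT] at hτ
        exact mem_coe.2 (mem_range.2 hτ.1.1)
      · intro τ hτ τ' hτ' e
        rw [mem_coe, mem_filter, hφ, Prod.mk.injEq] at hτ hτ'
        obtain ⟨a, b, c⟩ := τ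
        obtain ⟨a', b', c'⟩ := τ'
        simp only at hτ hτ' e
        have e1 : b = b' := by omega
        have e2 : c = c' := by omega
        rw [e, e1, e2]
    rw [card_range] at h1
    change (((T.filter (fun τ => φ τ = (i, j))).card : ℕ) : ℝ) ≤ m
    exact_mod_cast h1
  · intro x
    rw [← sum_product' (range N) (range N)
      (fun i j => ((T.filter (fun τ => φ τ = (i, j))).card : ℝ) * (x (i + 1) j - x i j))]
    have h1 : ∀ p ∈ range N ×ˢ range N,
        ((T.filter (fun τ => φ τ = (p.1, p.2))).card : ℝ) * (x (p.1 + 1) p.2 - x p.1 p.2) =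
        ∑ τ ∈ T.filter (fun τ => φ τ = p), (x ((φ τ).1 + 1) (φ τ).2 - x (φ τ).1 (φ τ).2) := by
      intro p _
      rw [sum_congr rfl (g := fun _ => x (p.1 + 1) p.2 - x p.1 p.2)]
      · rw [sum_const, nsmul_eq_mul]
      · intro τ hτ
        rw [(mem_filter.1 hτ).2]
    rw [sum_congr rfl h1, sum_fiberwise_of_maps_to (g := φ)]
    · rw [hT, sum_product]
      unfold FLW_A
      rw [← sum_sub_distrib]
      refine sum_congr rfl fun i _ => ?_
      rw [← sum_sub_distrib, sum_product]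
      refine sum_congr rfl fun j _ => ?_
      have h2 := FLW_tel (fun i => x i (t + j)) (s + i) m
      simp only [hφ]
      rw [← h2, show s + m + i = s + i + m by ring]
    · intro τ hτ
      rw [hmT] at hτ
      rw [mem_product, mem_range, mem_range]
      simp only [hφ]
      omega

theorem FLW_Dor (N m s t s1 s1' : ℕ) (hs : s + 2 * m ≤ N) (ht : t + m ≤ N)
    (h : (s1 = s ∧ s1' = s + m) ∨ (s1 = s + m ∧ s1' = s)) :
    ∃ H : ℕ → ℕ → ℝ,
      (∀ i j, H i j ≠ 0 → s ≤ i ∧ i + 1 < s + 2 * m ∧ t ≤ j ∧ j < t + m) ∧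
      (∀ i j, |H i j| ≤ m) ∧
      ∀ x : ℕ → ℕ → ℝ, FLW_A m x s1 t - FLW_A m x s1' t =
        ∑ i ∈ range N, ∑ j ∈ range N, H i j * (x (i + 1) j - x i j) := by
  obtain ⟨H, h1, h2, h3⟩ := FLW_D N m s t hs ht
  rcases h with ⟨rfl, rfl⟩ | ⟨rfl, rfl⟩
  · refine ⟨fun i j => -H i j, fun i j hij => h1 i j (neg_ne_zero.1 hij), fun i j => ?_, fun x => ?_⟩
    · rw [abs_neg]
      exact h2 i j
    · have h4 := h3 x
      simp only [neg_mul, sum_neg_distrib]
      rw [← h4]
      ring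
  · exact ⟨H, h1, h2, h3⟩

theorem FLW_swap (m : ℕ) (x : ℕ → ℕ → ℝ) (s t : ℕ) :
    FLW_A m (fun i j => x j i) t s = FLW_A m x s t := by
  unfold FLW_A
  rw [sum_comm]

theorem FLW_Eor (N m s t t1 t1' : ℕ) (ht : t + 2 * m ≤ N) (hs : s + m ≤ N)
    (h : (t1 = t ∧ t1' = t + m) ∨ (t1 = t + m ∧ t1' = t)) :
    ∃ H : ℕ → ℕ → ℝ,
      (∀ i j, H i j ≠ 0 → s ≤ i ∧ i < s + m ∧ t ≤ j ∧ j + 1 < t + 2 * m) ∧
      (∀ i j, |H i j| ≤ m) ∧
      ∀ x : ℕ → ℕ → ℝ, FLW_A m x s t1 - FLW_A m x s t1' =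
        ∑ i ∈ range N, ∑ j ∈ range N, H i j * (x i (j + 1) - x i j) := by
  obtain ⟨H, h1, h2, h3⟩ := FLW_Dor N m t s t1 t1' ht hs h
  refine ⟨fun i j => H j i, fun i j hij => ?_, fun i j => h2 j i, fun x => ?_⟩
  · have := h1 j i hij
    omega
  · have h4 := h3 (fun i j => x j i)
    have e1 := FLW_swap m x s t1
    have e2 := FLW_swap m x s t1'
    rw [e1, e2] at h4
    rw [h4, sum_comm]

theorem FLW_A_two (m : ℕ) (x : ℕ → ℕ → ℝ) (s t : ℕ) :
    FLW_A (2 * m) x s t = FLW_A m x s t + FLW_A m x (s + m) t + FLW_A m x s (t + m) +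
      FLW_A m x (s + m) (t + m) := by
  unfold FLW_A
  rw [two_mul, sum_range_add]
  have h : ∀ s', ∑ i ∈ range m, ∑ j ∈ range (m + m), x (s' + i) (t + j) =
      ∑ i ∈ range m, ∑ j ∈ range m, x (s' + i) (t + j) +
        ∑ i ∈ range m, ∑ j ∈ range m, x (s' + i) (t + m + j) := by
    intro s'
    rw [← sum_add_distrib]
    refine sum_congr rfl fun i _ => ?_
    rw [sum_range_add]
    simp only [add_assoc]
  have h2 := h (s + m)
  simp only [add_assoc] at h h2 ⊢
  rw [h, h2]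
  ring

theorem FLW_step (N m s t s1 t1 : ℕ) (hs : s + 2 * m ≤ N) (ht : t + 2 * m ≤ N) (hm : 0 < m)
    (hs1 : s1 = s ∨ s1 = s + m) (ht1 : t1 = t ∨ t1 = t + m) :
    ∃ h w : ℕ → ℕ → ℝ,
      (∀ i j, h i j ≠ 0 → s ≤ i ∧ i + 1 < s + 2 * m ∧ t ≤ j ∧ j < t + 2 * m) ∧
      (∀ i j, w i j ≠ 0 → s ≤ i ∧ i < s + 2 * m ∧ t ≤ j ∧ j + 1 < t + 2 * m) ∧
      (∀ i j, |h i j| ≤ 1 / (2 * m)) ∧ (∀ i j, |w i j| ≤ 1 / (2 * m)) ∧
      ∀ x : ℕ → ℕ → ℝ,
        FLW_A m x s1 t1 / (m : ℝ) ^ 2 - FLW_A (2 * m) x s t / (4 * (m : ℝ) ^ 2) =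
        ∑ i ∈ range N, ∑ j ∈ range N,
          (h i j * (x (i + 1) j - x i j) + w i j * (x i (j + 1) - x i j)) := by
  have hm0 : (0 : ℝ) < m := by exact_mod_cast hm
  obtain ⟨s1', hs1'⟩ : ∃ s1', (s1 = s ∧ s1' = s + m) ∨ (s1 = s + m ∧ s1' = s) := by
    rcases hs1 with h | h
    · exact ⟨s + m, Or.inl ⟨h, rfl⟩⟩
    · exact ⟨s, Or.inr ⟨h, rfl⟩⟩
  obtain ⟨t1', ht1'⟩ : ∃ t1', (t1 = t ∧ t1' = t + m) ∨ (t1 = t + m ∧ t1' = t) := by
    rcases ht1 with h | h
    · exact ⟨t + m, Or.inl ⟨h, rfl⟩⟩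
    · exact ⟨t, Or.inr ⟨h, rfl⟩⟩
  obtain ⟨H, a1, a2, a3⟩ := FLW_Dor N m s t1 s1 s1' hs (by omega) hs1'
  obtain ⟨V, b1, b2, b3⟩ := FLW_Eor N m s1 t t1 t1' ht (by omega) ht1'
  obtain ⟨W, c1, c2, c3⟩ := FLW_Eor N m s1' t t1 t1' ht (by omega) ht1'
  refine ⟨fun i j => (2 / (4 * (m : ℝ) ^ 2)) * H i j,
    fun i j => (1 / (4 * (m : ℝ) ^ 2)) * (V i j + W i j), ?_, ?_, ?_, ?_, ?_⟩
  · intro i j hij
    have := a1 i j (right_ne_zero_of_mul hij)
    omega
  · intro i j hij
    have h1 := right_ne_zero_of_mul hij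
    have h2 : V i j ≠ 0 ∨ W i j ≠ 0 := by
      by_contra hcon
      push Not at hcon
      exact h1 (by rw [hcon.1, hcon.2, add_zero])
    rcases h2 with h2 | h2
    · have := b1 i j h2
      omega
    · have := c1 i j h2
      omega
  · intro i j
    rw [abs_mul, abs_of_pos (by positivity)]
    calc 2 / (4 * (m : ℝ) ^ 2) * |H i j| ≤ 2 / (4 * (m : ℝ) ^ 2) * m :=
          mul_le_mul_of_nonneg_left (a2 i j) (by positivity)
      _ = 1 / (2 * m) := by
          field_simp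
          ring
  · intro i j
    rw [abs_mul, abs_of_pos (by positivity)]
    calc 1 / (4 * (m : ℝ) ^ 2) * |V i j + W i j| ≤ 1 / (4 * (m : ℝ) ^ 2) * (m + m) :=
          mul_le_mul_of_nonneg_left ((abs_add_le _ _).trans (add_le_add (b2 i j) (c2 i j)))
            (by positivity)
      _ = 1 / (2 * m) := by
          field_simp
          ring
  · intro x
    have e1 : ∑ i ∈ range N, ∑ j ∈ range N,
        ((2 / (4 * (m : ℝ) ^ 2)) * H i j * (x (i + 1) j - x i j) +
          (1 / (4 * (m : ℝ) ^ 2)) * (V i j + W i j) * (x i (j + 1) - x i j)) =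
        (2 / (4 * (m : ℝ) ^ 2)) * (∑ i ∈ range N, ∑ j ∈ range N, H i j * (x (i + 1) j - x i j)) +
        (1 / (4 * (m : ℝ) ^ 2)) * ((∑ i ∈ range N, ∑ j ∈ range N, V i j * (x i (j + 1) - x i j)) +
          ∑ i ∈ range N, ∑ j ∈ range N, W i j * (x i (j + 1) - x i j)) := by
      simp only [mul_sum, ← sum_add_distrib]
      refine sum_congr rfl fun i _ => sum_congr rfl fun j _ => ?_
      ring
    rw [e1, ← a3, ← b3, ← c3, FLW_A_two]
    have e2 : FLW_A m x s t + FLW_A m x (s + m) t + FLW_A m x s (t + m) +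
        FLW_A m x (s + m) (t + m) = FLW_A m x s1 t1 + FLW_A m x s1' t1 + FLW_A m x s1 t1' +
        FLW_A m x s1' t1' := by
      rcases hs1' with ⟨rfl, rfl⟩ | ⟨rfl, rfl⟩ <;> rcases ht1' with ⟨rfl, rfl⟩ | ⟨rfl, rfl⟩ <;> ring
    rw [e2]
    field_simp
    ring

/-- bound of a sum over the big box of a function which is supported in a small box -/
theorem FLW_box (N R s t : ℕ) (B : ℝ) (hB : 0 ≤ B) (g : ℕ → ℕ → ℝ)
    (h0 : ∀ i j, g i j ≠ 0 → s ≤ i ∧ i < s + R ∧ t ≤ j ∧ j < t + R) (hb : ∀ i j, g i j ≤ B) :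
    ∑ i ∈ range N, ∑ j ∈ range N, g i j ≤ B * (R : ℝ) ^ 2 := by
  classical
  rw [← sum_product' (range N) (range N) g]
  have h1 : ∀ p ∈ range N ×ˢ range N, g p.1 p.2 ≤
      if p ∈ Ico s (s + R) ×ˢ Ico t (t + R) then B else 0 := by
    intro p _
    split_ifs with h
    · exact hb _ _
    · by_contra hcon
      push Not at hcon
      apply h
      have := h0 p.1 p.2 hcon.ne'
      rw [mem_product, mem_Ico, mem_Ico]
      omega
  refine (sum_le_sum h1).trans ?_
  rw [← sum_filter, sum_const, nsmul_eq_mul, mul_comm]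
  refine mul_le_mul_of_nonneg_left ?_ hB
  have h2 : ((range N ×ˢ range N).filter (fun p => p ∈ Ico s (s + R) ×ˢ Ico t (t + R))).card ≤
      (Ico s (s + R) ×ˢ Ico t (t + R)).card :=
    card_le_card fun p hp => (mem_filter.1 hp).2
  rw [card_product, Nat.card_Ico, Nat.card_Ico, Nat.add_sub_cancel_left,
    Nat.add_sub_cancel_left] at h2
  calc ((((range N ×ˢ range N).filter (fun p => p ∈ Ico s (s + R) ×ˢ Ico t (t + R))).card : ℕ) : ℝ)
      ≤ ((R * R : ℕ) : ℝ) := by exact_mod_cast h2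
    _ = (R : ℝ) ^ 2 := by push_cast; ring

theorem FLW_main (N : ℕ) : ∀ k s t : ℕ, s + 2 ^ k ≤ N → t + 2 ^ k ≤ N → ∀ a < 2 ^ k, ∀ b < 2 ^ k,
    ∃ h w : ℕ → ℕ → ℝ,
      (∀ i j, h i j ≠ 0 → s ≤ i ∧ i + 1 < s + 2 ^ k ∧ t ≤ j ∧ j < t + 2 ^ k) ∧
      (∀ i j, w i j ≠ 0 → s ≤ i ∧ i < s + 2 ^ k ∧ t ≤ j ∧ j + 1 < t + 2 ^ k) ∧
      (∀ x : ℕ → ℕ → ℝ, x (s + a) (t + b) - FLW_A (2 ^ k) x s t / (4 : ℝ) ^ k =
        ∑ i ∈ range N, ∑ j ∈ range N,
          (h i j * (x (i + 1) j - x i j) + w i j * (x i (j + 1) - x i j))) ∧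
      ∑ i ∈ range N, ∑ j ∈ range N, (|h i j| + |w i j|) ≤ 4 * 2 ^ k ∧
      ∑ i ∈ range N, ∑ j ∈ range N, (h i j ^ 2 + w i j ^ 2) ≤ 6 * (k + 1) := by
  intro k
  induction k with
  | zero =>
    intro s t _ _ a ha b hb
    refine ⟨fun _ _ => 0, fun _ _ => 0, ?_, ?_, ?_, ?_, ?_⟩
    · intro i j h; exact absurd rfl h
    · intro i j h; exact absurd rfl h
    · intro x
      have ha0 : a = 0 := by simpa using ha
      have hb0 : b = 0 := by simpa using hb
      subst ha0 hb0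
      simp [FLW_A]
    · simp
    · simp
  | succ k ih =>
    intro s t hs ht a ha b hb
    have hpow : (2 : ℕ) ^ (k + 1) = 2 * 2 ^ k := by ring
    set m : ℕ := 2 ^ k with hm
    have hm0 : 0 < m := by positivity
    have hmR : (m : ℝ) = 2 ^ k := by rw [hm]; push_cast; rfl
    rw [hpow] at hs ht ha hb
    obtain ⟨s1, a1, hs1, ha1, hsa⟩ : ∃ s1 a1, (s1 = s ∨ s1 = s + m) ∧ a1 < m ∧ s1 + a1 = s + a := by
      by_cases h : a < m
      · exact ⟨s, a, Or.inl rfl, h, rfl⟩
      · exact ⟨s + m, a - m, Or.inr rfl, by omega, by omega⟩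
    obtain ⟨t1, b1, ht1, hb1, htb⟩ : ∃ t1 b1, (t1 = t ∨ t1 = t + m) ∧ b1 < m ∧ t1 + b1 = t + b := by
      by_cases h : b < m
      · exact ⟨t, b, Or.inl rfl, h, rfl⟩
      · exact ⟨t + m, b - m, Or.inr rfl, by omega, by omega⟩
    obtain ⟨h, w, i1, i2, i3, i4, i5⟩ := ih s1 t1 (by omega) (by omega) a1 ha1 b1 hb1
    obtain ⟨g, v, j1, j2, j3, j4, j5⟩ := FLW_step N m s t s1 t1 hs ht hm0 hs1 ht1
    rw [hpow]
    have hmR0 : (0 : ℝ) < m := by exact_mod_cast hm0
    have hG1 : ∑ i ∈ range N, ∑ j ∈ range N, |g i j| ≤ 2 * m := by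
      have := FLW_box N (2 * m) s t (1 / (2 * m)) (by positivity) (fun i j => |g i j|)
        (fun i j hij => by
          have := j1 i j (by simpa using hij)
          omega) j3
      refine this.trans (le_of_eq ?_)
      push_cast
      field_simp
    have hG2 : ∑ i ∈ range N, ∑ j ∈ range N, |v i j| ≤ 2 * m := by
      have := FLW_box N (2 * m) s t (1 / (2 * m)) (by positivity) (fun i j => |v i j|)
        (fun i j hij => by
          have := j2 i j (by simpa using hij)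
          omega) j4
      refine this.trans (le_of_eq ?_)
      push_cast
      field_simp
    have hsq : ∀ q : ℕ → ℕ → ℝ, (∀ i j, |q i j| ≤ 1 / (2 * m)) → ∀ i j,
        q i j ^ 2 ≤ (1 / (2 * (m : ℝ))) ^ 2 := by
      intro q hq i j
      rw [← sq_abs]
      exact pow_le_pow_left₀ (abs_nonneg _) (hq i j) 2
    have hG3 : ∑ i ∈ range N, ∑ j ∈ range N, g i j ^ 2 ≤ 1 := by
      have := FLW_box N (2 * m) s t ((1 / (2 * m)) ^ 2) (by positivity) (fun i j => g i j ^ 2)
        (fun i j hij => by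
          have := j1 i j (by
            intro h0
            exact hij (by simp only [h0]; norm_num))
          omega) (hsq g j3)
      refine this.trans (le_of_eq ?_)
      push_cast
      field_simp
    have hG4 : ∑ i ∈ range N, ∑ j ∈ range N, v i j ^ 2 ≤ 1 := by
      have := FLW_box N (2 * m) s t ((1 / (2 * m)) ^ 2) (by positivity) (fun i j => v i j ^ 2)
        (fun i j hij => by
          have := j2 i j (by
            intro h0
            exact hij (by simp only [h0]; norm_num))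
          omega) (hsq v j4)
      refine this.trans (le_of_eq ?_)
      push_cast
      field_simp
    refine ⟨fun i j => h i j + g i j, fun i j => w i j + v i j, ?_, ?_, ?_, ?_, ?_⟩
    · intro i j hij
      have : h i j ≠ 0 ∨ g i j ≠ 0 := by
        by_contra hcon
        push Not at hcon
        exact hij (by simp only [hcon.1, hcon.2, add_zero])
      rcases this with h2 | h2
      · have := i1 i j h2
        omega
      · have := j1 i j h2
        omega
    · intro i j hij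
      have : w i j ≠ 0 ∨ v i j ≠ 0 := by
        by_contra hcon
        push Not at hcon
        exact hij (by simp only [hcon.1, hcon.2, add_zero])
      rcases this with h2 | h2
      · have := i2 i j h2
        omega
      · have := j2 i j h2
        omega
    · intro x
      have e1 := i3 x
      have e2 := j5 x
      have e3 : (4 : ℝ) ^ k = (m : ℝ) ^ 2 := by
        rw [hmR, ← pow_mul, mul_comm, pow_mul]
        norm_num
      have e4 : (4 : ℝ) ^ (k + 1) = 4 * (m : ℝ) ^ 2 := by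
        rw [pow_succ, e3]
        ring
      rw [e3, hsa, htb] at e1
      rw [e4]
      have e5 : x (s + a) (t + b) - FLW_A (2 * m) x s t / (4 * (m : ℝ) ^ 2) =
          (x (s + a) (t + b) - FLW_A m x s1 t1 / (m : ℝ) ^ 2) +
          (FLW_A m x s1 t1 / (m : ℝ) ^ 2 - FLW_A (2 * m) x s t / (4 * (m : ℝ) ^ 2)) := by ring
      rw [e5, e1, e2, ← sum_add_distrib]
      refine sum_congr rfl fun i _ => ?_
      rw [← sum_add_distrib]
      refine sum_congr rfl fun j _ => ?_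
      ring
    · have e1 : ∑ i ∈ range N, ∑ j ∈ range N, (|h i j + g i j| + |w i j + v i j|) ≤
          ∑ i ∈ range N, ∑ j ∈ range N, (|h i j| + |w i j|) +
          (∑ i ∈ range N, ∑ j ∈ range N, |g i j| + ∑ i ∈ range N, ∑ j ∈ range N, |v i j|) := by
        simp only [← sum_add_distrib]
        refine sum_le_sum fun i _ => sum_le_sum fun j _ => ?_
        have := abs_add_le (h i j) (g i j)
        have := abs_add_le (w i j) (v i j)
        linarith
      refine e1.trans ?_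
      rw [pow_succ]
      rw [← hmR] at i4 ⊢
      linarith
    · have e1 : ∑ i ∈ range N, ∑ j ∈ range N, ((h i j + g i j) ^ 2 + (w i j + v i j) ^ 2) ≤
          ∑ i ∈ range N, ∑ j ∈ range N, (h i j ^ 2 + w i j ^ 2) +
          (∑ i ∈ range N, ∑ j ∈ range N, g i j ^ 2 + ∑ i ∈ range N, ∑ j ∈ range N, v i j ^ 2) +
          (1 / (m : ℝ)) * ∑ i ∈ range N, ∑ j ∈ range N, (|h i j| + |w i j|) := by
        simp only [mul_sum, ← sum_add_distrib]
        refine sum_le_sum fun i _ => sum_le_sum fun j _ => ?_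
        have key : ∀ y z : ℝ, |z| ≤ 1 / (2 * m) → 2 * y * z ≤ 1 / (m : ℝ) * |y| := by
          intro y z hz
          calc 2 * y * z ≤ |2 * y * z| := le_abs_self _
            _ = 2 * |y| * |z| := by rw [abs_mul, abs_mul, abs_two]
            _ ≤ 2 * |y| * (1 / (2 * m)) := mul_le_mul_of_nonneg_left hz (by positivity)
            _ = 1 / (m : ℝ) * |y| := by
                field_simp
        have k1 := key (h i j) (g i j) (j3 i j)
        have k2 := key (w i j) (v i j) (j4 i j)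
        nlinarith
      refine e1.trans ?_
      have e2 : (1 / (m : ℝ)) * ∑ i ∈ range N, ∑ j ∈ range N, (|h i j| + |w i j|) ≤ 4 := by
        calc (1 / (m : ℝ)) * ∑ i ∈ range N, ∑ j ∈ range N, (|h i j| + |w i j|)
            ≤ (1 / (m : ℝ)) * (4 * 2 ^ k) := mul_le_mul_of_nonneg_left i4 (by positivity)
          _ = 4 := by
              rw [← hmR]
              field_simp
      push_cast
      linarith

/-- sums over the edges of the box -/
theorem FLW_sum (R : ℕ) (F : Bx R × Bx R → ℝ) : ∑ e ∈ bE R, F e =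
    ∑ p : Bx R, ((if h : p.1.val + 1 < R then F (p, (⟨p.1.val + 1, h⟩, p.2)) else 0) +
      (if h : p.2.val + 1 < R then F (p, (p.1, ⟨p.2.val + 1, h⟩)) else 0)) := by
  classical
  unfold bE
  rw [sum_filter, Fintype.sum_prod_type]
  refine sum_congr rfl fun p _ => ?_
  have h1 : ∀ q : Bx R, (if (p.1.val + 1 = q.1.val ∧ p.2 = q.2) ∨
      (p.1 = q.1 ∧ p.2.val + 1 = q.2.val) then F (p, q) else 0) =
      (if p.1.val + 1 = q.1.val ∧ p.2 = q.2 then F (p, q) else 0) +
      (if p.1 = q.1 ∧ p.2.val + 1 = q.2.val then F (p, q) else 0) := by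
    intro q
    by_cases h2 : p.1.val + 1 = q.1.val ∧ p.2 = q.2
    · have h3 : ¬ (p.1 = q.1 ∧ p.2.val + 1 = q.2.val) := by
        rintro ⟨h3, -⟩
        rw [h3] at h2
        omega
      simp [h2, h3]
    · simp [h2]
  rw [sum_congr rfl (fun q _ => h1 q), sum_add_distrib]
  congr 1
  · split_ifs with h
    · rw [sum_eq_single ((⟨p.1.val + 1, h⟩, p.2) : Bx R)]
      · simp
      · intro q _ hq
        rw [if_neg]
        rintro ⟨h2, h3⟩
        apply hq
        ext
        · simp [h2]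
        · simp [h3]
      · intro h2
        exact absurd (mem_univ _) h2
    · refine sum_eq_zero fun q _ => ?_
      rw [if_neg]
      rintro ⟨h2, -⟩
      have := q.1.isLt
      omega
  · split_ifs with h
    · rw [sum_eq_single ((p.1, ⟨p.2.val + 1, h⟩) : Bx R)]
      · simp
      · intro q _ hq
        rw [if_neg]
        rintro ⟨h2, h3⟩
        apply hq
        ext
        · simp [h2]
        · simp [h3]
      · intro h2
        exact absurd (mem_univ _) h2
    · refine sum_eq_zero fun q _ => ?_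
      rw [if_neg]
      rintro ⟨-, h2⟩
      have := q.2.isLt
      omega

theorem FLW_range (R : ℕ) (g : ℕ → ℕ → ℝ) :
    ∑ p : Bx R, g p.1.val p.2.val = ∑ i ∈ range R, ∑ j ∈ range R, g i j := by
  rw [Fintype.sum_prod_type, sum_range]
  refine sum_congr rfl fun i _ => ?_
  rw [sum_range]

theorem FLW_fin (R k : ℕ) (hR : R = 2 ^ k) (u : Bx R) : ∃ f : Bx R × Bx R → ℝ,
    (∀ x : Bx R → ℝ,
      x u - (∑ v, x v) / (4 : ℝ) ^ k = ∑ e ∈ bE R, f e * (x e.2 - x e.1)) ∧
    ∑ e ∈ bE R, f e ^ 2 ≤ 6 * (k + 1) := by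
  obtain ⟨h, w, i1, i2, i3, -, i5⟩ := FLW_main R k 0 0 (by rw [zero_add, hR])
    (by rw [zero_add, hR]) u.1.val (hR ▸ u.1.isLt) u.2.val (hR ▸ u.2.isLt)
  rw [← hR] at i1 i2 i3
  simp only [zero_add, Nat.zero_le, true_and] at i1 i2 i3
  have hh0 : ∀ i j, ¬ (i + 1 < R ∧ j < R) → h i j = 0 := by
    intro i j hn
    by_contra hcon
    exact hn (i1 i j hcon)
  have hw0 : ∀ i j, ¬ (i < R ∧ j + 1 < R) → w i j = 0 := by
    intro i j hn
    by_contra hcon
    exact hn (i2 i j hcon)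
  set f : Bx R × Bx R → ℝ := fun e => if e.1.1.val + 1 = e.2.1.val then h e.1.1.val e.1.2.val else
    w e.1.1.val e.1.2.val with hf
  have hf1 : ∀ (p : Bx R) (h3 : p.1.val + 1 < R),
      f (p, (⟨p.1.val + 1, h3⟩, p.2)) = h p.1.val p.2.val := by
    intro p h3
    simp [hf]
  have hf2 : ∀ (p : Bx R) (h3 : p.2.val + 1 < R),
      f (p, (p.1, ⟨p.2.val + 1, h3⟩)) = w p.1.val p.2.val := by
    intro p h3
    simp [hf]
  refine ⟨f, ?_, ?_⟩
  · intro x
    set y : ℕ → ℕ → ℝ := fun i j => if hij : i < R ∧ j < R then x (⟨i, hij.1⟩, ⟨j, hij.2⟩) else 0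
      with hy
    have hyx : ∀ p : Bx R, y p.1.val p.2.val = x p := by
      intro p
      simp only [hy]
      rw [dif_pos ⟨p.1.isLt, p.2.isLt⟩]
    have e1 : FLW_A R y 0 0 = ∑ v, x v := by
      unfold FLW_A
      simp only [zero_add]
      rw [← FLW_range R y]
      exact sum_congr rfl fun p _ => hyx p
    have e2 := i3 y
    rw [e1, hyx u] at e2
    rw [e2, FLW_sum, ← FLW_range R (fun i j => h i j * (y (i + 1) j - y i j) +
      w i j * (y i (j + 1) - y i j))]
    refine sum_congr rfl fun p _ => ?_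
    congr 1
    · by_cases h3 : p.1.val + 1 < R
      · rw [dif_pos h3, hf1 p h3]
        have e3 : y (p.1.val + 1) p.2.val = x (⟨p.1.val + 1, h3⟩, p.2) := by
          simp only [hy]
          rw [dif_pos ⟨h3, p.2.isLt⟩]
        rw [e3, hyx p]
      · rw [dif_neg h3, hh0 _ _ (fun h5 => h3 h5.1), zero_mul]
    · by_cases h3 : p.2.val + 1 < R
      · rw [dif_pos h3, hf2 p h3]
        have e3 : y p.1.val (p.2.val + 1) = x (p.1, ⟨p.2.val + 1, h3⟩) := by
          simp only [hy]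
          rw [dif_pos ⟨p.1.isLt, h3⟩]
        rw [e3, hyx p]
      · rw [dif_neg h3, hw0 _ _ (fun h5 => h3 h5.2), zero_mul]
  · rw [FLW_sum]
    refine le_trans (le_of_eq ?_) i5
    rw [← FLW_range R (fun i j => h i j ^ 2 + w i j ^ 2)]
    refine sum_congr rfl fun p _ => ?_
    congr 1
    · by_cases h3 : p.1.val + 1 < R
      · rw [dif_pos h3, hf1 p h3]
      · rw [dif_neg h3, hh0 _ _ (fun h5 => h3 h5.1)]
        norm_num
    · by_cases h3 : p.2.val + 1 < R
      · rw [dif_pos h3, hf2 p h3]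
      · rw [dif_neg h3, hw0 _ _ (fun h5 => h3 h5.2)]
        norm_num

theorem flw : ∃ C : ℝ, 0 < C ∧ ∀ (k : ℕ) (u : Bx (2 ^ k)), ∃ f : Bx (2 ^ k) × Bx (2 ^ k) → ℝ,
    (∀ x : Bx (2 ^ k) → ℝ,
      x u - (∑ v, x v) / (4 : ℝ) ^ k = ∑ e ∈ bE (2 ^ k), f e * (x e.2 - x e.1)) ∧
    ∑ e ∈ bE (2 ^ k), f e ^ 2 ≤ C * (k + 1) :=
  ⟨6, by norm_num, fun k u => FLW_fin (2 ^ k) k rfl u⟩

end XYB
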