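import Mathlib

/-!
# MG2: from a Gaussian bound on exponential moments to a second moment bound

Proof.  Take `s² = 1/A`.  `exp(sY) + exp(-sY) = 2 cosh(sY) ≥ 2 + s²Y²` (`Real.one_add_... cosh`:
`cosh y ≥ 1 + y²/2`), so integrating `2 ν(Ω) + s² ∫Y² ≤ 2 e^{s²A} ν(Ω) = 2 e ν(Ω)`, i.e.
`∫ Y² ≤ 2(e-1) A ν(Ω) ≤ 4 A ν(Ω)` (`Real.exp_one_lt_d9`: e < 3 suffices).
-/

open MeasureTheory Set

noncomputable section

namespace XYB

lemma MG2_cosh (y : ℝ) : 2 + y ^ 2 ≤ Real.exp y + Real.exp (-y) := by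
  have key : (y / 2) ^ 2 ≤ Real.sinh (y / 2) ^ 2 := by
    rcases le_total 0 (y / 2) with h0 | h0
    · have := Real.self_le_sinh_iff.2 h0
      nlinarith
    · have := Real.sinh_le_self_iff.2 h0
      nlinarith
  have e1 : Real.cosh y = 1 + 2 * Real.sinh (y / 2) ^ 2 := by
    have h1 := Real.cosh_two_mul (y / 2)
    have h2 := Real.cosh_sq (y / 2)
    rw [show 2 * (y / 2) = y by ring] at h1
    rw [h1, h2]; ring
  have e2 := Real.cosh_eq y
  rw [e1] at e2
  linarith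

theorem mg2 {Ω : Type*} [MeasurableSpace Ω] (ν : Measure Ω) [IsFiniteMeasure ν] (Y : Ω → ℝ)
    (hY : AEStronglyMeasurable Y ν) {M : ℝ} (hM : ∀ᵐ ω ∂ν, |Y ω| ≤ M) {A : ℝ} (hA : 0 < A)
    (h : ∀ s : ℝ, ∫ ω, Real.exp (s * Y ω) ∂ν ≤ Real.exp (s ^ 2 * A) * ν.real univ) :
    ∫ ω, Y ω ^ 2 ∂ν ≤ 4 * A * ν.real univ := by
  set s := 1 / Real.sqrt A with hs
  have hsA : s ^ 2 * A = 1 := by
    rw [hs, div_pow, Real.sq_sqrt hA.le]; field_simp
  have hint : ∀ r : ℝ, Integrable (fun ω => Real.exp (r * Y ω)) ν := by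
    intro r
    refine Integrable.of_bound (Real.continuous_exp.comp_aestronglyMeasurable
      (hY.const_mul r)) (Real.exp (|r| * M)) ?_
    filter_upwards [hM] with ω hω
    rw [Real.norm_eq_abs, abs_of_pos (Real.exp_pos _)]
    apply Real.exp_le_exp.2
    calc r * Y ω ≤ |r * Y ω| := le_abs_self _
      _ = |r| * |Y ω| := abs_mul _ _
      _ ≤ |r| * M := by gcongr
  have hint2 : Integrable (fun ω => Y ω ^ 2) ν := by
    refine Integrable.of_bound (hY.pow 2) (M ^ 2) ?_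
    filter_upwards [hM] with ω hω
    rw [Real.norm_eq_abs, abs_of_nonneg (sq_nonneg _)]
    exact sq_le_sq' (by linarith [neg_abs_le (Y ω)]) (by linarith [le_abs_self (Y ω)])
  have h1 := h s
  have h2 := h (-s)
  rw [neg_sq] at h2
  rw [hsA] at h1 h2
  have h3 : ∫ ω, (2 + (s * Y ω) ^ 2) ∂ν ≤
      ∫ ω, (Real.exp (s * Y ω) + Real.exp (-s * Y ω)) ∂ν := by
    refine integral_mono ?_ ((hint s).add (hint (-s))) ?_
    · refine (integrable_const 2).add ?_
      have := hint2.const_mul (s ^ 2)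
      refine this.congr (Filter.Eventually.of_forall fun ω => ?_)
      simp only; ring
    · intro ω
      have := MG2_cosh (s * Y ω)
      simpa [neg_mul] using this
  rw [integral_add (hint s) (hint (-s))] at h3
  have h4 : ∫ ω, (2 + (s * Y ω) ^ 2) ∂ν = 2 * ν.real univ + s ^ 2 * ∫ ω, Y ω ^ 2 ∂ν := by
    have e : (fun ω => 2 + (s * Y ω) ^ 2) = fun ω => 2 + s ^ 2 * Y ω ^ 2 := by
      ext ω; ring
    rw [e, integral_add (integrable_const 2) (hint2.const_mul _), integral_const_mul,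
      integral_const]
    simp only [smul_eq_mul]; ring
  rw [h4] at h3
  have hν : 0 ≤ ν.real univ := measureReal_nonneg
  have he : Real.exp 1 < 3 := lt_trans Real.exp_one_lt_d9 (by norm_num)
  have h5 : s ^ 2 * ∫ ω, Y ω ^ 2 ∂ν ≤ 4 * ν.real univ := by nlinarith
  calc ∫ ω, Y ω ^ 2 ∂ν = (s ^ 2 * ∫ ω, Y ω ^ 2 ∂ν) * A := by
        rw [mul_right_comm, hsA, one_mul]
    _ ≤ 4 * ν.real univ * A := by gcongr
    _ = 4 * A * ν.real univ := by ring

end XYB
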