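import Pool.Agent.H2.XY.PLN

/-!
# PLG: Gaussian domination for the XY model without vortices

For finitely many linear forms `ℓ k` on `ℝ^ι` (`k ∈ K`) put
`D = {t : |t i| ≤ π for all i, |ℓ k t| ≤ π/3 for all k ∈ K}` (closed, convex, symmetric).  Then
`∫_D exp(∑ f_k ℓ_k) exp(β ∑ cos ℓ_k) ≤ exp((∑ f_k²)/β) ∫_D exp(β ∑ cos ℓ_k)`.

Proof.  Let `W(u) = β(1 - cos u) - (β/4) u²`; on `|u| ≤ π/3` one has
`W'' = β cos u - β/2 ≥ 0`, so `W` is convex and even there (`convexOn_of_deriv2_nonneg`).  Hence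
`exp(β ∑ cos ℓ_k) = exp(β |K|) exp(-(β/4) ∑ ℓ_k² - ∑ W(ℓ_k))`.  Put `g_k = 2 f_k / β`; completing
the square `f u - (β/4) u² = -(β/4)(u - g)² + f²/β`, the claim is `Φ(g) ≤ Φ(0)` where
`Φ(g) = ∫_D exp(-(β/4) ∑ (ℓ_k t - g_k)² - ∑ W(ℓ_k t)) dt`.
Apply `pln` to `f₁ = 1_D exp(-(β/4) ∑ (ℓ_k - g_k)² - ∑ W(ℓ_k))`,
`f₂ = 1_D exp(-(β/4) ∑ (ℓ_k + g_k)² - ∑ W(ℓ_k))`, `h = 1_D exp(-(β/4) ∑ ℓ_k² - ∑ W(ℓ_k))`
(bounded by `1` because `W ≥ 0` on `[-π/3, π/3]`: `W(0) = W'(0) = 0`, convex; support in `[-π,π]^ι`):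
for `t, t' ∈ D` the midpoint is in `D` (convex), `W((u+u')/2) ≤ (W(u)+W(u'))/2` and
`((u+u')/2)² ≤ ((u-g)² + (u'+g)²)/2`, so `f₁(t) f₂(t') ≤ h((t+t')/2)²`.  Finally
`f₂(t) = f₁(-t)` (D symmetric, W even), so `∫ f₂ = ∫ f₁` (`integral_neg_eq_self`) and
`(∫ f₁)² ≤ (∫ h)²`.
-/

open MeasureTheory Set

noncomputable section

namespace XYB

/-- the domain without vortices -/
def domL {ι κ : Type} (K : Finset κ) (l : κ → ((ι → ℝ) →ₗ[ℝ] ℝ)) : Set (ι → ℝ) :=
  {t | (∀ i, |t i| ≤ Real.pi) ∧ ∀ k ∈ K, |l k t| ≤ Real.pi / 3}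

/-- the convex function `W` -/
def PLG_W (β u : ℝ) : ℝ := β * (1 - Real.cos u) - β / 4 * u ^ 2

lemma PLG_W_neg (β u : ℝ) : PLG_W β (-u) = PLG_W β u := by
  unfold PLG_W
  rw [Real.cos_neg]
  ring

lemma PLG_W_convex {β : ℝ} (hβ : 0 < β) :
    ConvexOn ℝ (Icc (-(Real.pi / 3)) (Real.pi / 3)) (PLG_W β) := by
  have hd : ∀ u, HasDerivAt (PLG_W β) (β * Real.sin u - β / 2 * u) u := by
    intro u
    have h1 := ((((Real.hasDerivAt_cos u).const_sub 1).const_mul β)).sub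
      (((hasDerivAt_id u).pow 2).const_mul (β / 4))
    have e : β * Real.sin u - β / 2 * u =
        β * (-(-Real.sin u)) - β / 4 * (((2 : ℕ) : ℝ) * id u ^ (2 - 1) * 1) := by
      simp only [id]
      push_cast
      ring
    rw [e]
    exact h1
  have hd2 : ∀ u, HasDerivAt (fun u => β * Real.sin u - β / 2 * u) (β * Real.cos u - β / 2) u := by
    intro u
    have h1 := ((Real.hasDerivAt_sin u).const_mul β).sub ((hasDerivAt_id u).const_mul (β / 2))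
    have e : β * Real.cos u - β / 2 = β * Real.cos u - β / 2 * 1 := by ring
    rw [e]
    exact h1
  have hdf : deriv (PLG_W β) = fun u => β * Real.sin u - β / 2 * u :=
    funext fun u => (hd u).deriv
  refine convexOn_of_deriv2_nonneg (convex_Icc _ _) ?_ ?_ ?_ ?_
  · exact fun u _ => (hd u).continuousAt.continuousWithinAt
  · exact fun u _ => (hd u).differentiableAt.differentiableWithinAt
  · rw [hdf]
    exact fun u _ => (hd2 u).differentiableAt.differentiableWithinAt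
  · intro u hu
    rw [interior_Icc] at hu
    have e : deriv^[2] (PLG_W β) u = β * Real.cos u - β / 2 := by
      change deriv (deriv (PLG_W β)) u = _
      rw [hdf]
      exact (hd2 u).deriv
    rw [e]
    have hc : 1 / 2 ≤ Real.cos u := by
      rw [← Real.cos_pi_div_three, ← Real.cos_abs u]
      refine Real.cos_le_cos_of_nonneg_of_le_pi (abs_nonneg u) (by linarith [Real.pi_pos]) ?_
      exact abs_le.2 ⟨hu.1.le, hu.2.le⟩
    nlinarith

lemma PLG_W_mid {β : ℝ} (hβ : 0 < β) {u v : ℝ} (hu : |u| ≤ Real.pi / 3)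
    (hv : |v| ≤ Real.pi / 3) : PLG_W β ((2 : ℝ)⁻¹ * (u + v)) ≤ (PLG_W β u + PLG_W β v) / 2 := by
  have h := (PLG_W_convex hβ).2 (abs_le.1 hu) (abs_le.1 hv)
    (by norm_num : (0 : ℝ) ≤ 1 / 2) (by norm_num : (0 : ℝ) ≤ 1 / 2) (by norm_num)
  simp only [smul_eq_mul] at h
  have e : (2 : ℝ)⁻¹ * (u + v) = 1 / 2 * u + 1 / 2 * v := by ring
  rw [e]
  linarith

lemma PLG_W_nonneg {β : ℝ} (hβ : 0 < β) {u : ℝ} (hu : |u| ≤ Real.pi / 3) : 0 ≤ PLG_W β u := by
  have h := PLG_W_mid hβ hu (by rwa [abs_neg] : |-u| ≤ Real.pi / 3)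
  rw [PLG_W_neg, add_neg_cancel, mul_zero] at h
  have h0 : PLG_W β 0 = 0 := by simp [PLG_W]
  rw [h0] at h
  linarith

lemma PLG_meas_l {ι : Type} [Fintype ι] (l : (ι → ℝ) →ₗ[ℝ] ℝ) : Continuous fun t => l t :=
  l.continuous_of_finiteDimensional

lemma PLG_dom_meas {ι κ : Type} [Fintype ι] (K : Finset κ) (l : κ → ((ι → ℝ) →ₗ[ℝ] ℝ)) :
    MeasurableSet (domL K l) := by
  have e : domL K l = (⋂ i, {t : ι → ℝ | |t i| ≤ Real.pi}) ∩
      ⋂ k ∈ K, {t : ι → ℝ | |l k t| ≤ Real.pi / 3} := by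
    ext t
    simp only [domL, mem_setOf_eq, mem_inter_iff, mem_iInter]
  rw [e]
  refine MeasurableSet.inter (MeasurableSet.iInter fun i => ?_)
    (Finset.measurableSet_biInter K fun k _ => ?_)
  · exact measurableSet_le (by fun_prop) measurable_const
  · exact measurableSet_le (continuous_abs.comp (PLG_meas_l (l k))).measurable measurable_const

/-- the exponent -/
def PLG_ex {ι κ : Type} (K : Finset κ) (l : κ → ((ι → ℝ) →ₗ[ℝ] ℝ)) (β : ℝ) (g : κ → ℝ)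
    (t : ι → ℝ) : ℝ :=
  -(β / 4) * ∑ k ∈ K, (l k t - g k) ^ 2 - ∑ k ∈ K, PLG_W β (l k t)

/-- the weight -/
def PLG_F {ι κ : Type} (K : Finset κ) (l : κ → ((ι → ℝ) →ₗ[ℝ] ℝ)) (β : ℝ) (g : κ → ℝ)
    (t : ι → ℝ) : ℝ :=
  (domL K l).indicator (fun t => Real.exp (PLG_ex K l β g t)) t

lemma PLG_ex_cont {ι κ : Type} [Fintype ι] (K : Finset κ) (l : κ → ((ι → ℝ) →ₗ[ℝ] ℝ)) (β : ℝ)
    (g : κ → ℝ) : Continuous (PLG_ex K l β g) := by
  unfold PLG_ex PLG_W
  have h := fun k => PLG_meas_l (l k)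
  refine Continuous.sub (Continuous.mul continuous_const (continuous_finset_sum _ fun k _ => ?_))
    (continuous_finset_sum _ fun k _ => ?_)
  · exact ((h k).sub continuous_const).pow 2
  · exact (continuous_const.mul (continuous_const.sub (Real.continuous_cos.comp (h k)))).sub
      (continuous_const.mul ((h k).pow 2))

lemma PLG_F_meas {ι κ : Type} [Fintype ι] (K : Finset κ) (l : κ → ((ι → ℝ) →ₗ[ℝ] ℝ)) (β : ℝ)
    (g : κ → ℝ) : Measurable (PLG_F K l β g) :=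
  ((Real.continuous_exp.comp (PLG_ex_cont K l β g)).measurable).indicator (PLG_dom_meas K l)

lemma PLG_F_nonneg {ι κ : Type} (K : Finset κ) (l : κ → ((ι → ℝ) →ₗ[ℝ] ℝ)) (β : ℝ)
    (g : κ → ℝ) (t : ι → ℝ) : 0 ≤ PLG_F K l β g t :=
  indicator_nonneg (fun _ _ => (Real.exp_pos _).le) t

lemma PLG_F_le_one {ι κ : Type} (K : Finset κ) (l : κ → ((ι → ℝ) →ₗ[ℝ] ℝ)) {β : ℝ} (hβ : 0 < β)
    (g : κ → ℝ) (t : ι → ℝ) : PLG_F K l β g t ≤ 1 := by
  unfold PLG_F
  refine indicator_le' (fun t ht => ?_) (fun _ _ => zero_le_one) t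
  rw [← Real.exp_zero]
  refine Real.exp_le_exp.2 ?_
  unfold PLG_ex
  have h1 : 0 ≤ ∑ k ∈ K, (l k t - g k) ^ 2 := Finset.sum_nonneg fun k _ => sq_nonneg _
  have h2 : 0 ≤ ∑ k ∈ K, PLG_W β (l k t) := Finset.sum_nonneg fun k hk =>
    PLG_W_nonneg hβ (ht.2 k hk)
  nlinarith [mul_nonneg hβ.le h1]

lemma PLG_F_supp {ι κ : Type} (K : Finset κ) (l : κ → ((ι → ℝ) →ₗ[ℝ] ℝ)) (β : ℝ)
    (g : κ → ℝ) (t : ι → ℝ) (h : ∃ i, Real.pi < |t i|) : PLG_F K l β g t = 0 := by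
  refine indicator_of_notMem (fun ht => ?_) _
  obtain ⟨i, hi⟩ := h
  exact absurd (ht.1 i) (not_le.2 hi)

lemma PLG_F_neg {ι κ : Type} (K : Finset κ) (l : κ → ((ι → ℝ) →ₗ[ℝ] ℝ)) (β : ℝ)
    (g : κ → ℝ) (t : ι → ℝ) : PLG_F K l β (fun k => -g k) (-t) = PLG_F K l β g t := by
  have hd : -t ∈ domL K l ↔ t ∈ domL K l := by
    simp only [domL, mem_setOf_eq, Pi.neg_apply, abs_neg, map_neg]
  have he : PLG_ex K l β (fun k => -g k) (-t) = PLG_ex K l β g t := by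
    unfold PLG_ex
    simp only [map_neg, PLG_W_neg]
    congr 2
    refine Finset.sum_congr rfl fun k _ => ?_
    ring
  unfold PLG_F
  by_cases h : t ∈ domL K l
  · rw [indicator_of_mem h, indicator_of_mem (hd.2 h), he]
  · rw [indicator_of_notMem h, indicator_of_notMem (fun h' => h (hd.1 h'))]

/-- the Prékopa–Leindler hypothesis -/
lemma PLG_mid {ι κ : Type} (K : Finset κ) (l : κ → ((ι → ℝ) →ₗ[ℝ] ℝ)) {β : ℝ} (hβ : 0 < β)
    (g : κ → ℝ) (x y : ι → ℝ) :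
    PLG_F K l β g x * PLG_F K l β (fun k => -g k) y ≤
      PLG_F K l β (fun _ => 0) ((2:ℝ)⁻¹ • (x + y)) ^ 2 := by
  by_cases hx : x ∈ domL K l
  swap
  · have h0 : PLG_F K l β g x = 0 := indicator_of_notMem hx _
    rw [h0, zero_mul]
    positivity
  by_cases hy : y ∈ domL K l
  swap
  · have h0 : PLG_F K l β (fun k => -g k) y = 0 := indicator_of_notMem hy _
    rw [h0, mul_zero]
    positivity
  have hm : (2:ℝ)⁻¹ • (x + y) ∈ domL K l := by
    refine ⟨fun i => ?_, fun k hk => ?_⟩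
    · have h1 := hx.1 i
      have h2 := hy.1 i
      simp only [Pi.smul_apply, Pi.add_apply, smul_eq_mul]
      rw [abs_le] at h1 h2 ⊢
      constructor <;> linarith [h1.1, h1.2, h2.1, h2.2]
    · have h1 := hx.2 k hk
      have h2 := hy.2 k hk
      rw [map_smul, map_add, smul_eq_mul]
      rw [abs_le] at h1 h2 ⊢
      constructor <;> linarith [h1.1, h1.2, h2.1, h2.2]
  unfold PLG_F
  rw [indicator_of_mem hx, indicator_of_mem hy, indicator_of_mem hm, ← Real.exp_add,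
    sq, ← Real.exp_add]
  refine Real.exp_le_exp.2 ?_
  unfold PLG_ex
  have hW : ∑ k ∈ K, PLG_W β (l k ((2:ℝ)⁻¹ • (x + y))) ≤
      ∑ k ∈ K, (PLG_W β (l k x) + PLG_W β (l k y)) / 2 := by
    refine Finset.sum_le_sum fun k hk => ?_
    rw [map_smul, map_add, smul_eq_mul]
    exact PLG_W_mid hβ (hx.2 k hk) (hy.2 k hk)
  have hS : ∑ k ∈ K, (l k ((2:ℝ)⁻¹ • (x + y)) - 0) ^ 2 ≤
      ∑ k ∈ K, ((l k x - g k) ^ 2 + (l k y - -g k) ^ 2) / 2 := by
    refine Finset.sum_le_sum fun k _ => ?_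
    rw [map_smul, map_add, smul_eq_mul]
    nlinarith [sq_nonneg ((l k x - g k) - (l k y - -g k))]
  rw [← Finset.sum_div, Finset.sum_add_distrib] at hW hS
  nlinarith [mul_le_mul_of_nonneg_left hS hβ.le]

/-- the shifted integral is largest without shift -/
lemma PLG_main {ι κ : Type} [Fintype ι] (K : Finset κ) (l : κ → ((ι → ℝ) →ₗ[ℝ] ℝ)) {β : ℝ}
    (hβ : 0 < β) (g : κ → ℝ) :
    ∫ t, PLG_F K l β g t ≤ ∫ t, PLG_F K l β (fun _ => 0) t := by
  have h := pln (PLG_F_meas K l β g) (PLG_F_meas K l β (fun k => -g k))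
    (PLG_F_meas K l β (fun _ => 0)) (PLG_F_nonneg K l β _) (PLG_F_nonneg K l β _)
    (PLG_F_nonneg K l β _) (PLG_F_le_one K l hβ _) (PLG_F_le_one K l hβ _)
    (PLG_F_le_one K l hβ _) (PLG_F_supp K l β _) (PLG_F_supp K l β _) (PLG_F_supp K l β _)
    (PLG_mid K l hβ g)
  have h2 : ∫ t, PLG_F K l β (fun k => -g k) t = ∫ t, PLG_F K l β g t := by
    rw [← integral_neg_eq_self]
    exact integral_congr_ae (Filter.Eventually.of_forall fun t => PLG_F_neg K l β g t)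
  rw [h2, ← sq] at h
  exact le_of_sq_le_sq h (integral_nonneg fun t => PLG_F_nonneg K l β _ t)

theorem plg {ι κ : Type} [Fintype ι] (K : Finset κ) (l : κ → ((ι → ℝ) →ₗ[ℝ] ℝ))
    {β : ℝ} (hβ : 0 < β) (f : κ → ℝ) :
    ∫ t in domL K l, Real.exp (∑ k ∈ K, f k * l k t) * Real.exp (β * ∑ k ∈ K, Real.cos (l k t)) ≤
      Real.exp ((∑ k ∈ K, f k ^ 2) / β) *
        ∫ t in domL K l, Real.exp (β * ∑ k ∈ K, Real.cos (l k t)) := by
  have h := PLG_main K l hβ (fun k => 2 * f k / β)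
  have e0 : ∫ t, PLG_F K l β (fun _ => 0) t =
      Real.exp (-(β * (K.card : ℝ))) *
        ∫ t in domL K l, Real.exp (β * ∑ k ∈ K, Real.cos (l k t)) := by
    unfold PLG_F
    rw [integral_indicator (PLG_dom_meas K l), ← integral_const_mul]
    refine integral_congr_ae (Filter.Eventually.of_forall fun t => ?_)
    change Real.exp _ = Real.exp _ * Real.exp _
    rw [← Real.exp_add]
    congr 1
    unfold PLG_ex PLG_W
    simp only [sub_zero, Finset.sum_sub_distrib, ← Finset.mul_sum, Finset.sum_const,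
      nsmul_eq_mul, mul_one]
    ring
  have e1 : ∫ t, PLG_F K l β (fun k => 2 * f k / β) t =
      Real.exp (-(β * (K.card : ℝ)) - (∑ k ∈ K, f k ^ 2) / β) *
        ∫ t in domL K l, Real.exp (∑ k ∈ K, f k * l k t) *
          Real.exp (β * ∑ k ∈ K, Real.cos (l k t)) := by
    unfold PLG_F
    rw [integral_indicator (PLG_dom_meas K l), ← integral_const_mul]
    refine integral_congr_ae (Filter.Eventually.of_forall fun t => ?_)
    change Real.exp _ = Real.exp _ * (Real.exp _ * Real.exp _)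
    rw [← Real.exp_add, ← Real.exp_add]
    congr 1
    have e2 : -(β / 4) * ∑ k ∈ K, (l k t - 2 * f k / β) ^ 2 =
        -(β / 4) * ∑ k ∈ K, (l k t) ^ 2 + ∑ k ∈ K, f k * l k t - (∑ k ∈ K, f k ^ 2) / β := by
      rw [Finset.mul_sum, Finset.mul_sum, Finset.sum_div, ← Finset.sum_add_distrib,
        ← Finset.sum_sub_distrib]
      refine Finset.sum_congr rfl fun k _ => ?_
      field_simp
      ring
    unfold PLG_ex
    rw [e2]
    unfold PLG_W
    simp only [Finset.sum_sub_distrib, ← Finset.mul_sum, Finset.sum_const,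
      nsmul_eq_mul, mul_one]
    ring
  rw [e0, e1, Real.exp_sub, div_mul_eq_mul_div, div_le_iff₀ (Real.exp_pos _)] at h
  have hp := Real.exp_pos (-(β * (K.card : ℝ)))
  nlinarith

end XYB
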