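import Pool.Agent.H2.XY.UDef

/-!
# UN1: Haar measure in comb coordinates

Proof.  `Φ : (Bx R → Cir) → (Bx R → Cir)`, `Φ t v = pth t v` is a continuous homomorphism.  It is
surjective: given `θ` put `t v = θ v - θ (v - e₂)` if `v.2 > 0`, `t v = θ v - θ (v - e₁)` if `v.2 = 0`,
`v.1 > 0`, `t (0,0) = θ (0,0)`; then `pth t v = θ v` by induction on `v.2` and then (row 0) on `v.1`
(`anc v = insert v (anc (v - e₂))` resp. `insert v (anc (v - e₁))`).  So `Φ` preserves
`haarP (Bx R → Cir)` (`mp_surj`).  Next, `haarP (Bx R → Cir) = Measure.pi haarP` (`haarP_pi`), and the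
quotient map `(-π, π] → Cir` sends Lebesgue measure to `volume = 2π • haarAddCircle`
(`AddCircle.measurePreserving_mk (2π) (-π)`, `AddCircle.volume_eq_smul_haarAddCircle`,
`haarP_cir`), so the product map sends `volume.restrict (pi univ (Ioc (-π) π))`
(`Measure.restrict_pi_pi`) to `(2π)^(R²) • haarP` (`measurePreserving_pi`).
Compose; `pth` commutes with the coercion `ℝ → Cir`.
-/

open MeasureTheory Set

noncomputable section

namespace XYB

theorem UN1_up {R : ℕ} (v v' : Bx R) (h1 : v'.1 = v.1) (h2 : v'.2.val + 1 = v.2.val) :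
    anc v = insert v (anc v') ∧ v ∉ anc v' := by
  constructor
  · ext w
    simp only [anc, Finset.mem_filter, Finset.mem_univ, true_and, Finset.mem_insert,
      Prod.ext_iff, Fin.ext_iff, h1]
    omega
  · simp only [anc, Finset.mem_filter, Finset.mem_univ, true_and, Fin.ext_iff, h1]
    omega

theorem UN1_right {R : ℕ} (v v' : Bx R) (h1 : v'.1.val + 1 = v.1.val) (h2 : v'.2 = v.2)
    (h3 : v.2.val = 0) : anc v = insert v (anc v') ∧ v ∉ anc v' := by
  constructor
  · ext w
    simp only [anc, Finset.mem_filter, Finset.mem_univ, true_and, Finset.mem_insert,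
      Prod.ext_iff, Fin.ext_iff, h2]
    omega
  · simp only [anc, Finset.mem_filter, Finset.mem_univ, true_and, Fin.ext_iff, h2]
    omega

theorem UN1_zero {R : ℕ} (v : Bx R) (h1 : v.1.val = 0) (h2 : v.2.val = 0) : anc v = {v} := by
  ext w
  simp only [anc, Finset.mem_filter, Finset.mem_univ, true_and, Finset.mem_singleton,
    Prod.ext_iff, Fin.ext_iff]
  omega

/-- path sums as a homomorphism -/
def UN1_hom (R : ℕ) : (Bx R → Cir) →+ (Bx R → Cir) where
  toFun t v := pth t v
  map_zero' := by
    funext v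
    simp [pth]
  map_add' s t := by
    funext v
    simp [pth, Finset.sum_add_distrib]

theorem UN1_cont (R : ℕ) : Continuous (UN1_hom R) := by
  refine continuous_pi fun v => ?_
  show Continuous fun t : Bx R → Cir => ∑ w ∈ anc v, t w
  exact continuous_finsetSum _ fun w _ => continuous_apply w

theorem UN1_surj (R : ℕ) : Function.Surjective (UN1_hom R) := by
  intro θ
  set t : Bx R → Cir := fun v =>
    if h : 0 < v.2.val then θ v - θ (v.1, ⟨v.2.val - 1, by omega⟩)
    else if h' : 0 < v.1.val then θ v - θ (⟨v.1.val - 1, by omega⟩, v.2) else θ v with ht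
  refine ⟨t, ?_⟩
  have key : ∀ n : ℕ, ∀ v : Bx R, v.1.val + v.2.val = n → pth t v = θ v := by
    intro n
    induction n with
    | zero =>
      intro v hv
      have h1 : v.1.val = 0 := by omega
      have h2 : v.2.val = 0 := by omega
      rw [pth, UN1_zero v h1 h2, Finset.sum_singleton, ht]
      simp only
      rw [dif_neg (by omega), dif_neg (by omega)]
    | succ n ih =>
      intro v hv
      by_cases h : 0 < v.2.val
      · obtain ⟨h1, h2⟩ := UN1_up v (v.1, ⟨v.2.val - 1, by omega⟩) rfl
          (by show v.2.val - 1 + 1 = v.2.val; omega)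
        have h3 := ih (v.1, ⟨v.2.val - 1, by omega⟩)
          (by show v.1.val + (v.2.val - 1) = n; omega)
        rw [pth] at h3 ⊢
        rw [h1, Finset.sum_insert h2, h3, ht]
        simp only
        rw [dif_pos h, sub_add_cancel]
      · have h' : 0 < v.1.val := by omega
        obtain ⟨h1, h2⟩ := UN1_right v (⟨v.1.val - 1, by omega⟩, v.2)
          (by show v.1.val - 1 + 1 = v.1.val; omega) rfl (by omega)
        have h3 := ih (⟨v.1.val - 1, by omega⟩, v.2)
          (by show v.1.val - 1 + v.2.val = n; omega)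
        rw [pth] at h3 ⊢
        rw [h1, Finset.sum_insert h2, h3, ht]
        simp only
        rw [dif_neg h, dif_pos h', sub_add_cancel]
  funext v
  exact key _ v rfl

theorem UN1_one : MeasurePreserving ((↑) : ℝ → Cir)
    (ENNReal.ofReal ((2 * Real.pi)⁻¹) • (volume : Measure ℝ).restrict (Ioc (-Real.pi) Real.pi))
    (haarP Cir) := by
  have h1 := AddCircle.measurePreserving_mk (2 * Real.pi) (-Real.pi)
  rw [show -Real.pi + 2 * Real.pi = Real.pi by ring] at h1
  refine ⟨h1.measurable, ?_⟩
  rw [Measure.map_smul, h1.map_eq, AddCircle.volume_eq_smul_haarAddCircle, smul_smul,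
    ← ENNReal.ofReal_mul (by positivity), inv_mul_cancel₀ Real.two_pi_pos.ne',
    ENNReal.ofReal_one, one_smul]
  rfl

theorem UN1_pi (R : ℕ) : Measure.pi (fun _ : Bx R =>
      ENNReal.ofReal ((2 * Real.pi)⁻¹) •
        (volume : Measure ℝ).restrict (Ioc (-Real.pi) Real.pi)) =
    ENNReal.ofReal (((2 * Real.pi) ^ (R * R))⁻¹) •
      (volume : Measure (Bx R → ℝ)).restrict (Set.pi univ fun _ => Ioc (-Real.pi) Real.pi) := by
  haveI : IsFiniteMeasure ((volume : Measure ℝ).restrict (Ioc (-Real.pi) Real.pi)) :=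
    ⟨by rw [Measure.restrict_apply_univ, Real.volume_Ioc]; exact ENNReal.ofReal_lt_top⟩
  haveI : IsFiniteMeasure (ENNReal.ofReal ((2 * Real.pi)⁻¹) •
      (volume : Measure ℝ).restrict (Ioc (-Real.pi) Real.pi)) :=
    Measure.smul_finite _ ENNReal.ofReal_ne_top
  refine Measure.pi_eq fun s hs => ?_
  rw [volume_pi, Measure.restrict_pi_pi, Measure.smul_apply, Measure.pi_pi]
  simp only [Measure.smul_apply, smul_eq_mul]
  rw [Finset.prod_mul_distrib, Finset.prod_const, Finset.card_univ, Fintype.card_prod,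
    Fintype.card_fin, ← ENNReal.ofReal_pow (by positivity), inv_pow]

theorem un1 (R : ℕ) :
    MeasurePreserving (fun (t : Bx R → ℝ) (v : Bx R) => ((pth t v : ℝ) : Cir))
      (ENNReal.ofReal (((2 * Real.pi) ^ (R * R))⁻¹) •
        (volume : Measure (Bx R → ℝ)).restrict (Set.pi univ fun _ => Ioc (-Real.pi) Real.pi))
      (haarP (Bx R → Cir)) := by
  have h1 : MeasurePreserving (fun (t : Bx R → ℝ) (v : Bx R) => ((t v : ℝ) : Cir))
      (Measure.pi (fun _ : Bx R => ENNReal.ofReal ((2 * Real.pi)⁻¹) •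
        (volume : Measure ℝ).restrict (Ioc (-Real.pi) Real.pi)))
      (Measure.pi fun _ : Bx R => haarP Cir) :=
    measurePreserving_pi _ _ fun _ => UN1_one
  rw [UN1_pi, ← haarP_pi] at h1
  have h2 := (mp_surj (UN1_hom R) (UN1_cont R) (UN1_surj R)).comp h1
  have h3 : (fun (t : Bx R → ℝ) (v : Bx R) => ((pth t v : ℝ) : Cir)) =
      (UN1_hom R) ∘ (fun (t : Bx R → ℝ) (v : Bx R) => ((t v : ℝ) : Cir)) := by
    funext t v
    show ((pth t v : ℝ) : Cir) = pth (fun v => ((t v : ℝ) : Cir)) v
    rw [pth, pth]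
    exact map_sum (QuotientAddGroup.mk' (AddSubgroup.zmultiples (2 * Real.pi))) t (anc v)
  rw [h3]
  exact h2

end XYB
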