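import Pool.Agent.H2.XY.UDef

/-!
# UN2: if no edge is bad then all increments of the lift are small

Proof.  First, for `e = (v - e₂, v)` (vertical edge, `v.2 > 0`): `pth t v - pth t (v - e₂) = t v`, and
for the horizontal edge `(v - e₁, v)` of row `0`: `pth t v - pth t (v - e₁) = t v`; here
`t v ∈ (-π, π]` and `cos (t v) ≥ 1/2`, so `|t v| ≤ π/3` (`cos` is decreasing on `[0, π]`,
`cos (π/3) = 1/2`).  For horizontal edges `((i,j),(i+1,j))` use induction on `j`: with
`s_j = pth t (i+1,j) - pth t (i,j)` one has `s_{j+1} = s_j + t (i+1,j+1) - t (i,j+1)`, and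
`t (i+1,j+1), t (i,j+1)` are increments of vertical edges, so `|s_{j+1}| ≤ π/3 + π/3 + π/3 = π`;
as `cos s_{j+1} ≥ 1/2` we get `|s_{j+1}| ≤ π/3`.
-/

open Set

noncomputable section

namespace XYB

theorem UN2_cos {x : ℝ} (hx : |x| ≤ Real.pi) (hc : 1 / 2 ≤ Real.cos x) : |x| ≤ Real.pi / 3 := by
  by_contra hn
  push Not at hn
  have h1 := Real.cos_lt_cos_of_nonneg_of_le_pi (by positivity) hx hn
  rw [Real.cos_abs, Real.cos_pi_div_three] at h1
  linarith

theorem UN2_vert {R : ℕ} (t : Bx R → ℝ) {u v : Bx R} (h1 : u.1 = v.1)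
    (h2 : u.2.val + 1 = v.2.val) : pth t v = pth t u + t v := by
  have h3 : anc v = insert v (anc u) := by
    ext w
    simp only [anc, Finset.mem_filter, Finset.mem_univ, true_and, Finset.mem_insert]
    constructor
    · rintro (⟨a, b⟩ | ⟨a, b, c⟩)
      · right; left
        rw [h1]
        exact ⟨a, b⟩
      · by_cases hw : w.2.val = v.2.val
        · left
          exact Prod.ext a (Fin.ext hw)
        · right; right
          exact ⟨a.trans h1.symm, b, by omega⟩
    · rintro (rfl | ⟨a, b⟩ | ⟨a, b, c⟩)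
      · right
        exact ⟨rfl, by omega, le_rfl⟩
      · left
        rw [← h1]
        exact ⟨a, b⟩
      · right
        exact ⟨a.trans h1, b, by omega⟩
  have h4 : v ∉ anc u := by
    simp only [anc, Finset.mem_filter, Finset.mem_univ, true_and, not_or, not_and]
    refine ⟨fun h => by omega, fun _ _ => by omega⟩
  rw [pth, pth, h3, Finset.sum_insert h4, add_comm]

theorem UN2_row {R : ℕ} (t : Bx R → ℝ) {u v : Bx R} (h1 : u.1.val + 1 = v.1.val)
    (h2 : u.2 = v.2) (h3 : v.2.val = 0) : pth t v = pth t u + t v := by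
  have h4 : anc v = insert v (anc u) := by
    ext w
    simp only [anc, Finset.mem_filter, Finset.mem_univ, true_and, Finset.mem_insert]
    constructor
    · rintro (⟨a, b⟩ | ⟨a, b, c⟩)
      · by_cases hw : w.1.val = v.1.val
        · left
          exact Prod.ext (Fin.ext hw) (Fin.ext (a.trans h3.symm))
        · right; left
          exact ⟨a, by omega⟩
      · omega
    · rintro (rfl | ⟨a, b⟩ | ⟨a, b, c⟩)
      · left
        exact ⟨h3, le_rfl⟩
      · left
        exact ⟨a, by omega⟩
      · rw [h2] at c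
        omega
  have h5 : v ∉ anc u := by
    simp only [anc, Finset.mem_filter, Finset.mem_univ, true_and, not_or, not_and]
    refine ⟨fun _ => by omega, fun h => ?_⟩
    rw [h] at h1
    omega
  rw [pth, pth, h4, Finset.sum_insert h5, add_comm]

theorem un2 {R : ℕ} (t : Bx R → ℝ) (ht : ∀ v, t v ∈ Ioc (-Real.pi) Real.pi)
    (h : ∀ e ∈ bE R, 1 / 2 ≤ Real.cos (pth t e.2 - pth t e.1)) :
    ∀ e ∈ bE R, |pth t e.2 - pth t e.1| ≤ Real.pi / 3 := by
  have hpi := Real.pi_pos
  have habs : ∀ v, |t v| ≤ Real.pi := fun v => abs_le.2 ⟨(ht v).1.le, (ht v).2⟩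
  have hV : ∀ u v : Bx R, u.1 = v.1 → u.2.val + 1 = v.2.val → |t v| ≤ Real.pi / 3 := by
    intro u v h1 h2
    have h3 := UN2_vert t h1 h2
    have h4 := h (u, v) (by
      simp only [bE, Finset.mem_filter, Finset.mem_univ, true_and]
      exact Or.inr ⟨h1, h2⟩)
    simp only [h3, add_sub_cancel_left] at h4
    exact UN2_cos (habs v) h4
  have hH : ∀ n : ℕ, ∀ u v : Bx R, u.1.val + 1 = v.1.val → u.2 = v.2 → v.2.val = n →
      |pth t v - pth t u| ≤ Real.pi / 3 := by
    intro n
    induction n with
    | zero =>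
      intro u v h1 h2 h3
      have h4 := UN2_row t h1 h2 h3
      have h5 := h (u, v) (by
        simp only [bE, Finset.mem_filter, Finset.mem_univ, true_and]
        exact Or.inl ⟨h1, h2⟩)
      simp only [h4, add_sub_cancel_left] at h5
      rw [h4, add_sub_cancel_left]
      exact UN2_cos (habs v) h5
    | succ n ih =>
      intro u v h1 h2 h3
      have hn : n < R := by
        have := v.2.isLt
        omega
      set u' : Bx R := (u.1, ⟨n, hn⟩) with hu'
      set v' : Bx R := (v.1, ⟨n, hn⟩) with hv'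
      have i1 := ih u' v' h1 rfl rfl
      have e1 := UN2_vert t (u := v') (v := v) rfl h3.symm
      have hu2 : u'.2.val + 1 = u.2.val := by
        rw [h2]; exact h3.symm
      have e2 := UN2_vert t (u := u') (v := u) rfl hu2
      have a1 := hV v' v rfl h3.symm
      have a2 := hV u' u rfl hu2
      have h5 := h (u, v) (by
        simp only [bE, Finset.mem_filter, Finset.mem_univ, true_and]
        exact Or.inl ⟨h1, h2⟩)
      refine UN2_cos ?_ h5
      rw [abs_le] at i1 a1 a2 ⊢
      constructor <;> linarith [i1.1, i1.2, a1.1, a1.2, a2.1, a2.2]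
  intro e he
  simp only [bE, Finset.mem_filter, Finset.mem_univ, true_and] at he
  rcases he with ⟨h1, h2⟩ | ⟨h1, h2⟩
  · exact hH _ e.1 e.2 h1 h2 rfl
  · rw [UN2_vert t h1 h2, add_sub_cancel_left]
    exact hV _ _ h1 h2

end XYB
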