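import Pool.Agent.H2.XY.GC
import Pool.Agent.H2.XY.PLG
import Pool.Agent.H2.XY.MG2
import Pool.Agent.H2.XY.FLW
import Pool.Agent.H2.XY.UN1
import Pool.Agent.H2.XY.UN2

/-!
# COH: coherence of one XY layer in the free box of side `2^k`

Proof.  `R = 2^k`, `H θ = β hXY (bE R) θ`, `μ = gM H`, `Z = ∫ e^H dHaar`,
`G = {θ : cosC (θ e.2 - θ e.1) ≥ 1/2 for all e ∈ bE R}` (closed).
(1) `gE H (1 - cos (θ_u - θ_v)) = ∫ (1 - cos) dμ` (`gE_eq`) `≤ 2 μ(Gᶜ) + ∫_G (1 - cos (θ_u - θ_v)) dμ`.
(2) `μ(Gᶜ) ≤ ∑_{e ∈ bE R} μ(cos ∇θ_e < 1/2) ≤ |bE R| e^{β/2} / I0 β ≤ 2·4^k e^{β/2} / I0 β` by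
    `edge_bound` (the other edges form a function in the cone `Gin`; the character
    `θ ↦ θ e.2 - θ e.1` is surjective because `e.1 ≠ e.2`); `|bE R| ≤ 2 R²` (inject `e ↦ (e.1, direction)`).
(3) On `G`: by `un1`, `un2` (the lift `x v = pth t v`, real linear in `t`;
    `cosC ((x:ℝ) : Cir) = cos x`), with `c = (2π)^{-R²}`, `w t = exp (β ∑_e cos (x e.2 - x e.1))` and
    `D = domL (bE R) (fun e t => pth t e.2 - pth t e.1)`:
    `∫_G (1 - cos(θ_u-θ_v)) e^H dHaar = c ∫_{t ∈ (-π,π]^Bx, G} (1 - cos (x u - x v)) w dt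
      ≤ c ∫_D (x u - x v)²/2 · w dt`, because by `un2` the domain of integration is contained in `D`
    (`1 - cos y ≤ y²/2`: `Real.one_sub_sq_div_two_le_cos`).
    With `Y_u = x u - avg x = ∑_e f^u_e (x e.2 - x e.1)` (`flw`):
    `(x u - x v)²/2 ≤ Y_u² + Y_v²`.  By `plg` (with `s f^u` instead of `f`), for the finite measure
    `ν = volume.restrict D` with density `w`: `∫ e^{s Y_u} dν ≤ e^{s² A} ν(univ)` with
    `A = C (k+1)/β ≥ ∑ (f^u_e)²/β`, so `mg2` gives `∫ Y_u² dν ≤ 4 A ν(univ)`.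
    Finally `c ν(univ) = c ∫_D w ≤ c ∫_{[-π,π]^Bx} w = c ∫_{(-π,π]^Bx} w = Z` (the two cubes
    differ by a null set: `Measure.univ_pi_Ioc_ae_eq_Icc`; `un1` again for the last equality).
    Hence `∫_G (1 - cos) dμ ≤ 8 A`.
Total: `≤ 4·4^k e^{β/2}/I0 β + 8 C (k+1)/β`.
-/

open MeasureTheory Set

noncomputable section

namespace XYB

/-- the difference character -/
def COH_chi {V : Type} (a b : V) : (V → Cir) →+ Cir :=
  Pi.evalAddMonoidHom (fun _ => Cir) b - Pi.evalAddMonoidHom (fun _ => Cir) a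

lemma COH_chi_apply {V : Type} (a b : V) (θ : V → Cir) : COH_chi a b θ = θ b - θ a := rfl

lemma COH_chi_cont {V : Type} (a b : V) : Continuous (COH_chi a b) := by
  change Continuous fun θ : V → Cir => θ b - θ a
  exact (continuous_apply b).sub (continuous_apply a)

lemma COH_chi_surj {V : Type} {a b : V} (h : a ≠ b) : Function.Surjective (COH_chi a b) := by
  classical
  intro y
  refine ⟨Pi.single b y, ?_⟩
  rw [COH_chi_apply, Pi.single_eq_same, Pi.single_eq_of_ne h, sub_zero]

lemma COH_contH {V : Type} (β : ℝ) (E : Finset (V × V)) :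
    Continuous fun θ : V → Cir => β * hXY E θ := by
  unfold hXY
  exact continuous_const.mul (continuous_finsetSum _ fun e _ =>
    continuous_cosC.comp ((continuous_apply e.2).sub (continuous_apply e.1)))

lemma COH_ne {R : ℕ} {e : Bx R × Bx R} (he : e ∈ bE R) : e.1 ≠ e.2 := by
  intro h
  simp only [bE, Finset.mem_filter, Finset.mem_univ, true_and] at he
  rw [h] at he
  rcases he with he | he <;> omega

lemma COH_card (R : ℕ) : (bE R).card ≤ 2 * (R * R) := by
  classical
  have h1 : bE R = (Finset.univ.filter fun e : Bx R × Bx R =>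
      e.1.1.val + 1 = e.2.1.val ∧ e.1.2 = e.2.2) ∪ (Finset.univ.filter fun e : Bx R × Bx R =>
      e.1.1 = e.2.1 ∧ e.1.2.val + 1 = e.2.2.val) := by
    rw [← Finset.filter_or]
    rfl
  have hu : (Finset.univ : Finset (Bx R)).card = R * R := by
    rw [Finset.card_univ, Fintype.card_prod, Fintype.card_fin]
  rw [h1]
  refine (Finset.card_union_le _ _).trans ?_
  have h2 : (Finset.univ.filter fun e : Bx R × Bx R =>
      e.1.1.val + 1 = e.2.1.val ∧ e.1.2 = e.2.2).card ≤ R * R := by
    rw [← hu]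
    refine Finset.card_le_card_of_injOn (fun e => e.1) (fun _ _ => Finset.mem_coe.2 (Finset.mem_univ _)) ?_
    rintro ⟨⟨a, b⟩, ⟨c, d⟩⟩ h ⟨⟨a', b'⟩, ⟨c', d'⟩⟩ h' he
    simp only [Finset.coe_filter, Finset.mem_univ, true_and, mem_ofPred_eq] at h h'
    simp only [Prod.mk.injEq] at he
    obtain ⟨rfl, rfl⟩ := he
    have : c = c' := Fin.ext (by omega)
    rw [this, ← h.2, ← h'.2]
  have h3 : (Finset.univ.filter fun e : Bx R × Bx R =>
      e.1.1 = e.2.1 ∧ e.1.2.val + 1 = e.2.2.val).card ≤ R * R := by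
    rw [← hu]
    refine Finset.card_le_card_of_injOn (fun e => e.1) (fun _ _ => Finset.mem_coe.2 (Finset.mem_univ _)) ?_
    rintro ⟨⟨a, b⟩, ⟨c, d⟩⟩ h ⟨⟨a', b'⟩, ⟨c', d'⟩⟩ h' he
    simp only [Finset.coe_filter, Finset.mem_univ, true_and, mem_ofPred_eq] at h h'
    simp only [Prod.mk.injEq] at he
    obtain ⟨rfl, rfl⟩ := he
    have : d = d' := Fin.ext (by omega)
    rw [this, ← h.1, ← h'.1]
  omega

lemma COH_edge {R : ℕ} {β : ℝ} (hβ : 0 < β) {e : Bx R × Bx R} (he : e ∈ bE R) :
    (gM (fun θ : Bx R → Cir => β * hXY (bE R) θ)).real {θ | cosC (θ e.2 - θ e.1) < 1 / 2} ≤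
      Real.exp (β / 2) / I0 β := by
  classical
  have hG : Gin fun θ : Bx R → Cir => β * hXY ((bE R).erase e) θ :=
    Gin.smul hβ.le (Gin.sum _ fun e' _ => Gin.cos (COH_chi e'.1 e'.2) (COH_chi_cont _ _))
  have h := edge_bound (X := Bx R → Cir) (pi_div cir_div) hG (COH_chi e.1 e.2) (COH_chi_cont _ _)
    (COH_chi_surj (COH_ne he)) (b := β) (s := 1 / 2) hβ.le
  have h1 : (fun θ : Bx R → Cir => β * hXY ((bE R).erase e) θ + β * cosC (COH_chi e.1 e.2 θ)) =
      fun θ => β * hXY (bE R) θ := by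
    funext θ
    rw [← mul_add]
    congr 1
    unfold hXY
    rw [COH_chi_apply]
    exact Finset.sum_erase_add _ (fun e : Bx R × Bx R => cosC (θ e.2 - θ e.1)) he
  rw [h1] at h
  have h2 : β * (1 / 2) = β / 2 := by ring
  rw [h2] at h
  exact h

/-- the coordinate `pth · v` as a linear map -/
def COH_P {R : ℕ} (v : Bx R) : (Bx R → ℝ) →ₗ[ℝ] ℝ where
  toFun t := pth t v
  map_add' s t := by
    unfold pth
    simp only [Pi.add_apply, Finset.sum_add_distrib]
  map_smul' c t := by
    unfold pth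
    simp only [Pi.smul_apply, smul_eq_mul, RingHom.id_apply, Finset.mul_sum]

lemma COH_P_apply {R : ℕ} (v : Bx R) (t : Bx R → ℝ) : COH_P v t = pth t v := rfl

/-- increments -/
def COH_l {R : ℕ} (e : Bx R × Bx R) : (Bx R → ℝ) →ₗ[ℝ] ℝ := COH_P e.2 - COH_P e.1

lemma COH_l_apply {R : ℕ} (e : Bx R × Bx R) (t : Bx R → ℝ) :
    COH_l e t = pth t e.2 - pth t e.1 := rfl

lemma COH_lc {ι : Type} [Finite ι] (l : (ι → ℝ) →ₗ[ℝ] ℝ) : Continuous l :=
  LinearMap.continuous_of_finiteDimensional l

lemma COH_dom_sub {ι κ : Type} (K : Finset κ) (l : κ → ((ι → ℝ) →ₗ[ℝ] ℝ)) :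
    domL K l ⊆ Icc (fun _ => -Real.pi) (fun _ => Real.pi) := by
  intro t ht
  exact ⟨fun i => (abs_le.1 (ht.1 i)).1, fun i => (abs_le.1 (ht.1 i)).2⟩

lemma COH_dom_cpt {ι κ : Type} [Finite ι] (K : Finset κ) (l : κ → ((ι → ℝ) →ₗ[ℝ] ℝ)) :
    IsCompact (domL K l) := by
  refine isCompact_Icc.of_isClosed_subset ?_ (COH_dom_sub K l)
  have h1 : domL K l = (⋂ i, {t : ι → ℝ | |t i| ≤ Real.pi}) ∩
      ⋂ k ∈ K, {t : ι → ℝ | |l k t| ≤ Real.pi / 3} := by
    ext t
    simp only [domL, mem_ofPred_eq, mem_inter_iff, mem_iInter]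
  rw [h1]
  refine (isClosed_iInter fun i => ?_).inter (isClosed_biInter fun k _ => ?_)
  · exact isClosed_le (continuous_apply i).abs continuous_const
  · exact isClosed_le (COH_lc (l k)).abs continuous_const

/-- the Gaussian bound for a linear functional with coefficients `f` -/
lemma COH_gauss {ι κ : Type} [Fintype ι] (K : Finset κ) (l : κ → ((ι → ℝ) →ₗ[ℝ] ℝ))
    {β : ℝ} (hβ : 0 < β) (f : κ → ℝ) {S : ℝ} (hS : 0 < S) (hf : ∑ k ∈ K, f k ^ 2 ≤ S) :
    ∫ t in domL K l, (∑ k ∈ K, f k * l k t) ^ 2 * Real.exp (β * ∑ k ∈ K, Real.cos (l k t)) ≤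
      4 * (S / β) * ∫ t in domL K l, Real.exp (β * ∑ k ∈ K, Real.cos (l k t)) := by
  set D := domL K l with hD
  have hDc : IsCompact D := COH_dom_cpt K l
  set w : (ι → ℝ) → ℝ := fun t => Real.exp (β * ∑ k ∈ K, Real.cos (l k t)) with hw
  have hwc : Continuous w := Real.continuous_exp.comp (continuous_const.mul
    (continuous_finsetSum _ fun k _ => Real.continuous_cos.comp (COH_lc (l k))))
  have hw0 : ∀ t, 0 ≤ w t := fun t => (Real.exp_pos _).le
  have hwi : IntegrableOn w D := hwc.continuousOn.integrableOn_compact hDc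
  set ν : Measure (ι → ℝ) := (volume.restrict D).withDensity fun t => ENNReal.ofReal (w t) with hν
  have hfin : IsFiniteMeasure ν := isFiniteMeasure_withDensity_ofReal hwi.2
  have hint : ∀ g : (ι → ℝ) → ℝ, ∫ t, g t ∂ν = ∫ t in D, g t * w t := by
    intro g
    have h1 := integral_withDensity_eq_integral_smul (μ := volume.restrict D)
      (f := fun t => (w t).toNNReal) (hwc.measurable.real_toNNReal) g
    refine h1.trans ?_
    refine integral_congr_ae (Filter.Eventually.of_forall fun t => ?_)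
    simp only [NNReal.smul_def, Real.coe_toNNReal _ (hw0 t), smul_eq_mul]
    rw [mul_comm]
  have hu : ν.real univ = ∫ t in D, w t := by
    have h1 := hint fun _ => 1
    rw [integral_const, smul_eq_mul, mul_one] at h1
    rw [h1]
    simp only [one_mul]
  set Y : (ι → ℝ) → ℝ := fun t => ∑ k ∈ K, f k * l k t with hY
  have hYc : Continuous Y :=
    continuous_finsetSum _ fun k _ => continuous_const.mul (COH_lc (l k))
  have hbd : ∀ᵐ t ∂ν, |Y t| ≤ ∑ k ∈ K, |f k| * (Real.pi / 3) := by
    have h1 : ∀ᵐ t ∂(volume.restrict D), |Y t| ≤ ∑ k ∈ K, |f k| * (Real.pi / 3) := by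
      refine (ae_restrict_iff' hDc.measurableSet).2 (Filter.Eventually.of_forall fun t ht => ?_)
      refine (Finset.abs_sum_le_sum_abs _ _).trans (Finset.sum_le_sum fun k hk => ?_)
      rw [abs_mul]
      exact mul_le_mul_of_nonneg_left (ht.2 k hk) (abs_nonneg _)
    exact (withDensity_absolutelyContinuous _ _).ae_le h1
  have hA : 0 < S / β := div_pos hS hβ
  have h := mg2 ν Y hYc.aestronglyMeasurable hbd hA (by
    intro s
    rw [hint, hu]
    have h1 := plg K l hβ fun k => s * f k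
    have h2 : ∀ t, ∑ k ∈ K, s * f k * l k t = s * Y t := by
      intro t
      rw [hY, Finset.mul_sum]
      exact Finset.sum_congr rfl fun k _ => by ring
    simp only [h2] at h1
    refine h1.trans (mul_le_mul_of_nonneg_right (Real.exp_le_exp.2 ?_) (integral_nonneg hw0))
    have h3 : ∑ k ∈ K, (s * f k) ^ 2 = s ^ 2 * ∑ k ∈ K, f k ^ 2 := by
      rw [Finset.mul_sum]
      exact Finset.sum_congr rfl fun k _ => by ring
    rw [h3, mul_div_assoc]
    exact mul_le_mul_of_nonneg_left (div_le_div_of_nonneg_right hf hβ.le) (sq_nonneg s))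
  rw [hint, hu] at h
  exact h

/-- Haar integrals in comb coordinates -/
lemma COH_haar (R : ℕ) (g : (Bx R → Cir) → ℝ) (hg : StronglyMeasurable g) :
    ∫ θ, g θ ∂haarP (Bx R → Cir) = ((2 * Real.pi) ^ (R * R))⁻¹ *
      ∫ t in Set.pi univ (fun _ : Bx R => Ioc (-Real.pi) Real.pi),
        g (fun v => ((pth t v : ℝ) : Cir)) := by
  have h := un1 R
  have h0 : (0 : ℝ) ≤ ((2 * Real.pi) ^ (R * R))⁻¹ := by positivity
  rw [← h.map_eq, integral_map h.measurable.aemeasurable hg.aestronglyMeasurable,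
    integral_smul_measure, ENNReal.toReal_ofReal h0, smul_eq_mul]

lemma COH_hXY {R : ℕ} (E : Finset (Bx R × Bx R)) (t : Bx R → ℝ) :
    hXY E (fun v => ((pth t v : ℝ) : Cir)) = ∑ e ∈ E, Real.cos (COH_l e t) := by
  unfold hXY
  refine Finset.sum_congr rfl fun e _ => ?_
  rw [← AddCircle.coe_sub, cosC_coe, COH_l_apply]

theorem coh : ∃ C : ℝ, 0 < C ∧ ∀ (k : ℕ) (β : ℝ), 0 < β → ∀ u v : Bx (2 ^ k),
    1 - gE (fun θ : Bx (2 ^ k) → Cir => β * hXY (bE (2 ^ k)) θ) (fun θ => cosC (θ u - θ v)) ≤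
      4 * 4 ^ k * (Real.exp (β / 2) / I0 β) + C * (k + 1) / β := by
  obtain ⟨C, hC, hflw⟩ := flw
  refine ⟨8 * C, by positivity, ?_⟩
  intro k β hβ u v
  have hR4 : ((2 ^ k * 2 ^ k : ℕ) : ℝ) = 4 ^ k := by
    push_cast
    rw [← mul_pow]
    norm_num
  obtain ⟨fu, hfu, hfu2⟩ := hflw k u
  obtain ⟨fv, hfv, hfv2⟩ := hflw k v
  generalize hRk : 2 ^ k = R at *
  set H : (Bx R → Cir) → ℝ := fun θ => β * hXY (bE R) θ with hH
  have hHc : Continuous H := COH_contH β (bE R)
  have hprob : IsProbabilityMeasure (gM H) := isProb_gM H hHc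
  set G : Set (Bx R → Cir) := {θ | ∀ e ∈ bE R, 1 / 2 ≤ cosC (θ e.2 - θ e.1)} with hG
  have hGc : IsClosed G := by
    have h1 : G = ⋂ e ∈ bE R, {θ : Bx R → Cir | 1 / 2 ≤ cosC (θ e.2 - θ e.1)} := by
      ext θ
      simp only [hG, mem_ofPred_eq, mem_iInter]
    rw [h1]
    exact isClosed_biInter fun e _ => isClosed_le continuous_const
      (continuous_cosC.comp ((continuous_apply e.2).sub (continuous_apply e.1)))
  have hGm : MeasurableSet G := hGc.measurableSet
  set F : (Bx R → Cir) → ℝ := fun θ => 1 - cosC (θ u - θ v) with hF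
  have hFc : Continuous F := continuous_const.sub
    (continuous_cosC.comp ((continuous_apply u).sub (continuous_apply v)))
  have hF0 : ∀ θ, 0 ≤ F θ := fun θ => sub_nonneg.2 (cosC_le_one _)
  have hF2 : ∀ θ, F θ ≤ 2 := fun θ => by
    have := neg_one_le_cosC (θ u - θ v)
    simp only [hF]
    linarith
  have hint : ∀ f : (Bx R → Cir) → ℝ, Continuous f → Integrable f (gM H) := fun f hf =>
    hf.integrable_of_hasCompactSupport (HasCompactSupport.of_compactSpace f)
  -- step 1
  have hs1 : 1 - gE H (fun θ => cosC (θ u - θ v)) = ∫ θ, F θ ∂(gM H) := by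
    have h1 := integral_sub (μ := gM H) (integrable_const (1 : ℝ))
      (hint (fun θ => cosC (θ u - θ v)) (continuous_cosC.comp
      ((continuous_apply u).sub (continuous_apply v))))
    rw [gE_eq]
    refine Eq.trans ?_ h1.symm
    simp
  have hs2 : ∫ θ, F θ ∂(gM H) ≤ 2 * (gM H).real Gᶜ + ∫ θ in G, F θ ∂(gM H) := by
    rw [← integral_add_compl hGm (hint F hFc), add_comm]
    refine add_le_add ?_ le_rfl
    have h1 : ∫ θ in Gᶜ, F θ ∂(gM H) ≤ ∫ _ in Gᶜ, (2 : ℝ) ∂(gM H) :=
      integral_mono (hint F hFc).integrableOn (integrable_const _) hF2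
    refine h1.trans (le_of_eq ?_)
    rw [setIntegral_const, smul_eq_mul, mul_comm]
  have hs3 : (gM H).real Gᶜ ≤ 2 * 4 ^ k * (Real.exp (β / 2) / I0 β) := by
    have h1 : Gᶜ = ⋃ e ∈ bE R, {θ : Bx R → Cir | cosC (θ e.2 - θ e.1) < 1 / 2} := by
      ext θ
      simp only [hG, mem_compl_iff, mem_ofPred_eq, mem_iUnion, not_forall, not_le, exists_prop]
    rw [h1]
    refine (measureReal_biUnion_finset_le _ _).trans ?_
    refine (Finset.sum_le_sum fun e he => COH_edge hβ he).trans ?_
    rw [Finset.sum_const, nsmul_eq_mul]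
    refine mul_le_mul_of_nonneg_right ?_ (div_nonneg (Real.exp_pos _).le (I0_pos β).le)
    have h2 : ((bE R).card : ℝ) ≤ ((2 * (R * R) : ℕ) : ℝ) := by exact_mod_cast COH_card R
    refine h2.trans (le_of_eq ?_)
    rw [← hR4]
    push_cast
    ring
  -- the partition function
  set c : ℝ := ((2 * Real.pi) ^ (R * R))⁻¹ with hc
  have hc0 : 0 < c := by positivity
  set Q : Set (Bx R → ℝ) := Set.pi univ (fun _ : Bx R => Ioc (-Real.pi) Real.pi) with hQ
  set D : Set (Bx R → ℝ) := domL (bE R) COH_l with hD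
  have hDc : IsCompact D := COH_dom_cpt _ _
  set w : (Bx R → ℝ) → ℝ := fun t => Real.exp (β * ∑ e ∈ bE R, Real.cos (COH_l e t)) with hw
  have hwc : Continuous w := Real.continuous_exp.comp (continuous_const.mul
    (continuous_finsetSum _ fun k _ => Real.continuous_cos.comp (COH_lc _)))
  have hw0 : ∀ t, 0 ≤ w t := fun t => (Real.exp_pos _).le
  have hwH : ∀ t : Bx R → ℝ, Real.exp (H fun v => ((pth t v : ℝ) : Cir)) = w t := by
    intro t
    simp only [hH, hw, COH_hXY]
  set Z : ℝ := ∫ θ, Real.exp (H θ) ∂haarP (Bx R → Cir) with hZ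
  have hZ0 : 0 < Z := integral_exp_pos H hHc
  have hZ1 : Z = c * ∫ t in Q, w t := by
    have h1 := COH_haar R (fun θ => Real.exp (H θ))
      (Real.continuous_exp.comp hHc).stronglyMeasurable
    simp only [hwH] at h1
    exact h1
  have hZ2 : c * ∫ t in D, w t ≤ Z := by
    rw [hZ1]
    refine mul_le_mul_of_nonneg_left ?_ hc0.le
    have h1 : ∫ t in Q, w t = ∫ t in Icc (fun _ : Bx R => -Real.pi) (fun _ => Real.pi), w t := by
      refine setIntegral_congr_set ?_
      exact Measure.univ_pi_Ioc_ae_eq_Icc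
    rw [h1]
    refine setIntegral_mono_set ?_ (Filter.Eventually.of_forall hw0)
      (Filter.Eventually.of_forall (COH_dom_sub _ _))
    exact hwc.continuousOn.integrableOn_compact isCompact_Icc
  -- the good part
  have hs4 : ∫ θ in G, F θ ∂(gM H) ≤ 8 * (C * (k + 1) / β) := by
    have h1 : ∫ θ in G, F θ ∂(gM H) = (∫ θ, (G.indicator fun θ => F θ * Real.exp (H θ)) θ
        ∂haarP (Bx R → Cir)) / Z := by
      rw [← integral_indicator hGm, ← gE_eq]
      unfold gE
      congr 1
      refine integral_congr_ae (Filter.Eventually.of_forall fun θ => ?_)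
      by_cases hθ : θ ∈ G
      · simp only [indicator_of_mem hθ]
      · simp only [indicator_of_notMem hθ, zero_mul]
    rw [h1, div_le_iff₀ hZ0]
    have hsm : StronglyMeasurable (G.indicator fun θ => F θ * Real.exp (H θ)) :=
      ((hFc.mul (Real.continuous_exp.comp hHc)).stronglyMeasurable).indicator hGm
    rw [COH_haar R _ hsm]
    have h2 : ∫ t in Q, (G.indicator fun θ => F θ * Real.exp (H θ))
        (fun v => ((pth t v : ℝ) : Cir)) ≤
        ∫ t in D, ((pth t u - pth t v) ^ 2 / 2) * w t := by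
      have hQm : MeasurableSet Q := MeasurableSet.univ_pi fun _ => measurableSet_Ioc
      rw [← integral_indicator hQm, ← integral_indicator hDc.measurableSet]
      have hgi : IntegrableOn (fun t => ((pth t u - pth t v) ^ 2 / 2) * w t) D := by
        refine ContinuousOn.integrableOn_compact hDc ?_
        refine Continuous.continuousOn (Continuous.mul ?_ hwc)
        exact (((COH_lc (COH_P u)).sub (COH_lc (COH_P v))).pow 2).div_const 2
      refine integral_mono_of_nonneg ?_ (hgi.integrable_indicator hDc.measurableSet) ?_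
      · refine Filter.Eventually.of_forall fun t => ?_
        refine indicator_nonneg (fun t _ => ?_) t
        exact indicator_nonneg (fun θ _ => mul_nonneg (hF0 θ) (Real.exp_pos _).le) _
      · refine Filter.Eventually.of_forall fun t => ?_
        have hr : 0 ≤ D.indicator (fun t => ((pth t u - pth t v) ^ 2 / 2) * w t) t :=
          indicator_nonneg (fun t _ => mul_nonneg (by positivity) (hw0 t)) t
        by_cases ht : t ∈ Q
        · by_cases hg : (fun v => ((pth t v : ℝ) : Cir)) ∈ G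
          · have htQ : ∀ i, t i ∈ Ioc (-Real.pi) Real.pi := fun i => ht i (mem_univ i)
            have hcos : ∀ e ∈ bE R, 1 / 2 ≤ Real.cos (pth t e.2 - pth t e.1) := by
              intro e he
              have := hg e he
              rwa [← AddCircle.coe_sub, cosC_coe] at this
            have htD : t ∈ D := by
              refine ⟨fun i => abs_le.2 ⟨(htQ i).1.le, (htQ i).2⟩, fun e he => ?_⟩
              exact un2 t htQ hcos e he
            simp only [indicator_of_mem ht, indicator_of_mem hg, indicator_of_mem htD, hwH]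
            refine mul_le_mul_of_nonneg_right ?_ (hw0 t)
            simp only [hF]
            rw [← AddCircle.coe_sub, cosC_coe]
            have := Real.one_sub_sq_div_two_le_cos (x := pth t u - pth t v)
            linarith
          · simp only [indicator_of_mem ht, indicator_of_notMem hg]
            exact hr
        · simp only [indicator_of_notMem ht]
          exact hr
    have h3 : ∫ t in D, ((pth t u - pth t v) ^ 2 / 2) * w t ≤
        8 * (C * (k + 1) / β) * ∫ t in D, w t := by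
      have hk : (0 : ℝ) < C * (k + 1) := by positivity
      have gu := COH_gauss (bE R) COH_l hβ fu hk hfu2
      have gv := COH_gauss (bE R) COH_l hβ fv hk hfv2
      have hYu : ∀ t : Bx R → ℝ, ∑ e ∈ bE R, fu e * COH_l e t =
          pth t u - (∑ v, pth t v) / (4 : ℝ) ^ k := fun t => (hfu fun v => pth t v).symm
      have hYv : ∀ t : Bx R → ℝ, ∑ e ∈ bE R, fv e * COH_l e t =
          pth t v - (∑ v, pth t v) / (4 : ℝ) ^ k := fun t => (hfv fun v => pth t v).symm
      have iu : IntegrableOn (fun t => (∑ e ∈ bE R, fu e * COH_l e t) ^ 2 * w t) D := by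
        refine ContinuousOn.integrableOn_compact hDc ?_
        exact (((continuous_finsetSum _ fun k _ => continuous_const.mul (COH_lc _)).pow 2).mul
          hwc).continuousOn
      have iv : IntegrableOn (fun t => (∑ e ∈ bE R, fv e * COH_l e t) ^ 2 * w t) D := by
        refine ContinuousOn.integrableOn_compact hDc ?_
        exact (((continuous_finsetSum _ fun k _ => continuous_const.mul (COH_lc _)).pow 2).mul
          hwc).continuousOn
      have h4 : ∫ t in D, ((pth t u - pth t v) ^ 2 / 2) * w t ≤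
          ∫ t in D, ((∑ e ∈ bE R, fu e * COH_l e t) ^ 2 * w t +
            (∑ e ∈ bE R, fv e * COH_l e t) ^ 2 * w t) := by
        refine integral_mono_of_nonneg (Filter.Eventually.of_forall fun t =>
          mul_nonneg (by positivity) (hw0 t)) (iu.add iv) (Filter.Eventually.of_forall fun t => ?_)
        simp only
        rw [← add_mul, hYu, hYv]
        refine mul_le_mul_of_nonneg_right ?_ (hw0 t)
        nlinarith [sq_nonneg ((pth t u - (∑ v, pth t v) / (4 : ℝ) ^ k) +
          (pth t v - (∑ v, pth t v) / (4 : ℝ) ^ k))]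
      rw [integral_add iu iv] at h4
      linarith
    calc c * ∫ t in Q, (G.indicator fun θ => F θ * Real.exp (H θ))
          (fun v => ((pth t v : ℝ) : Cir)) ≤ c * (8 * (C * (k + 1) / β) * ∫ t in D, w t) :=
          mul_le_mul_of_nonneg_left (h2.trans h3) hc0.le
      _ = 8 * (C * (k + 1) / β) * (c * ∫ t in D, w t) := by ring
      _ ≤ 8 * (C * (k + 1) / β) * Z := mul_le_mul_of_nonneg_left hZ2 (by positivity)
  have hs5 : 8 * (C * (k + 1) / β) = 8 * C * (k + 1) / β := by ring
  rw [hs1]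
  rw [← hs5]
  linarith

end XYB
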