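import Mathlib

/-!
# Bilayer XY model (MP_26628e_mp): basic definitions

Everything is about compact abelian groups `X` (finite powers of the circle `Cir = ℝ/2πℤ`) with
their normalised Haar measure `haarP X`, and Gibbs expectations
`gE H F = (∫ F e^H) / (∫ e^H)` (no minus sign: `H` is minus the energy divided by `T`).
-/

open MeasureTheory Set

noncomputable section

namespace XYB

/-- (instance search needs this non-dependent form of `Pi.borelSpace`) -/
instance borelPi {ι X : Type*} [Countable ι] [TopologicalSpace X] [SecondCountableTopology X]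
    [MeasurableSpace X] [BorelSpace X] : BorelSpace (ι → X) := Pi.borelSpace

instance factTwoPi : Fact (0 < 2 * Real.pi) := ⟨Real.two_pi_pos⟩

/-- the circle `ℝ / 2πℤ` -/
abbrev Cir : Type := AddCircle (2 * Real.pi)

/-- cosine on the circle -/
def cosC (t : Cir) : ℝ := Real.cos_periodic.lift t

/-- sine on the circle -/
def sinC (t : Cir) : ℝ := Real.sin_periodic.lift t

@[simp] lemma cosC_coe (x : ℝ) : cosC (x : Cir) = Real.cos x := Real.cos_periodic.lift_coe x
@[simp] lemma sinC_coe (x : ℝ) : sinC (x : Cir) = Real.sin x := Real.sin_periodic.lift_coe x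

lemma continuous_cosC : Continuous cosC :=
  continuous_coinduced_dom.mpr (by
    change Continuous (fun x : ℝ => cosC (x : Cir))
    simp only [cosC_coe]; exact Real.continuous_cos)

lemma continuous_sinC : Continuous sinC :=
  continuous_coinduced_dom.mpr (by
    change Continuous (fun x : ℝ => sinC (x : Cir))
    simp only [sinC_coe]; exact Real.continuous_sin)

lemma cir_ind {p : Cir → Prop} (h : ∀ x : ℝ, p (x : Cir)) (t : Cir) : p t :=
  QuotientAddGroup.induction_on t h

lemma cosC_add (s t : Cir) : cosC (s + t) = cosC s * cosC t - sinC s * sinC t := by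
  induction s using cir_ind with
  | h x =>
    induction t using cir_ind with
    | h y =>
      change cosC ((x + y : ℝ) : Cir) = _
      simp only [cosC_coe, sinC_coe, Real.cos_add]

lemma sinC_add (s t : Cir) : sinC (s + t) = sinC s * cosC t + cosC s * sinC t := by
  induction s using cir_ind with
  | h x =>
    induction t using cir_ind with
    | h y =>
      change sinC ((x + y : ℝ) : Cir) = _
      simp only [cosC_coe, sinC_coe, Real.sin_add]

@[simp] lemma cosC_neg (s : Cir) : cosC (-s) = cosC s := by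
  induction s using cir_ind with
  | h x =>
    change cosC ((-x : ℝ) : Cir) = _
    simp only [cosC_coe, Real.cos_neg]

@[simp] lemma sinC_neg (s : Cir) : sinC (-s) = -sinC s := by
  induction s using cir_ind with
  | h x =>
    change sinC ((-x : ℝ) : Cir) = _
    simp only [sinC_coe, Real.sin_neg]

@[simp] lemma cosC_zero : cosC 0 = 1 := by
  have := cosC_coe 0; simpa using this

@[simp] lemma sinC_zero : sinC 0 = 0 := by
  have := sinC_coe 0; simpa using this

lemma cosC_sub (s t : Cir) : cosC (s - t) = cosC s * cosC t + sinC s * sinC t := by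
  rw [sub_eq_add_neg, cosC_add]; simp

lemma sinC_sub (s t : Cir) : sinC (s - t) = sinC s * cosC t - cosC s * sinC t := by
  rw [sub_eq_add_neg, sinC_add]; simp; ring

lemma cosC_sq_add_sinC_sq (s : Cir) : cosC s ^ 2 + sinC s ^ 2 = 1 := by
  induction s using cir_ind with
  | h x => simp

lemma cosC_le_one (s : Cir) : cosC s ≤ 1 := by
  induction s using cir_ind with
  | h x => simpa using Real.cos_le_one x

lemma neg_one_le_cosC (s : Cir) : -1 ≤ cosC s := by
  induction s using cir_ind with
  | h x => simpa using Real.neg_one_le_cos x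

lemma abs_cosC_le_one (s : Cir) : |cosC s| ≤ 1 :=
  abs_le.mpr ⟨neg_one_le_cosC s, cosC_le_one s⟩

lemma abs_sinC_le_one (s : Cir) : |sinC s| ≤ 1 := by
  have := cosC_sq_add_sinC_sq s
  exact abs_le_one_iff_mul_self_le_one.mpr (by nlinarith [sq_nonneg (cosC s)])

/-- `cos 2s = 2 cos² s - 1` -/
lemma cosC_two (s : Cir) : cosC (s + s) = 2 * cosC s ^ 2 - 1 := by
  rw [cosC_add]; nlinarith [cosC_sq_add_sinC_sq s]

/-- `1 - cos (a - b) ≤ 2 (1 - cos a) + 2 (1 - cos b)` -/
lemma one_sub_cosC_sub_le (a b : Cir) :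
    1 - cosC (a - b) ≤ 2 * (1 - cosC a) + 2 * (1 - cosC b) := by
  rw [cosC_sub]
  nlinarith [cosC_sq_add_sinC_sq a, cosC_sq_add_sinC_sq b, sq_nonneg (cosC a + cosC b - 2),
    sq_nonneg (sinC a + sinC b)]

section haar

variable (X : Type*) [AddCommGroup X] [TopologicalSpace X] [IsTopologicalAddGroup X]
  [CompactSpace X] [MeasurableSpace X] [BorelSpace X]

/-- normalised Haar measure of a compact abelian group -/
def haarP : Measure X := Measure.addHaarMeasure (⊤ : TopologicalSpace.PositiveCompacts X)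

instance : (haarP X).IsAddHaarMeasure := by unfold haarP; infer_instance

instance : IsProbabilityMeasure (haarP X) := ⟨Measure.addHaarMeasure_self⟩

lemma haarP_cir : haarP Cir = AddCircle.haarAddCircle := rfl

end haar

section gibbs

variable {X : Type*} [AddCommGroup X] [TopologicalSpace X] [IsTopologicalAddGroup X]
  [CompactSpace X] [MeasurableSpace X] [BorelSpace X]

/-- Gibbs measure with density proportional to `e^H` with respect to Haar measure. -/
def gM (H : X → ℝ) : Measure X := (haarP X).tilted H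

/-- Gibbs expectation of `F` with weight `e^H` with respect to Haar measure. -/
def gE (H F : X → ℝ) : ℝ :=
  (∫ x, F x * Real.exp (H x) ∂haarP X) / ∫ x, Real.exp (H x) ∂haarP X

end gibbs

/-- `I₀(b) = ∫ e^{b cos t} dt / 2π` -/
def I0 (b : ℝ) : ℝ := ∫ t : Cir, Real.exp (b * cosC t) ∂haarP Cir

/-! ## Graphs, boxes, energies -/

/-- sites of the `R × R` box -/
abbrev Bx (R : ℕ) : Type := Fin R × Fin R

/-- nearest neighbour edges of the box, each listed once as (left, right) or (bottom, top) -/
def bE (R : ℕ) : Finset (Bx R × Bx R) :=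
  Finset.univ.filter fun e =>
    (e.1.1.val + 1 = e.2.1.val ∧ e.1.2 = e.2.2) ∨ (e.1.1 = e.2.1 ∧ e.1.2.val + 1 = e.2.2.val)

/-- minus the XY energy on a finite graph with edge set `E` -/
def hXY {V : Type} (E : Finset (V × V)) (θ : V → Cir) : ℝ := ∑ e ∈ E, cosC (θ e.2 - θ e.1)

/-- the relative angle of the two layers -/
def ph {V : Type} (θ : Bool → V → Cir) (v : V) : Cir := θ true v - θ false v

/-- minus the energy of a bilayer box: two XY layers with inverse temperature `β` and the pinning
`(K / |V|) ∑ cos 2φ_v` -/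
def hBox {V : Type} [Fintype V] (β K : ℝ) (E : Finset (V × V)) (θ : Bool → V → Cir) : ℝ :=
  β * (hXY E (θ true) + hXY E (θ false))
    + K * ((∑ v, cosC (ph θ v + ph θ v)) / (Fintype.card V : ℝ))

/-- increment of layer `b` along the arm `a` -/
def dArm {C V : Type} (a : (C × V) × (C × V)) (b : Bool) (θ : C → Bool → V → Cir) : Cir :=
  θ a.2.1 b a.2.2 - θ a.1.1 b a.1.2

/-- minus the energy of a system of boxes (cells) `c : C` joined by single edges `a ∈ Ar` (the arms)
of strength `β₁` -/
def hCell {C V : Type} [Fintype C] [Fintype V] (β K β₁ : ℝ) (E : Finset (V × V))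
    (Ar : Finset ((C × V) × (C × V))) (θ : C → Bool → V → Cir) : ℝ :=
  (∑ c, hBox β K E (θ c)) + ∑ f ∈ Ar ×ˢ (Finset.univ : Finset Bool), β₁ * cosC (dArm f.1 f.2 θ)

/-- minus the energy of the bilayer model on the torus `(ZMod L)²`: inverse temperature `β` and
pinning `a ∑ cos 2φ_x` -/
def hTor (L : ℕ) [NeZero L] (β a : ℝ) (θ : Bool → ZMod L × ZMod L → Cir) : ℝ :=
  (∑ b : Bool, ∑ x : ZMod L × ZMod L,
      (β * cosC (θ b (x.1 + 1, x.2) - θ b x) + β * cosC (θ b (x.1, x.2 + 1) - θ b x)))
    + ∑ x : ZMod L × ZMod L, a * cosC (ph θ x + ph θ x)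

/-- the arms between the cells `c : Bx N` of side `R`: right arms from the corner `(R-1,0)` of `c`
to the corner `(0,0)` of `c + e₁`, and up arms from the corner `(0,R-1)` of `c` to the corner
`(0,0)` of `c + e₂` -/
def arms (N R : ℕ) : Finset ((Bx N × Bx R) × (Bx N × Bx R)) :=
  Finset.univ.filter fun a =>
    (a.1.1.1.val + 1 = a.2.1.1.val ∧ a.1.1.2 = a.2.1.2 ∧
      a.1.2.1.val + 1 = R ∧ a.1.2.2.val = 0 ∧ a.2.2.1.val = 0 ∧ a.2.2.2.val = 0) ∨
    (a.1.1.1 = a.2.1.1 ∧ a.1.1.2.val + 1 = a.2.1.2.val ∧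
      a.1.2.1.val = 0 ∧ a.1.2.2.val + 1 = R ∧ a.2.2.1.val = 0 ∧ a.2.2.2.val = 0)

/-- position in the torus of the site `p` of the cell `c` -/
def emb (L : ℕ) {N R : ℕ} (c : Bx N) (p : Bx R) : ZMod L × ZMod L :=
  (((c.1.val * R + p.1.val : ℕ) : ZMod L), ((c.2.val * R + p.2.val : ℕ) : ZMod L))

/-- the marked points of a box: the three corners used by the arms and two special points -/
def marks {R : ℕ} (p₁ p₂ : Bx R) : Finset (Bx R) :=
  Finset.univ.filter fun v =>
    (v.1.val = 0 ∧ v.2.val = 0) ∨ (v.1.val + 1 = R ∧ v.2.val = 0) ∨ (v.1.val = 0 ∧ v.2.val + 1 = R)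
      ∨ v = p₁ ∨ v = p₂

/-- a box configuration is bad if `|cos φ| < κ` at a mark or `cos (φ_m - φ_m') ≤ 0` for two marks -/
def BoxBad {R : ℕ} (κ : ℝ) (p₁ p₂ : Bx R) : Set (Bool → Bx R → Cir) :=
  {θ | (∃ m ∈ marks p₁ p₂, |cosC (ph θ m)| < κ) ∨
    ∃ m ∈ marks p₁ p₂, ∃ m' ∈ marks p₁ p₂, cosC (ph θ m - ph θ m') ≤ 0}

/-- a cell `c` is bad if its box is bad or one of its (right, up) arms is bad in one layer -/
def CellBad {N R : ℕ} (κ : ℝ) (p₁ p₂ : Bx R) (c : Bx N) : Set (Bx N → Bool → Bx R → Cir) :=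
  {θ | θ c ∈ BoxBad κ p₁ p₂ ∨ ∃ a ∈ arms N R, a.1.1 = c ∧ ∃ b : Bool, cosC (dArm a b θ) < 9 / 10}

end XYB
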