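import Pool.Agent.H2.XY.Defs

/-!
# GA: normalised Haar measure: surjective homomorphisms and finite powers
-/

open MeasureTheory Set

noncomputable section

namespace XYB

section

variable {X Y : Type*} [AddCommGroup X] [TopologicalSpace X] [IsTopologicalAddGroup X]
  [CompactSpace X] [MeasurableSpace X] [BorelSpace X] [SecondCountableTopology X]
  [AddCommGroup Y] [TopologicalSpace Y] [IsTopologicalAddGroup Y]
  [CompactSpace Y] [MeasurableSpace Y] [BorelSpace Y] [SecondCountableTopology Y]

/-- a continuous surjective homomorphism preserves the normalised Haar measures -/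
lemma mp_surj (φ : X →+ Y) (hc : Continuous φ) (hs : Function.Surjective φ) :
    MeasurePreserving φ (haarP X) (haarP Y) :=
  AddMonoidHom.measurePreserving hc hs (by simp)

/-- change of variables under a continuous surjective homomorphism -/
lemma integral_comp_surj (φ : X →+ Y) (hc : Continuous φ) (hs : Function.Surjective φ)
    (f : Y → ℝ) (hf : Continuous f) :
    ∫ x, f (φ x) ∂haarP X = ∫ y, f y ∂haarP Y := by
  have h := mp_surj φ hc hs
  rw [← h.map_eq, integral_map h.measurable.aemeasurable
    hf.aestronglyMeasurable]

lemma haarP_unique (μ : Measure X) [μ.IsAddHaarMeasure] [IsProbabilityMeasure μ] :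
    μ = haarP X := by
  have h := AddMonoidHom.measurePreserving (μ := μ) (ν := haarP X) (f := AddMonoidHom.id X)
    continuous_id Function.surjective_id (by simp)
  simpa using h.map_eq

lemma haarP_pi (ι : Type*) [Fintype ι] :
    haarP (ι → X) = Measure.pi (fun _ : ι => haarP X) :=
  (haarP_unique (X := ι → X) (Measure.pi (fun _ : ι => haarP X))).symm

lemma haarP_prod : haarP (X × Y) = (haarP X).prod (haarP Y) :=
  (haarP_unique (X := X × Y) ((haarP X).prod (haarP Y))).symm

/-- continuous functions are integrable -/
lemma integrable_cont (f : X → ℝ) (hf : Continuous f) : Integrable f (haarP X) :=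
  hf.integrable_of_hasCompactSupport (HasCompactSupport.of_compactSpace f)

lemma integral_exp_pos (H : X → ℝ) (hH : Continuous H) : 0 < ∫ x, Real.exp (H x) ∂haarP X := by
  have hi : Integrable (fun x => Real.exp (H x)) (haarP X) :=
    integrable_cont _ (Real.continuous_exp.comp hH)
  rw [integral_pos_iff_support_of_nonneg (fun x => (Real.exp_pos _).le) hi]
  have : Function.support (fun x => Real.exp (H x)) = univ := by
    ext x; simp [Real.exp_ne_zero]
  rw [this]; simp

lemma gE_eq (H F : X → ℝ) : gE H F = ∫ x, F x ∂(gM H) := by
  unfold gE gM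
  rw [integral_tilted]
  rw [div_eq_inv_mul, ← integral_const_mul]
  congr 1
  ext x
  simp only [smul_eq_mul]
  ring

lemma isProb_gM (H : X → ℝ) (hH : Continuous H) : IsProbabilityMeasure (gM H) :=
  isProbabilityMeasure_tilted (integrable_cont _ (Real.continuous_exp.comp hH))

/-- probability of a measurable event as a quotient -/
lemma gM_real (H : X → ℝ) {A : Set X} (hA : MeasurableSet A) :
    (gM H).real A = (∫ x in A, Real.exp (H x) ∂haarP X) / ∫ x, Real.exp (H x) ∂haarP X := by
  have h := gE_eq H (A.indicator fun _ => (1:ℝ))
  rw [integral_indicator_const _ hA] at h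
  simp only [smul_eq_mul, mul_one] at h
  rw [← h]
  unfold gE
  congr 1
  rw [← integral_indicator hA]
  congr 1
  ext x
  by_cases hx : x ∈ A <;> simp [hx]

/-- translation invariance of Haar integrals -/
lemma integral_add_const (f : X → ℝ) (a : X) :
    ∫ x, f (x + a) ∂haarP X = ∫ x, f x ∂haarP X :=
  integral_add_right_eq_self f a

/-- pushing a Gibbs expectation forward along a surjective homomorphism -/
lemma gE_comp (φ : X →+ Y) (hc : Continuous φ) (hs : Function.Surjective φ)
    (H F : Y → ℝ) (hH : Continuous H) (hF : Continuous F) :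
    gE (fun x => H (φ x)) (fun x => F (φ x)) = gE H F := by
  unfold gE
  rw [integral_comp_surj φ hc hs (fun y => F y * Real.exp (H y))
    (hF.mul (Real.continuous_exp.comp hH)),
    integral_comp_surj φ hc hs (fun y => Real.exp (H y)) (Real.continuous_exp.comp hH)]

end

/-! ## divisibility -/

lemma cir_div : ∀ x : Cir, ∃ y : Cir, y + y = x := by
  intro x
  induction x using cir_ind with
  | h r =>
    refine ⟨((r / 2 : ℝ) : Cir), ?_⟩
    change ((r / 2 + r / 2 : ℝ) : Cir) = _
    congr 1
    ring

lemma pi_div {ι X : Type*} [AddCommGroup X] (h : ∀ x : X, ∃ y : X, y + y = x) :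
    ∀ x : ι → X, ∃ y : ι → X, y + y = x := by
  intro x
  choose y hy using fun i => h (x i)
  exact ⟨y, funext hy⟩

end XYB
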