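import Pool.Agent.H2.XY.Prob
import Pool.Agent.H2.XY.GA

/-!
# REA: the problem's correlation is a Gibbs expectation over Haar measure

Proof.  `cos² φ = (1 + cos 2φ)/2`, so
`-Hclean/T = (1/T) ∑ (cos ...) + (1/(4hT)) ∑_x (1 + cos 2φ_x) = hTor L (1/T) (1/(4hT)) (θ mod 2π) + const`,
and the constant cancels in the quotient.  The map `ℝ → Cir` sends `volume.restrict (Ioc (-π) π)` to
`volume = 2π • haarAddCircle` (`AddCircle.measurePreserving_mk (2π) (-π)`,
`AddCircle.volume_eq_smul_haarAddCircle`), so the product map sends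
`volume.restrict (angles L)` to `(2π)^(2 L²) • haarP` (`measurePreserving_pi` twice,
`Measure.restrict_pi_pi`, `haarP_pi` twice, `haarP_cir`); the factor cancels in the quotient.
`angles L = pi univ (fun _ => pi univ fun _ => Ioc (-π) π)`.
-/

open MeasureTheory Set

noncomputable section

namespace XYB

/-- the angles modulo `2π` -/
def REA_q {L : ℕ} (θ : Bool → ZMod L × ZMod L → ℝ) : Bool → ZMod L × ZMod L → Cir :=
  fun b x => ((θ b x : ℝ) : Cir)

lemma REA_angles (L : ℕ) : angles L = Set.univ.pi fun _ : Bool =>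
    Set.univ.pi fun _ : ZMod L × ZMod L => Ioc (-Real.pi) Real.pi := by
  ext θ
  simp [angles]

lemma REA_mp (L : ℕ) [NeZero L] : MeasurePreserving (REA_q (L := L))
    (volume.restrict (angles L)) (volume : Measure (Bool → ZMod L × ZMod L → Cir)) := by
  have h1 : MeasurePreserving (fun t : ℝ => (t : Cir)) (volume.restrict (Ioc (-Real.pi) Real.pi))
      (volume : Measure Cir) := by
    have h := AddCircle.measurePreserving_mk (2 * Real.pi) (-Real.pi)
    have e : -Real.pi + 2 * Real.pi = Real.pi := by ring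
    rw [e] at h
    exact h
  have h2 : MeasurePreserving (fun (θ : ZMod L × ZMod L → ℝ) x => ((θ x : ℝ) : Cir))
      (Measure.pi fun _ => volume.restrict (Ioc (-Real.pi) Real.pi))
      (Measure.pi fun _ => (volume : Measure Cir)) :=
    measurePreserving_pi _ _ fun _ => h1
  have h3 : MeasurePreserving (fun (θ : Bool → ZMod L × ZMod L → ℝ) b x => ((θ b x : ℝ) : Cir))
      (Measure.pi fun _ => Measure.pi fun _ => volume.restrict (Ioc (-Real.pi) Real.pi))
      (Measure.pi fun _ => Measure.pi fun _ => (volume : Measure Cir)) :=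
    measurePreserving_pi _ _ fun _ => h2
  rw [REA_angles, volume_pi, Measure.restrict_pi_pi]
  simp_rw [volume_pi, Measure.restrict_pi_pi]
  exact h3

lemma REA_int (L : ℕ) [NeZero L] : ∃ c : ℝ, 0 < c ∧
    ∀ g : (Bool → ZMod L × ZMod L → Cir) → ℝ, Continuous g →
      ∫ θ in angles L, g (REA_q θ) = c * ∫ θ, g θ ∂haarP (Bool → ZMod L × ZMod L → Cir) := by
  have hc := Measure.isAddInvariant_eq_smul_of_compactSpace
    (volume : Measure (Bool → ZMod L × ZMod L → Cir)) (haarP (Bool → ZMod L × ZMod L → Cir))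
  refine ⟨Measure.addHaarScalarFactor (volume : Measure (Bool → ZMod L × ZMod L → Cir))
    (haarP (Bool → ZMod L × ZMod L → Cir)), ?_, fun g hg => ?_⟩
  · have i1 : (volume : Measure (ZMod L × ZMod L → Cir)).IsAddHaarMeasure :=
      Measure.pi.isAddHaarMeasure _
    have i2 : (volume : Measure (Bool → ZMod L × ZMod L → Cir)).IsAddHaarMeasure :=
      Measure.pi.isAddHaarMeasure _
    exact_mod_cast Measure.addHaarScalarFactor_pos_of_isAddHaarMeasure _ _
  · have h1 : ∫ θ in angles L, g (REA_q θ) =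
        ∫ θ, g θ ∂(volume : Measure (Bool → ZMod L × ZMod L → Cir)) := by
      have hm := REA_mp L
      rw [← hm.map_eq, integral_map hm.measurable.aemeasurable hg.aestronglyMeasurable]
    rw [h1]
    conv_lhs => rw [hc]
    rw [integral_smul_nnreal_measure]
    rfl

lemma REA_energy (L : ℕ) [NeZero L] (h T : ℝ) (hh : 0 < h) (hT : 0 < T)
    (θ : Bool → ZMod L × ZMod L → ℝ) : -Hclean L h θ / T =
      hTor L (1 / T) (1 / (4 * h * T)) (REA_q θ) +
        ∑ _x : ZMod L × ZMod L, 1 / (4 * h * T) := by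
  have e1 : ∀ (b : Bool) (x y : ZMod L × ZMod L),
      cosC (REA_q θ b y - REA_q θ b x) = Real.cos (θ b y - θ b x) := by
    intro b x y
    exact cosC_coe (θ b y - θ b x)
  have e2 : ∀ x : ZMod L × ZMod L, cosC (ph (REA_q θ) x + ph (REA_q θ) x) =
      2 * Real.cos (θ true x - θ false x) ^ 2 - 1 := by
    intro x
    rw [cosC_two]
    have : cosC (ph (REA_q θ) x) = Real.cos (θ true x - θ false x) :=
      cosC_coe (θ true x - θ false x)
    rw [this]
  have e3 : ∀ x : ZMod L × ZMod L, 1 / (4 * h * T) * (2 * Real.cos (θ true x - θ false x) ^ 2 - 1) +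
      1 / (4 * h * T) = 1 / T * (1 / (2 * h)) * Real.cos (θ true x - θ false x) ^ 2 := by
    intro x
    field_simp
    ring
  have e4 : ∑ x : ZMod L × ZMod L, 1 / (4 * h * T) * (2 * Real.cos (θ true x - θ false x) ^ 2 - 1) +
      ∑ _x : ZMod L × ZMod L, 1 / (4 * h * T) =
      1 / T * (1 / (2 * h)) * ∑ x : ZMod L × ZMod L, Real.cos (θ true x - θ false x) ^ 2 := by
    rw [← Finset.sum_add_distrib, Finset.mul_sum]
    exact Finset.sum_congr rfl fun x _ => e3 x
  have e5 : ∀ b : Bool, ∑ x : ZMod L × ZMod L, (1 / T * Real.cos (θ b (x.1 + 1, x.2) - θ b x) +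
      1 / T * Real.cos (θ b (x.1, x.2 + 1) - θ b x)) = 1 / T * ∑ x : ZMod L × ZMod L,
      (Real.cos (θ b (x.1 + 1, x.2) - θ b x) + Real.cos (θ b (x.1, x.2 + 1) - θ b x)) := by
    intro b
    rw [Finset.mul_sum]
    exact Finset.sum_congr rfl fun x _ => by ring
  unfold hTor Hclean HXY
  simp only [e1, e2, e5, Fintype.sum_bool]
  rw [add_assoc _ _ (∑ _x : ZMod L × ZMod L, 1 / (4 * h * T)), e4]
  generalize (∑ x : ZMod L × ZMod L,
      (Real.cos (θ true (x.1 + 1, x.2) - θ true x) + Real.cos (θ true (x.1, x.2 + 1) - θ true x))) = A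
  generalize (∑ x : ZMod L × ZMod L,
      (Real.cos (θ false (x.1 + 1, x.2) - θ false x) + Real.cos (θ false (x.1, x.2 + 1) - θ false x))) = B
  generalize (∑ x : ZMod L × ZMod L, Real.cos (θ true x - θ false x) ^ 2) = C
  field_simp
  ring

theorem rea (L : ℕ) [NeZero L] (h T : ℝ) (hh : 0 < h) (hT : 0 < T) (x : ℤ × ℤ) :
    corr L h T x = gE (hTor L (1 / T) (1 / (4 * h * T)))
      (fun θ => cosC (ph θ 0) * cosC (ph θ ((x.1 : ZMod L), (x.2 : ZMod L)))) := by
  obtain ⟨c, hc, hint⟩ := REA_int L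
  set y : ZMod L × ZMod L := ((x.1 : ZMod L), (x.2 : ZMod L)) with hy
  set S : ℝ := ∑ _x : ZMod L × ZMod L, 1 / (4 * h * T) with hS
  have hph : ∀ v : ZMod L × ZMod L,
      Continuous fun θ : Bool → ZMod L × ZMod L → Cir => ph θ v := by
    intro v
    unfold ph
    fun_prop
  have hH : Continuous (hTor L (1 / T) (1 / (4 * h * T))) := by
    unfold hTor
    refine Continuous.add ?_ ?_
    · refine continuous_finsetSum _ fun b _ => continuous_finsetSum _ fun v _ => ?_
      refine Continuous.add ?_ ?_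
      · exact continuous_const.mul (continuous_cosC.comp (by fun_prop))
      · exact continuous_const.mul (continuous_cosC.comp (by fun_prop))
    · refine continuous_finsetSum _ fun v _ => ?_
      exact continuous_const.mul (continuous_cosC.comp ((hph v).add (hph v)))
  have hF : Continuous fun θ : Bool → ZMod L × ZMod L → Cir => cosC (ph θ 0) * cosC (ph θ y) :=
    (continuous_cosC.comp (hph 0)).mul (continuous_cosC.comp (hph y))
  have hE : Continuous fun θ : Bool → ZMod L × ZMod L → Cir =>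
      Real.exp (hTor L (1 / T) (1 / (4 * h * T)) θ) := Real.continuous_exp.comp hH
  have h1 : ∫ θ in angles L, Real.exp (-Hclean L h θ / T) = Real.exp S *
      (c * ∫ θ, Real.exp (hTor L (1 / T) (1 / (4 * h * T)) θ) ∂haarP _) := by
    rw [← hint _ hE, ← integral_const_mul]
    congr 1
    ext θ
    rw [REA_energy L h T hh hT θ, Real.exp_add, mul_comm]
  have h2 : ∫ θ in angles L, (Real.cos (θ true 0 - θ false 0) *
      Real.cos (θ true y - θ false y)) * Real.exp (-Hclean L h θ / T) = Real.exp S *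
      (c * ∫ θ, (cosC (ph θ 0) * cosC (ph θ y)) *
        Real.exp (hTor L (1 / T) (1 / (4 * h * T)) θ) ∂haarP _) := by
    rw [← hint (fun θ => cosC (ph θ 0) * cosC (ph θ y) *
      Real.exp (hTor L (1 / T) (1 / (4 * h * T)) θ)) (hF.mul hE), ← integral_const_mul]
    congr 1
    ext θ
    have k1 : ∀ v, cosC (ph (REA_q θ) v) = Real.cos (θ true v - θ false v) := fun v =>
      cosC_coe (θ true v - θ false v)
    rw [REA_energy L h T hh hT θ, Real.exp_add, k1, k1]
    ring
  unfold corr gibbs gE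
  rw [h1, h2, mul_div_mul_left _ _ (Real.exp_pos S).ne', mul_div_mul_left _ _ hc.ne']

end XYB
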