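import Pool.Agent.H2.XY.GC

/-!
# TOR: the torus model dominates the system of cells (Ginibre)

Proof.  Let `X = Bool → (ZMod L)² → Cir` and let
`r : X →+ (Bx N → Bool → Bx R → Cir)`, `(r θ) c b p = θ b (emb L c p)`.  Since `N R ≤ L` the map
`(c,p) ↦ emb L c p` is injective (`c.1 R + p.1 < N R ≤ L` determines the residue, and
`(c.1, p.1)` by division by `R`), so `r` is a continuous surjective homomorphism, and by `gE_comp` the
left side equals `gE (hCell ... ∘ r) (F ∘ r)` on `X`, `F ∘ r` being the function on the right side.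
Then `gin_mono` with `H = hCell ∘ r` and `H' = hTor L β a - hCell ∘ r`; one has to show that
`H`, `H'` and `F ∘ r` are in the cone `Gin`.  All three are sums (product) of nonnegative multiples of
cosines of characters (`Gin.cos`, `Gin.smul`, `Gin.sum`, `Gin.mul`).  For `H'`:
* pins: `(K/(R·R)) ∑_{c,p} cos 2φ_{emb c p}` (`Fintype.card (Bx R) = R * R`) is part of
  `a ∑_x cos 2φ_x`: the difference is
  `∑_{x ∈ range emb} (a - K/R²) cos 2φ_x + ∑_{x ∉ range} a cos 2φ_x`.
* couplings: `hTor` is the sum of `β cos` over `(b, x, direction)`; the edges `e ∈ bE R` inside a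
  cell `c` correspond to `(emb c e.1, direction)` with `emb c e.2 = emb c e.1 + e_i`, with the same
  coefficient `β`; the arms `a ∈ arms N R` correspond to `(emb a.1, direction)` with
  `emb a.2 = emb a.1 + e_i` with coefficient `β₁ ≤ β`; the map (edge or arm) ↦ (start, direction)
  is injective (an edge inside a cell has `p.i + 1 < R`, an arm has `p.i + 1 = R` in its direction).
Generic lemma: if `j : S → T` is injective on the finite set `S`, `0 ≤ w_s ≤ w'` and
`cos_s = cos'_{j s}`, then `∑_{t ∈ T} w' cos'_t - ∑_{s ∈ S} w_s cos_s` is a nonnegative combination of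
the `cos'_t`.
-/

open MeasureTheory Set

noncomputable section

namespace XYB

theorem TOR_cast {L : ℕ} {x y : ℕ} (hx : x < L) (hy : y < L)
    (h : (x : ZMod L) = (y : ZMod L)) : x = y := by
  rw [ZMod.natCast_eq_natCast_iff'] at h
  rwa [Nat.mod_eq_of_lt hx, Nat.mod_eq_of_lt hy] at h

theorem TOR_digit {R : ℕ} {c c' : ℕ} {p p' : ℕ} (hp : p < R) (hp' : p' < R)
    (h : c * R + p = c' * R + p') : c = c' ∧ p = p' := by
  have hR : 0 < R := lt_of_le_of_lt (Nat.zero_le _) hp
  have h1 : (c * R + p) / R = c := by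
    rw [mul_comm, Nat.mul_add_div hR, Nat.div_eq_of_lt hp, add_zero]
  have h2 : (c' * R + p') / R = c' := by
    rw [mul_comm, Nat.mul_add_div hR, Nat.div_eq_of_lt hp', add_zero]
  have h3 : c = c' := by rw [← h1, ← h2, h]
  subst h3
  exact ⟨rfl, by omega⟩

theorem TOR_lt {N R : ℕ} (c : Fin N) (p : Fin R) : c.val * R + p.val < N * R := by
  have h1 : c.val + 1 ≤ N := c.2
  have h2 : (c.val + 1) * R ≤ N * R := Nat.mul_le_mul_right R h1
  have h3 := p.2
  rw [add_mul, one_mul] at h2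
  omega

theorem TOR_inj {L N R : ℕ} (hL : N * R ≤ L) {c c' : Bx N} {p p' : Bx R}
    (h : emb L c p = emb L c' p') : c = c' ∧ p = p' := by
  unfold emb at h
  rw [Prod.mk.injEq] at h
  obtain ⟨h1, h2⟩ := h
  have h3 := TOR_cast (lt_of_lt_of_le (TOR_lt c.1 p.1) hL) (lt_of_lt_of_le (TOR_lt c'.1 p'.1) hL) h1
  have h4 := TOR_cast (lt_of_lt_of_le (TOR_lt c.2 p.2) hL) (lt_of_lt_of_le (TOR_lt c'.2 p'.2) hL) h2
  obtain ⟨h5, h6⟩ := TOR_digit p.1.2 p'.1.2 h3
  obtain ⟨h7, h8⟩ := TOR_digit p.2.2 p'.2.2 h4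
  exact ⟨Prod.ext (Fin.ext h5) (Fin.ext h7), Prod.ext (Fin.ext h6) (Fin.ext h8)⟩

/-- the restriction homomorphism -/
def TOR_r (L N R : ℕ) : (Bool → ZMod L × ZMod L → Cir) →+ (Bx N → Bool → Bx R → Cir) where
  toFun θ := fun c b p => θ b (emb L c p)
  map_zero' := rfl
  map_add' _ _ := rfl

theorem TOR_r_cont (L N R : ℕ) [NeZero L] : Continuous (TOR_r L N R) := by
  refine continuous_pi fun c => continuous_pi fun b => continuous_pi fun p => ?_
  exact (continuous_apply (emb L c p)).comp (continuous_apply b)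

theorem TOR_r_surj (L : ℕ) {N R : ℕ} (hL : N * R ≤ L) :
    Function.Surjective (TOR_r L N R) := by
  intro η
  have hinj : Function.Injective (fun q : Bx N × Bx R => emb L q.1 q.2) := by
    intro q q' h
    obtain ⟨h1, h2⟩ := TOR_inj hL h
    exact Prod.ext h1 h2
  refine ⟨fun b => Function.extend (fun q : Bx N × Bx R => emb L q.1 q.2)
    (fun q => η q.1 b q.2) 0, ?_⟩
  funext c b p
  exact hinj.extend_apply (fun q : Bx N × Bx R => η q.1 b q.2) 0 (c, p)

section dom

variable {X : Type*} [AddCommGroup X] [TopologicalSpace X] [IsTopologicalAddGroup X]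
  [CompactSpace X] [MeasurableSpace X] [BorelSpace X] [SecondCountableTopology X]

/-- domination of sums of elements of the cone -/
theorem TOR_dom {S T : Type*} [Fintype T] [DecidableEq T] (s : Finset S) (j : S → T)
    (hj : Set.InjOn j s) (w : S → ℝ) {w' : ℝ} (hw : ∀ i ∈ s, w i ≤ w') (hw' : 0 ≤ w')
    (f : T → X → ℝ) (hf : ∀ t, Gin (f t)) :
    Gin (fun x => ∑ t, w' * f t x - ∑ i ∈ s, w i * f (j i) x) := by
  have h1 : (fun x => ∑ t, w' * f t x - ∑ i ∈ s, w i * f (j i) x) =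
      fun x => ∑ i ∈ s, (w' - w i) * f (j i) x +
        ∑ t ∈ Finset.univ \ s.image j, w' * f t x := by
    funext x
    have h2 := Finset.sum_sdiff (s₁ := s.image j) (s₂ := Finset.univ)
      (f := fun t => w' * f t x) (Finset.subset_univ _)
    rw [Finset.sum_image hj] at h2
    rw [← h2]
    simp only [sub_mul, Finset.sum_sub_distrib]
    ring
  rw [h1]
  refine Gin.add (Gin.sum s fun i hi => Gin.smul (sub_nonneg.2 (hw i hi)) (hf _))
    (Gin.sum _ fun t _ => Gin.smul hw' (hf t))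

end dom

/-- the characters of the torus edges -/
def TOR_chi (L : ℕ) (t : Bool × (ZMod L × ZMod L) × Bool) :
    (Bool → ZMod L × ZMod L → Cir) →+ Cir where
  toFun θ := θ t.1 (if t.2.2 then (t.2.1.1, t.2.1.2 + 1) else (t.2.1.1 + 1, t.2.1.2)) - θ t.1 t.2.1
  map_zero' := by simp
  map_add' θ θ' := by
    simp only [Pi.add_apply]
    abel

theorem TOR_chi_cont (L : ℕ) [NeZero L] (t : Bool × (ZMod L × ZMod L) × Bool) :
    Continuous (TOR_chi L t) := by
  have h : ∀ (b : Bool) (x : ZMod L × ZMod L),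
      Continuous fun θ : Bool → ZMod L × ZMod L → Cir => θ b x := fun b x =>
    (continuous_apply x).comp (continuous_apply b)
  exact (h t.1 (if t.2.2 then (t.2.1.1, t.2.1.2 + 1) else (t.2.1.1 + 1, t.2.1.2))).sub
    (h t.1 t.2.1)

theorem TOR_sum3 {A B C : Type*} [Fintype A] [Fintype B] [Fintype C] (f : A × B × C → ℝ) :
    ∑ t, f t = ∑ a, ∑ b, ∑ c, f (a, b, c) := by
  rw [Fintype.sum_prod_type]
  refine Finset.sum_congr rfl fun a _ => ?_
  rw [Fintype.sum_prod_type]

/-- the characters of the pins -/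
def TOR_psi (L : ℕ) (x : ZMod L × ZMod L) : (Bool → ZMod L × ZMod L → Cir) →+ Cir where
  toFun θ := ph θ x + ph θ x
  map_zero' := by simp [ph]
  map_add' θ θ' := by
    simp only [ph, Pi.add_apply]
    abel

theorem TOR_psi_cont (L : ℕ) [NeZero L] (x : ZMod L × ZMod L) : Continuous (TOR_psi L x) := by
  have h : ∀ b : Bool, Continuous fun θ : Bool → ZMod L × ZMod L → Cir => θ b x := fun b =>
    (continuous_apply x).comp (continuous_apply b)
  exact ((h true).sub (h false)).add ((h true).sub (h false))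

def TOR_phi (L : ℕ) (x : ZMod L × ZMod L) : (Bool → ZMod L × ZMod L → Cir) →+ Cir where
  toFun θ := ph θ x
  map_zero' := by simp [ph]
  map_add' θ θ' := by
    simp only [ph, Pi.add_apply]
    abel

theorem TOR_phi_cont (L : ℕ) [NeZero L] (x : ZMod L × ZMod L) : Continuous (TOR_phi L x) := by
  have h : ∀ b : Bool, Continuous fun θ : Bool → ZMod L × ZMod L → Cir => θ b x := fun b =>
    (continuous_apply x).comp (continuous_apply b)
  exact (h true).sub (h false)

theorem TOR_hTor (L : ℕ) [NeZero L] (β a : ℝ) (θ : Bool → ZMod L × ZMod L → Cir) :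
    hTor L β a θ = ∑ t, β * cosC (TOR_chi L t θ) + ∑ x, a * cosC (TOR_psi L x θ) := by
  unfold hTor
  rw [TOR_sum3]
  congr 1
  refine Finset.sum_congr rfl fun b _ => ?_
  refine Finset.sum_congr rfl fun x _ => ?_
  rw [Fintype.sum_bool, add_comm]
  simp [TOR_chi]

/-- index set of the edges of the cells and the arms -/
def TOR_s (N R : ℕ) : Finset (((Bx N × (Bx R × Bx R)) × Bool) ⊕
    (((Bx N × Bx R) × (Bx N × Bx R)) × Bool)) :=
  ((Finset.univ ×ˢ bE R) ×ˢ Finset.univ).disjSum (arms N R ×ˢ Finset.univ)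

/-- the corresponding torus edges -/
def TOR_j (L : ℕ) {N R : ℕ} : ((Bx N × (Bx R × Bx R)) × Bool) ⊕
    (((Bx N × Bx R) × (Bx N × Bx R)) × Bool) → Bool × (ZMod L × ZMod L) × Bool
  | Sum.inl ((c, e), b) => (b, emb L c e.1, decide (e.1.1 = e.2.1))
  | Sum.inr (a, b) => (b, emb L a.1.1 a.1.2, decide (a.1.1.1 = a.2.1.1))

/-- the weights -/
def TOR_w {N R : ℕ} (β β₁ : ℝ) : ((Bx N × (Bx R × Bx R)) × Bool) ⊕
    (((Bx N × Bx R) × (Bx N × Bx R)) × Bool) → ℝ
  | Sum.inl _ => β
  | Sum.inr _ => β₁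

theorem TOR_bE {R : ℕ} {e : Bx R × Bx R} (h : e ∈ bE R) :
    (e.1.1.val + 1 = e.2.1.val ∧ e.1.2 = e.2.2) ∨ (e.1.1 = e.2.1 ∧ e.1.2.val + 1 = e.2.2.val) :=
  (Finset.mem_filter.1 h).2

theorem TOR_arms {N R : ℕ} {a : (Bx N × Bx R) × (Bx N × Bx R)} (h : a ∈ arms N R) :
    (a.1.1.1.val + 1 = a.2.1.1.val ∧ a.1.1.2 = a.2.1.2 ∧
      a.1.2.1.val + 1 = R ∧ a.1.2.2.val = 0 ∧ a.2.2.1.val = 0 ∧ a.2.2.2.val = 0) ∨
    (a.1.1.1 = a.2.1.1 ∧ a.1.1.2.val + 1 = a.2.1.2.val ∧
      a.1.2.1.val = 0 ∧ a.1.2.2.val + 1 = R ∧ a.2.2.1.val = 0 ∧ a.2.2.2.val = 0) :=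
  (Finset.mem_filter.1 h).2

theorem TOR_chi_inl (L : ℕ) {N R : ℕ} (c : Bx N) {e : Bx R × Bx R} (he : e ∈ bE R) (b : Bool)
    (θ : Bool → ZMod L × ZMod L → Cir) :
    TOR_chi L (TOR_j L (Sum.inl ((c, e), b))) θ = θ b (emb L c e.2) - θ b (emb L c e.1) := by
  show θ b (if decide (e.1.1 = e.2.1) then ((emb L c e.1).1, (emb L c e.1).2 + 1)
    else ((emb L c e.1).1 + 1, (emb L c e.1).2)) - θ b (emb L c e.1) = _
  congr 2
  rcases TOR_bE he with ⟨h1, h2⟩ | ⟨h1, h2⟩
  · have h3 : ¬ (e.1.1 = e.2.1) := fun h => by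
      rw [h] at h1
      omega
    rw [if_neg (by simpa using h3)]
    unfold emb
    rw [← h1, h2]
    push_cast
    ring_nf
  · rw [if_pos (by simpa using h1)]
    unfold emb
    rw [h1, ← h2]
    push_cast
    ring_nf

theorem TOR_chi_inr (L : ℕ) {N R : ℕ} {a : (Bx N × Bx R) × (Bx N × Bx R)} (ha : a ∈ arms N R)
    (b : Bool) (θ : Bool → ZMod L × ZMod L → Cir) :
    TOR_chi L (TOR_j L (Sum.inr (a, b))) θ =
      θ b (emb L a.2.1 a.2.2) - θ b (emb L a.1.1 a.1.2) := by
  show θ b (if decide (a.1.1.1 = a.2.1.1) then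
      ((emb L a.1.1 a.1.2).1, (emb L a.1.1 a.1.2).2 + 1)
    else ((emb L a.1.1 a.1.2).1 + 1, (emb L a.1.1 a.1.2).2)) - θ b (emb L a.1.1 a.1.2) = _
  congr 2
  rcases TOR_arms ha with ⟨h1, h2, h3, h4, h5, h6⟩ | ⟨h1, h2, h3, h4, h5, h6⟩
  · have h7 : ¬ (a.1.1.1 = a.2.1.1) := fun h => by
      rw [h] at h1
      omega
    rw [if_neg (by simpa using h7)]
    have e1 : a.2.1.1.val * R + a.2.2.1.val = a.1.1.1.val * R + a.1.2.1.val + 1 := by
      rw [← h1, h5, add_mul, one_mul]
      omega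
    have e2 : a.2.1.2.val * R + a.2.2.2.val = a.1.1.2.val * R + a.1.2.2.val := by
      rw [h2, h4, h6]
    unfold emb
    rw [e1, e2]
    push_cast
    rfl
  · rw [if_pos (by simpa using h1)]
    have e1 : a.2.1.1.val * R + a.2.2.1.val = a.1.1.1.val * R + a.1.2.1.val := by
      rw [h1, h3, h5]
    have e2 : a.2.1.2.val * R + a.2.2.2.val = a.1.1.2.val * R + a.1.2.2.val + 1 := by
      rw [← h2, h6, add_mul, one_mul]
      omega
    unfold emb
    rw [e1, e2]
    push_cast
    rfl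

theorem TOR_j_inj (L : ℕ) {N R : ℕ} (hL : N * R ≤ L) :
    Set.InjOn (TOR_j L (N := N) (R := R)) (TOR_s N R) := by
  intro i hi i' hi' h
  rw [Finset.mem_coe, TOR_s, Finset.mem_disjSum] at hi hi'
  rcases hi with ⟨⟨⟨c, e⟩, b⟩, hi, rfl⟩ | ⟨⟨a, b⟩, hi, rfl⟩
  · rw [Finset.mem_product, Finset.mem_product] at hi
    have he := TOR_bE hi.1.2
    rcases hi' with ⟨⟨⟨c', e'⟩, b'⟩, hi', rfl⟩ | ⟨⟨a', b'⟩, hi', rfl⟩
    · rw [Finset.mem_product, Finset.mem_product] at hi'
      have he' := TOR_bE hi'.1.2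
      simp only [TOR_j, Prod.mk.injEq, decide_eq_decide] at h
      obtain ⟨rfl, h1, h2⟩ := h
      obtain ⟨rfl, h4⟩ := TOR_inj hL h1
      have h5 : e = e' := by
        refine Prod.ext h4 ?_
        rw [h4] at h2
        simp only at he he'
        rw [h4] at he
        rcases he with ⟨g1, g2⟩ | ⟨g1, g2⟩
        · rcases he' with ⟨g3, g4⟩ | ⟨g3, g4⟩
          · exact Prod.ext (Fin.ext (by omega)) (by rw [← g2, ← g4])
          · have := h2.2 g3
            rw [this] at g1
            omega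
        · rcases he' with ⟨g3, g4⟩ | ⟨g3, g4⟩
          · have := h2.1 g1
            rw [this] at g3
            omega
          · exact Prod.ext (by rw [← g1, ← g3]) (Fin.ext (by omega))
      rw [h5]
    · exfalso
      rw [Finset.mem_product] at hi'
      have ha' := TOR_arms hi'.1
      simp only [TOR_j, Prod.mk.injEq, decide_eq_decide] at h
      obtain ⟨-, h1, h2⟩ := h
      obtain ⟨h3, h4⟩ := TOR_inj hL h1
      simp only at he ha'
      have g5 := e.2.1.2
      have g6 := e.2.2.2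
      rw [h4] at he
      rcases he with ⟨g1, g2⟩ | ⟨g1, g2⟩
      · rcases ha' with ⟨k1, k2, k3, k4, k5, k6⟩ | ⟨k1, k2, k3, k4, k5, k6⟩
        · omega
        · have := h2.2 k1
          rw [h4] at this
          rw [this] at g1
          omega
      · rcases ha' with ⟨k1, k2, k3, k4, k5, k6⟩ | ⟨k1, k2, k3, k4, k5, k6⟩
        · have := h2.1 (by rw [h4]; exact g1)
          rw [this] at k1
          omega
        · omega
  · rw [Finset.mem_product] at hi
    have ha := TOR_arms hi.1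
    rcases hi' with ⟨⟨⟨c', e'⟩, b'⟩, hi', rfl⟩ | ⟨⟨a', b'⟩, hi', rfl⟩
    · exfalso
      rw [Finset.mem_product, Finset.mem_product] at hi'
      have he := TOR_bE hi'.1.2
      simp only [TOR_j, Prod.mk.injEq, decide_eq_decide] at h
      obtain ⟨-, h1, h2⟩ := h
      obtain ⟨h3, h4⟩ := TOR_inj hL h1
      simp only at he ha
      have g5 := e'.2.1.2
      have g6 := e'.2.2.2
      rw [← h4] at he
      rcases he with ⟨g1, g2⟩ | ⟨g1, g2⟩
      · rcases ha with ⟨k1, k2, k3, k4, k5, k6⟩ | ⟨k1, k2, k3, k4, k5, k6⟩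
        · omega
        · have := h2.1 k1
          rw [← h4] at this
          rw [this] at g1
          omega
      · rcases ha with ⟨k1, k2, k3, k4, k5, k6⟩ | ⟨k1, k2, k3, k4, k5, k6⟩
        · have := h2.2 (by rw [← h4]; exact g1)
          rw [this] at k1
          omega
        · omega
    · rw [Finset.mem_product] at hi'
      have ha' := TOR_arms hi'.1
      simp only [TOR_j, Prod.mk.injEq, decide_eq_decide] at h
      obtain ⟨rfl, h1, h2⟩ := h
      obtain ⟨h3, h4⟩ := TOR_inj hL h1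
      have h5 : a = a' := by
        refine Prod.ext (Prod.ext h3 h4) ?_
        simp only at ha ha'
        rw [h3, h4] at ha
        rw [h3] at h2
        rcases ha with ⟨k1, k2, k3, k4, k5, k6⟩ | ⟨k1, k2, k3, k4, k5, k6⟩
        · rcases ha' with ⟨m1, m2, m3, m4, m5, m6⟩ | ⟨m1, m2, m3, m4, m5, m6⟩
          · refine Prod.ext (Prod.ext (Fin.ext (by omega)) (by rw [← k2, ← m2]))
              (Prod.ext (Fin.ext (by omega)) (Fin.ext (by omega)))
          · have := h2.2 m1
            rw [this] at k1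
            omega
        · rcases ha' with ⟨m1, m2, m3, m4, m5, m6⟩ | ⟨m1, m2, m3, m4, m5, m6⟩
          · have := h2.1 k1
            rw [this] at m1
            omega
          · refine Prod.ext (Prod.ext (by rw [← k1, ← m1]) (Fin.ext (by omega)))
              (Prod.ext (Fin.ext (by omega)) (Fin.ext (by omega)))
      rw [h5]

theorem TOR_hCell (L : ℕ) [NeZero L] {N R : ℕ} (β K β₁ : ℝ)
    (θ : Bool → ZMod L × ZMod L → Cir) :
    hCell β K β₁ (bE R) (arms N R) (TOR_r L N R θ) =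
      ∑ i ∈ TOR_s N R, TOR_w β β₁ i * cosC (TOR_chi L (TOR_j L i) θ) +
        ∑ q ∈ (Finset.univ : Finset (Bx N × Bx R)), (K / ((R : ℝ) * R)) *
          cosC (TOR_psi L (emb L q.1 q.2) θ) := by
  have hcard : (Fintype.card (Bx R) : ℝ) = (R : ℝ) * R := by
    rw [Fintype.card_prod, Fintype.card_fin]
    push_cast
    rfl
  unfold hCell hBox hXY
  rw [Finset.sum_add_distrib, TOR_s, Finset.sum_disjSum, hcard]
  have e1 : ∑ x : Bx N, β * (∑ e ∈ bE R, cosC ((TOR_r L N R) θ x true e.2 -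
      (TOR_r L N R) θ x true e.1) + ∑ e ∈ bE R, cosC ((TOR_r L N R) θ x false e.2 -
      (TOR_r L N R) θ x false e.1)) =
      ∑ x ∈ (Finset.univ ×ˢ bE R) ×ˢ Finset.univ, TOR_w (N := N) (R := R) β β₁ (Sum.inl x) *
        cosC (TOR_chi L (TOR_j L (Sum.inl x)) θ) := by
    rw [Finset.sum_product, Finset.sum_product]
    refine Finset.sum_congr rfl fun c _ => ?_
    rw [← Finset.sum_add_distrib, Finset.mul_sum]
    refine Finset.sum_congr rfl fun e he => ?_
    rw [Fintype.sum_bool, TOR_chi_inl L c he, TOR_chi_inl L c he, mul_add]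
    rfl
  have e2 : ∑ x : Bx N, K * ((∑ v, cosC (ph ((TOR_r L N R) θ x) v + ph ((TOR_r L N R) θ x) v)) /
      ((R : ℝ) * R)) = ∑ q ∈ (Finset.univ : Finset (Bx N × Bx R)), (K / ((R : ℝ) * R)) *
          cosC (TOR_psi L (emb L q.1 q.2) θ) := by
    refine Eq.trans ?_ (Fintype.sum_prod_type (fun q : Bx N × Bx R => (K / ((R : ℝ) * R)) *
      cosC (TOR_psi L (emb L q.1 q.2) θ))).symm
    refine Finset.sum_congr rfl fun c _ => ?_
    rw [← mul_div_assoc, mul_div_right_comm, Finset.mul_sum]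
    rfl
  have e3 : ∑ f ∈ arms N R ×ˢ (Finset.univ : Finset Bool),
      β₁ * cosC (dArm f.1 f.2 ((TOR_r L N R) θ)) =
      ∑ x ∈ arms N R ×ˢ Finset.univ, TOR_w (N := N) (R := R) β β₁ (Sum.inr x) *
        cosC (TOR_chi L (TOR_j L (Sum.inr x)) θ) := by
    refine Finset.sum_congr rfl fun x hx => ?_
    obtain ⟨a, b⟩ := x
    rw [TOR_chi_inr L (Finset.mem_product.1 hx).1]
    rfl
  rw [e1, e2, e3]
  ring

theorem tor (L : ℕ) [NeZero L] (N R : ℕ) (hL : N * R ≤ L) (β a β₁ K : ℝ)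
    (hβ₁ : 0 ≤ β₁) (hβ : β₁ ≤ β) (hK : 0 ≤ K) (ha : K / ((R : ℝ) * R) ≤ a)
    (c₁ c₂ : Bx N) (p₁ p₂ : Bx R) :
    gE (hCell β K β₁ (bE R) (arms N R))
        (fun θ => cosC (ph (θ c₁) p₁) * cosC (ph (θ c₂) p₂)) ≤
      gE (hTor L β a)
        (fun θ => cosC (ph θ (emb L c₁ p₁)) * cosC (ph θ (emb L c₂ p₂))) := by
  have hβ0 : 0 ≤ β := hβ₁.trans hβ
  have hRR : 0 ≤ K / ((R : ℝ) * R) := div_nonneg hK (mul_nonneg (Nat.cast_nonneg _) (Nat.cast_nonneg _))
  have ha0 : 0 ≤ a := hRR.trans ha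
  have hdiv : ∀ x : Bool → ZMod L × ZMod L → Cir, ∃ y, y + y = x := pi_div (pi_div cir_div)
  -- continuity of the functions of the cells
  have hc1 : ∀ (c : Bx N) (b : Bool) (p : Bx R),
      Continuous fun θ : Bx N → Bool → Bx R → Cir => θ c b p := fun c b p =>
    (continuous_apply p).comp ((continuous_apply b).comp (continuous_apply c))
  have hc2 : ∀ (c : Bx N) (p : Bx R), Continuous fun θ : Bx N → Bool → Bx R → Cir =>
      ph (θ c) p := fun c p => (hc1 c true p).sub (hc1 c false p)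
  have hFc : Continuous (fun θ : Bx N → Bool → Bx R → Cir =>
      cosC (ph (θ c₁) p₁) * cosC (ph (θ c₂) p₂)) :=
    (continuous_cosC.comp (hc2 c₁ p₁)).mul (continuous_cosC.comp (hc2 c₂ p₂))
  have hXYc : ∀ (c : Bx N) (b : Bool), Continuous fun θ : Bx N → Bool → Bx R → Cir =>
      hXY (bE R) (θ c b) := by
    intro c b
    unfold hXY
    exact continuous_finsetSum _ fun e _ => continuous_cosC.comp ((hc1 c b e.2).sub (hc1 c b e.1))
  have hHc : Continuous (hCell β K β₁ (bE R) (arms N R)) := by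
    unfold hCell
    refine (continuous_finsetSum _ fun c _ => ?_).add (continuous_finsetSum _ fun f _ => ?_)
    · unfold hBox
      refine (continuous_const.mul ((hXYc c true).add (hXYc c false))).add
        (continuous_const.mul (Continuous.div_const ?_ _))
      exact continuous_finsetSum _ fun v _ => continuous_cosC.comp ((hc2 c v).add (hc2 c v))
    · unfold dArm
      exact continuous_const.mul (continuous_cosC.comp ((hc1 _ _ _).sub (hc1 _ _ _)))
  rw [← gE_comp (TOR_r L N R) (TOR_r_cont L N R) (TOR_r_surj L hL) _ _ hHc hFc]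
  -- the cone
  have hF : Gin (fun θ : Bool → ZMod L × ZMod L → Cir =>
      cosC (ph θ (emb L c₁ p₁)) * cosC (ph θ (emb L c₂ p₂))) :=
    (Gin.cos (TOR_phi L (emb L c₁ p₁)) (TOR_phi_cont L _)).mul
      (Gin.cos (TOR_phi L (emb L c₂ p₂)) (TOR_phi_cont L _))
  have hH : Gin (fun θ : Bool → ZMod L × ZMod L → Cir =>
      hCell β K β₁ (bE R) (arms N R) (TOR_r L N R θ)) := by
    simp only [TOR_hCell]
    refine Gin.add (Gin.sum _ fun i _ => Gin.smul ?_ (Gin.cos _ (TOR_chi_cont L _)))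
      (Gin.sum _ fun q _ => Gin.smul hRR (Gin.cos _ (TOR_psi_cont L _)))
    rcases i with i | i
    · exact hβ0
    · exact hβ₁
  have hD : Gin (fun θ : Bool → ZMod L × ZMod L → Cir =>
      hTor L β a θ - hCell β K β₁ (bE R) (arms N R) (TOR_r L N R θ)) := by
    have h1 := TOR_dom (X := Bool → ZMod L × ZMod L → Cir) (TOR_s N R) (TOR_j L)
      (TOR_j_inj L hL) (TOR_w β β₁) (w' := β) (fun i _ => by
        rcases i with i | i
        · exact le_refl _
        · exact hβ) hβ0 (fun t θ => cosC (TOR_chi L t θ))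
      (fun t => Gin.cos _ (TOR_chi_cont L t))
    have h2 := TOR_dom (X := Bool → ZMod L × ZMod L → Cir)
      (Finset.univ : Finset (Bx N × Bx R)) (fun q => emb L q.1 q.2)
      (fun q _ q' _ h => Prod.ext (TOR_inj hL h).1 (TOR_inj hL h).2)
      (fun _ => K / ((R : ℝ) * R)) (w' := a) (fun i _ => ha) ha0
      (fun x θ => cosC (TOR_psi L x θ)) (fun x => Gin.cos _ (TOR_psi_cont L x))
    have h3 := h1.add h2
    refine cast (congrArg Gin ?_) h3
    funext θ
    rw [TOR_hTor, TOR_hCell]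
    ring
  have h := gin_mono hdiv hF hH hD
  have e1 : (fun θ : Bool → ZMod L × ZMod L → Cir =>
      hCell β K β₁ (bE R) (arms N R) (TOR_r L N R θ) + (hTor L β a θ -
        hCell β K β₁ (bE R) (arms N R) (TOR_r L N R θ))) = hTor L β a := by
    funext θ
    ring
  rw [e1] at h
  exact h

end XYB
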