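import Pool.Agent.H2.XY.GC

/-!
# TRI: translation invariance of the torus model

Proof.  `s : θ ↦ fun b z => θ b (z + y)` is a continuous surjective homomorphism of
`Bool → (ZMod L)² → Cir` and `hTor L β a (s θ) = hTor L β a θ` (reindex the sums over the torus by
`z ↦ z + y`: `Fintype.sum_equiv (Equiv.addRight y)`; `(z.1+1, z.2) + y = ((z+y).1+1, (z+y).2)`).
Now `gE_comp` for `φ = s`, `H = hTor`, `F θ = cos φ_0 cos φ_x`: `F (s θ) = cos φ_y cos φ_{x+y}`.
-/

open MeasureTheory Set

noncomputable section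

namespace XYB

/-- the translation by `y` -/
def TRI_s (L : ℕ) (y : ZMod L × ZMod L) :
    (Bool → ZMod L × ZMod L → Cir) →+ (Bool → ZMod L × ZMod L → Cir) where
  toFun θ := fun b z => θ b (z + y)
  map_zero' := rfl
  map_add' _ _ := rfl

lemma TRI_s_cont (L : ℕ) (y : ZMod L × ZMod L) : Continuous (TRI_s L y) := by
  show Continuous fun θ : Bool → ZMod L × ZMod L → Cir => fun b z => θ b (z + y)
  fun_prop

lemma TRI_s_surj (L : ℕ) (y : ZMod L × ZMod L) : Function.Surjective (TRI_s L y) := by
  intro θ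
  refine ⟨fun b z => θ b (z - y), ?_⟩
  funext b z
  show θ b (z + y - y) = θ b z
  rw [add_sub_cancel_right]

lemma TRI_hTor (L : ℕ) [NeZero L] (β a : ℝ) (y : ZMod L × ZMod L)
    (θ : Bool → ZMod L × ZMod L → Cir) : hTor L β a (TRI_s L y θ) = hTor L β a θ := by
  unfold hTor
  congr 1
  · refine Finset.sum_congr rfl fun b _ => ?_
    refine Fintype.sum_equiv (Equiv.addRight y) _ _ fun z => ?_
    have h1 : ((z.1 + 1, z.2) : ZMod L × ZMod L) + y =
        ((z + y).1 + 1, (z + y).2) := by
      ext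
      · show z.1 + 1 + y.1 = z.1 + y.1 + 1
        ring
      · rfl
    have h2 : ((z.1, z.2 + 1) : ZMod L × ZMod L) + y =
        ((z + y).1, (z + y).2 + 1) := by
      ext
      · rfl
      · show z.2 + 1 + y.2 = z.2 + y.2 + 1
        ring
    show β * cosC (θ b ((z.1 + 1, z.2) + y) - θ b (z + y)) +
        β * cosC (θ b ((z.1, z.2 + 1) + y) - θ b (z + y)) =
      β * cosC (θ b ((z + y).1 + 1, (z + y).2) - θ b (z + y)) +
        β * cosC (θ b ((z + y).1, (z + y).2 + 1) - θ b (z + y))
    rw [h1, h2]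
  · exact Fintype.sum_equiv (Equiv.addRight y) _ _ fun z => rfl

theorem tri (L : ℕ) [NeZero L] (β a : ℝ) (x y : ZMod L × ZMod L) :
    gE (hTor L β a) (fun θ => cosC (ph θ 0) * cosC (ph θ x)) =
      gE (hTor L β a) (fun θ => cosC (ph θ y) * cosC (ph θ (x + y))) := by
  have hcos : ∀ f : (Bool → ZMod L × ZMod L → Cir) → Cir, Continuous f →
      Continuous fun θ => cosC (f θ) := fun f hf => continuous_cosC.comp hf
  have hH : Continuous (hTor L β a) := by
    unfold hTor
    refine Continuous.add ?_ ?_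
    · refine continuous_finsetSum _ fun b _ => continuous_finsetSum _ fun z _ => ?_
      exact (continuous_const.mul (hcos _ (by fun_prop))).add
        (continuous_const.mul (hcos _ (by fun_prop)))
    · refine continuous_finsetSum _ fun z _ => ?_
      refine continuous_const.mul (hcos _ ?_)
      unfold ph
      fun_prop
  have hF : Continuous fun θ : Bool → ZMod L × ZMod L → Cir =>
      cosC (ph θ 0) * cosC (ph θ x) := by
    refine (hcos _ ?_).mul (hcos _ ?_)
    · unfold ph
      fun_prop
    · unfold ph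
      fun_prop
  rw [← gE_comp (TRI_s L y) (TRI_s_cont L y) (TRI_s_surj L y) _ _ hH hF]
  have h1 : (fun θ => hTor L β a (TRI_s L y θ)) = hTor L β a :=
    funext fun θ => TRI_hTor L β a y θ
  have h2 : (fun θ : Bool → ZMod L × ZMod L → Cir =>
      cosC (ph (TRI_s L y θ) 0) * cosC (ph (TRI_s L y θ) x)) =
      fun θ => cosC (ph θ y) * cosC (ph θ (x + y)) := by
    funext θ
    show cosC (ph θ (0 + y)) * cosC (ph θ (x + y)) = _
    rw [zero_add]
  rw [h1, h2]

end XYB
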