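import Pool.Agent.H2.XY.COH
import Pool.Agent.H2.XY.BOX
import Pool.Agent.H2.XY.CLR
import Pool.Agent.H2.XY.TOR
import Pool.Agent.H2.XY.TRI
import Pool.Agent.H2.XY.REA

/-!
# FIN: choice of constants and assembly
-/

open MeasureTheory Set Filter

noncomputable section

namespace XYB

/-- choice of `κ` and `ρ` -/
lemma fin_kappa (m : ℝ) (hm : m < 1) : ∃ κ ρ : ℝ, 9 / 10 ≤ κ ∧ κ < 1 ∧ 0 < ρ ∧ 72 * ρ ≤ 1 ∧
    m ≤ κ ^ 2 * (1 - 4 * ρ) - 4 * ρ := by
  obtain ⟨δ, hδ0, hδ1, hδm⟩ : ∃ δ : ℝ, 0 < δ ∧ δ ≤ 1 / 100 ∧ m ≤ 1 - 10 * δ := by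
    refine ⟨min (1 / 100) ((1 - m) / 10), by apply lt_min; norm_num; linarith, min_le_left _ _, ?_⟩
    have := min_le_right (1 / 100 : ℝ) ((1 - m) / 10)
    linarith
  refine ⟨1 - δ, δ, by linarith, by linarith, hδ0, by linarith, ?_⟩
  nlinarith [sq_nonneg δ, mul_pos hδ0 hδ0]

lemma fin_marks_card {R : ℕ} (p₁ p₂ : Bx R) : (marks p₁ p₂).card ≤ 5 := by
  have hR : 0 < R := p₁.1.pos
  let o : Bx R := (⟨0, hR⟩, ⟨0, hR⟩)
  let r : Bx R := (⟨R - 1, by omega⟩, ⟨0, hR⟩)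
  let t : Bx R := (⟨0, hR⟩, ⟨R - 1, by omega⟩)
  have : marks p₁ p₂ ⊆ ({o, r, t, p₁, p₂} : Finset (Bx R)) := by
    intro v hv
    simp only [marks, Finset.mem_filter, Finset.mem_univ, true_and] at hv
    simp only [Finset.mem_insert, Finset.mem_singleton]
    rcases hv with ⟨h1, h2⟩ | ⟨h1, h2⟩ | ⟨h1, h2⟩ | h | h
    · left; exact Prod.ext (Fin.ext h1) (Fin.ext h2)
    · right; left; exact Prod.ext (Fin.ext (by simp only [r]; omega)) (Fin.ext h2)
    · right; right; left; exact Prod.ext (Fin.ext h1) (Fin.ext (by simp only [t]; omega))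
    · right; right; right; left; exact h
    · right; right; right; right; exact h
  exact (Finset.card_le_card this).trans Finset.card_le_five

lemma fin_boxbad {R : ℕ} (β K κ ε : ℝ) (hε : 0 ≤ ε) (p₁ p₂ : Bx R)
    (ha : ∀ u : Bx R, (gM (hBox β K (bE R))).real
      {θ : Bool → Bx R → Cir | |cosC (ph θ u)| < κ} ≤ ε)
    (hb : ∀ u v : Bx R, (gM (hBox β K (bE R))).real
      {θ : Bool → Bx R → Cir | cosC (ph θ u - ph θ v) ≤ 0} ≤ ε) :
    (gM (hBox β K (bE R))).real (BoxBad κ p₁ p₂) ≤ 30 * ε := by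
  have hcont : Continuous (hBox β K (bE R)) := by
    unfold hBox hXY ph
    have := continuous_cosC
    fun_prop
  haveI := isProb_gM _ hcont
  set P := gM (hBox β K (bE R)) with hP
  have hsub : BoxBad κ p₁ p₂ ⊆
      (⋃ m ∈ marks p₁ p₂, {θ : Bool → Bx R → Cir | |cosC (ph θ m)| < κ}) ∪
        ⋃ q ∈ marks p₁ p₂ ×ˢ marks p₁ p₂,
          {θ : Bool → Bx R → Cir | cosC (ph θ q.1 - ph θ q.2) ≤ 0} := by
    intro θ hθ
    rcases hθ with ⟨m, hm, h⟩ | ⟨m, hm, m', hm', h⟩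
    · left; simp only [mem_iUnion]; exact ⟨m, hm, h⟩
    · right; simp only [mem_iUnion]; exact ⟨(m, m'), Finset.mem_product.2 ⟨hm, hm'⟩, h⟩
  have h5 := fin_marks_card p₁ p₂
  calc P.real (BoxBad κ p₁ p₂) ≤ _ := measureReal_mono hsub
    _ ≤ _ := measureReal_union_le _ _
    _ ≤ (∑ m ∈ marks p₁ p₂, P.real {θ : Bool → Bx R → Cir | |cosC (ph θ m)| < κ}) +
        ∑ q ∈ marks p₁ p₂ ×ˢ marks p₁ p₂,
          P.real {θ : Bool → Bx R → Cir | cosC (ph θ q.1 - ph θ q.2) ≤ 0} :=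
        add_le_add (measureReal_biUnion_finset_le _ _) (measureReal_biUnion_finset_le _ _)
    _ ≤ (∑ m ∈ marks p₁ p₂, ε) + ∑ q ∈ marks p₁ p₂ ×ˢ marks p₁ p₂, ε :=
        add_le_add (Finset.sum_le_sum fun m _ => ha m) (Finset.sum_le_sum fun q _ => hb q.1 q.2)
    _ = ((marks p₁ p₂).card + (marks p₁ p₂).card * (marks p₁ p₂).card) * ε := by
        simp only [Finset.sum_const, Finset.card_product, nsmul_eq_mul]; push_cast; ring
    _ ≤ 30 * ε := by
        apply mul_le_mul_of_nonneg_right _ hε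
        have : ((marks p₁ p₂).card : ℝ) ≤ 5 := by exact_mod_cast h5
        nlinarith [Nat.cast_nonneg (α := ℝ) (marks p₁ p₂).card]

/-- choice of the box size -/
lemma fin_k (K : ℝ) (hK : 0 < K) (h : ℝ) (hh : 1 ≤ 4 * K * h) :
    ∃ k : ℕ, 4 * K * h ≤ 4 ^ k ∧ (4 : ℝ) ^ k ≤ 16 * K * h := by
  classical
  have hex : ∃ k : ℕ, 4 * K * h ≤ (4 : ℝ) ^ k := by
    obtain ⟨k, hk⟩ := pow_unbounded_of_one_lt (4 * K * h) (by norm_num : (1 : ℝ) < 4)
    exact ⟨k, hk.le⟩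
  refine ⟨Nat.find hex, Nat.find_spec hex, ?_⟩
  rcases Nat.eq_zero_or_pos (Nat.find hex) with h0 | h0
  · rw [h0]; norm_num; linarith
  · have := Nat.find_min hex (m := Nat.find hex - 1) (by omega)
    push Not at this
    have e : (4 : ℝ) ^ Nat.find hex = 4 * 4 ^ (Nat.find hex - 1) := by
      rw [← pow_succ']; congr 1; omega
    rw [e]; linarith

theorem fin_main (m : ℝ) (hm : m < 1) : ∃ c : ℝ, 0 < c ∧ ∃ h₀ : ℝ, 1 < h₀ ∧
    ∀ h : ℝ, h₀ ≤ h → ∀ T : ℝ, 0 < T → T ≤ c / Real.log h →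
      ∀ x : ℤ × ℤ, ∃ L₀ : ℕ, ∀ L : ℕ, L₀ ≤ L → ∀ [NeZero L], m ≤ corr L h T x := by
  obtain ⟨κ, ρ, hκ9, hκ1, hρ0, hρ72, hmκ⟩ := fin_kappa m hm
  -- β₁
  obtain ⟨β₁, hβ₁0, hβ₁⟩ : ∃ β₁ : ℝ, 0 ≤ β₁ ∧ 5 * (Real.exp (β₁ * (9 / 10)) / I0 β₁) ≤ ρ := by
    have h1 := i0b_tendsto (9 / 10) (by norm_num)
    have h2 : ∀ᶠ b : ℝ in atTop, Real.exp (b * (9 / 10)) / I0 b < ρ / 5 :=
      h1.eventually_lt_const (by positivity)
    obtain ⟨b, hb, hb0⟩ := (h2.and (eventually_ge_atTop 0)).exists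
    exact ⟨b, hb0, by linarith⟩
  set C₁ := Real.exp β₁ / I0 β₁ with hC₁
  have hC₁p : 1 ≤ C₁ := one_le_exp_div_I0 hβ₁0
  have hC8 : 0 < C₁ ^ 8 := by positivity
  set ε := ρ / (5 * C₁ ^ 8 * 30) with hε
  have hε0 : 0 < ε := by positivity
  obtain ⟨K, hK, η, hη, hbox⟩ := box_lemma κ (by linarith) hκ1 ε hε0
  obtain ⟨C, hC, hcoh⟩ := coh
  obtain ⟨p, hp, hI0⟩ := i0b (3 / 4) (by norm_num)
  -- the constant c
  set c := min (1 / 8) (η / (4 * C)) with hc
  have hc0 : 0 < c := lt_min (by norm_num) (by positivity)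
  have hc8 : c ≤ 1 / 8 := min_le_left _ _
  have hcη : 4 * C * c ≤ η := by
    have := min_le_right (1 / 8) (η / (4 * C))
    rw [← hc] at this
    calc 4 * C * c ≤ 4 * C * (η / (4 * C)) := by gcongr
      _ = η := by field_simp
  -- conditions on h, all eventually true
  have hlog : Tendsto Real.log atTop atTop := Real.tendsto_log_atTop
  have ev : ∀ᶠ h : ℝ in atTop, 1 ≤ Real.log h ∧ 1 ≤ 4 * K * h ∧ β₁ ≤ 8 * Real.log h ∧
      Real.log (16 * K) / Real.log 4 + 1 ≤ (2 - 1 / Real.log 4) * Real.log h ∧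
      128 * K / (p * η) ≤ h ∧ 1 < h := by
    have hl4 : 1 < Real.log 4 := by
      have : Real.log 4 = 2 * Real.log 2 := by
        rw [show (4 : ℝ) = 2 ^ 2 by norm_num, Real.log_pow]; norm_num
      rw [this]; linarith [Real.log_two_gt_d9]
    have h2 : 0 < 2 - 1 / Real.log 4 := by
      have : 1 / Real.log 4 < 1 := by rw [div_lt_one (by linarith)]; exact hl4
      linarith
    refine (hlog.eventually_ge_atTop 1).and (((tendsto_id.const_mul_atTop
      (by positivity : 0 < 4 * K)).eventually_ge_atTop 1).and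
      (((hlog.const_mul_atTop (by norm_num : (0:ℝ) < 8)).eventually_ge_atTop β₁).and
      (((hlog.const_mul_atTop h2).eventually_ge_atTop _).and
      ((eventually_ge_atTop _).and (eventually_gt_atTop 1)))))
  obtain ⟨h₁, hh₁⟩ := eventually_atTop.1 ev
  refine ⟨c, hc0, max h₁ 2, by simp, ?_⟩
  intro h hh T hT hTc x
  obtain ⟨hlog1, h4K, hβlog, hklog, h128, h1⟩ := hh₁ h (le_trans (le_max_left _ _) hh)
  have hh0 : 0 < h := by linarith
  have hlogp : 0 < Real.log h := by linarith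
  set β := 1 / T with hβ
  have hβp : 0 < β := by positivity
  have hβge : Real.log h / c ≤ β := by
    rw [hβ, div_le_div_iff₀ hc0 hT]
    have := (le_div_iff₀ hlogp).1 hTc
    linarith
  have hβ8 : 8 * Real.log h ≤ β := by
    refine le_trans ?_ hβge
    rw [le_div_iff₀ hc0]
    nlinarith
  have hββ₁ : β₁ ≤ β := hβlog.trans hβ8
  obtain ⟨k, hk1, hk2⟩ := fin_k K hK h h4K
  set R := 2 ^ k with hR
  have hRR : ((R : ℕ) : ℝ) * R = 4 ^ k := by
    rw [hR]; push_cast; rw [← mul_pow]; norm_num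
  have hRpos : 0 < R := by positivity
  -- (k+1) ≤ 2 log h
  have hk : ((k : ℝ) + 1) ≤ 2 * Real.log h := by
    have hl4 : 0 < Real.log 4 := Real.log_pos (by norm_num)
    have h3 : (k : ℝ) * Real.log 4 ≤ Real.log (16 * K) + Real.log h := by
      rw [← Real.log_pow, ← Real.log_mul (by positivity) (by positivity)]
      exact Real.log_le_log (by positivity) hk2
    have h4 : (k : ℝ) ≤ (Real.log (16 * K) + Real.log h) / Real.log 4 := by
      rw [le_div_iff₀ hl4]; exact h3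
    have h5 : (Real.log (16 * K) + Real.log h) / Real.log 4 =
      Real.log (16 * K) / Real.log 4 + 1 / Real.log 4 * Real.log h := by ring
    rw [h5] at h4
    nlinarith
  -- coherence
  have hcohη : ∀ u v : Bx R, 1 - gE (fun θ : Bx R → Cir => β * hXY (bE R) θ)
      (fun θ => cosC (θ u - θ v)) ≤ η := by
    intro u v
    refine (hcoh k β hβp u v).trans ?_
    have e1 : Real.exp (β / 2) / I0 β ≤ Real.exp (-(β / 4)) / p := by
      rw [div_le_div_iff₀ (I0_pos β) hp]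
      have := hI0 β hβp.le
      calc Real.exp (β / 2) * p = Real.exp (-(β / 4)) * (p * Real.exp (β * (3 / 4))) := by
            rw [show Real.exp (β / 2) = Real.exp (-(β / 4)) * Real.exp (β * (3 / 4)) by
              rw [← Real.exp_add]; congr 1; ring]
            ring
        _ ≤ Real.exp (-(β / 4)) * I0 β := by gcongr
    have e2 : Real.exp (-(β / 4)) ≤ 1 / h ^ 2 := by
      calc Real.exp (-(β / 4)) ≤ Real.exp (-(2 * Real.log h)) :=
            Real.exp_le_exp.2 (by linarith)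
        _ = 1 / h ^ 2 := by
            rw [Real.exp_neg, one_div, mul_comm, Real.exp_mul, Real.exp_log hh0]
            norm_num
    have e3 : 4 * 4 ^ k * (Real.exp (β / 2) / I0 β) ≤ η / 2 := by
      have e0 : Real.exp (β / 2) / I0 β ≤ (1 / h ^ 2) / p := e1.trans (by gcongr)
      have e00 : 0 ≤ Real.exp (β / 2) / I0 β := div_nonneg (Real.exp_pos _).le (I0_pos β).le
      calc 4 * 4 ^ k * (Real.exp (β / 2) / I0 β) ≤ 4 * (16 * K * h) * ((1 / h ^ 2) / p) := by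
            gcongr
        _ = 64 * K / (p * h) := by field_simp; ring
        _ ≤ η / 2 := by
            rw [div_le_div_iff₀ (by positivity) (by norm_num)]
            rw [div_le_iff₀ (by positivity)] at h128
            nlinarith
    have e4 : C * ((k : ℝ) + 1) / β ≤ η / 2 := by
      have hTβ : T = 1 / β := by rw [hβ]; simp
      rw [div_eq_mul_one_div, ← hTβ]
      calc C * ((k : ℝ) + 1) * T ≤ C * (2 * Real.log h) * (c / Real.log h) := by gcongr
        _ = 2 * C * c := by field_simp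
        _ ≤ η / 2 := by linarith
    linarith
  obtain ⟨hba, hbb⟩ := hbox (Bx R) (bE R) β hβp.le hcohη
  -- geometry
  set q : ℕ := max x.1.natAbs x.2.natAbs with hq
  obtain ⟨n, hn⟩ : ∃ n : ℕ, 2 * q + 1 ≤ 3 ^ n := ⟨2 * q + 1, (Nat.lt_pow_self (by norm_num)).le⟩
  refine ⟨3 ^ n * R, fun L hL _ => ?_⟩
  have hx1 : 0 ≤ (q : ℤ) + x.1 := by omega
  have hx2 : 0 ≤ (q : ℤ) + x.2 := by omega
  obtain ⟨y1, hy1⟩ := Int.eq_ofNat_of_zero_le hx1
  obtain ⟨y2, hy2⟩ := Int.eq_ofNat_of_zero_le hx2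
  have hy1b : y1 ≤ 2 * q := by omega
  have hy2b : y2 ≤ 2 * q := by omega
  have key : ∀ z : ℕ, z ≤ 2 * q → z / R < 3 ^ n := by
    intro z hz
    calc z / R ≤ z := Nat.div_le_self _ _
      _ < 3 ^ n := by omega
  let c₁ : Bx (3 ^ n) := (⟨q / R, key q (by omega)⟩, ⟨q / R, key q (by omega)⟩)
  let c₂ : Bx (3 ^ n) := (⟨y1 / R, key y1 hy1b⟩, ⟨y2 / R, key y2 hy2b⟩)
  let p₁ : Bx R := (⟨q % R, Nat.mod_lt _ hRpos⟩, ⟨q % R, Nat.mod_lt _ hRpos⟩)
  let p₂ : Bx R := (⟨y1 % R, Nat.mod_lt _ hRpos⟩, ⟨y2 % R, Nat.mod_lt _ hRpos⟩)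
  have hbad := fin_boxbad β K κ ε hε0.le p₁ p₂ hba hbb
  have hclr := clr n R β K β₁ κ hβp.le hK.le hβ₁0 hκ9 p₁ p₂ ρ hρ0.le hρ72
    (by
      calc 5 * ((Real.exp β₁ / I0 β₁) ^ 8 * (gM (hBox β K (bE R))).real (BoxBad κ p₁ p₂))
          ≤ 5 * (C₁ ^ 8 * (30 * ε)) := by gcongr
        _ = ρ := by rw [hε]; field_simp) hβ₁ c₁ c₂
  have htor := tor L (3 ^ n) R hL β (1 / (4 * h * T)) β₁ K hβ₁0 hββ₁ hK.le
    (by
      rw [hRR, div_le_iff₀ (by positivity)]
      have hT1 : T ≤ 1 := by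
        calc T ≤ c / Real.log h := hTc
          _ ≤ (1 / 8) / 1 := by gcongr
          _ ≤ 1 := by norm_num
      rw [div_mul_eq_mul_div, one_mul, le_div_iff₀ (by positivity)]
      nlinarith [mul_pos hK hh0]) c₁ c₂ p₁ p₂
  have hrea := rea L h T hh0 hT x
  have htri := tri L β (1 / (4 * h * T)) ((x.1 : ZMod L), (x.2 : ZMod L)) ((q : ZMod L), (q : ZMod L))
  have e1 : emb L c₁ p₁ = ((q : ZMod L), (q : ZMod L)) := by
    have : q / R * R + q % R = q := by rw [mul_comm]; exact Nat.div_add_mod q R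
    simp only [emb, c₁, p₁, this]
  have e2 : emb L c₂ p₂ = ((x.1 : ZMod L), (x.2 : ZMod L)) + ((q : ZMod L), (q : ZMod L)) := by
    have h1 : y1 / R * R + y1 % R = y1 := by rw [mul_comm]; exact Nat.div_add_mod y1 R
    have h2 : y2 / R * R + y2 % R = y2 := by rw [mul_comm]; exact Nat.div_add_mod y2 R
    simp only [emb, c₂, p₂, h1, h2]
    have h3 : ((y1 : ℤ) : ZMod L) = (((q : ℤ) + x.1 : ℤ) : ZMod L) := by rw [hy1]
    have h4 : ((y2 : ℤ) : ZMod L) = (((q : ℤ) + x.2 : ℤ) : ZMod L) := by rw [hy2]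
    push_cast at h3 h4
    ext
    · simp [h3, add_comm]
    · simp [h4, add_comm]
  rw [e1, e2] at htor
  rw [hrea, htri]
  linarith

end XYB
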