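import Pool.Agent.H2.XY.FIN

/-!
# FIN2: long-range order and the critical temperature
-/

open MeasureTheory Set Filter

noncomputable section

namespace XYB

lemma fin2_corr_le (L : ℕ) [NeZero L] (h T : ℝ) (hh : 0 < h) (hT : 0 < T) (x : ℤ × ℤ) :
    corr L h T x ≤ 1 := by
  rw [rea L h T hh hT x, gE_eq]
  have hcont : Continuous (hTor L (1 / T) (1 / (4 * h * T))) := by
    unfold hTor ph
    have := continuous_cosC
    fun_prop
  have := isProb_gM _ hcont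
  have hF : ∀ θ : Bool → ZMod L × ZMod L → Cir,
      cosC (ph θ 0) * cosC (ph θ ((x.1 : ZMod L), (x.2 : ZMod L))) ≤ 1 := by
    intro θ
    have h1 := abs_cosC_le_one (ph θ 0)
    have h2 := abs_cosC_le_one (ph θ ((x.1 : ZMod L), (x.2 : ZMod L)))
    calc _ ≤ |cosC (ph θ 0) * cosC (ph θ ((x.1 : ZMod L), (x.2 : ZMod L)))| := le_abs_self _
      _ = |cosC (ph θ 0)| * |cosC (ph θ ((x.1 : ZMod L), (x.2 : ZMod L)))| := abs_mul _ _
      _ ≤ 1 * 1 := by gcongr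
      _ = 1 := by norm_num
  have hFc : Continuous fun θ : Bool → ZMod L × ZMod L → Cir =>
      cosC (ph θ 0) * cosC (ph θ ((x.1 : ZMod L), (x.2 : ZMod L))) := by
    unfold ph
    have := continuous_cosC
    fun_prop
  calc _ ≤ ∫ θ : Bool → ZMod L × ZMod L → Cir, (1 : ℝ)
        ∂gM (hTor L (1 / T) (1 / (4 * h * T))) := by
        refine integral_mono ?_ (integrable_const 1) hF
        exact hFc.integrable_of_hasCompactSupport (HasCompactSupport.of_compactSpace _)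
    _ = 1 := by rw [integral_const]; simp only [smul_eq_mul, mul_one]; exact probReal_univ

theorem fin2_LRO (m h T : ℝ) (hm : 0 < m) (hh : 0 < h) (hT : 0 < T)
    (hx : ∀ x : ℤ × ℤ, ∃ L₀ : ℕ, ∀ L : ℕ, L₀ ≤ L → ∀ [NeZero L], m ≤ corr L h T x) :
    m ≤ liminf (fun x : ℤ × ℤ => liminf (fun L : ℕ => corr (L + 1) h T x) atTop) cofinite := by
  have hin : ∀ x : ℤ × ℤ, ∀ᶠ L : ℕ in atTop, m ≤ corr (L + 1) h T x := by
    intro x
    obtain ⟨L₀, hL⟩ := hx x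
    filter_upwards [eventually_ge_atTop L₀] with L hLL
    exact hL (L + 1) (by omega)
  have hb : ∀ x : ℤ × ℤ, ∀ᶠ L : ℕ in atTop, corr (L + 1) h T x ≤ 1 := fun x =>
    Eventually.of_forall fun L => fin2_corr_le (L + 1) h T hh hT x
  have h1 : ∀ x : ℤ × ℤ, m ≤ liminf (fun L : ℕ => corr (L + 1) h T x) atTop := by
    intro x
    refine le_liminf_of_le ?_ (hin x)
    exact (IsBoundedUnder.isCoboundedUnder_ge ⟨1, by simpa using hb x⟩)
  have h2 : ∀ x : ℤ × ℤ, liminf (fun L : ℕ => corr (L + 1) h T x) atTop ≤ 1 := by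
    intro x
    refine liminf_le_of_le ⟨m, by simpa using hin x⟩ ?_
    intro b hb'
    obtain ⟨L, hL⟩ := (hb'.and (hb x)).exists
    linarith
  refine le_liminf_of_le ?_ (Eventually.of_forall h1)
  refine IsBoundedUnder.isCoboundedUnder_ge ⟨1, ?_⟩
  rw [eventually_map]
  exact Eventually.of_forall h2

theorem fin2 (m : ℝ) (hm : m < 1) : ∃ c : ℝ, 0 < c ∧ ∃ h₀ : ℝ, 1 < h₀ ∧ ∀ h : ℝ, h₀ ≤ h →
    (∀ T : ℝ, 0 < T → T ≤ c / Real.log h →
      (∀ x : ℤ × ℤ, ∃ L₀ : ℕ, ∀ L : ℕ, L₀ ≤ L → ∀ [NeZero L], m ≤ corr L h T x) ∧ LRO h T) ∧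
    ((c / Real.log h : ℝ) : EReal) ≤ TcLRO h := by
  obtain ⟨c, hc, h₀, hh₀, H⟩ := fin_main (max m (1 / 2)) (max_lt hm (by norm_num))
  have hm2 : 0 < max m (1 / 2) := lt_max_of_lt_right (by norm_num)
  have hLRO : ∀ h : ℝ, h₀ ≤ h → ∀ T : ℝ, 0 < T → T ≤ c / Real.log h → LRO h T := by
    intro h hh T hT hTc
    have := fin2_LRO _ h T hm2 (by linarith) hT (H h hh T hT hTc)
    unfold LRO
    linarith
  refine ⟨c, hc, h₀, hh₀, fun h hh => ⟨fun T hT hTc => ⟨fun x => ?_, hLRO h hh T hT hTc⟩, ?_⟩⟩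
  · obtain ⟨L₀, hL⟩ := H h hh T hT hTc x
    exact ⟨L₀, fun L hLL _ => (le_max_left _ _).trans (hL L hLL)⟩
  · have hlog : 0 < Real.log h := Real.log_pos (by linarith)
    have hp : 0 < c / Real.log h := by positivity
    exact le_iSup₂ (f := fun (T : ℝ) (_ : T ∈ {T : ℝ | 0 < T ∧ LRO h T}) => (T : EReal))
      (c / Real.log h) ⟨hp, hLRO h hh _ hp le_rfl⟩

end XYB
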