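import Pool.Agent.H2.XY.GDef

/-!
# GB: closure properties of the Ginibre cone `Gin`

Proof.
* `IsK` is closed under sums (concatenate the families: use `Fin.append` or go through an arbitrary
  finite index type), products (`(∑ gᵢ(a) gᵢ(b)) (∑ kⱼ(a) kⱼ(b)) = ∑ᵢⱼ (gᵢkⱼ)(a) (gᵢkⱼ)(b)`),
  multiplication by a constant `c ≥ 0` (replace `gᵢ` by `√c gᵢ`), contains the constants `c ≥ 0`.
* Write `S F (a,b) = F(a+b) + F(a-b)`, `D F (a,b) = F(a-b) - F(a+b)`.  Then
  `S (FG) = (SF·SG + DF·DG)/2`, `D (FG) = (DF·SG + SF·DG)/2`; `S`, `D` are linear; `S c = 2c`,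
  `D c = 0`.  Hence `Obs` is closed under sums, products, nonnegative multiples and contains the
  nonnegative constants.
* For a continuous homomorphism `χ : X → Cir` and `F = cosC ∘ χ`:
  `S F = 2 cos χ(a) cos χ(b)`, `D F = 2 sin χ(a) sin χ(b)` by the addition theorems
  (`cosC_add`, `cosC_sub`): so `Obs F`.
* The closure in `C(X, ℝ)` of a set closed under `+`, `*`, `c •` (c ≥ 0) is again closed under these
  (continuity of the operations: `map_mem_closure₂`, ...).
* `exp`: for `f ∈ closure Obs` the partial sums `∑_{n<N} f^n / n!` are in the closure of `Obs` and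
  converge to `exp ∘ f` uniformly (`‖f‖` bounded; `NormedSpace.exp` in the Banach algebra `C(X, ℝ)`,
  or the real estimate `|exp y - ∑_{n<N} y^n/n!| ≤ ...` for `|y| ≤ ‖f‖`), and the closure is closed.
-/

set_option linter.unusedSectionVars false

open MeasureTheory Set

noncomputable section

namespace XYB

variable {X : Type*} [AddCommGroup X] [TopologicalSpace X] [IsTopologicalAddGroup X]
  [CompactSpace X] [MeasurableSpace X] [BorelSpace X] [SecondCountableTopology X]

omit [AddCommGroup X] [IsTopologicalAddGroup X] [CompactSpace X] [MeasurableSpace X]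
  [BorelSpace X] [SecondCountableTopology X] in
lemma GB_isK_of_fintype {Φ : X → X → ℝ} {κ : Type*} [Fintype κ] (g : κ → C(X, ℝ))
    (h : ∀ a b, Φ a b = ∑ k, g k a * g k b) : IsK Φ := by
  refine ⟨Fintype.card κ, fun i => g ((Fintype.equivFin κ).symm i), fun a b => ?_⟩
  rw [h a b]
  exact (Equiv.sum_comp (Fintype.equivFin κ).symm (fun k => g k a * g k b)).symm

omit [AddCommGroup X] [IsTopologicalAddGroup X] [CompactSpace X] [MeasurableSpace X]
  [BorelSpace X] [SecondCountableTopology X] in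
lemma GB_isK_add {Φ Ψ : X → X → ℝ} (h1 : IsK Φ) (h2 : IsK Ψ) :
    IsK (fun a b => Φ a b + Ψ a b) := by
  obtain ⟨n, g, hg⟩ := h1
  obtain ⟨m, k, hk⟩ := h2
  refine GB_isK_of_fintype (κ := Fin n ⊕ Fin m) (Sum.elim g k) (fun a b => ?_)
  rw [Fintype.sum_sum_type, hg a b, hk a b]
  rfl

omit [AddCommGroup X] [IsTopologicalAddGroup X] [CompactSpace X] [MeasurableSpace X]
  [BorelSpace X] [SecondCountableTopology X] in
lemma GB_isK_mul {Φ Ψ : X → X → ℝ} (h1 : IsK Φ) (h2 : IsK Ψ) :
    IsK (fun a b => Φ a b * Ψ a b) := by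
  obtain ⟨n, g, hg⟩ := h1
  obtain ⟨m, k, hk⟩ := h2
  refine GB_isK_of_fintype (κ := Fin n × Fin m) (fun p => g p.1 * k p.2) (fun a b => ?_)
  rw [Fintype.sum_prod_type, hg a b, hk a b, Finset.sum_mul_sum]
  refine Finset.sum_congr rfl fun i _ => Finset.sum_congr rfl fun j _ => ?_
  simp only [ContinuousMap.mul_apply]
  ring

omit [AddCommGroup X] [IsTopologicalAddGroup X] [CompactSpace X] [MeasurableSpace X]
  [BorelSpace X] [SecondCountableTopology X] in
lemma GB_isK_const {c : ℝ} (hc : 0 ≤ c) : IsK (fun _ _ : X => c) := by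
  refine GB_isK_of_fintype (κ := Unit) (fun _ => ContinuousMap.const X (Real.sqrt c))
    (fun a b => ?_)
  simp [Real.mul_self_sqrt hc]

omit [AddCommGroup X] [IsTopologicalAddGroup X] [CompactSpace X] [MeasurableSpace X]
  [BorelSpace X] [SecondCountableTopology X] in
lemma GB_isK_congr {Φ Ψ : X → X → ℝ} (h1 : IsK Φ) (h : ∀ a b, Φ a b = Ψ a b) : IsK Ψ := by
  obtain ⟨n, g, hg⟩ := h1
  exact ⟨n, g, fun a b => by rw [← h a b, hg a b]⟩

omit [IsTopologicalAddGroup X] [CompactSpace X] [MeasurableSpace X]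
  [BorelSpace X] [SecondCountableTopology X] in
lemma GB_obs_add {F G : C(X, ℝ)} (hF : Obs F) (hG : Obs G) : Obs (F + G) := by
  refine ⟨GB_isK_congr (GB_isK_add hF.1 hG.1) fun a b => ?_,
    GB_isK_congr (GB_isK_add hF.2 hG.2) fun a b => ?_⟩
  · simp only [ContinuousMap.add_apply]; ring
  · simp only [ContinuousMap.add_apply]; ring

omit [IsTopologicalAddGroup X] [CompactSpace X] [MeasurableSpace X]
  [BorelSpace X] [SecondCountableTopology X] in
lemma GB_obs_mul {F G : C(X, ℝ)} (hF : Obs F) (hG : Obs G) : Obs (F * G) := by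
  have h2 : (0 : ℝ) ≤ 1 / 2 := by norm_num
  refine ⟨GB_isK_congr (GB_isK_mul (GB_isK_const h2) (GB_isK_add (GB_isK_mul hF.1 hG.1)
      (GB_isK_mul hF.2 hG.2))) fun a b => ?_,
    GB_isK_congr (GB_isK_mul (GB_isK_const h2) (GB_isK_add (GB_isK_mul hF.2 hG.1)
      (GB_isK_mul hF.1 hG.2))) fun a b => ?_⟩
  · simp only [ContinuousMap.mul_apply]; ring
  · simp only [ContinuousMap.mul_apply]; ring

omit [IsTopologicalAddGroup X] [CompactSpace X] [MeasurableSpace X]
  [BorelSpace X] [SecondCountableTopology X] in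
lemma GB_obs_const {c : ℝ} (hc : 0 ≤ c) : Obs (ContinuousMap.const X c) := by
  refine ⟨GB_isK_congr (GB_isK_const (show (0 : ℝ) ≤ c + c by linarith)) fun a b => ?_,
    GB_isK_congr (GB_isK_const (le_refl (0 : ℝ))) fun a b => ?_⟩
  · simp
  · simp

omit [MeasurableSpace X] [BorelSpace X] [SecondCountableTopology X]
  [IsTopologicalAddGroup X] in
lemma GB_cl_add {F G : C(X, ℝ)} (hF : F ∈ closure {G : C(X, ℝ) | Obs G})
    (hG : G ∈ closure {G : C(X, ℝ) | Obs G}) : F + G ∈ closure {G : C(X, ℝ) | Obs G} :=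
  map_mem_closure₂ continuous_add hF hG fun _ ha _ hb => GB_obs_add ha hb

omit [MeasurableSpace X] [BorelSpace X] [SecondCountableTopology X]
  [IsTopologicalAddGroup X] in
lemma GB_cl_mul {F G : C(X, ℝ)} (hF : F ∈ closure {G : C(X, ℝ) | Obs G})
    (hG : G ∈ closure {G : C(X, ℝ) | Obs G}) : F * G ∈ closure {G : C(X, ℝ) | Obs G} :=
  map_mem_closure₂ continuous_mul hF hG fun _ ha _ hb => GB_obs_mul ha hb

omit [MeasurableSpace X] [BorelSpace X] [SecondCountableTopology X]
  [IsTopologicalAddGroup X] in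
lemma GB_cl_const {c : ℝ} (hc : 0 ≤ c) :
    ContinuousMap.const X c ∈ closure {G : C(X, ℝ) | Obs G} :=
  subset_closure (GB_obs_const hc)

omit [MeasurableSpace X] [BorelSpace X] [SecondCountableTopology X]
  [IsTopologicalAddGroup X] in
lemma GB_cl_pow {F : C(X, ℝ)} (hF : F ∈ closure {G : C(X, ℝ) | Obs G}) (n : ℕ) :
    F ^ n ∈ closure {G : C(X, ℝ) | Obs G} := by
  induction n with
  | zero =>
    rw [pow_zero]
    exact GB_cl_const (X := X) zero_le_one
  | succ n ih =>
    rw [pow_succ]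
    exact GB_cl_mul ih hF

omit [MeasurableSpace X] [BorelSpace X] [SecondCountableTopology X]
  [IsTopologicalAddGroup X] in
lemma GB_cl_smul {F : C(X, ℝ)} (hF : F ∈ closure {G : C(X, ℝ) | Obs G}) {c : ℝ} (hc : 0 ≤ c) :
    c • F ∈ closure {G : C(X, ℝ) | Obs G} := by
  have h := GB_cl_mul (GB_cl_const (X := X) hc) hF
  have e : ContinuousMap.const X c * F = c • F := by
    ext x; simp
  rwa [e] at h

omit [MeasurableSpace X] [BorelSpace X] [SecondCountableTopology X]
  [IsTopologicalAddGroup X] in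
lemma GB_cl_sum {κ : Type*} (s : Finset κ) {F : κ → C(X, ℝ)}
    (hF : ∀ k ∈ s, F k ∈ closure {G : C(X, ℝ) | Obs G}) :
    ∑ k ∈ s, F k ∈ closure {G : C(X, ℝ) | Obs G} := by
  classical
  induction s using Finset.induction_on with
  | empty =>
    rw [Finset.sum_empty]
    exact GB_cl_const (X := X) (le_refl 0)
  | insert a s ha ih =>
    rw [Finset.sum_insert ha]
    exact GB_cl_add (hF a (Finset.mem_insert_self a s))
      (ih fun k hk => hF k (Finset.mem_insert_of_mem hk))

lemma Gin.continuous {F : X → ℝ} (hF : Gin F) : Continuous F := by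
  obtain ⟨f, -, hf⟩ := hF
  rw [show F = f from funext hf]
  exact f.continuous

lemma Gin.const {c : ℝ} (hc : 0 ≤ c) : Gin (fun _ : X => c) :=
  ⟨ContinuousMap.const X c, GB_cl_const hc, fun _ => rfl⟩

lemma Gin.add {F G : X → ℝ} (hF : Gin F) (hG : Gin G) : Gin (fun x => F x + G x) := by
  obtain ⟨f, hf, hf'⟩ := hF
  obtain ⟨g, hg, hg'⟩ := hG
  exact ⟨f + g, GB_cl_add hf hg, fun x => by
    show F x + G x = f x + g x
    rw [hf' x, hg' x]⟩

lemma Gin.mul {F G : X → ℝ} (hF : Gin F) (hG : Gin G) : Gin (fun x => F x * G x) := by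
  obtain ⟨f, hf, hf'⟩ := hF
  obtain ⟨g, hg, hg'⟩ := hG
  exact ⟨f * g, GB_cl_mul hf hg, fun x => by
    show F x * G x = f x * g x
    rw [hf' x, hg' x]⟩

lemma Gin.smul {F : X → ℝ} {c : ℝ} (hc : 0 ≤ c) (hF : Gin F) : Gin (fun x => c * F x) :=
  (Gin.const hc).mul hF

lemma Gin.sum {κ : Type*} (s : Finset κ) {F : κ → X → ℝ} (hF : ∀ k ∈ s, Gin (F k)) :
    Gin (fun x => ∑ k ∈ s, F k x) := by
  classical
  induction s using Finset.induction_on with
  | empty =>
    simp only [Finset.sum_empty]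
    exact Gin.const (le_refl 0)
  | insert a s ha ih =>
    simp only [Finset.sum_insert ha]
    exact Gin.add (hF a (Finset.mem_insert_self a s))
      (ih fun k hk => hF k (Finset.mem_insert_of_mem hk))

lemma Gin.prod {κ : Type*} (s : Finset κ) {F : κ → X → ℝ} (hF : ∀ k ∈ s, Gin (F k)) :
    Gin (fun x => ∏ k ∈ s, F k x) := by
  classical
  induction s using Finset.induction_on with
  | empty =>
    simp only [Finset.prod_empty]
    exact Gin.const zero_le_one
  | insert a s ha ih =>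
    simp only [Finset.prod_insert ha]
    exact Gin.mul (hF a (Finset.mem_insert_self a s))
      (ih fun k hk => hF k (Finset.mem_insert_of_mem hk))

lemma Gin.exp {F : X → ℝ} (hF : Gin F) : Gin (fun x => Real.exp (F x)) := by
  obtain ⟨f, hf, hf'⟩ := hF
  have hs : HasSum (fun n : ℕ => ((n.factorial : ℝ)⁻¹) • f ^ n) (NormedSpace.exp f) :=
    NormedSpace.exp_series_hasSum_exp' (𝕂 := ℝ) f
  refine ⟨NormedSpace.exp f, ?_, fun x => ?_⟩
  · refine isClosed_closure.mem_of_tendsto hs (Filter.Eventually.of_forall fun s => ?_)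
    exact GB_cl_sum s fun n _ => GB_cl_smul (GB_cl_pow hf n)
      (inv_nonneg.mpr (Nat.cast_nonneg _))
  · have h1 : HasSum (fun n : ℕ => ((n.factorial : ℝ)⁻¹) • (f x) ^ n) (NormedSpace.exp f x) := by
      have := hs.map (ContinuousMap.evalCLM ℝ x) (ContinuousMap.evalCLM ℝ x).continuous
      simpa [Function.comp_def] using this
    have h2 : HasSum (fun n : ℕ => ((n.factorial : ℝ)⁻¹) • (f x) ^ n) (Real.exp (f x)) := by
      have := NormedSpace.exp_series_hasSum_exp' (𝕂 := ℝ) (f x)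
      rwa [← Real.exp_eq_exp_ℝ] at this
    show Real.exp (F x) = _
    rw [hf' x]
    exact h2.unique h1

/-- cosines of characters are in the cone -/
lemma Gin.cos (χ : X →+ Cir) (hχ : Continuous χ) : Gin (fun x => cosC (χ x)) := by
  refine ⟨⟨fun x => cosC (χ x), continuous_cosC.comp hχ⟩, subset_closure ?_, fun x => rfl⟩
  have h2 : (0 : ℝ) ≤ 2 := by norm_num
  refine ⟨GB_isK_congr (GB_isK_mul (GB_isK_const h2) (GB_isK_of_fintype (κ := Unit)
      (Φ := fun a b => cosC (χ a) * cosC (χ b))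
      (fun _ => ⟨fun x => cosC (χ x), continuous_cosC.comp hχ⟩) (fun a b => by simp)))
      fun a b => ?_,
    GB_isK_congr (GB_isK_mul (GB_isK_const h2) (GB_isK_of_fintype (κ := Unit)
      (Φ := fun a b => sinC (χ a) * sinC (χ b))
      (fun _ => ⟨fun x => sinC (χ x), continuous_sinC.comp hχ⟩) (fun a b => by simp)))
      fun a b => ?_⟩
  · simp only [ContinuousMap.coe_mk, map_add, map_sub, cosC_add, cosC_sub]; ring
  · simp only [ContinuousMap.coe_mk, map_add, map_sub, cosC_add, cosC_sub]; ring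

end XYB
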