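import Pool.Agent.H2.XY.GK

/-!
# GC: corollaries of Ginibre's inequalities

Proofs.
* `gin_mono`: `gks2` with `G = exp ∘ H'` (in the cone by `Gin.exp`) says
  `(∫ F e^H)(∫ e^{H+H'}) ≤ (∫ F e^{H+H'})(∫ e^H)`; divide by the positive integrals.
* `gin_prod`: induction on `s` with `gks2` and `gks1` (all expectations are `≥ 0`).
* `gE_exp_cos_ge`: `gE H (e^{b cos χ}) ≥ gE 0 (e^{b cos χ}) = ∫ e^{b cos χ} dHaar = I0 b`
  (`gin_mono` with `H = 0`, `H' = H`, and `integral_comp_surj` for `χ`).
* `gks_I0`: `gin_prod` with `F k = exp (b k cos χ_k)` and the previous item: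
  `∫ exp(H + ∑ b_k cos χ_k) = (∫ e^H) gE H (∏ exp(b_k cos χ_k)) ≥ (∫ e^H) ∏ I0 (b k)`.
* `edge_bound`: with `H' = H + b cos χ`: numerator
  `∫_{cos χ < s} e^{H + b cos χ} ≤ e^{bs} ∫ e^H`, denominator `≥ I0 b ∫ e^H` (`gks_I0` with one
  element); use `gM_real`.
-/

open MeasureTheory Set

noncomputable section

namespace XYB

variable {X : Type*} [AddCommGroup X] [TopologicalSpace X] [IsTopologicalAddGroup X]
  [CompactSpace X] [MeasurableSpace X] [BorelSpace X] [SecondCountableTopology X]

theorem gin_mono (hdiv : ∀ x : X, ∃ y : X, y + y = x) {F H H' : X → ℝ}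
    (hF : Gin F) (hH : Gin H) (hH' : Gin H') :
    gE H F ≤ gE (fun x => H x + H' x) F := by
  have h := gks2 hdiv hF hH'.exp hH
  have e1 : ∀ x, Real.exp (H' x) * Real.exp (H x) = Real.exp (H x + H' x) := fun x => by
    rw [Real.exp_add, mul_comm]
  have e2 : ∀ x, F x * Real.exp (H' x) * Real.exp (H x) = F x * Real.exp (H x + H' x) := fun x => by
    rw [Real.exp_add]; ring
  simp only [e1, e2] at h
  have h1 := integral_exp_pos H hH.continuous
  have h2 := integral_exp_pos (fun x => H x + H' x) (hH.continuous.add hH'.continuous)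
  unfold gE
  rw [div_le_div_iff₀ h1 h2]
  exact h

theorem gin_prod (hdiv : ∀ x : X, ∃ y : X, y + y = x) {H : X → ℝ} (hH : Gin H)
    {κ : Type*} (s : Finset κ) {F : κ → X → ℝ} (hF : ∀ k ∈ s, Gin (F k)) :
    ∏ k ∈ s, gE H (F k) ≤ gE H (fun x => ∏ k ∈ s, F k x) := by
  classical
  have hB := integral_exp_pos H hH.continuous
  induction s using Finset.induction_on with
  | empty =>
    simp only [Finset.prod_empty]
    unfold gE
    simp only [one_mul]
    rw [div_self hB.ne']
  | insert a s ha ih =>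
    have hFa : Gin (F a) := hF a (Finset.mem_insert_self _ _)
    have hFs : ∀ k ∈ s, Gin (F k) := fun k hk => hF k (Finset.mem_insert_of_mem hk)
    have hP : Gin (fun x => ∏ k ∈ s, F k x) := Gin.prod s hFs
    have h := gks2 hdiv hFa hP hH
    simp only [Finset.prod_insert ha]
    have h0 : 0 ≤ gE H (F a) := div_nonneg (gks1 hdiv hFa hH) hB.le
    refine (mul_le_mul_of_nonneg_left (ih hFs) h0).trans ?_
    unfold gE
    rw [div_mul_div_comm, div_le_div_iff₀ (mul_pos hB hB) hB]
    nlinarith [mul_le_mul_of_nonneg_right h hB.le]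

lemma I0_pos (b : ℝ) : 0 < I0 b :=
  integral_exp_pos (fun t : Cir => b * cosC t) (continuous_const.mul continuous_cosC)

theorem gE_exp_cos_ge (hdiv : ∀ x : X, ∃ y : X, y + y = x) {H : X → ℝ} (hH : Gin H)
    (χ : X →+ Cir) (hχ : Continuous χ) (hs : Function.Surjective χ) {b : ℝ} (hb : 0 ≤ b) :
    I0 b ≤ gE H (fun x => Real.exp (b * cosC (χ x))) := by
  have hG : Gin (fun x => Real.exp (b * cosC (χ x))) := (Gin.smul hb (Gin.cos χ hχ)).exp
  have h := gin_mono hdiv hG (Gin.const (X := X) (c := 0) le_rfl) hH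
  simp only [zero_add] at h
  refine le_trans (le_of_eq ?_) h
  unfold gE I0
  simp only [Real.exp_zero, mul_one]
  rw [integral_const]
  simp only [smul_eq_mul, mul_one, probReal_univ, div_one]
  exact (integral_comp_surj χ hχ hs (fun t => Real.exp (b * cosC t))
    (Real.continuous_exp.comp (continuous_const.mul continuous_cosC))).symm

/-- adding ferromagnetic terms multiplies the partition function by at least `∏ I₀` -/
theorem gks_I0 (hdiv : ∀ x : X, ∃ y : X, y + y = x) {H : X → ℝ} (hH : Gin H)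
    {κ : Type*} (s : Finset κ) (χ : κ → (X →+ Cir)) (hχ : ∀ k ∈ s, Continuous (χ k))
    (hs : ∀ k ∈ s, Function.Surjective (χ k)) {b : κ → ℝ} (hb : ∀ k ∈ s, 0 ≤ b k) :
    (∏ k ∈ s, I0 (b k)) * ∫ x, Real.exp (H x) ∂haarP X ≤
      ∫ x, Real.exp (H x + ∑ k ∈ s, b k * cosC (χ k x)) ∂haarP X := by
  have hB := integral_exp_pos H hH.continuous
  have h1 : ∏ k ∈ s, I0 (b k) ≤ ∏ k ∈ s, gE H (fun x => Real.exp (b k * cosC (χ k x))) :=
    Finset.prod_le_prod (fun k _ => (I0_pos _).le)
      (fun k hk => gE_exp_cos_ge hdiv hH (χ k) (hχ k hk) (hs k hk) (hb k hk))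
  have h2 := gin_prod hdiv hH s (F := fun k x => Real.exp (b k * cosC (χ k x)))
    (fun k hk => (Gin.smul (hb k hk) (Gin.cos (χ k) (hχ k hk))).exp)
  have h3 := h1.trans h2
  unfold gE at h3
  rw [le_div_iff₀ hB] at h3
  refine h3.trans (le_of_eq ?_)
  congr 1
  ext x
  rw [Real.exp_add, Real.exp_sum, mul_comm]

/-- probability that an edge is bad -/
theorem edge_bound (hdiv : ∀ x : X, ∃ y : X, y + y = x) {H : X → ℝ} (hH : Gin H)
    (χ : X →+ Cir) (hχ : Continuous χ) (hs : Function.Surjective χ) {b s : ℝ} (hb : 0 ≤ b) :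
    (gM (fun x => H x + b * cosC (χ x))).real {x | cosC (χ x) < s} ≤
      Real.exp (b * s) / I0 b := by
  have hcc : Continuous (fun x => cosC (χ x)) := continuous_cosC.comp hχ
  have hA : MeasurableSet {x | cosC (χ x) < s} := (isOpen_lt hcc continuous_const).measurableSet
  have hcH := hH.continuous
  have hB := integral_exp_pos H hcH
  have hC := integral_exp_pos (fun x => H x + b * cosC (χ x)) (hcH.add (continuous_const.mul hcc))
  have hi1 : Integrable (fun x => Real.exp (H x)) (haarP X) :=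
    integrable_cont _ (Real.continuous_exp.comp hcH)
  have hi2 : Integrable (fun x => Real.exp (H x + b * cosC (χ x))) (haarP X) :=
    integrable_cont _ (Real.continuous_exp.comp (hcH.add (continuous_const.mul hcc)))
  rw [gM_real _ hA]
  have hnum : ∫ x in {x | cosC (χ x) < s}, Real.exp (H x + b * cosC (χ x)) ∂haarP X ≤
      Real.exp (b * s) * ∫ x, Real.exp (H x) ∂haarP X := by
    rw [← integral_const_mul]
    calc ∫ x in {x | cosC (χ x) < s}, Real.exp (H x + b * cosC (χ x)) ∂haarP X
        ≤ ∫ x in {x | cosC (χ x) < s}, Real.exp (b * s) * Real.exp (H x) ∂haarP X := by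
          refine setIntegral_mono_on hi2.integrableOn (hi1.const_mul _).integrableOn hA ?_
          intro x hx
          rw [← Real.exp_add]
          apply Real.exp_le_exp.mpr
          have : b * cosC (χ x) ≤ b * s := mul_le_mul_of_nonneg_left (le_of_lt hx) hb
          linarith
      _ ≤ ∫ x, Real.exp (b * s) * Real.exp (H x) ∂haarP X := by
          refine setIntegral_le_integral (hi1.const_mul _) ?_
          exact Filter.Eventually.of_forall fun x => by positivity
  have hden : I0 b * ∫ x, Real.exp (H x) ∂haarP X ≤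
      ∫ x, Real.exp (H x + b * cosC (χ x)) ∂haarP X := by
    have h := gks_I0 hdiv hH ({()} : Finset Unit) (fun _ => χ) (fun _ _ => hχ) (fun _ _ => hs)
      (b := fun _ => b) (fun _ _ => hb)
    simpa using h
  rw [div_le_div_iff₀ hC (I0_pos b)]
  calc (∫ x in {x | cosC (χ x) < s}, Real.exp (H x + b * cosC (χ x)) ∂haarP X) * I0 b
      ≤ (Real.exp (b * s) * ∫ x, Real.exp (H x) ∂haarP X) * I0 b :=
        mul_le_mul_of_nonneg_right hnum (I0_pos b).le
    _ = Real.exp (b * s) * (I0 b * ∫ x, Real.exp (H x) ∂haarP X) := by ring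
    _ ≤ _ := mul_le_mul_of_nonneg_left hden (Real.exp_pos _).le

end XYB
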