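import Pool.Agent.H2.XY.GA

/-!
# GDef: the Ginibre cone (definitions only)
-/

open MeasureTheory Set

noncomputable section

namespace XYB

variable {X : Type*} [AddCommGroup X] [TopologicalSpace X] [IsTopologicalAddGroup X]
  [CompactSpace X] [MeasurableSpace X] [BorelSpace X] [SecondCountableTopology X]

/-- kernels of the form `∑ gᵢ(a) gᵢ(b)` -/
def IsK (Φ : X → X → ℝ) : Prop :=
  ∃ (n : ℕ) (g : Fin n → C(X, ℝ)), ∀ a b, Φ a b = ∑ i, g i a * g i b

/-- `F(a+b) + F(a-b)` and `F(a-b) - F(a+b)` are both of the form `∑ gᵢ(a) gᵢ(b)` -/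
def Obs (F : C(X, ℝ)) : Prop :=
  IsK (fun a b : X => F (a + b) + F (a - b)) ∧ IsK (fun a b : X => F (a - b) - F (a + b))

/-- the Ginibre cone: uniform limits of functions satisfying `Obs` -/
def Gin (F : X → ℝ) : Prop :=
  ∃ f ∈ closure {G : C(X, ℝ) | Obs G}, ∀ x, F x = f x

end XYB
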