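import Pool.Agent.H2.XY.GB

/-!
# GK: Ginibre's inequalities (Griffiths I and II) for functions in the cone `Gin`

Proof.  Let `f, g, h ∈ C(X,ℝ)` satisfy `Obs` first.
`(∫ f g e^h)(∫ e^h) - (∫ f e^h)(∫ g e^h) = ½ ∬ (f(x)-f(y)) (g(x)-g(y)) e^{h(x)+h(y)}` (Fubini on
`haarP (X × X) = haarP X × haarP X`, `haarP_prod`).  The map `(a,b) ↦ (a+b, a-b)` of `X × X` is a
continuous homomorphism and surjective because of `hdiv` (given `(p,q)`, take `a` with `a+a = p+q`
and `b = p-a`; then `a-b = (a+a)-p = q`), so `integral_comp_surj` gives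
`= ½ ∬ (f(a+b)-f(a-b)) (g(a+b)-g(a-b)) e^{h(a+b)+h(a-b)} = ½ ∬ Df·Dg·exp(Sh)`
(`D F (a,b) = F(a-b) - F(a+b)`, `S F (a,b) = F(a+b)+F(a-b)`).
For every `n`, `Df·Dg·(Sh)^n` satisfies `IsK` (products of `IsK` kernels), and for
`Φ = ∑ gᵢ(a) gᵢ(b)` one has `∬ Φ = ∑ (∫ gᵢ)² ≥ 0`.  Expanding `exp(Sh) = ∑ (Sh)^n/n!` (uniformly
convergent, everything is bounded; use `hasSum_integral_of_summable_norm` or a limit of partial
sums) the integral is `≥ 0`.
For general `f, g, h ∈ closure Obs`: the map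
`(f,g,h) ↦ (∫ f g e^h)(∫ e^h) - (∫ f e^h)(∫ g e^h)` is continuous on `C(X,ℝ)³`, so the
inequality passes to the closure (`closure_minimal`, three times, or sequences `fₙ → f` etc. and
`tendsto_integral_of_dominated_convergence`).
`gks1` is the same with `(∫ f e^h)(∫ e^h) = ½ ∬ (f(x)+f(y)) e^{h(x)+h(y)} = ½ ∬ Sf·exp(Sh) ≥ 0`.
(The lemmas on `IsK` proved in GB can be used: tell the owner of GB which ones you need, or reprove
them here with the prefix `gk_`.)
-/

open MeasureTheory Set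

noncomputable section

namespace XYB

variable {X : Type*} [AddCommGroup X] [TopologicalSpace X] [IsTopologicalAddGroup X]
  [CompactSpace X] [MeasurableSpace X] [BorelSpace X] [SecondCountableTopology X]

/-- positive kernels as continuous functions on `X × X` -/
def gk_K (X : Type*) [TopologicalSpace X] : Set C(X × X, ℝ) :=
  {Φ | ∃ (n : ℕ) (g : Fin n → C(X, ℝ)), ∀ p : X × X, Φ p = ∑ i, g i p.1 * g i p.2}

lemma gk_add {Φ Ψ : C(X × X, ℝ)} (hΦ : Φ ∈ gk_K X) (hΨ : Ψ ∈ gk_K X) : Φ + Ψ ∈ gk_K X := by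
  obtain ⟨n, g, hg⟩ := hΦ
  obtain ⟨m, k, hk⟩ := hΨ
  refine ⟨n + m, Fin.append g k, fun p => ?_⟩
  rw [ContinuousMap.add_apply, hg, hk, Fin.sum_univ_add]
  simp only [Fin.append_left, Fin.append_right]

lemma gk_mul {Φ Ψ : C(X × X, ℝ)} (hΦ : Φ ∈ gk_K X) (hΨ : Ψ ∈ gk_K X) : Φ * Ψ ∈ gk_K X := by
  obtain ⟨n, g, hg⟩ := hΦ
  obtain ⟨m, k, hk⟩ := hΨ
  refine ⟨n * m, fun q => g (finProdFinEquiv.symm q).1 * k (finProdFinEquiv.symm q).2,
    fun p => ?_⟩
  rw [ContinuousMap.mul_apply, hg, hk, Finset.sum_mul_sum, ← Finset.sum_product',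
    Finset.univ_product_univ, ← Equiv.sum_comp finProdFinEquiv]
  refine Finset.sum_congr rfl fun q _ => ?_
  simp only [Equiv.symm_apply_apply, ContinuousMap.mul_apply]
  ring

lemma gk_zero : (0 : C(X × X, ℝ)) ∈ gk_K X :=
  ⟨0, Fin.elim0, fun p => by simp⟩

lemma gk_one : (1 : C(X × X, ℝ)) ∈ gk_K X :=
  ⟨1, fun _ => 1, fun p => by simp⟩

lemma gk_smul {Φ : C(X × X, ℝ)} {c : ℝ} (hc : 0 ≤ c) (hΦ : Φ ∈ gk_K X) : c • Φ ∈ gk_K X := by
  obtain ⟨n, g, hg⟩ := hΦ
  refine ⟨n, fun i => Real.sqrt c • g i, fun p => ?_⟩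
  rw [ContinuousMap.smul_apply, hg, smul_eq_mul, Finset.mul_sum]
  refine Finset.sum_congr rfl fun i _ => ?_
  simp only [ContinuousMap.smul_apply, smul_eq_mul]
  have h := Real.mul_self_sqrt hc
  calc c * (g i p.1 * g i p.2) = (Real.sqrt c * Real.sqrt c) * (g i p.1 * g i p.2) := by rw [h]
    _ = Real.sqrt c * g i p.1 * (Real.sqrt c * g i p.2) := by ring

lemma gk_cadd {Φ Ψ : C(X × X, ℝ)} (hΦ : Φ ∈ closure (gk_K X)) (hΨ : Ψ ∈ closure (gk_K X)) :
    Φ + Ψ ∈ closure (gk_K X) :=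
  map_mem_closure₂ continuous_add hΦ hΨ fun _ ha _ hb => gk_add ha hb

lemma gk_cmul {Φ Ψ : C(X × X, ℝ)} (hΦ : Φ ∈ closure (gk_K X)) (hΨ : Ψ ∈ closure (gk_K X)) :
    Φ * Ψ ∈ closure (gk_K X) :=
  map_mem_closure₂ continuous_mul hΦ hΨ fun _ ha _ hb => gk_mul ha hb

lemma gk_csmul {Φ : C(X × X, ℝ)} {c : ℝ} (hc : 0 ≤ c) (hΦ : Φ ∈ closure (gk_K X)) :
    c • Φ ∈ closure (gk_K X) :=
  map_mem_closure (continuous_const_smul c) hΦ fun _ ha => gk_smul hc ha

lemma gk_cpow {Φ : C(X × X, ℝ)} (hΦ : Φ ∈ closure (gk_K X)) (n : ℕ) :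
    Φ ^ n ∈ closure (gk_K X) := by
  induction n with
  | zero => rw [pow_zero]; exact subset_closure gk_one
  | succ n ih => rw [pow_succ]; exact gk_cmul ih hΦ

lemma gk_exp {Φ : C(X × X, ℝ)} (hΦ : Φ ∈ closure (gk_K X)) :
    ∃ Ψ ∈ closure (gk_K X), ∀ p, Ψ p = Real.exp (Φ p) := by
  have hs := NormedSpace.exp_series_hasSum_exp' (𝕂 := ℝ) Φ
  refine ⟨NormedSpace.exp Φ, ?_, fun p => ?_⟩
  · refine isClosed_closure.mem_of_tendsto hs (Filter.Eventually.of_forall fun s => ?_)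
    induction s using Finset.induction_on with
    | empty => rw [Finset.sum_empty]; exact subset_closure gk_zero
    | @insert a s ha ih =>
      rw [Finset.sum_insert ha]
      exact gk_cadd (gk_csmul (by positivity) (gk_cpow hΦ a)) ih
  · have hc : Continuous fun Ψ : C(X × X, ℝ) => Ψ p := continuous_eval_const p
    let ev : C(X × X, ℝ) →+ ℝ :=
      { toFun := fun Ψ => Ψ p
        map_zero' := rfl
        map_add' := fun _ _ => rfl }
    have h1 := hs.map ev hc
    have h2 := NormedSpace.exp_series_hasSum_exp' (𝕂 := ℝ) (Φ p)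
    rw [Real.exp_eq_exp_ℝ]
    have e : (ev ∘ fun n : ℕ => ((n.factorial : ℝ)⁻¹) • Φ ^ n) =
        fun n : ℕ => ((n.factorial : ℝ)⁻¹) • (Φ p) ^ n := by
      funext n
      change (((n.factorial : ℝ)⁻¹) • Φ ^ n) p = _
      rw [ContinuousMap.smul_apply, ContinuousMap.pow_apply]
    rw [e] at h1
    exact h1.unique h2

/-- the integral is a continuous functional -/
lemma gk_int_cont {Y : Type*} [TopologicalSpace Y] [CompactSpace Y] [MeasurableSpace Y]
    [BorelSpace Y] [SecondCountableTopology Y] (μ : Measure Y) [IsProbabilityMeasure μ] :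
    Continuous fun Φ : C(Y, ℝ) => ∫ y, Φ y ∂μ := by
  have hi : ∀ Φ : C(Y, ℝ), Integrable (fun y => Φ y) μ := fun Φ =>
    Φ.continuous.integrable_of_hasCompactSupport (HasCompactSupport.of_compactSpace _)
  refine (LipschitzWith.of_dist_le_mul (K := 1) fun Φ Ψ => ?_).continuous
  rw [NNReal.coe_one, one_mul, dist_eq_norm, dist_eq_norm, ← integral_sub (hi Φ) (hi Ψ)]
  have h := norm_integral_le_of_norm_le_const (μ := μ) (f := fun y => Φ y - Ψ y)
    (C := ‖Φ - Ψ‖) (Filter.Eventually.of_forall fun y => (Φ - Ψ).norm_coe_le_norm y)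
  simpa using h

lemma gk_int_nonneg {Φ : C(X × X, ℝ)} (hΦ : Φ ∈ closure (gk_K X)) :
    0 ≤ ∫ p, Φ p ∂haarP (X × X) := by
  have hcl : IsClosed {Φ : C(X × X, ℝ) | 0 ≤ ∫ p, Φ p ∂haarP (X × X)} :=
    isClosed_le continuous_const (gk_int_cont _)
  refine closure_minimal ?_ hcl hΦ
  rintro Φ ⟨n, g, hg⟩
  change 0 ≤ ∫ p, Φ p ∂haarP (X × X)
  have e : (fun p : X × X => Φ p) = fun p => ∑ i, g i p.1 * g i p.2 := funext hg
  rw [e, haarP_prod, integral_finset_sum]
  · refine Finset.sum_nonneg fun i _ => ?_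
    rw [integral_prod_mul (μ := haarP X) (ν := haarP X) (fun x => g i x) (fun x => g i x)]
    exact mul_self_nonneg _
  · intro i _
    rw [← haarP_prod]
    exact integrable_cont _ (by fun_prop)

/-- `(a, b) ↦ a + b` and `(a, b) ↦ a - b` as continuous maps -/
def gk_p (X : Type*) [AddCommGroup X] [TopologicalSpace X] [IsTopologicalAddGroup X] :
    C(X × X, X) := ⟨fun p => p.1 + p.2, by fun_prop⟩

def gk_m (X : Type*) [AddCommGroup X] [TopologicalSpace X] [IsTopologicalAddGroup X] :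
    C(X × X, X) := ⟨fun p => p.1 - p.2, by fun_prop⟩

lemma gk_S {f : C(X, ℝ)} (hf : f ∈ closure {G : C(X, ℝ) | Obs G}) :
    f.comp (gk_p X) + f.comp (gk_m X) ∈ closure (gk_K X) := by
  refine map_mem_closure (f := fun f : C(X, ℝ) => f.comp (gk_p X) + f.comp (gk_m X))
    ((ContinuousMap.continuous_precomp _).add (ContinuousMap.continuous_precomp _)) hf ?_
  rintro G ⟨⟨n, g, hg⟩, -⟩
  exact ⟨n, g, fun p => hg p.1 p.2⟩

lemma gk_D {f : C(X, ℝ)} (hf : f ∈ closure {G : C(X, ℝ) | Obs G}) :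
    f.comp (gk_m X) - f.comp (gk_p X) ∈ closure (gk_K X) := by
  refine map_mem_closure (f := fun f : C(X, ℝ) => f.comp (gk_m X) - f.comp (gk_p X))
    ((ContinuousMap.continuous_precomp _).sub (ContinuousMap.continuous_precomp _)) hf ?_
  rintro G ⟨-, ⟨n, g, hg⟩⟩
  exact ⟨n, g, fun p => hg p.1 p.2⟩

/-- change of variables `(x, y) = (a + b, a - b)` -/
lemma gk_change (hdiv : ∀ x : X, ∃ y : X, y + y = x) (Φ : X × X → ℝ) (hΦ : Continuous Φ) :
    ∫ p : X × X, Φ (p.1 + p.2, p.1 - p.2) ∂haarP (X × X) = ∫ p, Φ p ∂haarP (X × X) := by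
  let φ : X × X →+ X × X :=
    { toFun := fun p => (p.1 + p.2, p.1 - p.2)
      map_zero' := by simp
      map_add' := fun p q => by
        ext
        · simp only [Prod.fst_add, Prod.snd_add]; abel
        · simp only [Prod.fst_add, Prod.snd_add]; abel }
  refine integral_comp_surj φ ?_ ?_ Φ hΦ
  · change Continuous fun p : X × X => (p.1 + p.2, p.1 - p.2)
    fun_prop
  · rintro ⟨x, y⟩
    obtain ⟨a, ha⟩ := hdiv (x + y)
    refine ⟨(a, x - a), ?_⟩
    change (a + (x - a), a - (x - a)) = (x, y)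
    ext
    · simp only; abel
    · simp only
      calc a - (x - a) = (a + a) - x := by abel
        _ = y := by rw [ha]; abel

/-- first Ginibre (Griffiths) inequality -/
theorem gks1 (hdiv : ∀ x : X, ∃ y : X, y + y = x) {F H : X → ℝ} (hF : Gin F) (hH : Gin H) :
    0 ≤ ∫ x, F x * Real.exp (H x) ∂haarP X := by
  obtain ⟨k, hk, hkF⟩ := hF.mul hH.exp
  have e : ∫ x, F x * Real.exp (H x) ∂haarP X = ∫ x, k x ∂haarP X := by
    congr 1
    exact funext hkF
  rw [e]
  have h1 := gk_int_nonneg (gk_S hk)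
  have h2 : ∫ p : X × X, (k.comp (gk_p X) + k.comp (gk_m X)) p ∂haarP (X × X) =
      2 * ∫ x, k x ∂haarP X := by
    have h3 := gk_change hdiv (fun p => k p.1 + k p.2) (by fun_prop)
    change ∫ p : X × X, (k (p.1 + p.2) + k (p.1 - p.2)) ∂haarP (X × X) = _
    refine h3.trans ?_
    rw [integral_add (integrable_cont _ (by fun_prop)) (integrable_cont _ (by fun_prop)),
      haarP_prod, integral_fun_fst, integral_fun_snd]
    simp only [probReal_univ, one_smul]
    ring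
  rw [h2] at h1
  linarith

/-- second Ginibre (Griffiths) inequality -/
theorem gks2 (hdiv : ∀ x : X, ∃ y : X, y + y = x) {F G H : X → ℝ}
    (hF : Gin F) (hG : Gin G) (hH : Gin H) :
    (∫ x, F x * Real.exp (H x) ∂haarP X) * (∫ x, G x * Real.exp (H x) ∂haarP X) ≤
      (∫ x, F x * G x * Real.exp (H x) ∂haarP X) * ∫ x, Real.exp (H x) ∂haarP X := by
  obtain ⟨f, hf, hfF⟩ := hF
  obtain ⟨g, hg, hgG⟩ := hG
  obtain ⟨h, hh, hhH⟩ := hH
  obtain ⟨Ψ, hΨ, hΨe⟩ := gk_exp (gk_S hh)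
  have hpos := gk_int_nonneg (gk_cmul (gk_cmul (gk_D hf) (gk_D hg)) hΨ)
  have e1 : ∫ p : X × X, ((f.comp (gk_m X) - f.comp (gk_p X)) *
      (g.comp (gk_m X) - g.comp (gk_p X)) * Ψ) p ∂haarP (X × X) =
      ∫ p : X × X, (f p.2 - f p.1) * (g p.2 - g p.1) * Real.exp (h p.1 + h p.2)
        ∂haarP (X × X) := by
    rw [← gk_change hdiv (fun p : X × X => (f p.2 - f p.1) * (g p.2 - g p.1) *
      Real.exp (h p.1 + h p.2)) (by fun_prop)]
    congr 1
    funext p
    simp only [ContinuousMap.mul_apply, ContinuousMap.sub_apply, hΨe, ContinuousMap.add_apply]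
    rfl
  rw [e1] at hpos
  have e2 : ∫ p : X × X, (f p.2 - f p.1) * (g p.2 - g p.1) * Real.exp (h p.1 + h p.2)
        ∂haarP (X × X) =
      2 * ((∫ x, f x * g x * Real.exp (h x) ∂haarP X) * (∫ x, Real.exp (h x) ∂haarP X)) -
      2 * ((∫ x, f x * Real.exp (h x) ∂haarP X) * ∫ x, g x * Real.exp (h x) ∂haarP X) := by
    have e3 : (fun p : X × X => (f p.2 - f p.1) * (g p.2 - g p.1) * Real.exp (h p.1 + h p.2)) =
        fun p => ((f p.1 * g p.1 * Real.exp (h p.1)) * Real.exp (h p.2) +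
          Real.exp (h p.1) * (f p.2 * g p.2 * Real.exp (h p.2))) -
          ((f p.1 * Real.exp (h p.1)) * (g p.2 * Real.exp (h p.2)) +
          (g p.1 * Real.exp (h p.1)) * (f p.2 * Real.exp (h p.2))) := by
      funext p
      rw [Real.exp_add]
      ring
    rw [e3, integral_sub, integral_add, integral_add, haarP_prod,
      integral_prod_mul (μ := haarP X) (ν := haarP X) (fun x => f x * g x * Real.exp (h x))
        (fun x => Real.exp (h x)),
      integral_prod_mul (μ := haarP X) (ν := haarP X) (fun x => Real.exp (h x))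
        (fun x => f x * g x * Real.exp (h x)),
      integral_prod_mul (μ := haarP X) (ν := haarP X) (fun x => f x * Real.exp (h x))
        (fun x => g x * Real.exp (h x)),
      integral_prod_mul (μ := haarP X) (ν := haarP X) (fun x => g x * Real.exp (h x))
        (fun x => f x * Real.exp (h x))]
    · ring
    all_goals exact integrable_cont _ (by fun_prop)
  rw [e2] at hpos
  simp only [hfF, hgG, hhH]
  linarith

end XYB
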