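import Pool.Agent.H2.XY.GA

/-!
# I0B: lower bound on `I₀`

Proof.  Let `s < 1`.  The set `U = {t : cosC t > s}` is open and nonempty (contains `0`), so it has
positive Haar measure `p` (`IsOpen.measure_pos`); for `b ≥ 0` one has
`I0 b = ∫ e^{b cosC t} ≥ ∫_U e^{b cosC t} ≥ p e^{bs}`.
`tendsto` version: `e^{bs'} / I0 b → 0` as `b → ∞` for every `s' < 1`: take `s ∈ (s', 1)`.
-/

open MeasureTheory Set Filter

noncomputable section

namespace XYB

theorem i0b (s : ℝ) (hs : s < 1) : ∃ p : ℝ, 0 < p ∧ ∀ b : ℝ, 0 ≤ b → p * Real.exp (b * s) ≤ I0 b := by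
  set U : Set Cir := {t | s < cosC t} with hU
  have hUo : IsOpen U := isOpen_lt continuous_const continuous_cosC
  have hUn : U.Nonempty := ⟨0, by simp [hU, hs]⟩
  have hpos : 0 < (haarP Cir).real U := by
    rw [measureReal_def]
    exact ENNReal.toReal_pos (hUo.measure_pos _ hUn).ne' (measure_ne_top _ _)
  refine ⟨(haarP Cir).real U, hpos, fun b hb => ?_⟩
  have hi : Integrable (fun t : Cir => Real.exp (b * cosC t)) (haarP Cir) :=
    integrable_cont _ (Real.continuous_exp.comp (continuous_const.mul continuous_cosC))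
  calc (haarP Cir).real U * Real.exp (b * s) = ∫ t in U, Real.exp (b * s) ∂haarP Cir := by
        rw [setIntegral_const, smul_eq_mul]
    _ ≤ ∫ t in U, Real.exp (b * cosC t) ∂haarP Cir := by
        refine setIntegral_mono_on (integrable_const _) hi.integrableOn hUo.measurableSet ?_
        intro t ht
        apply Real.exp_le_exp.2
        have : s < cosC t := ht
        gcongr
    _ ≤ ∫ t, Real.exp (b * cosC t) ∂haarP Cir :=
        setIntegral_le_integral hi (Eventually.of_forall fun t => (Real.exp_pos _).le)

theorem i0b_tendsto (s : ℝ) (hs : s < 1) :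
    Tendsto (fun b : ℝ => Real.exp (b * s) / I0 b) atTop (nhds 0) := by
  obtain ⟨p, hp, h⟩ := i0b ((s + 1) / 2) (by linarith)
  have hlim : Tendsto (fun b : ℝ => Real.exp (-(b * ((1 - s) / 2))) / p) atTop (nhds 0) := by
    have h1 : Tendsto (fun b : ℝ => b * ((1 - s) / 2)) atTop atTop :=
      tendsto_id.atTop_mul_const (by linarith)
    have h2 := Real.tendsto_exp_neg_atTop_nhds_zero.comp h1
    simpa using h2.div_const p
  refine squeeze_zero' ?_ ?_ hlim
  · filter_upwards [eventually_ge_atTop 0] with b hb
    have := h b hb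
    have h0 : 0 < I0 b := lt_of_lt_of_le (by positivity) this
    positivity
  · filter_upwards [eventually_ge_atTop 0] with b hb
    have h1 := h b hb
    have h0 : 0 < I0 b := lt_of_lt_of_le (by positivity) h1
    rw [div_le_div_iff₀ h0 hp]
    calc Real.exp (b * s) * p
        = Real.exp (-(b * ((1 - s) / 2))) * (p * Real.exp (b * ((s + 1) / 2))) := by
          rw [show Real.exp (b * s) =
            Real.exp (-(b * ((1 - s) / 2))) * Real.exp (b * ((s + 1) / 2)) by
            rw [← Real.exp_add]; congr 1; ring]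
          ring
      _ ≤ Real.exp (-(b * ((1 - s) / 2))) * I0 b := by gcongr

lemma one_le_exp_div_I0 {b : ℝ} (hb : 0 ≤ b) : 1 ≤ Real.exp b / I0 b := by
  have hi : Integrable (fun t : Cir => Real.exp (b * cosC t)) (haarP Cir) :=
    integrable_cont _ (Real.continuous_exp.comp (continuous_const.mul continuous_cosC))
  obtain ⟨p, hp, h⟩ := i0b 0 (by norm_num)
  have h0 : 0 < I0 b := lt_of_lt_of_le (by positivity) (h b hb)
  rw [le_div_iff₀ h0, one_mul]
  calc I0 b ≤ ∫ t : Cir, Real.exp b ∂haarP Cir := by
        refine integral_mono hi (integrable_const _) fun t => ?_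
        apply Real.exp_le_exp.2
        have := cosC_le_one t
        nlinarith
    _ = Real.exp b := by simp

end XYB
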