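import Pool.Agent.H2.XY.PRD

/-!
# PBD: bad cells have product type probabilities

Proof.  Reasons: for a bad cell `c` at least one of the following 5 holds: `θ c ∈ BoxBad`, or one of
the (at most) four pairs (right/up arm of `c`, layer) is bad.  `arms N R` has at most two elements `a`
with `a.1.1 = c` (the right arm and the up arm; all coordinates of `a` are determined by `c` and the
direction) and at most four elements touching `c` (`hdeg` of `prd`); also `a.1 ≠ a.2`.
For a choice function `r : A → Fin 5` (`0` = box, `1,2,3,4` = (direction, layer)) let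
`A₁ = {c : r c = 0}` and `A₂` = the set of the corresponding (arm, layer) pairs of the other
cells; different cells give different pairs, so `|A₂| = |A| - |A₁|` (if for some `c` the chosen arm does
not exist - `c` in the last column/row - the event is empty, so skip this choice).
`⋂_{c ∈ A} CellBad c ⊆ ⋃_r {θ_c ∈ BoxBad ∀ c ∈ A₁, arms of A₂ bad}`, so by `prd` with `s = 9/10` and
the union bound
`P ≤ ∑_r (C₁^8 p)^{|A₁|} τ₁^{|A₂|} ≤ 5^{|A|} max(C₁^8 p, τ₁)^{|A|} ≤ ρ^{|A|}`.
`BoxBad κ p₁ p₂` is measurable (finite unions of open/closed conditions).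
Alternative: induction on `A`/`Finset.prod_add`-type expansions; any bound of this form is fine.
-/

open MeasureTheory Set

noncomputable section

namespace XYB

theorem PBD_meas {R : ℕ} (κ : ℝ) (p₁ p₂ : Bx R) : MeasurableSet (BoxBad κ p₁ p₂) := by
  have hph : ∀ m : Bx R, Continuous fun θ : Bool → Bx R → Cir => ph θ m := by
    intro m
    unfold ph
    fun_prop
  have h1 : ∀ m : Bx R, MeasurableSet {θ : Bool → Bx R → Cir | |cosC (ph θ m)| < κ} := fun m =>
    (isOpen_lt (continuous_cosC.comp (hph m)).abs continuous_const).measurableSet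
  have h2 : ∀ m m' : Bx R, MeasurableSet {θ : Bool → Bx R → Cir | cosC (ph θ m - ph θ m') ≤ 0} :=
    fun m m' => (isClosed_le (continuous_cosC.comp ((hph m).sub (hph m')))
      continuous_const).measurableSet
  have h3 : BoxBad κ p₁ p₂ = (⋃ m ∈ marks p₁ p₂, {θ : Bool → Bx R → Cir | |cosC (ph θ m)| < κ}) ∪
      ⋃ m ∈ marks p₁ p₂, ⋃ m' ∈ marks p₁ p₂,
        {θ : Bool → Bx R → Cir | cosC (ph θ m - ph θ m') ≤ 0} := by
    ext θ
    simp only [BoxBad, mem_ofPred_eq, mem_union, mem_iUnion, exists_prop]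
  rw [h3]
  exact (Finset.measurableSet_biUnion _ fun m _ => h1 m).union
    (Finset.measurableSet_biUnion _ fun m _ => Finset.measurableSet_biUnion _ fun m' _ => h2 m m')

theorem PBD_ne {N R : ℕ} (a : (Bx N × Bx R) × (Bx N × Bx R)) (ha : a ∈ arms N R) : a.1 ≠ a.2 := by
  intro h
  simp only [arms, Finset.mem_filter, Finset.mem_univ, true_and] at ha
  rw [h] at ha
  rcases ha with h1 | h1
  · omega
  · omega

/-- an arm is determined by its first cell and its direction -/
theorem PBD_inj1 {N R : ℕ} {a a' : (Bx N × Bx R) × (Bx N × Bx R)} (ha : a ∈ arms N R)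
    (ha' : a' ∈ arms N R) (hc : a.1.1 = a'.1.1)
    (hk : decide (a.1.1.1 = a.2.1.1) = decide (a'.1.1.1 = a'.2.1.1)) : a = a' := by
  obtain ⟨⟨⟨a1, a2⟩, ⟨a3, a4⟩⟩, ⟨⟨a5, a6⟩, ⟨a7, a8⟩⟩⟩ := a
  obtain ⟨⟨⟨b1, b2⟩, ⟨b3, b4⟩⟩, ⟨⟨b5, b6⟩, ⟨b7, b8⟩⟩⟩ := a'
  simp only [arms, Finset.mem_filter, Finset.mem_univ, true_and] at ha ha'
  simp only [Prod.mk.injEq] at hc
  simp only [decide_eq_decide] at hk
  simp only [Prod.mk.injEq]
  rw [Fin.ext_iff, Fin.ext_iff] at hk hc
  simp only [Fin.ext_iff] at ha ha' ⊢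
  omega

theorem PBD_inj2 {N R : ℕ} {a a' : (Bx N × Bx R) × (Bx N × Bx R)} (ha : a ∈ arms N R)
    (ha' : a' ∈ arms N R) (hc : a.2.1 = a'.2.1)
    (hk : decide (a.1.1.1 = a.2.1.1) = decide (a'.1.1.1 = a'.2.1.1)) : a = a' := by
  obtain ⟨⟨⟨a1, a2⟩, ⟨a3, a4⟩⟩, ⟨⟨a5, a6⟩, ⟨a7, a8⟩⟩⟩ := a
  obtain ⟨⟨⟨b1, b2⟩, ⟨b3, b4⟩⟩, ⟨⟨b5, b6⟩, ⟨b7, b8⟩⟩⟩ := a'
  simp only [arms, Finset.mem_filter, Finset.mem_univ, true_and] at ha ha'
  simp only [Prod.mk.injEq] at hc
  simp only [decide_eq_decide] at hk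
  simp only [Prod.mk.injEq]
  rw [Fin.ext_iff, Fin.ext_iff] at hk hc
  simp only [Fin.ext_iff] at ha ha' ⊢
  omega

theorem PBD_deg {N R : ℕ} (c : Bx N) :
    ((arms N R).filter fun a => a.1.1 = c ∨ a.2.1 = c).card ≤ 4 := by
  classical
  have h := Finset.card_le_card_of_injOn (s := (arms N R).filter fun a => a.1.1 = c ∨ a.2.1 = c)
    (t := (Finset.univ : Finset (Bool × Bool)))
    (fun a => (decide (a.1.1 = c), decide (a.1.1.1 = a.2.1.1)))
    (fun _ _ => Finset.mem_coe.2 (Finset.mem_univ _)) (by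
      intro a ha a' ha' heq
      rw [Finset.mem_coe, Finset.mem_filter] at ha ha'
      simp only [Prod.mk.injEq] at heq
      obtain ⟨h1, h2⟩ := heq
      by_cases hc : a.1.1 = c
      · have hc' : a'.1.1 = c := by
          rw [decide_eq_decide] at h1
          exact h1.1 hc
        exact PBD_inj1 ha.1 ha'.1 (hc.trans hc'.symm) h2
      · have hc' : ¬ a'.1.1 = c := by
          rw [decide_eq_decide] at h1
          exact fun h => hc (h1.2 h)
        have g1 : a.2.1 = c := ha.2.resolve_left hc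
        have g2 : a'.2.1 = c := ha'.2.resolve_left hc'
        exact PBD_inj2 ha.1 ha'.1 (g1.trans g2.symm) h2)
  refine h.trans ?_
  simp

theorem PBD_deg' {N R : ℕ} (c : Bx N) :
    ((arms N R).filter fun a => a.1.1 = c).card ≤ 2 := by
  classical
  have h := Finset.card_le_card_of_injOn (s := (arms N R).filter fun a => a.1.1 = c)
    (t := (Finset.univ : Finset Bool))
    (fun a => decide (a.1.1.1 = a.2.1.1))
    (fun _ _ => Finset.mem_coe.2 (Finset.mem_univ _)) (by
      intro a ha a' ha' heq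
      rw [Finset.mem_coe, Finset.mem_filter] at ha ha'
      exact PBD_inj1 ha.1 ha'.1 (ha.2.trans ha'.2.symm) heq)
  refine h.trans ?_
  simp

/-- the possible reasons for a cell to be bad: `none` = the box, `some (a, b)` = an arm in a layer -/
def PBD_rs (N R : ℕ) (A : Finset (Bx N)) (c : Bx N) :
    Finset (Option (((Bx N × Bx R) × (Bx N × Bx R)) × Bool)) :=
  if c ∈ A then
    Finset.insertNone (((arms N R).filter fun a => a.1.1 = c) ×ˢ (Finset.univ : Finset Bool))
  else {none}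

theorem PBD_card (N R : ℕ) (A : Finset (Bx N)) :
    ((Fintype.piFinset (PBD_rs N R A)).card : ℝ) ≤ 5 ^ A.card := by
  classical
  rw [Fintype.card_piFinset]
  have h1 : ∏ c, (PBD_rs N R A c).card ≤ ∏ c, (if c ∈ A then 5 else 1) := by
    refine Finset.prod_le_prod' fun c _ => ?_
    unfold PBD_rs
    split_ifs with h
    · rw [Finset.card_insertNone, Finset.card_product]
      have := PBD_deg' (R := R) c
      simp only [Finset.card_univ, Fintype.card_bool]
      omega
    · simp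
  have h2 : ∏ c, (if c ∈ A then 5 else 1) = 5 ^ A.card := by
    rw [Finset.prod_ite_mem, Finset.univ_inter, Finset.prod_const]
  rw [h2] at h1
  exact_mod_cast h1

theorem pbd (N R : ℕ) (β K β₁ κ : ℝ) (hβ : 0 ≤ β) (hK : 0 ≤ K) (hβ₁ : 0 ≤ β₁)
    (p₁ p₂ : Bx R) (ρ : ℝ) (hρ : 0 ≤ ρ)
    (h1 : 5 * ((Real.exp β₁ / I0 β₁) ^ 8 * (gM (hBox β K (bE R))).real (BoxBad κ p₁ p₂)) ≤ ρ)
    (h2 : 5 * (Real.exp (β₁ * (9 / 10)) / I0 β₁) ≤ ρ) (A : Finset (Bx N)) :
    (gM (hCell β K β₁ (bE R) (arms N R))).real {θ | ∀ c ∈ A, θ ∈ CellBad κ p₁ p₂ c} ≤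
      ρ ^ A.card := by
  classical
  obtain ⟨μ, hμ⟩ : ∃ μ : Measure (Bx N → Bool → Bx R → Cir),
      μ = gM (hCell β K β₁ (bE R) (arms N R)) := ⟨_, rfl⟩
  have hfin : IsFiniteMeasure μ := by
    rw [hμ]
    unfold gM
    infer_instance
  rw [← hμ]
  obtain ⟨X, hX⟩ : ∃ X : ℝ, X = (Real.exp β₁ / I0 β₁) ^ 8 *
      (gM (hBox β K (bE R))).real (BoxBad κ p₁ p₂) := ⟨_, rfl⟩
  obtain ⟨Y, hY⟩ : ∃ Y : ℝ, Y = Real.exp (β₁ * (9 / 10)) / I0 β₁ := ⟨_, rfl⟩
  rw [← hX] at h1
  rw [← hY] at h2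
  have hI := I0_pos β₁
  have hX0 : 0 ≤ X := by rw [hX]; positivity
  have hY0 : 0 ≤ Y := by rw [hY]; positivity
  -- the sets attached to a choice of reasons
  obtain ⟨A1, hA1⟩ : ∃ A1 : (Bx N → Option (((Bx N × Bx R) × (Bx N × Bx R)) × Bool)) →
      Finset (Bx N), A1 = fun r => A.filter fun c => r c = none := ⟨_, rfl⟩
  obtain ⟨A2, hA2⟩ : ∃ A2 : (Bx N → Option (((Bx N × Bx R) × (Bx N × Bx R)) × Bool)) →
      Finset (((Bx N × Bx R) × (Bx N × Bx R)) × Bool),
      A2 = fun r => A.biUnion fun c => (r c).toFinset := ⟨_, rfl⟩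
  obtain ⟨Ev, hEv⟩ : ∃ Ev : (Bx N → Option (((Bx N × Bx R) × (Bx N × Bx R)) × Bool)) →
      Set (Bx N → Bool → Bx R → Cir), Ev = fun r => {θ | (∀ c ∈ A1 r, θ c ∈ BoxBad κ p₁ p₂) ∧
        ∀ f ∈ A2 r, cosC (dArm f.1 f.2 θ) < 9 / 10} := ⟨_, rfl⟩
  -- the covering
  have hcov : {θ | ∀ c ∈ A, θ ∈ CellBad κ p₁ p₂ c} ⊆
      ⋃ r ∈ Fintype.piFinset (PBD_rs N R A), Ev r := by
    intro θ hθ
    have h3 : ∀ c, ∃ o ∈ PBD_rs N R A c, (c ∈ A → o = none → θ c ∈ BoxBad κ p₁ p₂) ∧
        ∀ f, o = some f → cosC (dArm f.1 f.2 θ) < 9 / 10 := by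
      intro c
      by_cases hc : c ∈ A
      · rcases hθ c hc with h4 | ⟨a, ha, hac, b, hb⟩
        · refine ⟨none, ?_, fun _ _ => h4, fun f hf => by simp at hf⟩
          unfold PBD_rs
          rw [if_pos hc]
          simp
        · refine ⟨some (a, b), ?_, fun _ h => by simp at h, ?_⟩
          · unfold PBD_rs
            rw [if_pos hc]
            simp [ha, hac]
          · intro f hf
            rw [Option.some.injEq] at hf
            rw [← hf]
            exact hb
      · refine ⟨none, ?_, fun h => absurd h hc, fun f hf => by simp at hf⟩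
        unfold PBD_rs
        rw [if_neg hc]
        simp
    choose r hr hr1 hr2 using h3
    rw [mem_iUnion₂]
    refine ⟨r, Fintype.mem_piFinset.2 hr, ?_⟩
    rw [hEv]
    refine ⟨fun c hc => ?_, fun f hf => ?_⟩
    · rw [hA1] at hc
      rw [Finset.mem_filter] at hc
      exact hr1 c hc.1 hc.2
    · rw [hA2] at hf
      rw [Finset.mem_biUnion] at hf
      obtain ⟨c, _, hf⟩ := hf
      rw [Option.mem_toFinset, Option.mem_def] at hf
      exact hr2 c f hf
  -- every event
  have hone : ∀ r ∈ Fintype.piFinset (PBD_rs N R A), μ.real (Ev r) ≤ (ρ / 5) ^ A.card := by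
    intro r hr
    rw [Fintype.mem_piFinset] at hr
    have hmem : ∀ c ∈ A, ∀ f, r c = some f → f.1 ∈ arms N R ∧ f.1.1.1 = c := by
      intro c hc f hf
      have h3 := hr c
      unfold PBD_rs at h3
      rw [if_pos hc, hf, Finset.some_mem_insertNone, Finset.mem_product, Finset.mem_filter] at h3
      exact h3.1
    have h3 := prd (C := Bx N) (V := Bx R) β K β₁ (9 / 10) hβ hK hβ₁ (bE R) (arms N R)
      PBD_ne PBD_deg (BoxBad κ p₁ p₂) (PBD_meas κ p₁ p₂) (A1 r) (A2 r) (by
        intro f hf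
        rw [hA2] at hf
        rw [Finset.mem_biUnion] at hf
        obtain ⟨c, hc, hf⟩ := hf
        rw [Option.mem_toFinset, Option.mem_def] at hf
        exact (hmem c hc f hf).1)
    rw [← hX, ← hY, ← hμ] at h3
    have hcard : (A1 r).card + (A2 r).card = A.card := by
      rw [hA1, hA2]
      have h4 : (A.biUnion fun c => (r c).toFinset).card = ∑ c ∈ A, (r c).toFinset.card := by
        refine Finset.card_biUnion ?_
        intro c hc c' hc' hne
        rw [Function.onFun, Finset.disjoint_left]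
        intro f hf hf'
        rw [Option.mem_toFinset, Option.mem_def] at hf hf'
        exact hne ((hmem c hc f hf).2.symm.trans (hmem c' hc' f hf').2)
      simp only
      rw [h4, Finset.card_filter, ← Finset.sum_add_distrib, Finset.card_eq_sum_ones]
      refine Finset.sum_congr rfl fun c _ => ?_
      rcases hrc : r c with _ | f
      · simp
      · simp
    have h5 : Ev r = {θ | (∀ c ∈ A1 r, θ c ∈ BoxBad κ p₁ p₂) ∧
        ∀ f ∈ A2 r, cosC (dArm f.1 f.2 θ) < 9 / 10} := by rw [hEv]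
    rw [h5]
    refine h3.trans ?_
    rw [← hcard, pow_add]
    refine mul_le_mul ?_ ?_ (by positivity) (by positivity)
    · exact pow_le_pow_left₀ hX0 (by linarith) _
    · exact pow_le_pow_left₀ hY0 (by linarith) _
  calc μ.real {θ | ∀ c ∈ A, θ ∈ CellBad κ p₁ p₂ c}
      ≤ μ.real (⋃ r ∈ Fintype.piFinset (PBD_rs N R A), Ev r) :=
        measureReal_mono hcov (measure_ne_top μ _)
    _ ≤ ∑ r ∈ Fintype.piFinset (PBD_rs N R A), μ.real (Ev r) :=
        measureReal_biUnion_finset_le _ _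
    _ ≤ ∑ _r ∈ Fintype.piFinset (PBD_rs N R A), (ρ / 5) ^ A.card := Finset.sum_le_sum hone
    _ = ((Fintype.piFinset (PBD_rs N R A)).card : ℝ) * (ρ / 5) ^ A.card := by
        rw [Finset.sum_const, nsmul_eq_mul]
    _ ≤ 5 ^ A.card * (ρ / 5) ^ A.card :=
        mul_le_mul_of_nonneg_right (PBD_card N R A) (by positivity)
    _ = ρ ^ A.card := by
        rw [← mul_pow]
        congr 1
        ring

end XYB
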