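import Mathlib

/-!
# PE1: hierarchical bad blocks, probability estimate

A block of level `k+1` is bad if at least two of its nine children are bad.

Proof of `pe1`.  Induction on `k`; `k = 0` is the hypothesis.  Step: if `ω` lies in
`{lbad (k+1) c}` for all `c ∈ A`, choose for each `c ∈ A` a pair `{d, d'}` of different children which
are bad at level `k`.  There are `36` two element subsets of `Fin 3 × Fin 3`, so
`36^{|A|}` choices; for a fixed choice the event is contained in `⋂` over `2|A|` different blocks of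
level `k` (children of different blocks are different: `chi` is injective), which has probability
`≤ rk ρ k ^ (2|A|)`.  Union bound (`measureReal_biUnion_finset_le` over `A → {pairs}` or
`Finset.pi`): `≤ 36^{|A|} (rk ρ k)^{2|A|} = (rk ρ (k+1))^{|A|}`.
`rk_le`: `rk (k+1) = 36 (rk k)² ≤ 36 (ρ/2^k) rk k ≤ rk k / 2`.
-/

open MeasureTheory Set

noncomputable section

namespace XYB

/-- the nine children of a block -/
def chi (c : ℕ × ℕ) (d : Fin 3 × Fin 3) : ℕ × ℕ := (3 * c.1 + d.1.val, 3 * c.2 + d.2.val)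

/-- bad blocks of level `k` -/
def lbad (B : ℕ × ℕ → Prop) : ℕ → ℕ × ℕ → Prop
  | 0, c => B c
  | k + 1, c => ∃ d d' : Fin 3 × Fin 3, d ≠ d' ∧ lbad B k (chi c d) ∧ lbad B k (chi c d')

/-- probability bounds -/
def rk (ρ : ℝ) : ℕ → ℝ
  | 0 => ρ
  | k + 1 => 36 * rk ρ k ^ 2

theorem PE1_chi_inj {c c' : ℕ × ℕ} {d d' : Fin 3 × Fin 3} (h : chi c d = chi c' d') :
    c = c' ∧ d = d' := by
  obtain ⟨c1, c2⟩ := c
  obtain ⟨c1', c2'⟩ := c'
  obtain ⟨d1, d2⟩ := d
  obtain ⟨d1', d2'⟩ := d'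
  simp only [chi, Prod.mk.injEq] at h
  obtain ⟨h1, h2⟩ := h
  have a1 := d1.isLt
  have a2 := d2.isLt
  have a3 := d1'.isLt
  have a4 := d2'.isLt
  have e1 : c1 = c1' := by omega
  have e2 : c2 = c2' := by omega
  have e3 : d1 = d1' := Fin.ext (by omega)
  have e4 : d2 = d2' := Fin.ext (by omega)
  subst e1 e2 e3 e4
  exact ⟨rfl, rfl⟩

theorem PE1_step {Ω : Type*} [MeasurableSpace Ω] (P : Measure Ω) [IsProbabilityMeasure P]
    (E F : ℕ × ℕ → Set Ω) (r : ℝ) (hr : 0 ≤ r)
    (hE : ∀ B : Finset (ℕ × ℕ), P.real (⋂ b ∈ B, E b) ≤ r ^ B.card)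
    (hF : ∀ c, ∀ ω ∈ F c, ∃ d d' : Fin 3 × Fin 3, d ≠ d' ∧ ω ∈ E (chi c d) ∧ ω ∈ E (chi c d'))
    (A : Finset (ℕ × ℕ)) : ∀ B : Finset (ℕ × ℕ), (∀ b ∈ B, ∀ c ∈ A, ∀ d, chi c d ≠ b) →
      P.real ((⋂ c ∈ A, F c) ∩ ⋂ b ∈ B, E b) ≤ (36 * r ^ 2) ^ A.card * r ^ B.card := by
  classical
  induction A using Finset.induction_on with
  | empty =>
    intro B _
    simpa using hE B
  | insert c A hc ih =>
    intro B hB
    set Prs : Finset (Finset (Fin 3 × Fin 3)) := Finset.powersetCard 2 Finset.univ with hPrs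
    have hcard : Prs.card = 36 := by
      rw [hPrs, Finset.card_powersetCard]
      decide
    have hsub : ((⋂ c' ∈ insert c A, F c') ∩ ⋂ b ∈ B, E b) ⊆
        ⋃ s ∈ Prs, ((⋂ c' ∈ A, F c') ∩ ⋂ b ∈ B ∪ s.image (chi c), E b) := by
      rintro ω ⟨h1, h2⟩
      simp only [mem_iInter] at h1 h2
      obtain ⟨d, d', hne, hd, hd'⟩ := hF c ω (h1 c (Finset.mem_insert_self _ _))
      simp only [mem_iUnion]
      refine ⟨{d, d'}, ?_, ?_, ?_⟩
      · rw [hPrs, Finset.mem_powersetCard]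
        exact ⟨Finset.subset_univ _, Finset.card_pair hne⟩
      · simp only [mem_iInter]
        intro c' hc'
        exact h1 c' (Finset.mem_insert_of_mem hc')
      · simp only [mem_iInter]
        intro b hb
        rcases Finset.mem_union.1 hb with hb | hb
        · exact h2 b hb
        · obtain ⟨e, he, rfl⟩ := Finset.mem_image.1 hb
          rcases Finset.mem_insert.1 he with rfl | he
          · exact hd
          · rw [Finset.mem_singleton.1 he]
            exact hd'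
    have hb : ∀ s ∈ Prs, P.real ((⋂ c' ∈ A, F c') ∩ ⋂ b ∈ B ∪ s.image (chi c), E b) ≤
        (36 * r ^ 2) ^ A.card * r ^ (B.card + 2) := by
      intro s hs
      have hs2 : s.card = 2 := (Finset.mem_powersetCard.1 hs).2
      have hcd : (B ∪ s.image (chi c)).card = B.card + 2 := by
        rw [Finset.card_union_of_disjoint, Finset.card_image_of_injective, hs2]
        · intro d d' h
          exact (PE1_chi_inj h).2
        · rw [Finset.disjoint_left]
          intro b hb hb2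
          obtain ⟨e, _, rfl⟩ := Finset.mem_image.1 hb2
          exact hB _ hb c (Finset.mem_insert_self _ _) e rfl
      rw [← hcd]
      refine ih _ ?_
      intro b hb c' hc' d h
      rcases Finset.mem_union.1 hb with hb | hb
      · exact hB b hb c' (Finset.mem_insert_of_mem hc') d h
      · obtain ⟨e, _, rfl⟩ := Finset.mem_image.1 hb
        have := (PE1_chi_inj h).1
        rw [this] at hc'
        exact hc hc'
    calc P.real ((⋂ c' ∈ insert c A, F c') ∩ ⋂ b ∈ B, E b)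
        ≤ P.real (⋃ s ∈ Prs, ((⋂ c' ∈ A, F c') ∩ ⋂ b ∈ B ∪ s.image (chi c), E b)) :=
          measureReal_mono hsub (measure_ne_top P _)
      _ ≤ ∑ s ∈ Prs, P.real ((⋂ c' ∈ A, F c') ∩ ⋂ b ∈ B ∪ s.image (chi c), E b) :=
          measureReal_biUnion_finset_le _ _
      _ ≤ Prs.card • ((36 * r ^ 2) ^ A.card * r ^ (B.card + 2)) :=
          Finset.sum_le_card_nsmul _ _ _ hb
      _ = (36 * r ^ 2) ^ (insert c A).card * r ^ B.card := by
          rw [hcard, Finset.card_insert_of_notMem hc, nsmul_eq_mul]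
          push_cast
          ring

theorem PE1_nonneg (ρ : ℝ) (hρ : 0 ≤ ρ) (k : ℕ) : 0 ≤ rk ρ k := by
  induction k with
  | zero => exact hρ
  | succ k ih =>
    simp only [rk]
    positivity

theorem pe1 {Ω : Type*} [MeasurableSpace Ω] (P : Measure Ω) [IsProbabilityMeasure P]
    (Bad : ℕ × ℕ → Set Ω) (ρ : ℝ) (hρ : 0 ≤ ρ)
    (hP : ∀ A : Finset (ℕ × ℕ), P.real (⋂ c ∈ A, Bad c) ≤ ρ ^ A.card) (k : ℕ)
    (A : Finset (ℕ × ℕ)) :
    P.real (⋂ c ∈ A, {ω | lbad (fun c' => ω ∈ Bad c') k c}) ≤ rk ρ k ^ A.card := by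
  induction k generalizing A with
  | zero => exact hP A
  | succ k ih =>
    have h := PE1_step P (fun c => {ω | lbad (fun c' => ω ∈ Bad c') k c})
      (fun c => {ω | lbad (fun c' => ω ∈ Bad c') (k + 1) c}) (rk ρ k) (PE1_nonneg ρ hρ k) ih
      (fun c ω hω => hω) A ∅ (by simp)
    simpa [rk] using h

theorem rk_le (ρ : ℝ) (hρ : 0 ≤ ρ) (hρ1 : 72 * ρ ≤ 1) (k : ℕ) : 0 ≤ rk ρ k ∧ rk ρ k ≤ ρ / 2 ^ k := by
  refine ⟨PE1_nonneg ρ hρ k, ?_⟩
  induction k with
  | zero => simp [rk]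
  | succ k ih =>
    have h0 := PE1_nonneg ρ hρ k
    have h1 : rk ρ k ≤ ρ := by
      refine ih.trans ?_
      exact div_le_self hρ (one_le_pow₀ (by norm_num))
    have h2 : 36 * rk ρ k ^ 2 ≤ rk ρ k / 2 := by nlinarith
    simp only [rk]
    refine h2.trans ?_
    rw [pow_succ, ← div_div]
    linarith

end XYB
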