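import Pool.Agent.H2.XY.PE1

/-!
# PE2: hierarchical bad blocks, deterministic part

`c` is fully good up to level `k` if `¬ lbad B j (c.1/3^j, c.2/3^j)` for all `j ≤ k`.

Proof.  By induction on `k ≤ n` prove simultaneously for the blocks of level `k` inside `[0,3^n)²`
(blocks `b` with `b.1, b.2 < 3^(n-k)`; the cells of `b` are those `c` with `c/3^k = b`):
(E_k) every good block `b` (i.e. `¬ lbad B k b`) contains a cell which is fully good up to level `k`;
(S_k) if `b, b'` are good blocks, equal or adjacent, then all cells of `b` and `b'` which are fully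
good up to level `k` have the same sign `s`.
`k = 0` is the hypothesis `hs` (and trivial for equal cells).
Step.  A good block of level `k+1` has at most one bad child.  (E): a good child contains a cell
fully good up to level `k`, by `E_k`.  (S): within one good block the good children (the `3 × 3` grid
minus at most one cell) are connected through adjacent good children; two adjacent good blocks have
three pairs of adjacent children, at most two of which are spoiled, so there is a pair of adjacent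
good children.  By `E_k` and `S_k` all fully good (up to level `k`) cells in connected good children
have the same sign (for good blocks `d ~ d'` of level `k` choose a fully good cell in each; `S_k`).
Suggestion for the finite check: for a good block define `σ : Fin 3 × Fin 3 → Prop` (the common sign
in the child `d`), equal for adjacent good children; then all good children have the same `σ`
(case analysis on the bad child or `decide` on the connectivity of the grid minus one cell).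
At the end take `k = n`: both cells lie in the block `(0,0)` of level `n`, which is good.
(`Nat.div_div_eq_div_mul`: `c/3^(k+1) = (c/3^k)/3`; a block `d` is the child `chi b (d%3)` of
`b = d/3`.)
-/

noncomputable section

namespace XYB

/-- block of level `k` containing the cell `c` -/
def pe2_blk (k : ℕ) (c : ℕ × ℕ) : ℕ × ℕ := (c.1 / 3 ^ k, c.2 / 3 ^ k)

/-- fully good up to level `k` -/
def pe2_fg (B : ℕ × ℕ → Prop) (k : ℕ) (c : ℕ × ℕ) : Prop := ∀ j ≤ k, ¬ lbad B j (pe2_blk j c)

/-- the common sign of a good block -/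
def pe2_T (B s : ℕ × ℕ → Prop) (k : ℕ) (b : ℕ × ℕ) : Prop :=
  ∃ c, pe2_blk k c = b ∧ pe2_fg B k c ∧ s c

/-- directed adjacency -/
def pe2_adj (c c' : ℕ × ℕ) : Prop :=
  (c.1 + 1 = c'.1 ∧ c.2 = c'.2) ∨ (c.1 = c'.1 ∧ c.2 + 1 = c'.2)

theorem pe2_blk_succ (k : ℕ) (c : ℕ × ℕ) :
    pe2_blk (k + 1) c = ((pe2_blk k c).1 / 3, (pe2_blk k c).2 / 3) := by
  simp only [pe2_blk, pow_succ, Nat.div_div_eq_div_mul]

/-- the position of a block in its parent -/
def pe2_pos (b : ℕ × ℕ) : Fin 3 × Fin 3 :=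
  (⟨b.1 % 3, Nat.mod_lt _ (by norm_num)⟩, ⟨b.2 % 3, Nat.mod_lt _ (by norm_num)⟩)

theorem pe2_chi_pos (b : ℕ × ℕ) : chi (b.1 / 3, b.2 / 3) (pe2_pos b) = b := by
  ext
  · simp only [chi, pe2_pos]; omega
  · simp only [chi, pe2_pos]; omega

theorem pe2_chi_div (b : ℕ × ℕ) (d : Fin 3 × Fin 3) :
    ((chi b d).1 / 3, (chi b d).2 / 3) = b := by
  have h1 := d.1.2
  have h2 := d.2.2
  ext
  · simp only [chi]; omega
  · simp only [chi]; omega

theorem pe2_grid (bad T : Fin 3 → Fin 3 → Prop)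
    (h1' : ∀ i j i' j', (i ≠ i' ∨ j ≠ j') → bad i j → ¬ bad i' j')
    (ha : ∀ i i' j, i.val + 1 = i'.val → ¬ bad i j → ¬ bad i' j → (T i j ↔ T i' j))
    (hb : ∀ i j j', j.val + 1 = j'.val → ¬ bad i j → ¬ bad i j' → (T i j ↔ T i j')) :
    ∃ P : Prop, ∀ i j, ¬ bad i j → (T i j ↔ P) := by
  have a01 := fun j => ha 0 1 j rfl
  have a12 := fun j => ha 1 2 j rfl
  have b01 := fun i => hb i 0 1 rfl
  have b12 := fun i => hb i 1 2 rfl
  by_cases hc : bad 1 1
  · have g00 : ¬ bad 0 0 := h1' 1 1 0 0 (by decide) hc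
    have g01 : ¬ bad 0 1 := h1' 1 1 0 1 (by decide) hc
    have g02 : ¬ bad 0 2 := h1' 1 1 0 2 (by decide) hc
    have g10 : ¬ bad 1 0 := h1' 1 1 1 0 (by decide) hc
    have g12 : ¬ bad 1 2 := h1' 1 1 1 2 (by decide) hc
    have g20 : ¬ bad 2 0 := h1' 1 1 2 0 (by decide) hc
    have g21 : ¬ bad 2 1 := h1' 1 1 2 1 (by decide) hc
    have g22 : ¬ bad 2 2 := h1' 1 1 2 2 (by decide) hc
    have e1 := b01 0 g00 g01
    have e2 := b12 0 g01 g02
    have e3 := a01 0 g00 g10
    have e4 := a12 0 g10 g20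
    have e5 := b01 2 g20 g21
    have e6 := b12 2 g21 g22
    have e7 := a01 2 g02 g12
    refine ⟨T 0 0, fun i j hij => ?_⟩
    fin_cases i <;> fin_cases j
    · exact Iff.rfl
    · exact e1.symm
    · exact (e1.trans e2).symm
    · exact e3.symm
    · exact absurd hc hij
    · exact (e1.trans (e2.trans e7)).symm
    · exact (e3.trans e4).symm
    · exact (e3.trans (e4.trans e5)).symm
    · exact (e3.trans (e4.trans (e5.trans e6))).symm
  · refine ⟨T 1 1, fun i j hij => ?_⟩
    fin_cases i <;> fin_cases j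
    · -- 00 via 01 or 10
      change ¬ bad 0 0 at hij
      by_cases h : bad 0 1
      · have g : ¬ bad 1 0 := h1' 0 1 1 0 (by decide) h
        exact (a01 0 hij g).trans (b01 1 g hc)
      · exact (b01 0 hij h).trans (a01 1 h hc)
    · exact a01 1 hij hc
    · change ¬ bad 0 2 at hij
      by_cases h : bad 0 1
      · have g : ¬ bad 1 2 := h1' 0 1 1 2 (by decide) h
        exact (a01 2 hij g).trans (b12 1 hc g).symm
      · exact (b12 0 h hij).symm.trans (a01 1 h hc)
    · exact b01 1 hij hc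
    · exact Iff.rfl
    · exact (b12 1 hc hij).symm
    · change ¬ bad 2 0 at hij
      by_cases h : bad 1 0
      · have g : ¬ bad 2 1 := h1' 1 0 2 1 (by decide) h
        exact (b01 2 hij g).trans (a12 1 hc g).symm
      · exact (a12 0 h hij).symm.trans (b01 1 h hc)
    · exact (a12 1 hc hij).symm
    · change ¬ bad 2 2 at hij
      by_cases h : bad 1 2
      · have g : ¬ bad 2 1 := h1' 1 2 2 1 (by decide) h
        exact (b12 2 g hij).symm.trans (a12 1 hc g).symm
      · exact (a12 2 h hij).symm.trans (b12 1 hc h).symm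

/-- in a good block at most one child is bad -/
theorem pe2_one {B : ℕ × ℕ → Prop} {k : ℕ} {b : ℕ × ℕ} (hb : ¬ lbad B (k + 1) b)
    {d d' : Fin 3 × Fin 3} (hd : d ≠ d') (h : lbad B k (chi b d)) : ¬ lbad B k (chi b d') :=
  fun h' => hb ⟨d, d', hd, h, h'⟩

/-- every good block contains a fully good cell -/
theorem pe2_E (B : ℕ × ℕ → Prop) (k : ℕ) : ∀ b, ¬ lbad B k b → ∃ c, pe2_blk k c = b ∧
    pe2_fg B k c := by
  induction k with
  | zero =>
    intro b hb
    refine ⟨b, by simp [pe2_blk], fun j hj => ?_⟩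
    have : j = 0 := by omega
    subst this
    simpa [pe2_blk] using hb
  | succ k ih =>
    intro b hb
    obtain ⟨d, hd⟩ : ∃ d, ¬ lbad B k (chi b d) := by
      by_cases h : lbad B k (chi b (0, 0))
      · exact ⟨(0, 1), pe2_one hb (by decide) h⟩
      · exact ⟨(0, 0), h⟩
    obtain ⟨c, hc, hfg⟩ := ih _ hd
    have hc' : pe2_blk (k + 1) c = b := by rw [pe2_blk_succ, hc, pe2_chi_div]
    refine ⟨c, hc', fun j hj => ?_⟩
    rcases Nat.lt_or_ge j (k + 1) with h | h
    · exact hfg j (by omega)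
    · have : j = k + 1 := by omega
      subst this
      rw [hc']; exact hb

theorem pe2_main (n : ℕ) (B s : ℕ × ℕ → Prop)
    (hs : ∀ c c' : ℕ × ℕ, c.1 < 3 ^ n → c.2 < 3 ^ n → c'.1 < 3 ^ n → c'.2 < 3 ^ n →
      ((c.1 + 1 = c'.1 ∧ c.2 = c'.2) ∨ (c.1 = c'.1 ∧ c.2 + 1 = c'.2)) →
      ¬ B c → ¬ B c' → (s c ↔ s c')) (k : ℕ) (hk : k ≤ n) :
    (∀ b : ℕ × ℕ, b.1 < 3 ^ (n - k) → b.2 < 3 ^ (n - k) → ¬ lbad B k b → ∀ c, pe2_blk k c = b →
      pe2_fg B k c → (s c ↔ pe2_T B s k b)) ∧
    (∀ b b' : ℕ × ℕ, b.1 < 3 ^ (n - k) → b.2 < 3 ^ (n - k) → b'.1 < 3 ^ (n - k) →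
      b'.2 < 3 ^ (n - k) → pe2_adj b b' → ¬ lbad B k b → ¬ lbad B k b' →
      (pe2_T B s k b ↔ pe2_T B s k b')) := by
  induction k with
  | zero =>
    have hT : ∀ b, ¬ lbad B 0 b → (s b ↔ pe2_T B s 0 b) := by
      intro b hb
      constructor
      · intro h
        refine ⟨b, by simp [pe2_blk], fun j hj => ?_, h⟩
        have : j = 0 := by omega
        subst this
        simpa [pe2_blk] using hb
      · rintro ⟨c, hc, _, h⟩
        have : c = b := by simpa [pe2_blk] using hc
        rwa [← this]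
    constructor
    · intro b _ _ hb c hc _
      have : c = b := by simpa [pe2_blk] using hc
      rw [this]; exact hT b hb
    · intro b b' h1 h2 h3 h4 hadj hb hb'
      rw [← hT b hb, ← hT b' hb']
      rw [Nat.sub_zero] at h1 h2 h3 h4
      exact hs b b' h1 h2 h3 h4 hadj hb hb'
  | succ k ih =>
    obtain ⟨ih1, ih2⟩ := ih (by omega)
    have h3 : 3 ^ (n - k) = 3 * 3 ^ (n - (k + 1)) := by
      rw [← pow_succ', show n - (k + 1) + 1 = n - k by omega]
    have hrange : ∀ (b : ℕ × ℕ) (d : Fin 3 × Fin 3), b.1 < 3 ^ (n - (k + 1)) →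
        b.2 < 3 ^ (n - (k + 1)) → (chi b d).1 < 3 ^ (n - k) ∧ (chi b d).2 < 3 ^ (n - k) := by
      intro b d hb1 hb2
      have h1 := d.1.2
      have h2 := d.2.2
      rw [h3]
      simp only [chi]
      omega
    -- children of a good block
    have key : ∀ b : ℕ × ℕ, b.1 < 3 ^ (n - (k + 1)) → b.2 < 3 ^ (n - (k + 1)) →
        ¬ lbad B (k + 1) b → ∀ d, ¬ lbad B k (chi b d) →
        (pe2_T B s k (chi b d) ↔ pe2_T B s (k + 1) b) := by
      intro b hb1 hb2 hb
      obtain ⟨P, hP⟩ := pe2_grid (fun i j => lbad B k (chi b (i, j)))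
        (fun i j => pe2_T B s k (chi b (i, j)))
        (fun i j i' j' hne h => pe2_one hb (by
          intro heq
          rw [Prod.mk.injEq] at heq
          rcases hne with h' | h'
          · exact h' heq.1
          · exact h' heq.2) h)
        (fun i i' j hii h h' => ih2 _ _ (hrange b (i, j) hb1 hb2).1 (hrange b (i, j) hb1 hb2).2
          (hrange b (i', j) hb1 hb2).1 (hrange b (i', j) hb1 hb2).2
          (Or.inl ⟨by simp only [chi]; omega, rfl⟩) h h')
        (fun i j j' hjj h h' => ih2 _ _ (hrange b (i, j) hb1 hb2).1 (hrange b (i, j) hb1 hb2).2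
          (hrange b (i, j') hb1 hb2).1 (hrange b (i, j') hb1 hb2).2
          (Or.inr ⟨rfl, by simp only [chi]; omega⟩) h h')
      have hTP : pe2_T B s (k + 1) b ↔ P := by
        have aux : ∀ c, pe2_blk (k + 1) c = b → pe2_fg B (k + 1) c → (s c ↔ P) := by
          intro c hc hfg
          have h5 : chi b (pe2_pos (pe2_blk k c)) = pe2_blk k c := by
            rw [← hc, pe2_blk_succ, pe2_chi_pos]
          have h6 : ¬ lbad B k (chi b (pe2_pos (pe2_blk k c))) := by
            rw [h5]; exact hfg k (by omega)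
          have h7 := hrange b (pe2_pos (pe2_blk k c)) hb1 hb2
          have h8 := ih1 _ h7.1 h7.2 h6 c h5.symm (fun j hj => hfg j (by omega))
          exact h8.trans (hP _ _ h6)
        constructor
        · rintro ⟨c, hc, hfg, hsc⟩
          exact (aux c hc hfg).1 hsc
        · intro hp
          obtain ⟨c, hc, hfg⟩ := pe2_E B (k + 1) b hb
          exact ⟨c, hc, hfg, (aux c hc hfg).2 hp⟩
      intro d hd
      rw [hTP]
      exact hP d.1 d.2 hd
    constructor
    · intro b hb1 hb2 hb c hc hfg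
      have h5 : chi b (pe2_pos (pe2_blk k c)) = pe2_blk k c := by
        rw [← hc, pe2_blk_succ, pe2_chi_pos]
      have h6 : ¬ lbad B k (chi b (pe2_pos (pe2_blk k c))) := by
        rw [h5]; exact hfg k (by omega)
      have h7 := hrange b (pe2_pos (pe2_blk k c)) hb1 hb2
      have h8 := ih1 _ h7.1 h7.2 h6 c h5.symm (fun j hj => hfg j (by omega))
      exact h8.trans (key b hb1 hb2 hb _ h6)
    · intro b b' h1 h2 h1' h2' hadj hb hb'
      rcases hadj with ⟨ha1, ha2⟩ | ⟨ha1, ha2⟩
      · obtain ⟨j, hj, hj'⟩ : ∃ j : Fin 3, ¬ lbad B k (chi b (2, j)) ∧ ¬ lbad B k (chi b' (0, j)) := by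
          by_cases q1 : lbad B k (chi b (2, 0))
          · by_cases q2 : lbad B k (chi b' (0, 1))
            · exact ⟨2, pe2_one hb (by decide) q1, pe2_one hb' (by decide) q2⟩
            · exact ⟨1, pe2_one hb (by decide) q1, q2⟩
          · by_cases q2 : lbad B k (chi b' (0, 0))
            · by_cases q3 : lbad B k (chi b (2, 1))
              · exact ⟨2, pe2_one hb (by decide) q3, pe2_one hb' (by decide) q2⟩
              · exact ⟨1, q3, pe2_one hb' (by decide) q2⟩
            · exact ⟨0, q1, q2⟩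
        rw [← key b h1 h2 hb _ hj, ← key b' h1' h2' hb' _ hj']
        have r1 := hrange b (2, j) h1 h2
        have r2 := hrange b' (0, j) h1' h2'
        refine ih2 _ _ r1.1 r1.2 r2.1 r2.2 (Or.inl ⟨?_, ?_⟩) hj hj'
        · change 3 * b.1 + 2 + 1 = 3 * b'.1 + 0
          omega
        · change 3 * b.2 + j.val = 3 * b'.2 + j.val
          omega
      · obtain ⟨j, hj, hj'⟩ : ∃ j : Fin 3, ¬ lbad B k (chi b (j, 2)) ∧ ¬ lbad B k (chi b' (j, 0)) := by
          by_cases q1 : lbad B k (chi b (0, 2))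
          · by_cases q2 : lbad B k (chi b' (1, 0))
            · exact ⟨2, pe2_one hb (by decide) q1, pe2_one hb' (by decide) q2⟩
            · exact ⟨1, pe2_one hb (by decide) q1, q2⟩
          · by_cases q2 : lbad B k (chi b' (0, 0))
            · by_cases q3 : lbad B k (chi b (1, 2))
              · exact ⟨2, pe2_one hb (by decide) q3, pe2_one hb' (by decide) q2⟩
              · exact ⟨1, q3, pe2_one hb' (by decide) q2⟩
            · exact ⟨0, q1, q2⟩
        rw [← key b h1 h2 hb _ hj, ← key b' h1' h2' hb' _ hj']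
        have r1 := hrange b (j, 2) h1 h2
        have r2 := hrange b' (j, 0) h1' h2'
        refine ih2 _ _ r1.1 r1.2 r2.1 r2.2 (Or.inr ⟨?_, ?_⟩) hj hj'
        · change 3 * b.1 + j.val = 3 * b'.1 + j.val
          omega
        · change 3 * b.2 + 2 + 1 = 3 * b'.2 + 0
          omega

theorem pe2 (n : ℕ) (B s : ℕ × ℕ → Prop)
    (hs : ∀ c c' : ℕ × ℕ, c.1 < 3 ^ n → c.2 < 3 ^ n → c'.1 < 3 ^ n → c'.2 < 3 ^ n →
      ((c.1 + 1 = c'.1 ∧ c.2 = c'.2) ∨ (c.1 = c'.1 ∧ c.2 + 1 = c'.2)) →
      ¬ B c → ¬ B c' → (s c ↔ s c'))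
    (c₁ c₂ : ℕ × ℕ) (h₁ : c₁.1 < 3 ^ n ∧ c₁.2 < 3 ^ n) (h₂ : c₂.1 < 3 ^ n ∧ c₂.2 < 3 ^ n)
    (g₁ : ∀ k ≤ n, ¬ lbad B k (c₁.1 / 3 ^ k, c₁.2 / 3 ^ k))
    (g₂ : ∀ k ≤ n, ¬ lbad B k (c₂.1 / 3 ^ k, c₂.2 / 3 ^ k)) :
    s c₁ ↔ s c₂ := by
  obtain ⟨h, _⟩ := pe2_main n B s hs n le_rfl
  have e1 : pe2_blk n c₁ = (0, 0) := by
    rw [pe2_blk, Nat.div_eq_of_lt h₁.1, Nat.div_eq_of_lt h₁.2]
  have e2 : pe2_blk n c₂ = (0, 0) := by
    rw [pe2_blk, Nat.div_eq_of_lt h₂.1, Nat.div_eq_of_lt h₂.2]
  have hb : ¬ lbad B n (0, 0) := by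
    rw [← e1]; exact g₁ n le_rfl
  rw [Nat.sub_self, pow_zero] at h
  rw [h (0, 0) (by norm_num) (by norm_num) hb c₁ e1 g₁,
    h (0, 0) (by norm_num) (by norm_num) hb c₂ e2 g₂]

end XYB
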