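import Pool.Agent.H98.Preko

/-!
# PLN: the Prékopa–Leindler inequality in `ℝ^ι` at `λ = 1/2` (bounded, compactly supported functions)

Proof.  By a measurable equivalence (permutation of coordinates, volume preserving:
`volume_measurePreserving_piCongrLeft`) we may take `ι = Fin n` and argue by induction on `n`.
* `n = 0`: the space is a point; the claim is the hypothesis at that point.
* `n = 1` / the inductive step uses the one-dimensional inequality
  `Pool.Agent.H98.Gauss.pl` with `a = b = 1/2`: for `f, g, h : ℝ → ℝ` measurable, `≥ 0`, integrable,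
  `f, g` bounded and `f(x)^(1/2) g(y)^(1/2) ≤ h(x/2+y/2)`: `(∫f)^(1/2) (∫g)^(1/2) ≤ ∫ h`.
* step: for fixed last coordinates `s, t` the functions `f(·,s)`, `g(·,t)`, `h(·,(s+t)/2)` of the
  first `n` coordinates satisfy the hypothesis, hence the marginals `F(s) = ∫ f(x,s) dx`, `G`, `H`
  (measurable, nonnegative, bounded by `M (2A)^n`, supported in `[-A,A]`) satisfy
  `F(s) G(t) ≤ H((s+t)/2)^2`; apply the one-dimensional case to the marginals and Fubini
  (`MeasurableEquiv.piFinSuccAbove`, `volume_preserving_piFinSuccAbove`).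
-/

open MeasureTheory Set

noncomputable section

namespace XYB

private def PLN_c {n : ℕ} (s : ℝ) (x : Fin n → ℝ) : Fin (n + 1) → ℝ := Fin.cons s x

private theorem PLN_c_meas {n : ℕ} :
    Measurable (fun z : ℝ × (Fin n → ℝ) => PLN_c z.1 z.2) := by
  rw [measurable_pi_iff]
  intro i
  refine Fin.cases ?_ (fun j => ?_) i
  · exact measurable_fst
  · exact (measurable_pi_apply j).comp measurable_snd

private theorem PLN_symm {n : ℕ} (z : ℝ × (Fin n → ℝ)) :
    (MeasurableEquiv.piFinSuccAbove (fun _ : Fin (n + 1) => ℝ) 0).symm z = PLN_c z.1 z.2 := by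
  rw [MeasurableEquiv.piFinSuccAbove_symm_apply]
  simp [Fin.insertNthEquiv, PLN_c]

private theorem PLN_int {n : ℕ} (f : (Fin (n + 1) → ℝ) → ℝ) :
    ∫ x, f x = ∫ z : ℝ × (Fin n → ℝ), f (PLN_c z.1 z.2) := by
  have h := ((volume_preserving_piFinSuccAbove (fun _ : Fin (n + 1) => ℝ) 0).symm).integral_comp' f
  simp only [PLN_symm] at h
  exact h.symm

private theorem PLN_integrable {ι : Type} [Fintype ι] {f : (ι → ℝ) → ℝ} (hf : Measurable f)
    (hf0 : ∀ x, 0 ≤ f x) {M A : ℝ} (hfM : ∀ x, f x ≤ M)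
    (hfA : ∀ x, (∃ i, A < |x i|) → f x = 0) :
    Integrable f ∧ ∫ x, f x ≤ M * volume.real (Set.pi univ fun _ : ι => Icc (-A) A) := by
  have hM : 0 ≤ M := (hf0 0).trans (hfM 0)
  set B : Set (ι → ℝ) := Set.pi univ fun _ : ι => Icc (-A) A with hB
  have hBm : MeasurableSet B := MeasurableSet.univ_pi fun _ => measurableSet_Icc
  have hBc : IsCompact B := isCompact_univ_pi fun _ => isCompact_Icc
  have hle : ∀ x, f x ≤ B.indicator (fun _ => M) x := by
    intro x
    by_cases hx : x ∈ B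
    · rw [indicator_of_mem hx]
      exact hfM x
    · rw [indicator_of_notMem hx]
      rw [hB, mem_univ_pi] at hx
      push Not at hx
      obtain ⟨i, hi⟩ := hx
      refine (hfA x ⟨i, ?_⟩).le
      by_contra hc
      exact hi (abs_le.1 (not_lt.1 hc))
  have hBf : volume B ≠ ⊤ := hBc.measure_lt_top.ne
  have hI : Integrable (B.indicator fun _ => M) (volume : Measure (ι → ℝ)) :=
    (integrable_indicator_iff hBm).2 (integrableOn_const hBf)
  have hfi : Integrable f := by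
    refine hI.mono' hf.aestronglyMeasurable (Filter.Eventually.of_forall fun x => ?_)
    rw [Real.norm_eq_abs, abs_of_nonneg (hf0 x)]
    exact hle x
  refine ⟨hfi, (integral_mono hfi hI hle).trans ?_⟩
  rw [integral_indicator_const _ hBm, smul_eq_mul, mul_comm]

/-- the one-dimensional inequality, squared -/
private theorem PLN_one {f g h : ℝ → ℝ}
    (hf : Measurable f) (hg : Measurable g) (hh : Measurable h)
    (hf0 : ∀ x, 0 ≤ f x) (hg0 : ∀ x, 0 ≤ g x) (hh0 : ∀ x, 0 ≤ h x)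
    (hfi : Integrable f) (hgi : Integrable g) (hhi : Integrable h)
    (hfb : BddAbove (range f)) (hgb : BddAbove (range g))
    (H : ∀ x y : ℝ, f x * g y ≤ h ((2:ℝ)⁻¹ * (x + y)) ^ 2) :
    (∫ x, f x) * (∫ x, g x) ≤ (∫ x, h x) ^ 2 := by
  have h1 := Pool.Agent.H98.Gauss.pl hf hg hh hf0 hg0 hh0 hfi hgi hhi hfb hgb
    (a := 1 / 2) (b := 1 / 2) (by norm_num) (by norm_num) (by norm_num) (by
      intro x y
      rw [← Real.mul_rpow (hf0 x) (hg0 y), ← Real.sqrt_eq_rpow]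
      refine Real.sqrt_le_iff.2 ⟨hh0 _, (H x y).trans (le_of_eq ?_)⟩
      congr 2
      ring)
  have h2 : 0 ≤ ∫ x, f x := integral_nonneg hf0
  have h3 : 0 ≤ ∫ x, g x := integral_nonneg hg0
  rw [← Real.mul_rpow h2 h3, ← Real.sqrt_eq_rpow] at h1
  exact (Real.sqrt_le_left (integral_nonneg hh0)).1 h1

private theorem PLN_fin (n : ℕ) : ∀ {f g h : (Fin n → ℝ) → ℝ}
    (_ : Measurable f) (_ : Measurable g) (_ : Measurable h)
    (_ : ∀ x, 0 ≤ f x) (_ : ∀ x, 0 ≤ g x) (_ : ∀ x, 0 ≤ h x)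
    {M A : ℝ} (_ : ∀ x, f x ≤ M) (_ : ∀ x, g x ≤ M) (_ : ∀ x, h x ≤ M)
    (_ : ∀ x, (∃ i, A < |x i|) → f x = 0) (_ : ∀ x, (∃ i, A < |x i|) → g x = 0)
    (_ : ∀ x, (∃ i, A < |x i|) → h x = 0)
    (_ : ∀ x y : Fin n → ℝ, f x * g y ≤ h ((2:ℝ)⁻¹ • (x + y)) ^ 2),
    (∫ x, f x) * (∫ x, g x) ≤ (∫ x, h x) ^ 2 := by
  induction n with
  | zero =>
    intro f g h hf hg hh hf0 hg0 hh0 M A hfM hgM hhM hfA hgA hhA H
    have h1 : ∀ f : (Fin 0 → ℝ) → ℝ, ∫ x, f x = f 0 := by
      intro f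
      rw [volume_pi, Measure.pi_of_empty _ (0 : Fin 0 → ℝ), integral_dirac]
    rw [h1, h1, h1]
    have h2 := H 0 0
    have h3 : (2:ℝ)⁻¹ • ((0 : Fin 0 → ℝ) + 0) = 0 := Subsingleton.elim _ _
    rwa [h3] at h2
  | succ n ih =>
    intro f g h hf hg hh hf0 hg0 hh0 M A hfM hgM hhM hfA hgA hhA H
    -- a generic statement on marginals
    have key : ∀ f : (Fin (n + 1) → ℝ) → ℝ, Measurable f → (∀ x, 0 ≤ f x) → (∀ x, f x ≤ M) →
        (∀ x, (∃ i, A < |x i|) → f x = 0) →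
        (∀ s, Measurable fun x => f (PLN_c s x)) ∧
        (∀ s x, (∃ i, A < |x i|) → f (PLN_c s x) = 0) ∧
        Measurable (fun s => ∫ x, f (PLN_c s x)) ∧
        Integrable (fun s => ∫ x, f (PLN_c s x)) ∧
        BddAbove (range fun s => ∫ x, f (PLN_c s x)) ∧
        ∫ x, f x = ∫ s, ∫ x, f (PLN_c s x) := by
      intro f hf hf0 hfM hfA
      have hm : Measurable fun z : ℝ × (Fin n → ℝ) => f (PLN_c z.1 z.2) := hf.comp PLN_c_meas
      have hms : ∀ s, Measurable fun x => f (PLN_c s x) := fun s =>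
        hm.comp measurable_prodMk_left
      have hsup : ∀ s x, (∃ i, A < |x i|) → f (PLN_c s x) = 0 := by
        rintro s x ⟨i, hi⟩
        exact hfA _ ⟨i.succ, by simpa [PLN_c] using hi⟩
      have hint : Integrable (fun z : ℝ × (Fin n → ℝ) => f (PLN_c z.1 z.2))
          ((volume : Measure ℝ).prod (volume : Measure (Fin n → ℝ))) := by
        have h1 := ((volume_preserving_piFinSuccAbove (fun _ : Fin (n + 1) => ℝ) 0).symm).integrable_comp_emb
          (MeasurableEquiv.measurableEmbedding _) (g := f)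
        have h2 := h1.2 (PLN_integrable hf hf0 hfM hfA).1
        have h3 : f ∘ (MeasurableEquiv.piFinSuccAbove (fun _ : Fin (n + 1) => ℝ) 0).symm =
          fun z : ℝ × (Fin n → ℝ) => f (PLN_c z.1 z.2) := by
          funext z
          rw [Function.comp_apply, PLN_symm]
        rw [h3] at h2
        exact h2
      refine ⟨hms, hsup, ?_, hint.integral_prod_left, ?_, ?_⟩
      · exact (hm.stronglyMeasurable.integral_prod_right (ν := (volume : Measure (Fin n → ℝ)))).measurable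
      · refine ⟨M * volume.real (Set.pi univ fun _ : Fin n => Icc (-A) A), ?_⟩
        rintro _ ⟨s, rfl⟩
        exact (PLN_integrable (hms s) (fun x => hf0 _) (fun x => hfM _) (hsup s)).2
      · rw [PLN_int, Measure.volume_eq_prod]
        exact integral_prod _ hint
    obtain ⟨f1, f2, f3, f4, f5, f6⟩ := key f hf hf0 hfM hfA
    obtain ⟨g1, g2, g3, g4, g5, g6⟩ := key g hg hg0 hgM hgA
    obtain ⟨h1, h2, h3, h4, h5, h6⟩ := key h hh hh0 hhM hhA
    rw [f6, g6, h6]
    refine PLN_one f3 g3 h3 (fun s => integral_nonneg fun x => hf0 _)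
      (fun s => integral_nonneg fun x => hg0 _) (fun s => integral_nonneg fun x => hh0 _)
      f4 g4 h4 f5 g5 ?_
    intro s t
    refine ih (f1 s) (g1 t) (h1 _) (fun x => hf0 _) (fun x => hg0 _) (fun x => hh0 _)
      (fun x => hfM _) (fun x => hgM _) (fun x => hhM _) (f2 s) (g2 t) (h2 _) ?_
    intro x y
    have h7 : PLN_c ((2:ℝ)⁻¹ * (s + t)) ((2:ℝ)⁻¹ • (x + y)) =
        (2:ℝ)⁻¹ • (PLN_c s x + PLN_c t y) := by
      funext i
      refine Fin.cases ?_ (fun j => ?_) i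
      · simp [PLN_c]
      · simp only [PLN_c, Fin.cons_succ, Pi.smul_apply, Pi.add_apply]
    rw [h7]
    exact H _ _

theorem pln {ι : Type} [Fintype ι] {f g h : (ι → ℝ) → ℝ}
    (hf : Measurable f) (hg : Measurable g) (hh : Measurable h)
    (hf0 : ∀ x, 0 ≤ f x) (hg0 : ∀ x, 0 ≤ g x) (hh0 : ∀ x, 0 ≤ h x)
    {M A : ℝ} (hfM : ∀ x, f x ≤ M) (hgM : ∀ x, g x ≤ M) (hhM : ∀ x, h x ≤ M)
    (hfA : ∀ x, (∃ i, A < |x i|) → f x = 0) (hgA : ∀ x, (∃ i, A < |x i|) → g x = 0)
    (hhA : ∀ x, (∃ i, A < |x i|) → h x = 0)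
    (H : ∀ x y : ι → ℝ, f x * g y ≤ h ((2:ℝ)⁻¹ • (x + y)) ^ 2) :
    (∫ x, f x) * (∫ x, g x) ≤ (∫ x, h x) ^ 2 := by
  classical
  set n := Fintype.card ι
  let e : Fin n ≃ ι := (Fintype.equivFin ι).symm
  let Φ := MeasurableEquiv.piCongrLeft (fun _ : ι => ℝ) e
  have hΦ : ∀ (x : Fin n → ℝ) (a : Fin n), Φ x (e a) = x a := by
    intro x a
    show (MeasurableEquiv.piCongrLeft (fun _ : ι => ℝ) e) x (e a) = x a
    rw [MeasurableEquiv.coe_piCongrLeft]
    exact Equiv.piCongrLeft_apply_apply (fun _ : ι => ℝ) e x a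
  have hint : ∀ f : (ι → ℝ) → ℝ, ∫ x, f x = ∫ x, f (Φ x) := fun f =>
    ((volume_measurePreserving_piCongrLeft (fun _ : ι => ℝ) e).integral_comp' f).symm
  have hsup : ∀ f : (ι → ℝ) → ℝ, (∀ x, (∃ i, A < |x i|) → f x = 0) →
      ∀ x : Fin n → ℝ, (∃ i, A < |x i|) → f (Φ x) = 0 := by
    rintro f hf x ⟨i, hi⟩
    exact hf _ ⟨e i, by rwa [hΦ]⟩
  rw [hint f, hint g, hint h]
  refine PLN_fin n (hf.comp Φ.measurable) (hg.comp Φ.measurable) (hh.comp Φ.measurable)
    (fun x => hf0 _) (fun x => hg0 _) (fun x => hh0 _) (fun x => hfM _) (fun x => hgM _)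
    (fun x => hhM _) (hsup f hfA) (hsup g hgA) (hsup h hhA) ?_
  intro x y
  have h7 : Φ ((2:ℝ)⁻¹ • (x + y)) = (2:ℝ)⁻¹ • (Φ x + Φ y) := by
    funext i
    obtain ⟨a, rfl⟩ := e.surjective i
    rw [hΦ, Pi.smul_apply, Pi.smul_apply, Pi.add_apply, Pi.add_apply, hΦ, hΦ]
  rw [h7]
  exact H _ _

end XYB
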