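import Pool.Agent.H2.XY.GC

/-!
# PRD: product bound (peeling) in a system of boxes joined by single edges

Proof.  `ν = gM (hBox β K E)`, `F = Ar ×ˢ univ` (arms with layer),
`k_f(θ) = exp(β₁ cosC (dArm f.1 f.2 θ))`, `C₁ = e^{β₁} / I0 β₁ ≥ 1`, `τ₁ = e^{s β₁}/I0 β₁`.
Let `T = {f ∈ F : f.1.1.1 ∈ A₁ or f.1.2.1 ∈ A₁}`, `|T| ≤ 8 |A₁|`, `S' = F \ A₂ \ T`.
With `W = ∑_c hBox β K E (θ c)` the numerator is
`N = ∫ 1[θ_c ∈ B ∀ c ∈ A₁] 1[cos_f < s ∀ f ∈ A₂] e^{W} ∏_{f ∈ F} k_f`
` ≤ (I0 β₁ τ₁)^{|A₂|} (I0 β₁ C₁)^{|T \ A₂|} ∫ 1[θ_c ∈ B ∀ c ∈ A₁] e^W ∏_{f ∈ S'} k_f`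
(pointwise `k_f ≤ e^{β₁}` always and `k_f ≤ e^{sβ₁}` if `cos_f < s`).
Factorisation: `haarP (C → Bool → V → Cir) = Measure.pi` (`haarP_pi`); the arms of `S'` do not touch
the cells of `A₁`, so `∏_{S'} k_f` depends only on `(θ_c)_{c ∉ A₁}`, and by Fubini
(`MeasurableEquiv.piEquivPiSubtypeProd`, `measurePreserving_piEquivPiSubtypeProd`, or
`iIndepFun_pi` for the product probability measure `Measure.pi (fun _ => ν)`)
`∫ 1[θ_c ∈ B ∀ c ∈ A₁] e^W ∏_{S'} k_f = ν(B)^{|A₁|} ∫ e^W ∏_{S'} k_f`.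
Finally `∫ e^W ∏_{F} k_f ≥ I0(β₁)^{|F \ S'|} ∫ e^W ∏_{S'} k_f` by `gks_I0` applied with
`H = W + ∑_{S'} β₁ cos_f` (in the cone: every term is a nonnegative multiple of the cosine of a
character) and the characters `dArm f.1 f.2`, `f ∈ F \ S'` (surjective since the two ends of an arm
are different sites).  Dividing, with `|F \ S'| = |A₂| + |T \ A₂|`:
`N / Z ≤ τ₁^{|A₂|} C₁^{|T \ A₂|} ν(B)^{|A₁|} ≤ τ₁^{|A₂|} C₁^{8|A₁|} ν(B)^{|A₁|}` as `C₁ ≥ 1`
(`I0 β₁ ≤ e^{β₁}`).
The homomorphisms: `θ ↦ dArm a b θ = θ a.2.1 b a.2.2 - θ a.1.1 b a.1.2` is a continuous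
homomorphism `(C → Bool → V → Cir) →+ Cir`.
-/

open MeasureTheory Set

noncomputable section

namespace XYB

section

set_option linter.unusedSectionVars false

variable {C Y : Type} [Fintype C] [DecidableEq C] [AddCommGroup Y] [TopologicalSpace Y]
  [IsTopologicalAddGroup Y] [CompactSpace Y] [MeasurableSpace Y] [BorelSpace Y]
  [SecondCountableTopology Y]

/-- replacement of one coordinate as a homomorphism -/
def PRD_upd (c : C) : (C → Y) × Y →+ (C → Y) where
  toFun z := Function.update z.1 c z.2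
  map_zero' := by
    show Function.update (0 : C → Y) c 0 = 0
    exact Function.update_eq_self c (0 : C → Y)
  map_add' z w := by
    funext d
    by_cases h : d = c
    · subst h; simp
    · simp [Function.update_of_ne h]

lemma PRD_upd_cont (c : C) : Continuous (PRD_upd (Y := Y) c) :=
  continuous_fst.update c continuous_snd

lemma PRD_upd_surj (c : C) : Function.Surjective (PRD_upd (Y := Y) c) := fun θ =>
  ⟨(θ, θ c), Function.update_eq_self c θ⟩

lemma PRD_one (c : C) {φ : Y → ℝ} (hφ : Measurable φ) {G : (C → Y) → ℝ} (hG : Measurable G)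
    (hGc : ∀ θ y, G (Function.update θ c y) = G θ) :
    ∫ θ, φ (θ c) * G θ ∂haarP (C → Y) = (∫ y, φ y ∂haarP Y) * ∫ θ, G θ ∂haarP (C → Y) := by
  have h := mp_surj (PRD_upd (Y := Y) c) (PRD_upd_cont c) (PRD_upd_surj c)
  have hm : Measurable fun θ : C → Y => φ (θ c) * G θ :=
    (hφ.comp (measurable_pi_apply c)).mul hG
  rw [← h.map_eq, integral_map h.measurable.aemeasurable hm.aestronglyMeasurable, h.map_eq,
    haarP_prod]
  have h2 : ∀ z : (C → Y) × Y, φ ((PRD_upd (Y := Y) c z) c) * G (PRD_upd (Y := Y) c z) =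
      G z.1 * φ z.2 := by
    intro z
    have e1 : PRD_upd (Y := Y) c z = Function.update z.1 c z.2 := rfl
    rw [e1, hGc, Function.update_self, mul_comm]
  simp only [h2]
  rw [integral_prod_mul, mul_comm]

lemma PRD_many (A : Finset C) {φ : Y → ℝ} (hφ : Measurable φ) {G : (C → Y) → ℝ}
    (hG : Measurable G) (hGc : ∀ c ∈ A, ∀ θ y, G (Function.update θ c y) = G θ) :
    ∫ θ, (∏ c ∈ A, φ (θ c)) * G θ ∂haarP (C → Y) =
      (∫ y, φ y ∂haarP Y) ^ A.card * ∫ θ, G θ ∂haarP (C → Y) := by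
  induction A using Finset.induction_on with
  | empty => simp
  | insert c A hc ih =>
    have h1 : ∀ θ : C → Y, (∏ d ∈ insert c A, φ (θ d)) * G θ =
        φ (θ c) * ((∏ d ∈ A, φ (θ d)) * G θ) := by
      intro θ
      rw [Finset.prod_insert hc, mul_assoc]
    simp only [h1]
    rw [PRD_one c hφ (G := fun θ => (∏ d ∈ A, φ (θ d)) * G θ) ?_ ?_, ih ?_,
      Finset.card_insert_of_notMem hc, pow_succ]
    · ring
    · exact fun d hd => hGc d (Finset.mem_insert_of_mem hd)
    · exact (Finset.measurable_prod _ fun d _ => hφ.comp (measurable_pi_apply d)).mul hG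
    · intro θ y
      rw [hGc c (Finset.mem_insert_self c A)]
      congr 1
      refine Finset.prod_congr rfl fun d hd => ?_
      rw [Function.update_of_ne]
      rintro rfl
      exact hc hd

/-- factorisation over the cells of `A` -/
lemma PRD_fac (A : Finset C) (h : Y → ℝ) (hh : Continuous h) {B : Set Y} (hB : MeasurableSet B)
    {G : (C → Y) → ℝ} (hG : Measurable G)
    (hGc : ∀ c ∈ A, ∀ θ y, G (Function.update θ c y) = G θ) :
    ∫ θ in {θ : C → Y | ∀ c ∈ A, θ c ∈ B}, (∏ c ∈ A, Real.exp (h (θ c))) * G θ ∂haarP (C → Y) =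
      ((gM h).real B) ^ A.card *
        ∫ θ, (∏ c ∈ A, Real.exp (h (θ c))) * G θ ∂haarP (C → Y) := by
  have hm : Measurable fun y => Real.exp (h y) := (Real.continuous_exp.comp hh).measurable
  have hE : MeasurableSet {θ : C → Y | ∀ c ∈ A, θ c ∈ B} := by
    have : {θ : C → Y | ∀ c ∈ A, θ c ∈ B} = ⋂ c ∈ A, (fun θ : C → Y => θ c) ⁻¹' B := by
      ext θ; simp
    rw [this]
    exact Finset.measurableSet_biInter _ fun c _ => measurable_pi_apply c hB
  rw [PRD_many A hm hG hGc, gM_real h hB, div_pow]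
  have hpos := integral_exp_pos h hh
  rw [← integral_indicator hE]
  have h1 : ∀ θ : C → Y, {θ : C → Y | ∀ c ∈ A, θ c ∈ B}.indicator
      (fun θ => (∏ c ∈ A, Real.exp (h (θ c))) * G θ) θ =
      (∏ c ∈ A, B.indicator (fun y => Real.exp (h y)) (θ c)) * G θ := by
    intro θ
    by_cases hθ : ∀ c ∈ A, θ c ∈ B
    · rw [indicator_of_mem (show θ ∈ {θ : C → Y | ∀ c ∈ A, θ c ∈ B} from hθ)]
      congr 1
      exact Finset.prod_congr rfl fun c hc => by rw [indicator_of_mem (hθ c hc)]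
    · rw [indicator_of_notMem (show θ ∉ {θ : C → Y | ∀ c ∈ A, θ c ∈ B} from hθ)]
      push Not at hθ
      obtain ⟨c, hc, hcB⟩ := hθ
      rw [Finset.prod_eq_zero hc (indicator_of_notMem hcB _), zero_mul]
  simp only [h1]
  rw [PRD_many A (hm.indicator hB) hG hGc, integral_indicator hB]
  field_simp

end

section

variable {C V : Type} [Fintype C] [DecidableEq C] [Fintype V] [DecidableEq V]

/-- the increment along an arm as a homomorphism -/
def PRD_arm (a : (C × V) × (C × V)) (b : Bool) : (C → Bool → V → Cir) →+ Cir where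
  toFun := dArm a b
  map_zero' := by simp [dArm]
  map_add' θ η := by
    simp only [dArm, Pi.add_apply]
    abel

omit [Fintype C] [DecidableEq C] [Fintype V] [DecidableEq V] in
lemma PRD_arm_cont (a : (C × V) × (C × V)) (b : Bool) : Continuous (PRD_arm a b) := by
  show Continuous fun θ : C → Bool → V → Cir => θ a.2.1 b a.2.2 - θ a.1.1 b a.1.2
  fun_prop

omit [Fintype C] [Fintype V] in
lemma PRD_arm_surj {a : (C × V) × (C × V)} (ha : a.1 ≠ a.2) (b : Bool) :
    Function.Surjective (PRD_arm a b) := by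
  intro t
  refine ⟨fun c _ v => if (c, v) = a.2 then t else 0, ?_⟩
  show (if (a.2.1, a.2.2) = a.2 then t else 0) - (if (a.1.1, a.1.2) = a.2 then t else 0) = t
  rw [if_pos rfl, if_neg (by exact ha), sub_zero]

/-- an increment inside a cell as a homomorphism -/
def PRD_in (c : C) (b : Bool) (u v : V) : (C → Bool → V → Cir) →+ Cir where
  toFun θ := θ c b u - θ c b v
  map_zero' := by simp
  map_add' θ η := by
    simp only [Pi.add_apply]
    abel

omit [Fintype C] [DecidableEq C] [Fintype V] [DecidableEq V] in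
lemma PRD_in_cont (c : C) (b : Bool) (u v : V) : Continuous (PRD_in c b u v) := by
  show Continuous fun θ : C → Bool → V → Cir => θ c b u - θ c b v
  fun_prop

/-- twice the relative angle as a homomorphism -/
def PRD_ph (c : C) (v : V) : (C → Bool → V → Cir) →+ Cir where
  toFun θ := ph (θ c) v + ph (θ c) v
  map_zero' := by simp [ph]
  map_add' θ η := by
    simp only [ph, Pi.add_apply]
    abel

omit [Fintype C] [DecidableEq C] [Fintype V] [DecidableEq V] in
lemma PRD_ph_cont (c : C) (v : V) : Continuous (PRD_ph c v) := by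
  show Continuous fun θ : C → Bool → V → Cir =>
    (θ c true v - θ c false v) + (θ c true v - θ c false v)
  fun_prop

lemma PRD_gin_box {β K : ℝ} (hβ : 0 ≤ β) (hK : 0 ≤ K) (E : Finset (V × V)) (c : C) :
    Gin (fun θ : C → Bool → V → Cir => hBox β K E (θ c)) := by
  have h1 : ∀ b : Bool, Gin (fun θ : C → Bool → V → Cir => hXY E (θ c b)) := fun b =>
    Gin.sum E fun e _ => Gin.cos (PRD_in c b e.2 e.1) (PRD_in_cont c b e.2 e.1)
  have h2 : Gin (fun θ : C → Bool → V → Cir =>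
      ∑ v, cosC (ph (θ c) v + ph (θ c) v)) :=
    Gin.sum Finset.univ fun v _ => Gin.cos (PRD_ph c v) (PRD_ph_cont c v)
  have h3 : Gin (fun θ : C → Bool → V → Cir =>
      (K / (Fintype.card V : ℝ)) * ∑ v, cosC (ph (θ c) v + ph (θ c) v)) :=
    Gin.smul (div_nonneg hK (Nat.cast_nonneg _)) h2
  have h4 := ((h1 true).add (h1 false)).smul hβ |>.add h3
  have h5 : (fun θ : C → Bool → V → Cir => hBox β K E (θ c)) = fun θ =>
      β * (hXY E (θ c true) + hXY E (θ c false)) +
        (K / (Fintype.card V : ℝ)) * ∑ v, cosC (ph (θ c) v + ph (θ c) v) := by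
    funext θ
    unfold hBox
    ring
  rw [h5]
  exact h4

omit [DecidableEq V] in
lemma PRD_box_cont (β K : ℝ) (E : Finset (V × V)) :
    Continuous (fun y : Bool → V → Cir => hBox β K E y) := by
  unfold hBox hXY ph
  have h1 := continuous_cosC
  fun_prop

lemma PRD_I0_le {b : ℝ} (hb : 0 ≤ b) : I0 b ≤ Real.exp b := by
  unfold I0
  have h1 : ∫ _t : Cir, Real.exp b ∂haarP Cir = Real.exp b := by simp
  rw [← h1]
  refine integral_mono (integrable_cont _ ?_) (integrable_const _) fun t => ?_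
  · exact Real.continuous_exp.comp (continuous_const.mul continuous_cosC)
  · refine Real.exp_le_exp.2 ?_
    nlinarith [cosC_le_one t]

end

theorem prd {C V : Type} [Fintype C] [DecidableEq C] [Fintype V] [DecidableEq V]
    (β K β₁ s : ℝ) (hβ : 0 ≤ β) (hK : 0 ≤ K) (hβ₁ : 0 ≤ β₁) (E : Finset (V × V))
    (Ar : Finset ((C × V) × (C × V))) (hAr : ∀ a ∈ Ar, a.1 ≠ a.2)
    (hdeg : ∀ c : C, (Ar.filter fun a => a.1.1 = c ∨ a.2.1 = c).card ≤ 4)
    (B : Set (Bool → V → Cir)) (hB : MeasurableSet B)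
    (A₁ : Finset C) (A₂ : Finset (((C × V) × (C × V)) × Bool)) (hA₂ : ∀ f ∈ A₂, f.1 ∈ Ar) :
    (gM (hCell β K β₁ E Ar)).real
        {θ | (∀ c ∈ A₁, θ c ∈ B) ∧ ∀ f ∈ A₂, cosC (dArm f.1 f.2 θ) < s} ≤
      ((Real.exp β₁ / I0 β₁) ^ 8 * (gM (hBox β K E)).real B) ^ A₁.card *
        (Real.exp (β₁ * s) / I0 β₁) ^ A₂.card := by
  classical
  have _ := hdeg
  -- the edges
  obtain ⟨F, hF⟩ : ∃ F, F = Ar ×ˢ (Finset.univ : Finset Bool) := ⟨_, rfl⟩
  obtain ⟨S, hS⟩ : ∃ S, S = (F.filter fun f => f ∉ A₂).filter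
    fun f => ¬(f.1.1.1 ∈ A₁ ∨ f.1.2.1 ∈ A₁) := ⟨_, rfl⟩
  obtain ⟨T, hT⟩ : ∃ T, T = (F.filter fun f => f ∉ A₂).filter
    fun f => f.1.1.1 ∈ A₁ ∨ f.1.2.1 ∈ A₁ := ⟨_, rfl⟩
  have hA₂F : A₂ ⊆ F := fun f hf => by
    rw [hF, Finset.mem_product]
    exact ⟨hA₂ f hf, Finset.mem_univ _⟩
  have hFA : (F.filter fun f => f ∈ A₂) = A₂ := by
    ext f
    rw [Finset.mem_filter]
    exact ⟨fun h => h.2, fun h => ⟨hA₂F h, h⟩⟩
  have hsum : ∀ g : (((C × V) × (C × V)) × Bool) → ℝ,
      ∑ f ∈ F, g f = ∑ f ∈ S, g f + (∑ f ∈ A₂, g f + ∑ f ∈ T, g f) := by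
    intro g
    rw [← Finset.sum_filter_add_sum_filter_not F (fun f => f ∈ A₂) g, hFA,
      ← Finset.sum_filter_add_sum_filter_not (F.filter fun f => f ∉ A₂)
        (fun f => f.1.1.1 ∈ A₁ ∨ f.1.2.1 ∈ A₁) g, hS, hT]
    ring
  have hdisj : Disjoint A₂ T := by
    rw [Finset.disjoint_left, hT]
    intro f hf hf'
    rw [Finset.mem_filter, Finset.mem_filter] at hf'
    exact hf'.1.2 hf
  have hTcard : T.card ≤ 8 * A₁.card := by
    have h1 : T ⊆ A₁.biUnion fun c =>
        (Ar.filter fun a => a.1.1 = c ∨ a.2.1 = c) ×ˢ (Finset.univ : Finset Bool) := by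
      intro f hf
      rw [hT, Finset.mem_filter, Finset.mem_filter, hF, Finset.mem_product] at hf
      rw [Finset.mem_biUnion]
      rcases hf.2 with h | h
      · exact ⟨_, h, Finset.mem_product.2 ⟨Finset.mem_filter.2 ⟨hf.1.1.1, Or.inl rfl⟩,
          Finset.mem_univ _⟩⟩
      · exact ⟨_, h, Finset.mem_product.2 ⟨Finset.mem_filter.2 ⟨hf.1.1.1, Or.inr rfl⟩,
          Finset.mem_univ _⟩⟩
    refine (Finset.card_le_card h1).trans (Finset.card_biUnion_le.trans ?_)
    have h2 : ∀ c ∈ A₁, ((Ar.filter fun a => a.1.1 = c ∨ a.2.1 = c) ×ˢ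
        (Finset.univ : Finset Bool)).card ≤ 8 := by
      intro c _
      rw [Finset.card_product, Finset.card_univ, Fintype.card_bool]
      have := hdeg c
      omega
    refine (Finset.sum_le_sum h2).trans ?_
    rw [Finset.sum_const, smul_eq_mul, mul_comm]
  -- functions
  obtain ⟨a, ha⟩ : ∃ a : (((C × V) × (C × V)) × Bool) → (C → Bool → V → Cir) → ℝ,
      a = fun f θ => β₁ * cosC (dArm f.1 f.2 θ) := ⟨_, rfl⟩
  have hac : ∀ f, Continuous (a f) := by
    intro f
    rw [ha]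
    exact continuous_const.mul (continuous_cosC.comp (PRD_arm_cont f.1 f.2))
  obtain ⟨H', hH'⟩ : ∃ H' : (C → Bool → V → Cir) → ℝ,
      H' = fun θ => (∑ c, hBox β K E (θ c)) + ∑ f ∈ S, a f θ := ⟨_, rfl⟩
  have hbc := PRD_box_cont β K E
  have hH'c : Continuous H' := by
    rw [hH']
    refine (continuous_finsetSum _ fun c _ => ?_).add (continuous_finsetSum _ fun f _ => hac f)
    exact hbc.comp (continuous_apply c)
  have hcell : ∀ θ, hCell β K β₁ E Ar θ = H' θ + (∑ f ∈ A₂, a f θ + ∑ f ∈ T, a f θ) := by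
    intro θ
    unfold hCell
    rw [← hF, hsum fun f => β₁ * cosC (dArm f.1 f.2 θ), hH', ha]
    ring
  have hcc : Continuous (hCell β K β₁ E Ar) := by
    have : hCell β K β₁ E Ar = fun θ => H' θ + (∑ f ∈ A₂, a f θ + ∑ f ∈ T, a f θ) :=
      funext hcell
    rw [this]
    exact hH'c.add ((continuous_finsetSum _ fun f _ => hac f).add
      (continuous_finsetSum _ fun f _ => hac f))
  have hiC : Integrable (fun θ => Real.exp (hCell β K β₁ E Ar θ))
      (haarP (C → Bool → V → Cir)) := integrable_cont _ (Real.continuous_exp.comp hcc)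
  have hiH : Integrable (fun θ => Real.exp (H' θ)) (haarP (C → Bool → V → Cir)) :=
    integrable_cont _ (Real.continuous_exp.comp hH'c)
  -- the denominator
  have hden : (I0 β₁) ^ (A₂.card + T.card) * ∫ θ, Real.exp (H' θ) ∂haarP (C → Bool → V → Cir) ≤
      ∫ θ, Real.exp (hCell β K β₁ E Ar θ) ∂haarP (C → Bool → V → Cir) := by
    have hdiv : ∀ x : C → Bool → V → Cir, ∃ y, y + y = x := pi_div (pi_div (pi_div cir_div))
    have hgin : Gin H' := by
      rw [hH']
      refine Gin.add (Gin.sum _ fun c _ => PRD_gin_box hβ hK E c) (Gin.sum _ fun f _ => ?_)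
      rw [ha]
      exact Gin.smul hβ₁ (Gin.cos (PRD_arm f.1 f.2) (PRD_arm_cont f.1 f.2))
    have hmemF : ∀ f ∈ A₂ ∪ T, f.1 ∈ Ar := by
      intro f hf
      have h1 : f ∈ F := by
        rcases Finset.mem_union.1 hf with h | h
        · exact hA₂F h
        · rw [hT, Finset.mem_filter, Finset.mem_filter] at h
          exact h.1.1
      rw [hF, Finset.mem_product] at h1
      exact h1.1
    have h1 := gks_I0 hdiv hgin (A₂ ∪ T) (fun f => PRD_arm f.1 f.2)
      (fun f _ => PRD_arm_cont f.1 f.2) (fun f hf => PRD_arm_surj (hAr f.1 (hmemF f hf)) f.2)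
      (b := fun _ => β₁) (fun _ _ => hβ₁)
    rw [Finset.prod_const, Finset.card_union_of_disjoint hdisj] at h1
    refine h1.trans (le_of_eq ?_)
    congr 1
    funext θ
    rw [Finset.sum_union hdisj, hcell, ha]
    rfl
  -- the numerator
  have hEm : MeasurableSet {θ : C → Bool → V → Cir | ∀ c ∈ A₁, θ c ∈ B} := by
    have : {θ : C → Bool → V → Cir | ∀ c ∈ A₁, θ c ∈ B} =
        ⋂ c ∈ A₁, (fun θ : C → Bool → V → Cir => θ c) ⁻¹' B := by
      ext θ; simp
    rw [this]
    exact Finset.measurableSet_biInter _ fun c _ => measurable_pi_apply c hB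
  have hEv : MeasurableSet {θ : C → Bool → V → Cir | (∀ c ∈ A₁, θ c ∈ B) ∧
      ∀ f ∈ A₂, cosC (dArm f.1 f.2 θ) < s} := by
    have h1 : {θ : C → Bool → V → Cir | ∀ f ∈ A₂, cosC (dArm f.1 f.2 θ) < s} =
        ⋂ f ∈ A₂, {θ | cosC (dArm f.1 f.2 θ) < s} := by
      ext θ; simp
    have h2 : MeasurableSet {θ : C → Bool → V → Cir | ∀ f ∈ A₂, cosC (dArm f.1 f.2 θ) < s} := by
      rw [h1]
      exact Finset.measurableSet_biInter _ fun f _ =>
        measurableSet_lt (continuous_cosC.comp (PRD_arm_cont f.1 f.2)).measurable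
          measurable_const
    exact hEm.inter h2
  have hnum : ∫ θ in {θ : C → Bool → V → Cir | (∀ c ∈ A₁, θ c ∈ B) ∧
      ∀ f ∈ A₂, cosC (dArm f.1 f.2 θ) < s}, Real.exp (hCell β K β₁ E Ar θ)
        ∂haarP (C → Bool → V → Cir) ≤
      Real.exp (β₁ * s) ^ A₂.card * Real.exp β₁ ^ T.card *
        ∫ θ in {θ : C → Bool → V → Cir | ∀ c ∈ A₁, θ c ∈ B}, Real.exp (H' θ)
          ∂haarP (C → Bool → V → Cir) := by
    rw [← integral_const_mul]
    refine (setIntegral_mono_on hiC.integrableOn (hiH.const_mul _).integrableOn hEv ?_).trans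
      (setIntegral_mono_set (hiH.const_mul _).integrableOn ?_ ?_)
    · intro θ hθ
      rw [hcell, ← Real.exp_nat_mul, ← Real.exp_nat_mul, ← Real.exp_add, ← Real.exp_add]
      refine Real.exp_le_exp.2 ?_
      have h1 : ∑ f ∈ A₂, a f θ ≤ A₂.card * (β₁ * s) := by
        rw [← nsmul_eq_mul]
        refine Finset.sum_le_card_nsmul _ _ _ fun f hf => ?_
        rw [ha]
        exact mul_le_mul_of_nonneg_left (hθ.2 f hf).le hβ₁
      have h2 : ∑ f ∈ T, a f θ ≤ T.card * β₁ := by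
        rw [← nsmul_eq_mul]
        refine Finset.sum_le_card_nsmul _ _ _ fun f hf => ?_
        rw [ha]
        exact mul_le_of_le_one_right hβ₁ (cosC_le_one _)
      linarith
    · exact Filter.Eventually.of_forall fun θ => by
        simp only [Pi.zero_apply]
        positivity
    · exact Filter.Eventually.of_forall fun θ hθ => hθ.1
  -- the factorisation
  have hfac : ∫ θ in {θ : C → Bool → V → Cir | ∀ c ∈ A₁, θ c ∈ B}, Real.exp (H' θ)
      ∂haarP (C → Bool → V → Cir) = ((gM (hBox β K E)).real B) ^ A₁.card *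
        ∫ θ, Real.exp (H' θ) ∂haarP (C → Bool → V → Cir) := by
    obtain ⟨G, hG⟩ : ∃ G : (C → Bool → V → Cir) → ℝ, G = fun θ =>
        Real.exp ((∑ c ∈ Finset.univ.filter (fun c => c ∉ A₁), hBox β K E (θ c)) +
          ∑ f ∈ S, a f θ) := ⟨_, rfl⟩
    have hGm : Measurable G := by
      rw [hG]
      refine (Real.continuous_exp.comp ?_).measurable
      exact (continuous_finsetSum _ fun c _ => hbc.comp (continuous_apply c)).add
        (continuous_finsetSum _ fun f _ => hac f)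
    have hGc : ∀ c ∈ A₁, ∀ θ y, G (Function.update θ c y) = G θ := by
      intro c hc θ y
      rw [hG]
      simp only
      congr 2
      · refine Finset.sum_congr rfl fun d hd => ?_
        rw [Function.update_of_ne]
        rintro rfl
        exact (Finset.mem_filter.1 hd).2 hc
      · refine Finset.sum_congr rfl fun f hf => ?_
        rw [hS, Finset.mem_filter] at hf
        have h1 := hf.2
        push Not at h1
        rw [ha]
        simp only [dArm]
        rw [Function.update_of_ne (fun h : f.1.2.1 = c => h1.2 (h ▸ hc)),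
          Function.update_of_ne (fun h : f.1.1.1 = c => h1.1 (h ▸ hc))]
    have hprod : ∀ θ, Real.exp (H' θ) = (∏ c ∈ A₁, Real.exp (hBox β K E (θ c))) * G θ := by
      intro θ
      rw [hG, ← Real.exp_sum, ← Real.exp_add, hH']
      congr 1
      simp only
      rw [← add_assoc]
      congr 1
      rw [← Finset.sum_filter_add_sum_filter_not Finset.univ (fun c => c ∈ A₁)]
      congr 1
      refine Finset.sum_congr ?_ fun _ _ => rfl
      ext c; simp
    simp only [hprod]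
    exact PRD_fac A₁ (hBox β K E) hbc hB hGm hGc
  -- conclusion
  have hI0 := I0_pos β₁
  have hν0 : 0 ≤ (gM (hBox β K E)).real B := measureReal_nonneg
  have hZ := integral_exp_pos _ hcc
  have hZ' := integral_exp_pos _ hH'c
  rw [gM_real _ hEv]
  rw [hfac] at hnum
  obtain ⟨Z', hZ'def⟩ : ∃ Z', Z' = ∫ θ, Real.exp (H' θ) ∂haarP (C → Bool → V → Cir) := ⟨_, rfl⟩
  obtain ⟨Z, hZdef⟩ : ∃ Z, Z = ∫ θ, Real.exp (hCell β K β₁ E Ar θ)
    ∂haarP (C → Bool → V → Cir) := ⟨_, rfl⟩
  rw [← hZ'def] at hnum hden hZ'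
  rw [← hZdef] at hden hZ ⊢
  obtain ⟨ν, hν⟩ : ∃ ν, ν = (gM (hBox β K E)).real B := ⟨_, rfl⟩
  rw [← hν] at hnum hν0 ⊢
  rw [div_le_iff₀ hZ]
  refine hnum.trans ?_
  have hq : 1 ≤ Real.exp β₁ / I0 β₁ := (one_le_div hI0).2 (PRD_I0_le hβ₁)
  have h1 : Real.exp (β₁ * s) ^ A₂.card * Real.exp β₁ ^ T.card * (ν ^ A₁.card * Z') =
      (Real.exp (β₁ * s) / I0 β₁) ^ A₂.card * (Real.exp β₁ / I0 β₁) ^ T.card * ν ^ A₁.card *
        ((I0 β₁) ^ (A₂.card + T.card) * Z') := by
    rw [div_pow, div_pow, pow_add]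
    field_simp
  rw [h1]
  have h2 : (Real.exp β₁ / I0 β₁) ^ T.card ≤ (Real.exp β₁ / I0 β₁) ^ (8 * A₁.card) :=
    pow_le_pow_right₀ hq hTcard
  have h3 : 0 ≤ (Real.exp (β₁ * s) / I0 β₁) ^ A₂.card := by positivity
  have h4 : 0 ≤ ν ^ A₁.card := pow_nonneg hν0 _
  calc (Real.exp (β₁ * s) / I0 β₁) ^ A₂.card * (Real.exp β₁ / I0 β₁) ^ T.card * ν ^ A₁.card *
        ((I0 β₁) ^ (A₂.card + T.card) * Z')
      ≤ (Real.exp (β₁ * s) / I0 β₁) ^ A₂.card * (Real.exp β₁ / I0 β₁) ^ (8 * A₁.card) *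
        ν ^ A₁.card * Z := by
        refine mul_le_mul ?_ hden (by positivity) (by positivity)
        exact mul_le_mul_of_nonneg_right (mul_le_mul_of_nonneg_left h2 h3) h4
    _ = _ := by
        rw [mul_pow, pow_mul]
        ring

end XYB
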