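import Mathlib

/-!
# MP_26628e_mp: the clean bilayer XY model as in the problem file (definitions)
-/

open MeasureTheory Filter

noncomputable section

namespace XYB

/-- energy of one XY layer on the torus `(ℤ/Lℤ)²` (for `L ≥ 3` every nearest neighbour pair occurs
exactly once) -/
def HXY (L : ℕ) [NeZero L] (θ : ZMod L × ZMod L → ℝ) : ℝ :=
  -∑ x : ZMod L × ZMod L,
    (Real.cos (θ (x.1 + 1, x.2) - θ x) + Real.cos (θ (x.1, x.2 + 1) - θ x))

/-- the clean bilayer Hamiltonian; `θ true`, `θ false` are the two layers -/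
def Hclean (L : ℕ) [NeZero L] (h : ℝ) (θ : Bool → ZMod L × ZMod L → ℝ) : ℝ :=
  HXY L (θ true) + HXY L (θ false) -
    1 / (2 * h) * ∑ x : ZMod L × ZMod L, Real.cos (θ true x - θ false x) ^ 2

/-- all angles in `(-π, π]` -/
def angles (L : ℕ) : Set (Bool → ZMod L × ZMod L → ℝ) :=
  {θ | ∀ b x, θ b x ∈ Set.Ioc (-Real.pi) Real.pi}

/-- Gibbs expectation `⟨F⟩_L` at temperature `T` -/
def gibbs (L : ℕ) [NeZero L] (h T : ℝ) (F : (Bool → ZMod L × ZMod L → ℝ) → ℝ) : ℝ :=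
  (∫ θ in angles L, F θ * Real.exp (-Hclean L h θ / T)) /
    ∫ θ in angles L, Real.exp (-Hclean L h θ / T)

/-- the correlation `⟨cos φ_0 cos φ_x⟩_L`, `φ = θ⁺ - θ⁻` -/
def corr (L : ℕ) [NeZero L] (h T : ℝ) (x : ℤ × ℤ) : ℝ :=
  gibbs L h T fun θ =>
    Real.cos (θ true 0 - θ false 0) *
      Real.cos (θ true ((x.1 : ZMod L), (x.2 : ZMod L)) - θ false ((x.1 : ZMod L), (x.2 : ZMod L)))

/-- long-range order of `φ`: `liminf_{|x| → ∞} liminf_{L → ∞} ⟨cos φ_0 cos φ_x⟩_L > 0` -/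
def LRO (h T : ℝ) : Prop :=
  0 < liminf (fun x : ℤ × ℤ => liminf (fun L : ℕ => corr (L + 1) h T x) atTop) cofinite

/-- the critical temperature: supremum of the temperatures at which `φ` has long-range order -/
def TcLRO (h : ℝ) : EReal := ⨆ T ∈ {T : ℝ | 0 < T ∧ LRO h T}, (T : EReal)

end XYB
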