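import Pool.Agent.H2.XY.GA

/-!
# UDef: comb tree coordinates on the box
-/

noncomputable section

namespace XYB

/-- the path of the comb tree from the corner to `v`: along row `0`, then up the column of `v` -/
def anc {R : ℕ} (v : Bx R) : Finset (Bx R) :=
  Finset.univ.filter fun w =>
    (w.2.val = 0 ∧ w.1.val ≤ v.1.val) ∨ (w.1 = v.1 ∧ 0 < w.2.val ∧ w.2.val ≤ v.2.val)

/-- path sums -/
def pth {A : Type} [AddCommMonoid A] {R : ℕ} (t : Bx R → A) (v : Bx R) : A := ∑ w ∈ anc v, t w

end XYB
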